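import Pool.Agent.P.MP_97b9bc_mp.T.IfaceA

/-! Step ABS. -/

set_option autoImplicit false

namespace Pool.Agent.P.MP_97b9bc_mp.T

open MeasureTheory Set Filter Topology
open scoped ContDiff
open MP_3d36e1_mp

lemma abs_gradL2 {η : R3 → ℝ} (h : Test η) : MemLp (gradient η) 2 := by
  have hcf : Continuous (fderiv ℝ η) := h.1.continuous_fderiv (by simp)
  have hcg : Continuous (gradient η) :=
    (InnerProductSpace.toDual ℝ R3).symm.continuous.comp hcf
  have hsg : HasCompactSupport (gradient η) :=
    (h.2.fderiv ℝ).comp_left (g := (InnerProductSpace.toDual ℝ R3).symm) (by simp)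
  exact hcg.memLp_of_hasCompactSupport hsg

lemma abs_ibp {η φ : R3 → ℝ} (h : Test η) (hφ : ContDiff ℝ ∞ φ) (hφs : HasCompactSupport φ)
    (v : R3) : ∫ x, η x * fderiv ℝ φ x v = -∫ x, inner ℝ (gradient η x) v * φ x := by
  simp only [inner_gradient_eq]
  have hφc : Continuous φ := hφ.continuous
  have hφd : Continuous (fun x => fderiv ℝ φ x v) :=
    (hφ.continuous_fderiv (by simp)).clm_apply continuous_const
  have hud : Continuous (fun x => fderiv ℝ η x v) :=
    (h.1.continuous_fderiv (by simp)).clm_apply continuous_const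
  apply integral_mul_fderiv_eq_neg_fderiv_mul_of_integrable
  · exact (hud.mul hφc).integrable_of_hasCompactSupport hφs.mul_left
  · exact (h.1.continuous.mul hφd).integrable_of_hasCompactSupport h.2.mul_right
  · exact (h.1.continuous.mul hφc).integrable_of_hasCompactSupport h.2.mul_right
  · intro x _; exact h.1.differentiable (by simp) x
  · intro x _; exact hφ.differentiable (by simp) x

theorem p_ABS :
    S_ABS := by
  intro ρ g η t h hη
  have u1 := memLp_sqrt h.nonneg h.L1
  have u2 : MemLp η 2 := test_memLp hη.1 hη.2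
  have u3 : MemLp (fun x => √(ρ x) + t * η x) 2 := u1.add (u2.const_mul t)
  have g2 := abs_gradL2 hη
  have g3 : MemLp (fun x => g x + t • gradient η x) 2 := h.grad_L2.add (g2.const_smul t)
  have hw : MP_3d36e1_mp.IsWeakGradient (fun x => √(ρ x) + t * η x)
      (fun x => g x + t • gradient η x) := by
    intro φ hφ hs v
    have d := deriv_test_memLp hφ hs v
    have f := test_memLp hφ hs
    have i1 := int_mul u1 d
    have i2 := (int_mul u2 d).const_mul t
    have i3 := int_mul (h.grad_L2.inner_const (𝕜 := ℝ) v) f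
    have i4 := (int_mul (g2.inner_const (𝕜 := ℝ) v) f).const_mul t
    simp only [inner_add_left, real_inner_smul_left, add_mul, mul_assoc]
    rw [integral_add i1 i2, integral_add i3 i4, integral_const_mul, integral_const_mul,
      h.grad φ hφ hs v, abs_ibp hη hφ hs v]
    ring
  have hL1 : Integrable (fun x => (√(ρ x) + t * η x) ^ 2) := u3.integrable_sq
  have u4 := memLp_sqrt (fun x => sq_nonneg (√(ρ x) + t * η x)) hL1
  obtain ⟨g', hg1, hg2, hg3⟩ := exists_weakGradient u4
    (C := fun i => kin (fun x => g x + t • gradient η x) i) (fun i => kin_nonneg _ i) (by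
      intro i s
      refine le_trans (integral_mono (shift_sq_integrable u4 _) (shift_sq_integrable u3 _)
        fun x => ?_) (quot_le hw u3 g3 (EuclideanSpace.single i (1 : ℝ)) s)
      simp only [Real.sqrt_sq_eq_abs]
      exact sq_le_sq.2 (abs_abs_sub_abs_le_abs_sub _ _))
  refine ⟨g', ⟨fun x => sq_nonneg _, hL1, hg1, hg2⟩, hg3.trans (le_of_eq ?_)⟩
  have e := kinetic_sum g3
  unfold kin
  rw [← e]
  have i1 : Integrable (fun x => ‖g x‖ ^ 2) := h.grad_L2.norm.integrable_sq
  have i2 : Integrable (fun x => t ^ 2 * ‖gradient η x‖ ^ 2) := g2.norm.integrable_sq.const_mul _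
  have i3 : Integrable (fun x => 2 * t * inner ℝ (g x) (gradient η x)) := by
    refine Integrable.const_mul ?_ _
    refine (int_mul h.grad_L2.norm g2.norm).mono' (h.grad_L2.1.inner g2.1) ?_
    exact Eventually.of_forall fun x => norm_inner_le_norm _ _
  have i4 : Integrable (fun x => ‖g x‖ ^ 2 + 2 * t * inner ℝ (g x) (gradient η x)) := i1.add i3
  rw [← integral_const_mul, ← integral_const_mul, ← integral_add i1 i3, ← integral_add i4 i2]
  congr 1
  funext x
  rw [norm_add_sq_real, real_inner_smul_right, norm_smul, mul_pow, Real.norm_eq_abs, sq_abs]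
  ring

end Pool.Agent.P.MP_97b9bc_mp.T
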