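import Pool.Agent.P.MP_97b9bc_mp.T.IfaceA

/-! Step BIL. -/

set_option autoImplicit false

namespace Pool.Agent.P.MP_97b9bc_mp.T

open MeasureTheory Set Filter Topology
open scoped ContDiff

lemma bil_symm (f g : R3 → ℝ) : ∫ q : R3 × R3, f q.1 * g q.2 / ‖q.1 - q.2‖ =
    ∫ q : R3 × R3, g q.1 * f q.2 / ‖q.1 - q.2‖ := by
  rw [Measure.volume_eq_prod, ← integral_prod_swap]
  simp only [Prod.fst_swap, Prod.snd_swap, norm_sub_rev, mul_comm]

theorem p_BIL (hCOU : S_COU) :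
    S_BIL := by
  intro ρ σ τ a1 a2 b1 b2 c1 c2
  have ha := (hCOU ρ a1 a2).2.2.2
  have hb := (hCOU σ b1 b2).2.2.2
  have hc := (hCOU τ c1 c2).2.2.2
  let F : (R3 → ℝ) → (R3 → ℝ) → R3 × R3 → ℝ := fun f g q => f q.1 * g q.2 / ‖q.1 - q.2‖
  refine ⟨(∫ q, F σ σ q) + (∫ q, F ρ τ q) + ∫ q, F τ ρ q, (∫ q, F σ τ q) + ∫ q, F τ σ q,
    ∫ q, F τ τ q, fun t => ?_⟩
  have key : ∀ g : R3 → ℝ, (∀ f : R3 → ℝ, Integrable f → Integrable (F f g)) →
      Integrable (F (fun x => ρ x + t * σ x + t ^ 2 * τ x) g) ∧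
      ∫ q, F (fun x => ρ x + t * σ x + t ^ 2 * τ x) g q =
        (∫ q, F ρ g q) + t * (∫ q, F σ g q) + t ^ 2 * ∫ q, F τ g q := by
    intro g hg
    refine ⟨hg _ ((a1.add (b1.const_mul t)).add (c1.const_mul _)), ?_⟩
    have e := integral_add ((hg ρ a1).add ((hg σ b1).const_mul t)) ((hg τ c1).const_mul (t ^ 2))
    simp only [Pi.add_apply] at e
    rw [integral_add (hg ρ a1) ((hg σ b1).const_mul t), integral_const_mul,
      integral_const_mul] at e
    refine (integral_congr_ae (ae_of_all _ fun q => ?_)).trans e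
    simp only [F]
    ring
  obtain ⟨i1, e1⟩ := key ρ fun f hf => (ha f hf).1
  obtain ⟨i2, e2⟩ := key σ fun f hf => (hb f hf).1
  obtain ⟨i3, e3⟩ := key τ fun f hf => (hc f hf).1
  have e4 : ∫ q, F ρ σ q = ∫ x, σ x * pot ρ x := (bil_symm ρ σ).trans (ha σ b1).2
  have e5 : ∫ q, F σ ρ q = ∫ x, σ x * pot ρ x := (ha σ b1).2
  have e6 := integral_add (i1.add (i2.const_mul t)) (i3.const_mul (t ^ 2))
  simp only [Pi.add_apply] at e6
  rw [integral_add i1 (i2.const_mul t), integral_const_mul, integral_const_mul, e1, e2, e3, e4,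
    e5] at e6
  refine (integral_congr_ae (ae_of_all _ fun q => ?_)).trans (e6.trans ?_)
  · simp only [F]
    ring
  · simp only [F]
    ring

end Pool.Agent.P.MP_97b9bc_mp.T
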