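import Pool.Agent.P.MP_97b9bc_mp.T.IfaceA

/-! Step EL. -/

set_option autoImplicit false

namespace Pool.Agent.P.MP_97b9bc_mp.T

open MeasureTheory Set Filter Topology
open scoped ContDiff

lemma el_test {η ξ : R3 → ℝ} (hη : Test η) (hξ : Test ξ) (a c : ℝ) :
    Test fun x => a * η x + c * ξ x :=
  ⟨(contDiff_const.mul hη.1).add (contDiff_const.mul hξ.1),
    HasCompactSupport.add (f := fun x => a * η x) (f' := fun x => c * ξ x)
      hη.2.mul_left hξ.2.mul_left⟩

lemma el_grad {η ξ : R3 → ℝ} (hη : Test η) (hξ : Test ξ) (a c : ℝ) (x : R3) :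
    gradient (fun x => a * η x + c * ξ x) x = a • gradient η x + c • gradient ξ x := by
  have h1 : DifferentiableAt ℝ η x := (hη.1.differentiable (by simp)) x
  have h2 : DifferentiableAt ℝ ξ x := (hξ.1.differentiable (by simp)) x
  have h := ((h1.hasFDerivAt.const_mul a).add (h2.hasFDerivAt.const_mul c)).fderiv
  unfold gradient
  rw [show (fun x => a * η x + c * ξ x) = (fun y => a * η y) + fun y => c * ξ y from rfl, h]
  simp

lemma el_J (hINT : S_INT) {lam : ℝ} {ρ : R3 → ℝ} {g : R3 → R3} (h : Adm lam ρ g)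
    {η ξ : R3 → ℝ} (hη : Test η) (hξ : Test ξ) (a c : ℝ) :
    ∫ x, √(ρ x) * (a * η x + c * ξ x) =
      a * (∫ x, √(ρ x) * η x) + c * ∫ x, √(ρ x) * ξ x := by
  rw [← integral_const_mul, ← integral_const_mul, ← integral_add
    ((hINT lam ρ g η h hη).2.1.const_mul a) ((hINT lam ρ g ξ h hξ).2.1.const_mul c)]
  exact integral_congr_ae (Eventually.of_forall fun x => by ring)

lemma el_V (hINT : S_INT) {lam : ℝ} {ρ : R3 → ℝ} {g : R3 → R3} (h : Adm lam ρ g) (γ z : ℝ)
    {η : R3 → ℝ} (hη : Test η) :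
    Integrable fun x => (γ * ρ x ^ (2 / 3 : ℝ) - z / ‖x‖ + pot ρ x) * (√(ρ x) * η x) := by
  obtain ⟨-, -, -, h1, h2, h3, -⟩ := hINT lam ρ g η h hη
  refine (((h1.const_mul γ).sub (h2.const_mul z)).add h3).congr
    (Eventually.of_forall fun x => ?_)
  simp only [Pi.add_apply, Pi.sub_apply]
  ring

lemma el_Lam (hINT : S_INT) {lam : ℝ} {ρ : R3 → ℝ} {g : R3 → R3} (h : Adm lam ρ g) (A γ z : ℝ)
    {η ξ : R3 → ℝ} (hη : Test η) (hξ : Test ξ) (a c : ℝ) :
    Lam A γ z ρ g (fun x => a * η x + c * ξ x) =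
      a * Lam A γ z ρ g η + c * Lam A γ z ρ g ξ := by
  have e1 : ∫ x, inner ℝ (g x) (gradient (fun x => a * η x + c * ξ x) x) =
      a * (∫ x, inner ℝ (g x) (gradient η x)) + c * ∫ x, inner ℝ (g x) (gradient ξ x) := by
    rw [← integral_const_mul, ← integral_const_mul, ← integral_add
      ((hINT lam ρ g η h hη).1.const_mul a) ((hINT lam ρ g ξ h hξ).1.const_mul c)]
    refine integral_congr_ae (Eventually.of_forall fun x => ?_)
    simp only [el_grad hη hξ, inner_add_right, inner_smul_right]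
  have e2 : ∫ x, (γ * ρ x ^ (2 / 3 : ℝ) - z / ‖x‖ + pot ρ x) * (√(ρ x) * (a * η x + c * ξ x)) =
      a * (∫ x, (γ * ρ x ^ (2 / 3 : ℝ) - z / ‖x‖ + pot ρ x) * (√(ρ x) * η x)) +
        c * ∫ x, (γ * ρ x ^ (2 / 3 : ℝ) - z / ‖x‖ + pot ρ x) * (√(ρ x) * ξ x) := by
    rw [← integral_const_mul, ← integral_const_mul, ← integral_add
      ((el_V hINT h γ z hη).const_mul a) ((el_V hINT h γ z hξ).const_mul c)]
    exact integral_congr_ae (Eventually.of_forall fun x => by ring)
  unfold Lam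
  rw [e1, e2]
  ring

lemma el_mass (hINT : S_INT) {lam : ℝ} {ρ : R3 → ℝ} {g : R3 → R3} (h : Adm lam ρ g)
    {η : R3 → ℝ} (hη : Test η) (t : ℝ) :
    ∫ x, (√(ρ x) + t * η x) ^ 2 =
      (∫ x, ρ x) + t * (2 * (∫ x, √(ρ x) * η x) + t * ∫ x, η x ^ 2) := by
  have h2 : Integrable fun x => η x ^ 2 :=
    (hη.1.continuous.pow 2).integrable_of_hasCompactSupport
      (by simpa only [sq] using hη.2.mul_left (f := η))
  have h1 := (hINT lam ρ g η h hη).2.1
  have e : ∫ x, (√(ρ x) + t * η x) ^ 2 =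
      ∫ x, (ρ x + ((2 * t) * (√(ρ x) * η x) + t ^ 2 * η x ^ 2)) :=
    integral_congr_ae (Eventually.of_forall fun x => by
      have := Real.sq_sqrt (h.nonneg x)
      simp only
      linear_combination this)
  have h3 : Integrable fun x => (2 * t) * (√(ρ x) * η x) + t ^ 2 * η x ^ 2 :=
    (h1.const_mul _).add (h2.const_mul _)
  rw [e, integral_add h.L1 h3,
    integral_add (h1.const_mul _) (h2.const_mul _), integral_const_mul, integral_const_mul]
  ring

theorem p_EL (hVAR : S_VAR) (hINT : S_INT) :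
    S_EL := by
  intro A γ z lam ρ g hA hγ hz hlam hm
  have h := hm.1
  have hneg : ∀ η : R3 → ℝ, Test η →
      Lam A γ z ρ g (fun x => -1 * η x + 0 * η x) = -Lam A γ z ρ g η := fun η hη => by
    rw [el_Lam hINT h A γ z hη hη]
    ring
  rcases h.mass.lt_or_eq with hlt | heq
  · have key : ∀ η : R3 → ℝ, Test η → 0 ≤ Lam A γ z ρ g η := fun η hη => by
      refine hVAR A γ z lam ρ g η hA hγ hz hm hη ?_
      simp only [el_mass hINT h hη]
      have hc : ContinuousAt (fun t : ℝ => (∫ x, ρ x) +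
          t * (2 * (∫ x, √(ρ x) * η x) + t * ∫ x, η x ^ 2)) 0 := by fun_prop
      exact ((hc.eventually (gt_mem_nhds (by simpa using hlt))).mono
        fun t ht => ht.le).filter_mono nhdsWithin_le_nhds
    refine ⟨0, le_rfl, fun _ => rfl, fun η hη => ?_⟩
    have h1 := key η hη
    have h2 := key _ (el_test hη hη (-1) 0)
    rw [hneg η hη] at h2
    linarith
  · have key : ∀ η : R3 → ℝ, Test η → ∫ x, √(ρ x) * η x < 0 → 0 ≤ Lam A γ z ρ g η :=
      fun η hη hJ => by
        refine hVAR A γ z lam ρ g η hA hγ hz hm hη ?_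
        simp only [el_mass hINT h hη]
        have hc : ContinuousAt (fun t : ℝ =>
            2 * (∫ x, √(ρ x) * η x) + t * ∫ x, η x ^ 2) 0 := by fun_prop
        have h1 : ∀ᶠ t in 𝓝[>] (0 : ℝ), 2 * (∫ x, √(ρ x) * η x) + t * ∫ x, η x ^ 2 < 0 :=
          (hc.eventually (gt_mem_nhds (by simp only [zero_mul, add_zero]; linarith))).filter_mono nhdsWithin_le_nhds
        filter_upwards [h1, self_mem_nhdsWithin] with t ht ht0
        have := mul_nonpos_of_nonneg_of_nonpos (le_of_lt ht0) ht.le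
        linarith
    obtain ⟨η0, h0, hJ0⟩ : ∃ η0 : R3 → ℝ, Test η0 ∧ ∫ x, √(ρ x) * η0 x = -1 := by
      by_contra hn
      have hz' : ∀ φ : R3 → ℝ, Test φ → ∫ x, √(ρ x) * φ x = 0 := fun φ hφ => by
        by_contra hne
        refine hn ⟨_, el_test hφ hφ (-(∫ x, √(ρ x) * φ x)⁻¹) 0, ?_⟩
        rw [el_J hINT h hφ hφ]
        field_simp
        ring
      have hL2 : MemLp (fun x => √(ρ x)) 2 := by
        rw [memLp_two_iff_integrable_sq
          (Real.continuous_sqrt.comp_aestronglyMeasurable h.L1.aestronglyMeasurable)]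
        simpa only [Real.sq_sqrt (h.nonneg _)] using h.L1
      have := MP_3d36e1_mp.L2_bound_of_test hL2 le_rfl fun φ h1 h2 => by
        rw [hz' φ ⟨h1, h2⟩]
        simp
      simp only [Real.sq_sqrt (h.nonneg _)] at this
      linarith
    have hμ := key η0 h0 (by rw [hJ0]; norm_num)
    have key0 : ∀ η : R3 → ℝ, Test η → ∫ x, √(ρ x) * η x = 0 → 0 ≤ Lam A γ z ρ g η :=
      fun η hη hJ => by
        have hc : ContinuousAt (fun ε : ℝ => 1 * Lam A γ z ρ g η + ε * Lam A γ z ρ g η0) 0 := by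
          fun_prop
        have h1 := hc.tendsto.mono_left (nhdsWithin_le_nhds (s := Ioi (0 : ℝ)))
        have h2 : 0 ≤ 1 * Lam A γ z ρ g η + 0 * Lam A γ z ρ g η0 := by
          refine ge_of_tendsto h1 ?_
          filter_upwards [self_mem_nhdsWithin] with ε hε
          rw [← el_Lam hINT h A γ z hη h0]
          refine key _ (el_test hη h0 1 ε) ?_
          rw [el_J hINT h hη h0, hJ, hJ0]
          have : 0 < ε := hε
          linarith
        linarith
    refine ⟨Lam A γ z ρ g η0, hμ, fun hl => absurd heq hl.ne, fun η hη => ?_⟩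
    have a1 := key0 _ (el_test hη h0 1 (∫ x, √(ρ x) * η x)) (by
      rw [el_J hINT h hη h0, hJ0]
      ring)
    have a2 := key0 _ (el_test hη h0 (-1) (-∫ x, √(ρ x) * η x)) (by
      rw [el_J hINT h hη h0, hJ0]
      ring)
    rw [el_Lam hINT h A γ z hη h0] at a1 a2
    linarith

end Pool.Agent.P.MP_97b9bc_mp.T
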