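import Pool.Agent.P.MP_97b9bc_mp.T.IfaceA
import Pool.Agent.P.MP_3d36e1_mp.Main

/-! Step INT. -/

set_option autoImplicit false

namespace Pool.Agent.P.MP_97b9bc_mp.T

open MeasureTheory Set Filter Topology
open scoped ContDiff

lemma int_between {a p q r : ℝ} (ha : 0 ≤ a) (hp : 0 < p) (hpq : p ≤ q) (hqr : q ≤ r) :
    a ^ q ≤ a ^ p + a ^ r := by
  rcases le_total a 1 with h | h
  · have h1 : a ^ q ≤ a ^ p := Real.rpow_le_rpow_of_exponent_ge' ha h hp.le hpq
    have h2 : 0 ≤ a ^ r := Real.rpow_nonneg ha r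
    linarith
  · have h1 : a ^ q ≤ a ^ r := Real.rpow_le_rpow_of_exponent_le h hqr
    have h2 : 0 ≤ a ^ p := Real.rpow_nonneg ha p
    linarith

lemma int_five {a : ℝ} (ha : 0 ≤ a) : a ^ (5 / 3 : ℝ) ≤ a + a ^ 2 := by
  have h := int_between (p := 1) (q := 5 / 3) (r := 2) ha one_pos (by norm_num) (by norm_num)
  rwa [Real.rpow_one, Real.rpow_two] at h

lemma int_seven {a : ℝ} (ha : 0 ≤ a) : a ^ (2 / 3 : ℝ) * √a ≤ a + a ^ (5 / 3 : ℝ) := by
  have h := int_between (p := 1) (q := 2 / 3 + 1 / 2) (r := 5 / 3) ha one_pos (by norm_num)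
    (by norm_num)
  rwa [Real.rpow_one, Real.rpow_add' ha (by norm_num), ← Real.sqrt_eq_rpow] at h

lemma int_grad {η : R3 → ℝ} (h : Test η) : MemLp (gradient η) 2 := by
  have hc : Continuous (gradient η) :=
    (InnerProductSpace.toDual ℝ R3).symm.continuous.comp (h.1.continuous_fderiv (by simp))
  have hs : HasCompactSupport (gradient η) :=
    (h.2.fderiv (𝕜 := ℝ)).comp_left (g := (InnerProductSpace.toDual ℝ R3).symm) (map_zero _)
  exact hc.memLp_of_hasCompactSupport hs

lemma int_sq {η : R3 → ℝ} (h : Test η) : Integrable (fun x => 1 / ‖x‖ * η x ^ 2) := by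
  have hc : Continuous η := h.1.continuous
  refine MP_3d36e1_mp.integrable_V (p := 5 / 3) (z := 1) (ρ := fun x => η x ^ 2) (by norm_num)
    one_pos (fun x => sq_nonneg _) ?_ ?_
  · have h2 : Continuous (fun x => η x ^ 2) := hc.pow 2
    exact h2.integrable_of_hasCompactSupport
      (h.2.comp_left (g := fun t : ℝ => t ^ 2) (by simp))
  · refine Continuous.integrable_of_hasCompactSupport
      ((hc.pow 2).rpow_const fun x => Or.inr (by norm_num))
      (h.2.comp_left (g := fun t : ℝ => (t ^ 2) ^ (5 / 3 : ℝ)) (by simp))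

theorem p_INT (hCOU : S_COU) :
    S_INT := by
  intro lam ρ g η hA hη
  have hc : Continuous η := hη.1.continuous
  obtain ⟨M, hM⟩ := hc.bounded_above_of_compact_support hη.2
  have hM0 : 0 ≤ M := (norm_nonneg _).trans (hM 0)
  have h0 := hA.nonneg
  have hρ := hA.L1
  have hρp : Integrable (fun x => ρ x ^ (5 / 3 : ℝ)) := hA.integrable_rpow (by norm_num)
  have hs2 : MemLp (fun x => √(ρ x)) 2 := MP_3d36e1_mp.memLp_sqrt h0 hρ
  have hη2 : MemLp η 2 := MP_3d36e1_mp.test_memLp hη.1 hη.2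
  have hσ : Integrable (fun x => √(ρ x) * η x) := hs2.integrable_mul hη2
  have hsq := int_sq hη
  have hV : Integrable (fun x => 1 / ‖x‖ * ρ x) :=
    MP_3d36e1_mp.integrable_V (p := 5 / 3) (by norm_num) one_pos h0 hρ hρp
  obtain ⟨-, ⟨C, hC⟩, hpm, -⟩ := hCOU ρ hρ hA.Lp
  refine ⟨?_, hσ, ?_, ?_, ?_, ?_, hsq⟩
  · have hg := int_grad hη
    refine (hA.grad_L2.norm.integrable_mul hg.norm).mono'
      (hA.grad_L2.aestronglyMeasurable.inner hg.aestronglyMeasurable)
      (Eventually.of_forall fun x => ?_)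
    exact norm_inner_le_norm _ _
  · rw [← integrable_norm_rpow_iff hσ.aestronglyMeasurable (by simp) ENNReal.ofReal_ne_top]
    rw [ENNReal.toReal_ofReal (by norm_num)]
    refine (hσ.norm.add (hρ.const_mul (M ^ 2))).mono'
      ((hσ.aestronglyMeasurable.norm.aemeasurable.pow_const _).aestronglyMeasurable)
      (Eventually.of_forall fun x => ?_)
    rw [Real.norm_of_nonneg (Real.rpow_nonneg (norm_nonneg _) _)]
    refine (int_five (norm_nonneg _)).trans ?_
    have e : ‖√(ρ x) * η x‖ ^ 2 = ‖η x‖ ^ 2 * ρ x := by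
      rw [norm_mul, mul_pow, Real.norm_of_nonneg (Real.sqrt_nonneg _), Real.sq_sqrt (h0 x),
        mul_comm]
    have h1 : ‖η x‖ ^ 2 ≤ M ^ 2 := pow_le_pow_left₀ (norm_nonneg _) (hM x) 2
    have h2 := mul_le_mul_of_nonneg_right h1 (h0 x)
    simp only [Pi.add_apply]
    linarith
  · refine ((hρ.add hρp).const_mul M).mono'
      (((hρ.aestronglyMeasurable.aemeasurable.pow_const _).aestronglyMeasurable).mul
        hσ.aestronglyMeasurable)
      (Eventually.of_forall fun x => ?_)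
    have h1 := int_seven (h0 x)
    have h2 : 0 ≤ ρ x ^ (2 / 3 : ℝ) * √(ρ x) :=
      mul_nonneg (Real.rpow_nonneg (h0 x) _) (Real.sqrt_nonneg _)
    rw [← mul_assoc, norm_mul, Real.norm_of_nonneg h2, mul_comm]
    exact mul_le_mul (hM x) h1 h2 hM0
  · refine (hV.add hsq).mono'
      ((Measurable.aestronglyMeasurable (by fun_prop)).mul hσ.aestronglyMeasurable)
      (Eventually.of_forall fun x => ?_)
    have h1 : 0 ≤ 1 / ‖x‖ := by positivity
    have h2 : ‖√(ρ x) * η x‖ ≤ ρ x + η x ^ 2 := by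
      rw [norm_mul, Real.norm_of_nonneg (Real.sqrt_nonneg _), Real.norm_eq_abs]
      have e1 := Real.sq_sqrt (h0 x)
      have e2 := sq_abs (η x)
      nlinarith [sq_nonneg (√(ρ x) - |η x|), Real.sqrt_nonneg (ρ x), abs_nonneg (η x)]
    rw [norm_mul, Real.norm_of_nonneg h1]
    simp only [Pi.add_apply]
    rw [← mul_add]
    exact mul_le_mul_of_nonneg_left h2 h1
  · exact hσ.bdd_mul (c := C) hpm (Eventually.of_forall fun x => hC x)

end Pool.Agent.P.MP_97b9bc_mp.T
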