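import Pool.Agent.P.MP_97b9bc_mp.T.IfaceA
import Pool.Agent.P.MP_593b7e_an.Sobolev

/-! Step SOB. -/

set_option autoImplicit false

namespace Pool.Agent.P.MP_97b9bc_mp.T

open MeasureTheory Set Filter Topology
open scoped ContDiff

lemma sob_weak {f : R3 → ℝ} {g : R3 → R3} (hf : MemLp f 2 volume) (hg : MemLp g 2 volume)
    (h : IsWeakGradient f g) : MP_593b7e_an.IsWeakGrad f g := by
  intro φ h1 h2
  have a1 : Integrable (fun x => f x • gradient φ x) :=
    (hf.locallyIntegrable one_le_two).integrable_smul_right_of_hasCompactSupport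
      (MP_593b7e_an.continuous_gradient (h1.of_le (by simp)))
      (MP_593b7e_an.hasCompactSupport_gradient h2)
  have a2 : Integrable (fun x => φ x • g x) :=
    (hg.locallyIntegrable one_le_two).integrable_smul_left_of_hasCompactSupport h1.continuous h2
  refine ext_inner_left ℝ fun v => ?_
  rw [inner_neg_right, ← integral_inner a1, ← integral_inner a2]
  simp only [real_inner_comm _ v, real_inner_smul_left, MP_593b7e_an.inner_gradient]
  rw [h φ h1 h2 v]
  simp only [mul_comm]

lemma sob_pow {a : ℝ} (ha : 0 ≤ a) : a ^ (5 / 3 : ℝ) ≤ a + a ^ 3 := by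
  rcases le_total a 1 with h | h
  · have := Real.rpow_le_self_of_le_one ha h (y := 5 / 3) (by norm_num)
    have : 0 ≤ a ^ 3 := by positivity
    linarith
  · have := Real.rpow_le_rpow_of_exponent_le h (show (5 / 3 : ℝ) ≤ (3 : ℕ) by norm_num)
    rw [Real.rpow_natCast] at this
    linarith

theorem p_SOB (hCOU : S_COU) :
    S_SOB := by
  intro ρ g h
  have h1 := MP_3d36e1_mp.memLp_sqrt h.nonneg h.L1
  have h2 := MP_593b7e_an.sobolev_weak (E := R3) (q := 6) (by simp)
    (by rw [MP_3d36e1_mp.finrank_R3]; norm_num) h1 h.grad_L2 (sob_weak h1 h.grad_L2 h.grad)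
  have h3 : MemLp (fun x => √(ρ x)) ((6 : NNReal) : ENNReal) volume :=
    ⟨h1.1, h2.trans_lt (ENNReal.mul_lt_top ENNReal.coe_lt_top h.grad_L2.2)⟩
  have h4 : Integrable fun x => ρ x ^ 3 := by
    refine (h3.integrable_norm_rpow (by simp) (by simp)).congr (Eventually.of_forall fun x => ?_)
    have : ((6 : NNReal) : ENNReal).toReal = (6 : ℕ) := by simp
    simp only [this, Real.rpow_natCast, Real.norm_of_nonneg (Real.sqrt_nonneg _)]
    rw [show (6 : ℕ) = 2 * 3 from rfl, pow_mul, Real.sq_sqrt (h.nonneg x)]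
  have h5 : MemLp ρ (ENNReal.ofReal (5 / 3)) := by
    refine MP_3d36e1_mp.memLp_of_rpow (by norm_num) h.nonneg h.L1.1
      ((h.L1.add h4).mono' (h.L1.1.aemeasurable.pow_const _).aestronglyMeasurable
        (Eventually.of_forall fun x => ?_))
    rw [Real.norm_of_nonneg (Real.rpow_nonneg (h.nonneg x) _)]
    exact sob_pow (h.nonneg x)
  exact ⟨h.nonneg, h.grad, h.grad_L2, h.L1, h5, ((hCOU ρ h.L1 h5).2.2.2 ρ h.L1).1, le_rfl⟩

end Pool.Agent.P.MP_97b9bc_mp.T
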