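import Pool.Agent.P.MP_97b9bc_mp.T.IfaceA
import Pool.Agent.P.MP_3d36e1_mp.Main

/-! Step VAR. -/

set_option autoImplicit false

namespace Pool.Agent.P.MP_97b9bc_mp.T

open MeasureTheory Set Filter Topology
open scoped ContDiff

lemma var_int3 {f1 f2 f3 F : R3 → ℝ} (h1 : Integrable f1) (h2 : Integrable f2)
    (h3 : Integrable f3) (a b c : ℝ) (h : ∀ x, F x = a * f1 x + b * f2 x + c * f3 x) :
    Integrable F ∧ ∫ x, F x = a * (∫ x, f1 x) + b * (∫ x, f2 x) + c * ∫ x, f3 x := by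
  obtain rfl : F = fun x => a * f1 x + b * f2 x + c * f3 x := funext h
  have h12 : Integrable fun x => a * f1 x + b * f2 x := (h1.const_mul a).add (h2.const_mul b)
  refine ⟨h12.add (h3.const_mul c), ?_⟩
  rw [integral_add h12 (h3.const_mul c), integral_add (h1.const_mul a) (h2.const_mul b),
    integral_const_mul, integral_const_mul, integral_const_mul]

lemma var_lim {L a0 a1 a2 : ℝ}
    (h : ∀ᶠ t in 𝓝[>] (0 : ℝ), 0 ≤ 2 * t * L + t ^ 2 * (a0 + a1 * t + a2 * t ^ 2)) : 0 ≤ L := by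
  have hc : Continuous fun t : ℝ => 2 * L + t * (a0 + a1 * t + a2 * t ^ 2) := by fun_prop
  have h1 := (hc.tendsto 0).mono_left (nhdsWithin_le_nhds (s := Ioi 0))
  have h2 : 0 ≤ 2 * L + 0 * (a0 + a1 * 0 + a2 * (0 : ℝ) ^ 2) := by
    refine ge_of_tendsto h1 ?_
    filter_upwards [h, self_mem_nhdsWithin] with t ht ht0
    have h3 : 0 < t := ht0
    refine le_of_mul_le_mul_left ?_ h3
    linarith
  linarith

theorem p_VAR (hSOB : S_SOB) (hABS : S_ABS) (hTAY : S_TAY) (hBIL : S_BIL) (hINT : S_INT) :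
    S_VAR := by
  intro A γ z lam ρ g η hA hγ hz h hη hm
  obtain ⟨-, i2, i3, i4, i5, i6, i7⟩ := hINT lam ρ g η h.1 hη
  have hc := hη.1.continuous
  obtain ⟨M, hM⟩ := hc.bounded_above_of_compact_support hη.2
  have hM0 : 0 ≤ M := (norm_nonneg _).trans (hM 0)
  have hτc : Continuous fun x => η x ^ 2 := hc.pow 2
  have hτs : HasCompactSupport fun x => η x ^ 2 := by
    have := hη.2.mul_left (f := η)
    simpa only [sq, Pi.mul_def] using this
  have t1 : Integrable fun x => η x ^ 2 := hτc.integrable_of_hasCompactSupport hτs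
  have t2 : MemLp (fun x => η x ^ 2) (ENNReal.ofReal (5 / 3)) :=
    hτc.memLp_of_hasCompactSupport hτs
  have t3 : Integrable fun x => η x ^ 2 * ρ x :=
    h.1.L1.bdd_mul (c := M ^ 2) hτc.aestronglyMeasurable (Eventually.of_forall fun x => by
      rw [norm_pow]
      exact pow_le_pow_left₀ (norm_nonneg _) (hM x) 2)
  have t4 : Integrable fun x => η x ^ 2 * (1 + ρ x) := by
    simpa only [mul_add, mul_one, Pi.add_def] using t1.add t3
  have r1 := h.1.integrable_rpow (by norm_num)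
  have r2 := MP_3d36e1_mp.integrable_V (by norm_num) hz h.1.nonneg h.1.L1 r1
  obtain ⟨c0, c1, c2, hq⟩ := hBIL ρ (fun x => 2 * (√(ρ x) * η x)) (fun x => η x ^ 2) h.1.L1 h.1.Lp
    (i2.const_mul 2) (i3.const_mul 2) t1 t2
  have eP : ∫ x, 2 * (√(ρ x) * η x) * pot ρ x = 2 * ∫ x, pot ρ x * (√(ρ x) * η x) := by
    rw [← integral_const_mul]
    exact integral_congr_ae (Eventually.of_forall fun x => by ring)
  have eL := (var_int3 (F := fun x => (γ * ρ x ^ (2 / 3 : ℝ) - z / ‖x‖ + pot ρ x) *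
    (√(ρ x) * η x)) i4 i5 i6 γ (-z) 1 fun x => by ring).2
  have hs : ∀ᶠ t in 𝓝[>] (0 : ℝ), t * M ≤ 1 := by
    have h1 : Continuous fun t : ℝ => t * M := by fun_prop
    have h2 := (h1.tendsto 0).mono_left (nhdsWithin_le_nhds (s := Ioi 0))
    rw [zero_mul] at h2
    exact h2.eventually (eventually_le_nhds one_pos)
  refine var_lim (a0 := A * (∫ x, ‖gradient η x‖ ^ 2) +
    3 / 5 * γ * (12 * ∫ x, η x ^ 2 * (1 + ρ x)) - z * (∫ x, 1 / ‖x‖ * η x ^ 2) + c0 / 2)
    (a1 := c1 / 2) (a2 := c2 / 2) ?_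
  filter_upwards [hm, hs, self_mem_nhdsWithin] with t ht htM ht0
  have ht1 : 0 < t := ht0
  obtain ⟨g', hr, hk⟩ := hABS ρ g η t (Adm.root h.1) hη
  have ha := hSOB _ g' hr
  have ha' : Adm lam (fun x => (√(ρ x) + t * η x) ^ 2) g' :=
    ⟨ha.nonneg, ha.grad, ha.grad_L2, ha.L1, ha.Lp, ha.coulomb, ht⟩
  have hmin := h.2 _ g' ha'
  have e : ∀ x, (√(ρ x) + t * η x) ^ 2 =
      ρ x + t * (2 * (√(ρ x) * η x)) + t ^ 2 * η x ^ 2 := fun x => by
    have := Real.sq_sqrt (h.1.nonneg x)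
    linear_combination this
  have eN := (var_int3 (F := fun x => z / ‖x‖ * (√(ρ x) + t * η x) ^ 2) r2 i5 i7 1 (2 * t * z)
    (t ^ 2 * z) fun x => by rw [e x]; ring).2
  have eT := var_int3 (F := fun x => ρ x ^ (5 / 3 : ℝ) +
    10 / 3 * (ρ x ^ (2 / 3 : ℝ) * (√(ρ x) * (t * η x))) + 12 * ((t * η x) ^ 2 * (1 + ρ x)))
    r1 i4 t4 1 (10 / 3 * t) (12 * t ^ 2) fun x => by ring
  have hT := (integral_mono (ha'.integrable_rpow (by norm_num)) eT.1 fun x =>
    hTAY (ρ x) (t * η x) (h.1.nonneg x) (by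
      rw [abs_mul, abs_of_pos ht1]
      exact (mul_le_mul_of_nonneg_left (hM x) ht1.le).trans htM)).trans_eq eT.2
  have eC := (integral_congr_ae (f := fun q : R3 × R3 => (√(ρ q.1) + t * η q.1) ^ 2 *
    (√(ρ q.2) + t * η q.2) ^ 2 / ‖q.1 - q.2‖) (Eventually.of_forall fun q => by
      simp only [e])).trans (hq t)
  unfold tfw at hmin
  unfold Lam
  rw [eN, eC, eP] at hmin
  rw [eL]
  have k1 := mul_le_mul_of_nonneg_left hk hA.le
  have k2 := mul_le_mul_of_nonneg_left hT (by positivity : 0 ≤ 3 / 5 * γ)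
  linarith

end Pool.Agent.P.MP_97b9bc_mp.T
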