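import Pool.Agent.P.MP_97b9bc_mp.T.IfaceA

/-! Step COU. -/

set_option autoImplicit false

namespace Pool.Agent.P.MP_97b9bc_mp.T

open MeasureTheory Set Filter Topology
open scoped ContDiff

lemma cou_bound {ρ : R3 → ℝ} (h1 : Integrable ρ) (h2 : MemLp ρ (ENNReal.ofReal (5 / 3))) :
    ∃ C, ∀ x : R3, Integrable (fun y => ρ y / ‖x - y‖) ∧ ∫ y, ‖ρ y / ‖x - y‖‖ ≤ C := by
  have hp : (1 : ℝ) < 5 / 3 := by norm_num
  have he := (MP_3d36e1_mp.integrable_estar one_pos one_pos (MP_3d36e1_mp.conj_pos hp)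
    (MP_3d36e1_mp.conj_lt_three (by norm_num))).div_const ((5 / 3 : ℝ) / (5 / 3 - 1))
  have h3 : Integrable (fun y => ‖ρ y‖ ^ (5 / 3 : ℝ)) := by
    have := h2.integrable_norm_rpow (by simp) ENNReal.ofReal_ne_top
    rwa [ENNReal.toReal_ofReal (by norm_num)] at this
  have h4 := h1.norm.add (h3.div_const (5 / 3))
  set e : R3 → ℝ := fun x => (max (1 / ‖x‖ - 1) 0) ^ ((5 / 3 : ℝ) / (5 / 3 - 1)) /
    ((5 / 3 : ℝ) / (5 / 3 - 1)) with hedef
  refine ⟨(∫ y, (‖ρ y‖ + ‖ρ y‖ ^ (5 / 3 : ℝ) / (5 / 3))) + ∫ y, e y, fun x => ?_⟩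
  have h5 : Integrable (fun y => e (x - y)) := he.comp_sub_left x
  have hb : ∀ y, ‖ρ y / ‖x - y‖‖ ≤ (‖ρ y‖ + ‖ρ y‖ ^ (5 / 3 : ℝ) / (5 / 3)) + e (x - y) := by
    intro y
    have := MP_3d36e1_mp.young hp ‖ρ y‖ (1 / ‖x - y‖ - 1) (norm_nonneg _)
    rw [norm_div, norm_norm, div_eq_mul_one_div]
    simp only [hedef]
    linarith
  have hi : Integrable (fun y => ρ y / ‖x - y‖) := by
    refine (h4.add h5).mono' ?_ (Eventually.of_forall hb)
    simp only [div_eq_mul_inv]
    refine h1.aestronglyMeasurable.mul (Measurable.aestronglyMeasurable ?_)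
    fun_prop
  refine ⟨hi, (integral_mono hi.norm (h4.add h5) hb).trans (le_of_eq ?_)⟩
  rw [← integral_sub_left_eq_self e volume x]
  exact integral_add h4 h5

theorem p_COU :
    S_COU := by
  intro ρ h1 h2
  obtain ⟨C, hC⟩ := cou_bound h1 h2
  have hk : AEStronglyMeasurable (fun q : R3 × R3 => ρ q.2 / ‖q.1 - q.2‖)
      ((volume : Measure R3).prod volume) := by
    have a2 : AEStronglyMeasurable (fun q : R3 × R3 => ρ q.2)
      ((volume : Measure R3).prod volume) := h1.aestronglyMeasurable.comp_snd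
    simp only [div_eq_mul_inv]
    refine a2.mul (Measurable.aestronglyMeasurable ?_)
    fun_prop
  refine ⟨fun x => (hC x).1, ⟨C, fun x => ?_⟩, hk.integral_prod_right', fun σ hσ => ?_⟩
  · exact (norm_integral_le_integral_norm _).trans (hC x).2
  · have hm : AEStronglyMeasurable (fun q : R3 × R3 => σ q.1 * ρ q.2 / ‖q.1 - q.2‖)
        ((volume : Measure R3).prod volume) := by
      simp only [mul_div_assoc]
      exact hσ.aestronglyMeasurable.comp_fst.mul hk
    have hi : Integrable (fun q : R3 × R3 => σ q.1 * ρ q.2 / ‖q.1 - q.2‖)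
        ((volume : Measure R3).prod volume) := by
      refine (integrable_prod_iff hm).2 ⟨Eventually.of_forall fun x => ?_, ?_⟩
      · simp only [mul_div_assoc]
        exact (hC x).1.const_mul _
      · refine (hσ.norm.mul_const C).mono' hm.norm.integral_prod_right'
          (Eventually.of_forall fun x => ?_)
        rw [Real.norm_of_nonneg (integral_nonneg fun _ => norm_nonneg _)]
        simp only [mul_div_assoc, norm_mul (σ x)]
        rw [integral_const_mul]
        exact mul_le_mul_of_nonneg_left (hC x).2 (norm_nonneg _)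
    refine ⟨hi, (integral_prod _ hi).trans ?_⟩
    simp only [mul_div_assoc, integral_const_mul, pot]

end Pool.Agent.P.MP_97b9bc_mp.T
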