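import Pool.Agent.P.MP_97b9bc_mp.T.IfaceA

/-! Step WPA. -/

set_option autoImplicit false

namespace Pool.Agent.P.MP_97b9bc_mp.T

open MeasureTheory Set Filter Topology
open scoped ContDiff

lemma wpa_nonneg {r : ℝ} (hr : 0 < r) (s : ℝ) : 0 ≤ r / max r s :=
  div_nonneg hr.le (hr.le.trans (le_max_left _ _))

lemma wpa_le_one {r : ℝ} (hr : 0 < r) (s : ℝ) : r / max r s ≤ 1 :=
  (div_le_one (hr.trans_le (le_max_left _ _))).2 (le_max_left _ _)

lemma wpa_meas {m : ℝ → ℝ} (hm : IntegrableOn m (Ioi 0)) (r : ℝ) :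
    AEStronglyMeasurable (fun s => m s * (r / max r s)) (volume.restrict (Ioi (0 : ℝ))) := by
  have h : Measurable (fun s : ℝ => r / max r s) := by fun_prop
  exact hm.aestronglyMeasurable.mul h.aestronglyMeasurable

lemma wpa_bd (m : ℝ → ℝ) {r : ℝ} (hr : 0 < r) (s : ℝ) : ‖m s * (r / max r s)‖ ≤ ‖m s‖ := by
  rw [norm_mul, Real.norm_of_nonneg (wpa_nonneg hr s)]
  exact mul_le_of_le_one_right (norm_nonneg _) (wpa_le_one hr s)

lemma wpa_lim {m g : ℝ → ℝ} (hm : IntegrableOn m (Ioi 0)) {l : Filter ℝ} [l.IsCountablyGenerated]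
    (hl : ∀ᶠ r in l, 0 < r) (hg : ∀ s, 0 < s → Tendsto (fun r => r / max r s) l (𝓝 (g s))) :
    Tendsto (fun r => ∫ s in Ioi (0 : ℝ), m s * (r / max r s)) l
      (𝓝 (∫ s in Ioi (0 : ℝ), m s * g s)) := by
  refine tendsto_integral_filter_of_dominated_convergence (fun s => ‖m s‖)
    (Eventually.of_forall fun r => wpa_meas hm r)
    (hl.mono fun r hr => Eventually.of_forall fun s => wpa_bd m hr s) hm.norm ?_
  filter_upwards [ae_restrict_mem measurableSet_Ioi] with s hs using (hg s hs).const_mul _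

lemma wpa_cont {r s : ℝ} (hs : 0 < s) : ContinuousAt (fun r : ℝ => r / max r s) r :=
  continuousAt_id.div (continuous_id.max continuous_const).continuousAt
    (hs.trans_le (le_max_right _ _)).ne'

theorem p_WPA :
    S_WPA := by
  intro z m hm h0
  refine ⟨fun r hr => ?_, ?_, ?_, fun r hr => ⟨?_, ?_⟩⟩
  · have h := wpa_lim (g := fun s => r / max r s) hm (l := 𝓝[Ioi 0] r) self_mem_nhdsWithin
      (fun s hs => (wpa_cont hs).continuousWithinAt)
    exact h.const_sub z
  · have h := wpa_lim (g := fun _ => 0) hm (l := 𝓝[>] 0) self_mem_nhdsWithin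
      (fun s hs => by
        have h1 := (wpa_cont (r := 0) hs).continuousWithinAt (s := Ioi 0)
        simpa [ContinuousWithinAt] using h1)
    have h2 := h.const_sub z
    simp only [mul_zero, integral_zero, sub_zero] at h2
    exact h2
  · have h := wpa_lim (g := fun _ => 1) hm (l := atTop) (eventually_gt_atTop 0)
      (fun s hs => tendsto_const_nhds.congr' (by
        filter_upwards [eventually_ge_atTop s] with r hr
        rw [max_eq_left hr, div_self (hs.trans_le hr).ne']))
    have h2 := h.const_sub z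
    simp only [mul_one] at h2
    exact h2
  · have h1 : ∫ s in Ioi (0 : ℝ), m s * (r / max r s) ≤ ∫ s in Ioi (0 : ℝ), m s :=
      setIntegral_mono_on
        (hm.norm.mono' (wpa_meas hm r) (Eventually.of_forall fun s => wpa_bd m hr s)) hm
        measurableSet_Ioi fun s hs => mul_le_of_le_one_right (h0 s hs) (wpa_le_one hr s)
    unfold wOf
    linarith
  · have h1 : 0 ≤ ∫ s in Ioi (0 : ℝ), m s * (r / max r s) :=
      setIntegral_nonneg measurableSet_Ioi fun s hs => mul_nonneg (h0 s hs) (wpa_nonneg hr s)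
    unfold wOf
    linarith

end Pool.Agent.P.MP_97b9bc_mp.T
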