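import Pool.Agent.P.MP_97b9bc_mp.T.IfaceA

/-! Step WPB. -/

set_option autoImplicit false

namespace Pool.Agent.P.MP_97b9bc_mp.T

open MeasureTheory Set Filter Topology
open scoped ContDiff

lemma wpb_tail {φ : ℝ → ℝ} (hI : ∀ c, 0 < c → IntegrableOn φ (Ioi c))
    (hc : ContinuousOn φ (Ioi 0)) {r : ℝ} (hr : 0 < r) :
    HasDerivAt (fun x => ∫ s in Ioi x, φ s) (-φ r) r := by
  have h1 : HasDerivAt (fun x => ∫ s in r..x, φ s) (φ r) r :=
    intervalIntegral.integral_hasDerivAt_right IntervalIntegrable.refl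
      (hc.stronglyMeasurableAtFilter isOpen_Ioi r hr) (hc.continuousAt (Ioi_mem_nhds hr))
  refine (h1.const_sub (∫ s in Ioi r, φ s)).congr_of_eventuallyEq ?_
  filter_upwards [Ioi_mem_nhds hr] with x hx
  rw [← intervalIntegral.integral_Ioi_sub_Ioi' (hI r hr) (hI x hx)]
  ring

lemma wpb_int {m : ℝ → ℝ} (hm : IntegrableOn m (Ioi 0)) (hc : ContinuousOn m (Ioi 0)) {c : ℝ}
    (h : 0 < c) : IntegrableOn (fun s => m s / s) (Ioi c) := by
  have h1 : IntegrableOn m (Ioi c) := hm.mono_set (Ioi_subset_Ioi h.le)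
  refine Integrable.mono' (h1.norm.div_const c) ?_ ?_
  · refine ContinuousOn.aestronglyMeasurable ?_ measurableSet_Ioi
    exact (hc.mono (Ioi_subset_Ioi h.le)).div continuousOn_id fun s hs => (h.trans hs).ne'
  · filter_upwards [ae_restrict_mem measurableSet_Ioi] with s hs
    have hs' : c < s := hs
    rw [norm_div, Real.norm_of_nonneg (h.trans hs').le]
    exact div_le_div_of_nonneg_left (norm_nonneg _) h hs'.le

lemma wpb_eq (z : ℝ) {m : ℝ → ℝ} (hm : IntegrableOn m (Ioi 0)) (hc : ContinuousOn m (Ioi 0))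
    {r : ℝ} (hr : 0 < r) : wOf z m r =
      z - ((∫ s in Ioi 0, m s) - ∫ s in Ioi r, m s) - r * ∫ s in Ioi r, m s / s := by
  have e1 : ∀ s ∈ Ioc 0 r, m s * (r / max r s) = m s := fun s hs => by
    rw [max_eq_left hs.2, div_self hr.ne', mul_one]
  have e2 : ∀ s ∈ Ioi r, m s * (r / max r s) = r * (m s / s) := fun s hs => by
    rw [max_eq_right (le_of_lt hs)]
    ring
  have i1 : IntegrableOn (fun s => m s * (r / max r s)) (Ioc 0 r) :=
    (hm.mono_set Ioc_subset_Ioi_self).congr_fun (fun s hs => (e1 s hs).symm) measurableSet_Ioc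
  have i2 : IntegrableOn (fun s => m s * (r / max r s)) (Ioi r) :=
    IntegrableOn.congr_fun ((wpb_int hm hc hr).const_mul r) (fun s hs => (e2 s hs).symm)
      measurableSet_Ioi
  rw [wOf, intervalIntegral.integral_Ioi_sub_Ioi hm hr.le, intervalIntegral.integral_of_le hr.le,
    ← Ioc_union_Ioi_eq_Ioi hr.le, setIntegral_union Ioc_disjoint_Ioi_same measurableSet_Ioi i1 i2,
    setIntegral_congr_fun measurableSet_Ioc e1, setIntegral_congr_fun measurableSet_Ioi e2,
    integral_const_mul]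
  ring

theorem p_WPB :
    S_WPB := by
  intro z m hm h0 hc
  have hI : ∀ c, 0 < c → IntegrableOn m (Ioi c) := fun c h => hm.mono_set (Ioi_subset_Ioi h.le)
  have hU : ∀ r, 0 < r → HasDerivAt (fun x => ∫ s in Ioi x, m s / s) (-(m r / r)) r := fun r hr =>
    wpb_tail (fun c h => wpb_int hm hc h) (hc.div continuousOn_id fun s hs => ne_of_gt hs) hr
  have hpos : ∀ r, 0 < r → 0 ≤ ∫ s in Ioi r, m s / s := fun r hr =>
    setIntegral_nonneg measurableSet_Ioi fun s hs =>
      div_nonneg (h0 s (hr.trans hs)) (hr.trans hs).le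
  refine ⟨fun r => -∫ s in Ioi r, m s / s, fun r hr => ⟨?_, ?_, neg_nonpos.2 (hpos r hr)⟩, ?_⟩
  · have h1 := (((wpb_tail hI hc hr).const_sub (∫ s in Ioi 0, m s)).const_sub z).fun_sub
      ((hasDerivAt_id' r).fun_mul (hU r hr))
    refine (h1.congr_deriv ?_).congr_of_eventuallyEq ?_
    · field_simp
      ring
    · filter_upwards [Ioi_mem_nhds hr] with x hx using wpb_eq z hm hc hx
  · simpa using (hU r hr).fun_neg
  · have h1 : Tendsto (fun r => (∫ s in (0 : ℝ)..r, m s) - ∫ s in Ioi 0, m s) atTop (𝓝 0) := by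
      have := (intervalIntegral_tendsto_integral_Ioi 0 hm tendsto_id).sub_const (∫ s in Ioi 0, m s)
      simpa using this
    refine tendsto_of_tendsto_of_tendsto_of_le_of_le' h1 tendsto_const_nhds ?_ ?_
    · filter_upwards [eventually_gt_atTop 0] with r hr
      rw [← intervalIntegral.integral_Ioi_sub_Ioi hm hr.le, mul_neg, ← integral_const_mul]
      have : ∫ s in Ioi r, r * (m s / s) ≤ ∫ s in Ioi r, m s := by
        refine setIntegral_mono_on ((wpb_int hm hc hr).const_mul r) (hI r hr) measurableSet_Ioi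
          fun s hs => ?_
        have hs' : r < s := hs
        rw [mul_div_assoc', div_le_iff₀ (hr.trans hs'), mul_comm]
        exact mul_le_mul_of_nonneg_left hs'.le (h0 s (hr.trans hs'))
      linarith
    · filter_upwards [eventually_gt_atTop 0] with r hr
      exact mul_nonpos_of_nonneg_of_nonpos hr.le (neg_nonpos.2 (hpos r hr))

end Pool.Agent.P.MP_97b9bc_mp.T
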