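import Pool.Agent.P.MP_97b9bc_mp.T.IfaceA

/-! Step BCO. -/

set_option autoImplicit false

namespace Pool.Agent.P.MP_97b9bc_mp.T

open MeasureTheory Set Filter Topology
open scoped ContDiff

lemma bco_loc {h : ℝ → ℝ} {x c : ℝ} (hx : h =ᶠ[𝓝 x] fun _ => c) :
    h x = c ∧ deriv h x = 0 ∧ deriv (deriv h) x = 0 := by
  refine ⟨hx.self_of_nhds, ?_, ?_⟩
  · rw [hx.deriv_eq]; simp
  · rw [hx.deriv.deriv_eq]; simp

lemma bco_bump : ∃ h : ℝ → ℝ, Test h ∧ (∀ x, 0 ≤ h x ∧ h x ≤ 1) ∧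
    (∀ x, 0 ≤ x → x < 1 → h x = 1 ∧ deriv h x = 0 ∧ deriv (deriv h) x = 0) ∧
    (∀ x, 2 < x → h x = 0 ∧ deriv h x = 0 ∧ deriv (deriv h) x = 0) := by
  let f : ContDiffBump (0 : ℝ) := ⟨1, 2, one_pos, one_lt_two⟩
  refine ⟨f, ⟨f.contDiff, f.hasCompactSupport⟩, fun x => ⟨f.nonneg, f.le_one⟩, ?_, ?_⟩
  · intro x h0 h1
    refine bco_loc (f.eventuallyEq_one_of_mem_ball ?_)
    rw [Metric.mem_ball, Real.dist_eq, sub_zero, abs_of_nonneg h0]
    exact h1
  · intro x hx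
    refine bco_loc ?_
    filter_upwards [lt_mem_nhds hx] with y hy
    refine f.zero_of_le_dist ?_
    rw [Real.dist_eq, sub_zero, abs_of_nonneg (by linarith)]
    exact hy.le

lemma bco_pow {t : ℝ} (ht : 0 ≤ t) : t ^ (4 / 3 : ℝ) * t ≤ 1 + t ^ (10 / 3 : ℝ) := by
  have h0 : 0 ≤ t ^ (10 / 3 : ℝ) := Real.rpow_nonneg ht _
  rcases le_total t 1 with h | h
  · have h1 : t ^ (4 / 3 : ℝ) ≤ 1 := Real.rpow_le_one ht h (by norm_num)
    have h2 : 0 ≤ t ^ (4 / 3 : ℝ) := Real.rpow_nonneg ht _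
    nlinarith
  · have h1 : t ^ (4 / 3 : ℝ) * t = t ^ (7 / 3 : ℝ) := by
      rw [show (7 / 3 : ℝ) = 4 / 3 + 1 by norm_num, Real.rpow_add (by linarith), Real.rpow_one]
    have h2 : t ^ (7 / 3 : ℝ) ≤ t ^ (10 / 3 : ℝ) :=
      Real.rpow_le_rpow_of_exponent_le h (by norm_num)
    linarith

lemma bco_bound {A γ μ u w r k W : ℝ} (hr : 0 < r) (hr2 : r ≤ 2) (hu : 0 ≤ u) (hw : |w| ≤ W)
    (hk0 : 0 ≤ k) (hk1 : k ≤ 1) :
    |(γ * (u / r) ^ (4 / 3 : ℝ) - w / r + μ) / A * u * (r * k)| ≤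
      |A|⁻¹ * (|γ| * (4 + r ^ 2 * (u / r) ^ (10 / 3 : ℝ)) + (W + 2 * |μ|) * (1 + u ^ 2)) := by
  have ht : 0 ≤ u / r := div_nonneg hu hr.le
  have e : (γ * (u / r) ^ (4 / 3 : ℝ) - w / r + μ) / A * u * (r * k) =
      A⁻¹ * ((γ * (r ^ 2 * ((u / r) ^ (4 / 3 : ℝ) * (u / r))) - w * u + μ * (r * u)) * k) := by
    have := hr.ne'
    rw [div_eq_mul_inv _ A]
    field_simp
  rw [e, abs_mul, abs_inv]
  refine mul_le_mul_of_nonneg_left ?_ (by positivity)
  have hp := bco_pow ht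
  have hp0 : 0 ≤ (u / r) ^ (4 / 3 : ℝ) * (u / r) := mul_nonneg (Real.rpow_nonneg ht _) ht
  have hq0 : 0 ≤ (u / r) ^ (10 / 3 : ℝ) := Real.rpow_nonneg ht _
  have hu2 : u ≤ 1 + u ^ 2 := by nlinarith
  have hW : 0 ≤ W := (abs_nonneg _).trans hw
  have h1 : |γ * (r ^ 2 * ((u / r) ^ (4 / 3 : ℝ) * (u / r)))| ≤
      |γ| * (4 + r ^ 2 * (u / r) ^ (10 / 3 : ℝ)) := by
    rw [abs_mul, abs_of_nonneg (mul_nonneg (sq_nonneg r) hp0)]
    refine mul_le_mul_of_nonneg_left ?_ (abs_nonneg _)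
    have h4 : r ^ 2 ≤ 4 := by nlinarith
    have := mul_le_mul_of_nonneg_left hp (sq_nonneg r)
    linarith
  have h2 : |w * u| ≤ W * (1 + u ^ 2) := by
    rw [abs_mul, abs_of_nonneg hu]
    exact mul_le_mul hw hu2 hu hW
  have h3 : |μ * (r * u)| ≤ 2 * |μ| * (1 + u ^ 2) := by
    rw [abs_mul, abs_of_nonneg (mul_nonneg hr.le hu)]
    have : r * u ≤ 2 * (1 + u ^ 2) := mul_le_mul hr2 hu2 hu (by norm_num)
    have := mul_le_mul_of_nonneg_left this (abs_nonneg μ)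
    linarith
  rw [abs_mul, abs_of_nonneg hk0]
  have h4 := abs_add_le (γ * (r ^ 2 * ((u / r) ^ (4 / 3 : ℝ) * (u / r))) - w * u) (μ * (r * u))
  have h5 := abs_sub (γ * (r ^ 2 * ((u / r) ^ (4 / 3 : ℝ) * (u / r)))) (w * u)
  have h6 := mul_le_of_le_one_right (abs_nonneg
    (γ * (r ^ 2 * ((u / r) ^ (4 / 3 : ℝ) * (u / r))) - w * u + μ * (r * u))) hk1
  linarith

theorem p_BCO (hWPA : S_WPA) :
    S_BCO := by
  intro A γ z μ U U1 hC
  obtain ⟨h, hT, hb, h1, h2⟩ := bco_bump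
  have hw := hC.weak
  obtain ⟨wc, -, -, wb⟩ := hWPA z (fun s => 4 * Real.pi * U s ^ 2) (hw.L2.const_mul _)
    (fun r _ => by positivity)
  have hd0 : Differentiable ℝ h := hT.1.differentiable (by simp)
  have hT1 : ContDiff ℝ ∞ (deriv h) := (contDiff_infty_iff_deriv.1 hT.1).2
  have hd1 : Differentiable ℝ (deriv h) := hT1.differentiable (by simp)
  have hc2 : Continuous (deriv (deriv h)) := (contDiff_infty_iff_deriv.1 hT1).2.continuous
  have hc1 : Continuous (deriv h) := hd1.continuous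
  have hc0 : Continuous h := hd0.continuous
  have cU : ContinuousOn U (Ioi 0) := fun r hr => (hC.d1 r hr).continuousAt.continuousWithinAt
  set F1 : ℝ → ℝ := fun r =>
    U r * (4 * r ^ 3 * deriv (deriv h) (r ^ 2) + 6 * r * deriv h (r ^ 2)) with hF1
  set F2 : ℝ → ℝ := fun r => coef A γ z μ U r * U r * (r * h (r ^ 2)) with hF2
  have i1 : IntegrableOn F1 (Ioi 0) := by
    have c1 : ContinuousOn F1 (Icc 1 2) :=
      (cU.mono fun r hr => lt_of_lt_of_le one_pos hr.1).mul (by fun_prop)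
    refine c1.integrableOn_Icc.of_forall_sdiff_eq_zero measurableSet_Ioi ?_
    rintro r ⟨hr0, hr⟩
    have hr0' : 0 < r := hr0
    rw [mem_Icc, not_and_or, not_le, not_le] at hr
    rcases hr with hr | hr
    · obtain ⟨-, a, b⟩ := h1 (r ^ 2) (sq_nonneg r) (by nlinarith)
      simp [hF1, a, b]
    · obtain ⟨-, a, b⟩ := h2 (r ^ 2) (by nlinarith)
      simp [hF1, a, b]
  have i2 : IntegrableOn F2 (Ioi 0) := by
    have c2 : ContinuousOn F2 (Ioi 0) := by
      refine (ContinuousOn.mul ?_ cU).mul (by fun_prop)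
      unfold coef
      refine ContinuousOn.div_const (((continuousOn_const.mul ?_).sub ?_).add continuousOn_const) _
      · exact (cU.div continuousOn_id fun r hr => ne_of_gt hr).rpow_const
          fun r _ => Or.inr (by norm_num)
      · exact wc.div continuousOn_id fun r hr => ne_of_gt hr
    have j : IntegrableOn F2 (Ioc 0 2) := by
      have k1 : IntegrableOn (fun _ : ℝ => (1 : ℝ)) (Ioc 0 2) := integrableOn_const (by simp)
      have k4 : IntegrableOn (fun _ : ℝ => (4 : ℝ)) (Ioc 0 2) := integrableOn_const (by simp)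
      have k := (((k4.add (hw.Lp.mono_set Ioc_subset_Ioi_self)).const_mul |γ|).add
        ((k1.add (hw.L2.mono_set Ioc_subset_Ioi_self)).const_mul
          (|z| + |∫ s in Ioi (0 : ℝ), 4 * Real.pi * U s ^ 2| + 2 * |μ|))).const_mul |A|⁻¹
      refine Integrable.mono' k
        ((c2.mono Ioc_subset_Ioi_self).aestronglyMeasurable measurableSet_Ioc) ?_
      refine (ae_restrict_iff' measurableSet_Ioc).2 (Eventually.of_forall fun r hr => ?_)
      obtain ⟨a, b⟩ := wb r hr.1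
      refine bco_bound hr.1 hr.2 (hw.nonneg r hr.1) (abs_le.2 ⟨?_, ?_⟩) (hb _).1 (hb _).2
      · have := neg_abs_le z
        have := le_abs_self (∫ s in Ioi (0 : ℝ), 4 * Real.pi * U s ^ 2)
        linarith
      · have := le_abs_self z
        have := abs_nonneg (∫ s in Ioi (0 : ℝ), 4 * Real.pi * U s ^ 2)
        linarith
    refine j.of_forall_sdiff_eq_zero measurableSet_Ioi ?_
    rintro r ⟨hr0, hr⟩
    have hr0' : 0 < r := hr0
    have hr2 : 2 < r := by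
      by_contra hh
      exact hr ⟨hr0', not_lt.1 hh⟩
    obtain ⟨a, -, -⟩ := h2 (r ^ 2) (by nlinarith)
    simp [hF2, a]
  have iG : IntegrableOn (fun r => F1 r - F2 r) (Ioi 0) := i1.sub i2
  have zG : ∫ r in Ioi (0 : ℝ), (F1 r - F2 r) = 0 := by
    rw [integral_sub i1 i2, sub_eq_zero]
    exact hw.eq h hT
  set W : ℝ → ℝ := fun r =>
    U r * (h (r ^ 2) + 2 * r ^ 2 * deriv h (r ^ 2)) - U1 r * (r * h (r ^ 2)) with hW
  have dW : ∀ r, 0 < r → HasDerivAt W (F1 r - F2 r) r := by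
    intro r hr
    have s2 : HasDerivAt (fun r : ℝ => r ^ 2) (2 * r) r := by
      simpa using hasDerivAt_pow 2 r
    have a0 : HasDerivAt (fun r : ℝ => h (r ^ 2)) (deriv h (r ^ 2) * (2 * r)) r :=
      (hd0 (r ^ 2)).hasDerivAt.comp r s2
    have a1 : HasDerivAt (fun r : ℝ => deriv h (r ^ 2)) (deriv (deriv h) (r ^ 2) * (2 * r)) r :=
      HasDerivAt.comp (h₂ := deriv h) (h := fun r : ℝ => r ^ 2) r (hd1 (r ^ 2)).hasDerivAt s2
    have := ((hC.d1 r hr).fun_mul (a0.fun_add ((s2.const_mul 2).fun_mul a1))).fun_sub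
      ((hC.d2 r hr).fun_mul ((hasDerivAt_id' r).fun_mul a0))
    refine HasDerivAt.congr_deriv (f := W) this ?_
    simp only [hF1, hF2]
    ring
  have W0 : Tendsto W atTop (𝓝 0) := by
    refine tendsto_const_nhds.congr' ?_
    filter_upwards [eventually_gt_atTop 2] with r hr
    obtain ⟨a, b, -⟩ := h2 (r ^ 2) (by nlinarith)
    simp [hW, a, b]
  have key : Tendsto (fun b => -∫ r in Ioi b, (F1 r - F2 r)) (𝓝[>] 0) (𝓝 0) := by
    have := (iG.continuousWithinAt_Ici_primitive_Ioi.mono_left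
      (nhdsWithin_mono 0 Ioi_subset_Ici_self)).neg
    simpa only [zG, neg_zero] using this
  refine key.congr' ?_
  filter_upwards [Ioo_mem_nhdsGT one_pos] with b hb'
  have hb0 : 0 < b := hb'.1
  have hb1 : b < 1 := hb'.2
  rw [integral_Ioi_of_hasDerivAt_of_tendsto (dW b hb0).continuousAt.continuousWithinAt
    (fun r hr => dW r (hb0.trans hr)) (iG.mono_set (Ioi_subset_Ioi hb0.le)) W0]
  obtain ⟨a, c, -⟩ := h1 (b ^ 2) (sq_nonneg b) (by nlinarith)
  simp only [hW, a, c]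
  ring

end Pool.Agent.P.MP_97b9bc_mp.T
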