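import Pool.Agent.P.MP_97b9bc_mp.T.IfaceA
import Pool.Agent.P.MP_3d36e1_mp.Main

/-! Step NZ. -/

set_option autoImplicit false

namespace Pool.Agent.P.MP_97b9bc_mp.T

open MeasureTheory Set Filter Topology
open scoped ContDiff

lemma nz_bump : ∃ u : R3 → ℝ, (∀ x, 0 ≤ u x) ∧ ContDiff ℝ 1 u ∧ HasCompactSupport u ∧
    0 < ∫ x, 1 / ‖x‖ * u x ^ 2 := by
  let b : ContDiffBump (0 : R3) := ⟨1, 2, one_pos, one_lt_two⟩
  have h0 : ∀ x, 0 ≤ b x := fun x => b.nonneg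
  have hc : ContDiff ℝ 1 b := b.contDiff
  have hs : HasCompactSupport b := b.hasCompactSupport
  refine ⟨b, h0, hc, hs, ?_⟩
  have hadm := MP_3d36e1_mp.admissible_of_contDiff (p := 5 / 3) h0 hc hs le_rfl
  have hi := MP_3d36e1_mp.integrable_V (p := 5 / 3) (by norm_num) one_pos hadm.nonneg hadm.L1
    (hadm.integrable_rpow (by norm_num))
  have hN : 0 < ∫ x, b x ^ 2 :=
    Continuous.integral_pos_of_hasCompactSupport_nonneg_nonzero (x := 0) (hc.continuous.pow 2)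
      (hs.comp_left (g := fun t => t ^ 2) (by simp)) (fun x => sq_nonneg _)
      (by rw [b.one_of_mem_closedBall (Metric.mem_closedBall_self zero_le_one)]; norm_num)
  have h1 : ∫ x, 1 / 2 * b x ^ 2 ≤ ∫ x, 1 / ‖x‖ * b x ^ 2 := by
    refine integral_mono_ae (hadm.L1.const_mul _) hi ?_
    filter_upwards [compl_mem_ae_iff.2 (measure_singleton (μ := volume) (0 : R3))] with x hx
    rcases le_or_gt 2 ‖x‖ with h | h
    · rw [b.zero_of_le_dist (by simpa using h)]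
      simp
    · have : 1 / 2 ≤ 1 / ‖x‖ := one_div_le_one_div_of_le (norm_pos_iff.2 hx) h.le
      exact mul_le_mul_of_nonneg_right this (sq_nonneg _)
  rw [integral_const_mul] at h1
  linarith

lemma nz_small {c d n R lam : ℝ} (hR : 0 < R) (hl : 0 < lam) :
    ∃ a : ℝ, 0 < a ∧ a * n ≤ lam ∧ c * a ^ (2 / 3 : ℝ) + a * d < R := by
  have h1 : ContinuousAt (fun a : ℝ => c * a ^ (2 / 3 : ℝ) + a * d) 0 :=
    ((Real.continuousAt_rpow_const 0 _ (Or.inr (by norm_num))).const_mul c).add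
      (continuousAt_id.mul_const d)
  have h2 : ContinuousAt (fun a : ℝ => a * n) 0 := continuousAt_id.mul_const n
  have e1 : ∀ᶠ a in 𝓝 (0 : ℝ), c * a ^ (2 / 3 : ℝ) + a * d < R :=
    h1.eventually_lt continuousAt_const (by simpa using hR)
  have e2 : ∀ᶠ a in 𝓝 (0 : ℝ), a * n < lam := h2.eventually_lt continuousAt_const (by simpa using hl)
  obtain ⟨a, ⟨ha1, ha2⟩, ha⟩ := (((e1.and e2).filter_mono
    (nhdsWithin_le_nhds (s := Ioi (0 : ℝ)))).and self_mem_nhdsWithin).exists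
  exact ⟨a, ha, ha2.le, ha1⟩

lemma nz_neg {A γ z lam : ℝ} (hA : 0 < A) (hz : 0 < z) (hl : 0 < lam) :
    ∃ ρ g, Adm lam ρ g ∧ tfw A γ z ρ g < 0 := by
  obtain ⟨u, hu0, hu, hus, hV0⟩ := nz_bump
  set P := ∫ x, (u x ^ 2) ^ (5 / 3 : ℝ) with hP
  set V := ∫ x, 1 / ‖x‖ * u x ^ 2 with hV
  set N := ∫ x, u x ^ 2 with hN
  set K := ∫ x, ‖gradient u x‖ ^ 2 with hK
  set D := ∫ q : R3 × R3, u q.1 ^ 2 * u q.2 ^ 2 / ‖q.1 - q.2‖ with hD
  have hK0 : 0 ≤ K := integral_nonneg fun x => by positivity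
  set R := (A * K + 1) / (z * V) with hR
  have hR0 : 0 < R := by positivity
  have hRV : z * R * V = A * K + 1 := by rw [hR]; field_simp
  obtain ⟨a, ha, ha1, ha2⟩ := nz_small (c := 3 / 5 * γ * R ^ 3 * P) (d := R ^ 5 * D / 2)
    (n := R ^ 3 * N) hR0 hl
  set ut : R3 → ℝ := fun x => √a * u (R⁻¹ • x) with hut'
  have hut0 : ∀ x, 0 ≤ ut x := fun x => mul_nonneg (Real.sqrt_nonneg _) (hu0 _)
  have hutc : ContDiff ℝ 1 ut := contDiff_const.mul (hu.comp (contDiff_id.const_smul R⁻¹))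
  have huts : HasCompactSupport ut := (hus.comp_smul (inv_ne_zero hR0.ne')).mul_left
  have hut2 : ∀ x, ut x ^ 2 = a * u (R⁻¹ • x) ^ 2 := fun x => by
    simp only [hut']; rw [mul_pow, Real.sq_sqrt ha.le]
  refine ⟨fun x => ut x ^ 2, gradient ut, MP_3d36e1_mp.admissible_of_contDiff hut0 hutc huts ?_, ?_⟩
  · simp only [hut2]
    rw [MP_3d36e1_mp.scale_mass (fun x => u x ^ 2) a hR0, mul_assoc]
    exact ha1
  · unfold tfw
    simp only [hut2]
    rw [MP_3d36e1_mp.scale_grad hu ha hR0,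
      MP_3d36e1_mp.scale_pow (f := fun x => u x ^ 2) (fun x => by positivity) _ ha hR0,
      MP_3d36e1_mp.scale_V (fun x => u x ^ 2) _ _ hR0,
      MP_3d36e1_mp.scale_D (fun x => u x ^ 2) _ hR0, ← hK, ← hP, ← hV, ← hD]
    have e : a ^ (5 / 3 : ℝ) = a * a ^ (2 / 3 : ℝ) := by
      rw [show (5 / 3 : ℝ) = 1 + 2 / 3 by norm_num, Real.rpow_add ha, Real.rpow_one]
    rw [e]
    have h3 := mul_lt_mul_of_pos_left ha2 ha
    have h4 : z * a * R ^ 2 * V = a * R * (A * K + 1) := by rw [← hRV]; ring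
    rw [h4]
    linarith

theorem p_NZ :
    S_NZ := by
  intro A γ z lam ρ g hA hγ hz hl h
  refine lt_of_le_of_ne (integral_nonneg h.1.nonneg) fun e => ?_
  obtain ⟨ρ', g', h1, h2⟩ := nz_neg (γ := γ) hA hz hl
  have h3 := (h.2 ρ' g' h1).trans_lt h2
  have h0 : ρ =ᵐ[volume] 0 := (integral_eq_zero_iff_of_nonneg h.1.nonneg h.1.L1).1 e.symm
  have hV : ∫ x, z / ‖x‖ * ρ x = 0 := by
    rw [← integral_zero R3 ℝ (μ := volume)]
    apply integral_congr_ae
    filter_upwards [h0] with x hx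
    simp only [Pi.zero_apply] at hx
    simp only [hx, mul_zero]
  have c0 := h.1.coulomb_nonneg
  have k0 : 0 ≤ ∫ x, ‖g x‖ ^ 2 := integral_nonneg fun x => by positivity
  have p0 : 0 ≤ ∫ x, ρ x ^ (5 / 3 : ℝ) :=
    integral_nonneg fun x => Real.rpow_nonneg (h.1.nonneg x) _
  unfold tfw at h3
  rw [hV] at h3
  have := mul_nonneg hA.le k0
  have := mul_nonneg hγ.le p0
  linarith

end Pool.Agent.P.MP_97b9bc_mp.T
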