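import Pool.Agent.P.MP_97b9bc_mp.T.IfaceA

/-! Step POS. -/

set_option autoImplicit false

namespace Pool.Agent.P.MP_97b9bc_mp.T

open MeasureTheory Set Filter Topology
open scoped ContDiff

lemma pos_bd {k M x y : ℝ} (h : |k| ≤ M) : |2 * k * x * y| ≤ M * (x ^ 2 + y ^ 2) := by
  have h1 : |2 * k * x * y| = |k| * (2 * |x| * |y|) := by
    simp only [abs_mul, abs_two]
    ring
  have h2 : 2 * |x| * |y| ≤ x ^ 2 + y ^ 2 := by
    rw [← sq_abs x, ← sq_abs y]
    nlinarith [sq_nonneg (|x| - |y|)]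
  rw [h1]
  exact mul_le_mul h h2 (by positivity) ((abs_nonneg k).trans h)

theorem p_POS :
    S_POS := by
  intro c U U1 hc h0 h1 h2
  by_cases hp : ∀ r, 0 < r → 0 < U r
  · exact Or.inl hp
  right
  push Not at hp
  obtain ⟨r0, hr0, hU⟩ := hp
  have hU0 : U r0 = 0 := le_antisymm hU (h0 r0 hr0)
  have hU1 : U1 r0 = 0 := by
    refine IsLocalMin.hasDerivAt_eq_zero ?_ (h1 r0 hr0)
    filter_upwards [Ioi_mem_nhds hr0] with s hs
    rw [hU0]
    exact h0 s hs
  intro r hr
  have hsub : Icc (min r r0) (max r r0) ⊆ Ioi 0 := fun s hs => (lt_min hr hr0).trans_le hs.1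
  obtain ⟨M, hM⟩ := isCompact_Icc.exists_bound_of_continuousOn
    ((continuousOn_const (c := (1 : ℝ))).add (hc.mono hsub))
  have hd : ∀ (K s : ℝ), 0 < s → HasDerivAt (fun s => (U s ^ 2 + U1 s ^ 2) * Real.exp (K * s))
      ((2 * (1 + c s) * U s * U1 s + K * (U s ^ 2 + U1 s ^ 2)) * Real.exp (K * s)) s := by
    intro K s hs
    have := (((h1 s hs).fun_pow 2).fun_add ((h2 s hs).fun_pow 2)).fun_mul
      ((hasDerivAt_id' s).const_mul K).exp
    refine this.congr_deriv ?_
    push_cast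
    ring
  have key : ∃ K : ℝ, (U r ^ 2 + U1 r ^ 2) * Real.exp (K * r) ≤ 0 := by
    rcases le_total r0 r with h | h
    · refine ⟨-M, ?_⟩
      have := anti' h (fun s hs _ => hd (-M) s (hr0.trans_le hs)) fun s hs hs' => by
        have h3 := (abs_le.1 (pos_bd (x := U s) (y := U1 s)
          (hM s ⟨(min_le_right _ _).trans hs, hs'.trans (le_max_left _ _)⟩))).2
        exact mul_nonpos_of_nonpos_of_nonneg (by simp only [Pi.add_apply] at h3; linarith)
          (Real.exp_pos _).le
      simpa [hU0, hU1] using this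
    · refine ⟨M, ?_⟩
      have := anti' h (fun s hs _ => (hd M s (hr.trans_le hs)).fun_neg) fun s hs hs' => by
        have h3 := (abs_le.1 (pos_bd (x := U s) (y := U1 s)
          (hM s ⟨(min_le_left _ _).trans hs, hs'.trans (le_max_right _ _)⟩))).1
        exact neg_nonpos.2 (mul_nonneg (by simp only [Pi.add_apply] at h3; linarith)
          (Real.exp_pos _).le)
      simp only [hU0, hU1] at this
      linarith
  obtain ⟨K, hK⟩ := key
  have h4 : U r ^ 2 + U1 r ^ 2 ≤ 0 := by
    by_contra h5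
    exact absurd hK (not_le.2 (mul_pos (not_le.1 h5) (Real.exp_pos _)))
  exact pow_eq_zero_iff (two_ne_zero) |>.1 (le_antisymm (by nlinarith [sq_nonneg (U1 r)])
    (sq_nonneg _))

end Pool.Agent.P.MP_97b9bc_mp.T
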