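import Pool.Agent.P.MP_97b9bc_mp.T.IfaceA

/-! Step DBR. -/

set_option autoImplicit false

namespace Pool.Agent.P.MP_97b9bc_mp.T

open MeasureTheory Set Filter Topology
open scoped ContDiff

lemma dbr_test {χ : ℝ → ℝ} (h : Test χ) (hs : tsupport χ ⊆ Ioi 0) :
    Test (deriv χ) ∧ tsupport (deriv χ) ⊆ Ioi 0 :=
  ⟨⟨(contDiff_infty_iff_deriv.1 h.1).2, h.2.deriv⟩,
    (closure_minimal support_deriv_subset (isClosed_tsupport χ)).trans hs⟩

lemma dbr_int {u ψ : ℝ → ℝ} (hu : LocallyIntegrableOn u (Ioi 0)) (h : Test ψ)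
    (hs : tsupport ψ ⊆ Ioi 0) : IntegrableOn (fun r => u r * ψ r) (Ioi 0) := by
  have h1 : IntegrableOn u (tsupport ψ) := hu.integrableOn_compact_subset hs h.2
  have h2 : IntegrableOn (fun r => u r * ψ r) (tsupport ψ) :=
    h1.mul_continuousOn h.1.continuous.continuousOn h.2
  have h3 : Function.support (fun r => u r * ψ r) ⊆ tsupport ψ := fun r hr =>
    subset_tsupport ψ fun h0 => hr (by simp only [h0, mul_zero])
  exact ((integrableOn_iff_integrable_of_support_subset h3).1 h2).integrableOn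

theorem p_DBR (hDBRO : S_DBRO) (hPART : S_PART) :
    S_DBR := by
  intro u F hu hF hw
  obtain ⟨hGc, hG⟩ := hPART F hF
  set G : ℝ → ℝ := fun r => ∫ s in (1 : ℝ)..r, F s with hGdef
  have hGl : LocallyIntegrableOn G (Ioi 0) := hGc.locallyIntegrableOn measurableSet_Ioi
  obtain ⟨hUc, hU⟩ := hPART G hGl
  set U0 : ℝ → ℝ := fun r => ∫ s in (1 : ℝ)..r, G s with hUdef
  have hUl : LocallyIntegrableOn U0 (Ioi 0) := hUc.locallyIntegrableOn measurableSet_Ioi
  obtain ⟨a, b, hab⟩ := hDBRO (fun r => u r - U0 r) (hu.sub hUl) (by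
    intro χ hχ hs
    obtain ⟨h1, hs1⟩ := dbr_test hχ hs
    obtain ⟨h2, hs2⟩ := dbr_test h1 hs1
    have e1 := hU (deriv χ) h1 hs1
    have e2 := hG χ hχ hs
    have e3 := hw χ hχ hs
    have e4 := integral_sub (dbr_int hu h2 hs2) (dbr_int hUl h2 hs2)
    simp only [sub_mul]
    rw [e4, e3]
    change _ - ∫ r in Ioi (0 : ℝ), (∫ s in (1 : ℝ)..r, G s) * deriv (deriv χ) r = 0
    rw [e1]
    change _ - -∫ r in Ioi (0 : ℝ), (∫ s in (1 : ℝ)..r, F s) * deriv χ r = 0
    rw [e2]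
    ring)
  refine ⟨fun r => U0 r + (a + b * r), b, ?_, fun r hr => ?_⟩
  · filter_upwards [hab] with r hr
    linarith
  · have hsub : uIcc (1 : ℝ) r ⊆ Ioi 0 := fun s hs =>
      lt_of_lt_of_le (lt_min one_pos hr) hs.1
    have h1 : HasDerivAt U0 (G r) r :=
      intervalIntegral.integral_hasDerivAt_right (hGc.mono hsub).intervalIntegrable
        (hGc.stronglyMeasurableAtFilter isOpen_Ioi r hr)
        (hGc.continuousAt (Ioi_mem_nhds hr))
    have h2 : HasDerivAt (fun r : ℝ => a + b * r) b r := by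
      simpa using ((hasDerivAt_id r).const_mul b).const_add a
    exact (h1.add h2).congr_deriv (add_comm _ _)

end Pool.Agent.P.MP_97b9bc_mp.T
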