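import Pool.Agent.P.MP_97b9bc_mp.T.IfaceA

/-! Step DBRO. -/

set_option autoImplicit false

namespace Pool.Agent.P.MP_97b9bc_mp.T

open MeasureTheory Set Filter Topology
open scoped ContDiff

lemma dbro_int {f χ : ℝ → ℝ} (hf : LocallyIntegrableOn f (Ioi 0)) (h : Test χ)
    (hs : tsupport χ ⊆ Ioi 0) : IntegrableOn (fun r => f r * χ r) (Ioi 0) := by
  have h1 : IntegrableOn (fun r => f r * χ r) (tsupport χ) :=
    (hf.integrableOn_compact_subset hs h.2).mul_continuousOn h.1.continuous.continuousOn h.2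
  refine ((integrableOn_iff_integrable_of_support_subset fun r hr => ?_).1 h1).integrableOn
  exact subset_tsupport _ (right_ne_zero_of_mul hr)

lemma dbro_deriv {χ : ℝ → ℝ} (h : Test χ) (hs : tsupport χ ⊆ Ioi 0) :
    Test (deriv χ) ∧ tsupport (deriv χ) ⊆ Ioi 0 :=
  ⟨⟨(contDiff_infty_iff_deriv.1 h.1).2, h.2.deriv⟩, tsupport_deriv_subset.trans hs⟩

lemma dbro_dec (hP : S_PRIM) {χ0 χ : ℝ → ℝ} (h0 : Test χ0) (hs0 : tsupport χ0 ⊆ Ioi 0)
    (hi : ∫ r in Ioi (0 : ℝ), χ0 r = 1) (h : Test χ) (hs : tsupport χ ⊆ Ioi 0) :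
    ∃ ξ : ℝ → ℝ, Test ξ ∧ tsupport ξ ⊆ Ioi 0 ∧
      deriv ξ = fun r => χ r - (∫ r in Ioi (0 : ℝ), χ r) * χ0 r := by
  refine hP.2 _ ⟨h.1.sub (contDiff_const.mul h0.1), h.2.sub h0.2.mul_left⟩ ?_ ?_
  · exact (tsupport_sub _ _).trans (union_subset hs (tsupport_mul_subset_right.trans hs0))
  · rw [integral_sub (h.1.continuous.integrable_of_hasCompactSupport h.2).integrableOn
      ((h0.1.continuous.integrable_of_hasCompactSupport h0.2).integrableOn.const_mul _),
      integral_const_mul, hi, mul_one, sub_self]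

lemma dbro_parts {ξ : ℝ → ℝ} (h : Test ξ) (hs : tsupport ξ ⊆ Ioi 0) :
    ∫ r in Ioi (0 : ℝ), r * deriv ξ r = -∫ r in Ioi (0 : ℝ), ξ r := by
  have h1 := HasCompactSupport.integral_Ioi_deriv_eq (f := fun r => r * ξ r)
    (contDiff_id.mul (h.1.of_le (by simp))) h.2.mul_left 0
  have h2 : deriv (fun r => r * ξ r) = fun r => ξ r + r * deriv ξ r := funext fun r => by
    simpa using ((hasDerivAt_id' r).fun_mul
      (h.1.differentiable (by simp) r).hasDerivAt).deriv
  have h3 : IntegrableOn (fun r => r * deriv ξ r) (Ioi 0) :=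
    dbro_int (continuousOn_id.locallyIntegrableOn measurableSet_Ioi) (dbro_deriv h hs).1
      (dbro_deriv h hs).2
  simp only [h2] at h1
  rw [integral_add (h.1.continuous.integrable_of_hasCompactSupport h.2).integrableOn h3] at h1
  linarith

theorem p_DBRO (hPRIM : S_PRIM) :
    S_DBRO := by
  intro f hf H
  obtain ⟨χ0, h0, hs0, hi⟩ := hPRIM.1
  have hid : LocallyIntegrableOn (fun r : ℝ => r) (Ioi 0) :=
    continuousOn_id.locallyIntegrableOn measurableSet_Ioi
  obtain ⟨h1, hs1⟩ := dbro_deriv h0 hs0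
  set b := -∫ r in Ioi (0 : ℝ), f r * deriv χ0 r with hb
  set a := (∫ r in Ioi (0 : ℝ), f r * χ0 r) - b * ∫ r in Ioi (0 : ℝ), r * χ0 r with ha
  have hT : ∀ ξ : ℝ → ℝ, Test ξ → tsupport ξ ⊆ Ioi 0 →
      ∫ r in Ioi (0 : ℝ), f r * deriv ξ r = -b * ∫ r in Ioi (0 : ℝ), ξ r := fun ξ h hs => by
    obtain ⟨η, h2, hs2, e⟩ := dbro_dec hPRIM h0 hs0 hi h hs
    have h3 := H η h2 hs2
    have h4 : deriv (deriv η) =
        fun r => deriv ξ r - (∫ r in Ioi (0 : ℝ), ξ r) * deriv χ0 r := funext fun r => by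
      rw [e]
      exact ((h.1.differentiable (by simp) r).hasDerivAt.fun_sub
        ((h0.1.differentiable (by simp) r).hasDerivAt.const_mul _)).deriv
    simp only [h4, mul_sub, mul_left_comm (f _)] at h3
    rw [integral_sub (dbro_int hf (dbro_deriv h hs).1 (dbro_deriv h hs).2)
      ((dbro_int hf h1 hs1).const_mul _), integral_const_mul] at h3
    rw [hb]
    linarith
  have hS : ∀ χ : ℝ → ℝ, Test χ → tsupport χ ⊆ Ioi 0 →
      ∫ r in Ioi (0 : ℝ), f r * χ r =
        a * (∫ r in Ioi (0 : ℝ), χ r) + b * ∫ r in Ioi (0 : ℝ), r * χ r := fun χ h hs => by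
    obtain ⟨ξ, h2, hs2, e⟩ := dbro_dec hPRIM h0 hs0 hi h hs
    have h3 := hT ξ h2 hs2
    have h4 := dbro_parts h2 hs2
    simp only [e, mul_sub, mul_left_comm (f _)] at h3
    rw [integral_sub (dbro_int hf h hs) ((dbro_int hf h0 hs0).const_mul _),
      integral_const_mul] at h3
    have h5 : ∀ r : ℝ, r * deriv ξ r =
        r * χ r - (∫ r in Ioi (0 : ℝ), χ r) * (r * χ0 r) := fun r => by
      rw [e]
      ring
    simp only [h5] at h4
    rw [integral_sub (dbro_int hid h hs) ((dbro_int hid h0 hs0).const_mul _),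
      integral_const_mul] at h4
    rw [ha]
    linear_combination h3 - b * h4
  have hc : LocallyIntegrableOn (fun r : ℝ => a + b * r) (Ioi 0) :=
    (by fun_prop : ContinuousOn (fun r : ℝ => a + b * r) (Ioi 0)).locallyIntegrableOn
      measurableSet_Ioi
  have key := isOpen_Ioi.ae_eq_zero_of_integral_contDiff_smul_eq_zero (hf.sub hc)
    fun χ h2 h3 hs => by
      have h : Test χ := ⟨h2, h3⟩
      rw [← setIntegral_eq_integral_of_forall_compl_eq_zero (s := Ioi 0) fun r hr => by
        rw [image_eq_zero_of_notMem_tsupport fun h' => hr (hs h'), zero_smul]]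
      have h5 : ∀ r : ℝ, χ r • (f - fun r : ℝ => a + b * r) r =
          f r * χ r - (a * χ r + b * (r * χ r)) := fun r => by
        simp only [smul_eq_mul, Pi.sub_apply]
        ring
      have h6 := (h2.continuous.integrable_of_hasCompactSupport h3 (μ := volume)).integrableOn
        (s := Ioi 0)
      have h7 : IntegrableOn (fun r => a * χ r + b * (r * χ r)) (Ioi 0) :=
        (h6.const_mul _).add ((dbro_int hid h hs).const_mul _)
      simp only [h5]
      rw [integral_sub (dbro_int hf h hs) h7,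
        integral_add (h6.const_mul _) ((dbro_int hid h hs).const_mul _), integral_const_mul,
        integral_const_mul, hS χ h hs, sub_self]
  refine ⟨a, b, (ae_restrict_iff' measurableSet_Ioi).2 ?_⟩
  filter_upwards [key] with r hr h using sub_eq_zero.1 (hr h)

end Pool.Agent.P.MP_97b9bc_mp.T
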