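import Pool.Agent.P.MP_97b9bc_mp.T.IfaceA

/-! Step LAP. -/

set_option autoImplicit false

namespace Pool.Agent.P.MP_97b9bc_mp.T

open MeasureTheory Set Filter Topology
open scoped ContDiff

lemma lap_test {h : ℝ → ℝ} (hh : Test h) : Test (fun x : R3 => h (‖x‖ ^ 2)) := by
  refine ⟨hh.1.comp (contDiff_norm_sq ℝ), ?_⟩
  obtain ⟨R, hR⟩ := hh.2.isCompact.isBounded.subset_closedBall 0
  refine HasCompactSupport.intro (isCompact_closedBall (0 : R3) (|R| + 1)) fun x hx => ?_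
  by_contra h0
  have h1 := hR (subset_tsupport _ h0)
  rw [mem_closedBall_zero_iff] at hx h1
  rw [Real.norm_eq_abs, abs_of_nonneg (sq_nonneg _)] at h1
  have h2 := le_abs_self R
  have h3 := abs_nonneg R
  have h4 := not_le.1 hx
  nlinarith

lemma lap_dtest {h : ℝ → ℝ} (hh : Test h) : Test (deriv h) :=
  ⟨(contDiff_infty_iff_deriv.1 hh.1).2, hh.2.deriv⟩

lemma lap_fd {h : ℝ → ℝ} (hh : Test h) (x : R3) :
    HasFDerivAt (fun x : R3 => h (‖x‖ ^ 2)) (deriv h (‖x‖ ^ 2) • (2 • innerSL ℝ x)) x :=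
  ((hh.1.differentiable (by simp)) _).hasDerivAt.comp_hasFDerivAt x
    (hasStrictFDerivAt_norm_sq x).hasFDerivAt

/-- components of the gradient -/
noncomputable def lap_phi (h : ℝ → ℝ) (i : Fin 3) (x : R3) : ℝ := deriv h (‖x‖ ^ 2) * (2 * x i)

lemma lap_phi_test {h : ℝ → ℝ} (hh : Test h) (i : Fin 3) : Test (lap_phi h i) :=
  ⟨(lap_test (lap_dtest hh)).1.mul (contDiff_const.mul (EuclideanSpace.proj (𝕜 := ℝ) i).contDiff),
    (lap_test (lap_dtest hh)).2.mul_right⟩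

lemma lap_phi_fd {h : ℝ → ℝ} (hh : Test h) (i : Fin 3) (x : R3) :
    fderiv ℝ (lap_phi h i) x (EuclideanSpace.single i 1) =
      4 * x i ^ 2 * deriv (deriv h) (‖x‖ ^ 2) + 2 * deriv h (‖x‖ ^ 2) := by
  have h1 : HasFDerivAt (fun x : R3 => 2 * x i) _ x :=
    (EuclideanSpace.proj (𝕜 := ℝ) i).hasFDerivAt.const_mul 2
  have h2 : HasFDerivAt (lap_phi h i) _ x := (lap_fd (lap_dtest hh) x).mul h1
  rw [h2.fderiv]
  simp [EuclideanSpace.inner_single_right]
  ring

lemma lap_inner {h : ℝ → ℝ} (hh : Test h) (x v : R3) :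
    inner ℝ v (gradient (fun x : R3 => h (‖x‖ ^ 2)) x) =
      ∑ i, inner ℝ v (EuclideanSpace.single i (1 : ℝ)) * lap_phi h i x := by
  rw [real_inner_comm, gradient, InnerProductSpace.toDual_symm_apply, (lap_fd hh x).fderiv]
  simp [EuclideanSpace.inner_single_right, lap_phi, PiLp.inner_apply, Fin.sum_univ_three]
  ring

theorem p_LAP :
    S_LAP := by
  intro u g h hw hu hg hh
  refine ⟨lap_test hh, ?_⟩
  have h1 : ∀ i : Fin 3, Integrable fun x =>
      inner ℝ (g x) (EuclideanSpace.single i (1 : ℝ)) * lap_phi h i x := fun i =>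
    MP_3d36e1_mp.int_mul (hg.inner_const _)
      (MP_3d36e1_mp.test_memLp (lap_phi_test hh i).1 (lap_phi_test hh i).2)
  have h2 : ∀ i : Fin 3, Integrable fun x =>
      u x * fderiv ℝ (lap_phi h i) x (EuclideanSpace.single i 1) := fun i =>
    MP_3d36e1_mp.int_mul hu
      (MP_3d36e1_mp.deriv_test_memLp (lap_phi_test hh i).1 (lap_phi_test hh i).2 _)
  have h3 : ∀ x : R3, u x * (4 * ‖x‖ ^ 2 * deriv (deriv h) (‖x‖ ^ 2) + 6 * deriv h (‖x‖ ^ 2)) =
      ∑ i, u x * fderiv ℝ (lap_phi h i) x (EuclideanSpace.single i 1) := fun x => by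
    simp only [lap_phi_fd hh, Fin.sum_univ_three]
    have : ‖x‖ ^ 2 = x 0 ^ 2 + x 1 ^ 2 + x 2 ^ 2 := by
      rw [EuclideanSpace.real_norm_sq_eq, Fin.sum_univ_three]
    generalize deriv (deriv h) (‖x‖ ^ 2) = a
    generalize deriv h (‖x‖ ^ 2) = b
    rw [this]
    ring
  simp only [lap_inner hh, h3]
  rw [integral_finsetSum _ fun i _ => h1 i, integral_finsetSum _ fun i _ => h2 i,
    ← Finset.sum_neg_distrib]
  refine Finset.sum_congr rfl fun i _ => ?_
  rw [hw _ (lap_phi_test hh i).1 (lap_phi_test hh i).2, neg_neg]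

end Pool.Agent.P.MP_97b9bc_mp.T
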