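import Pool.Agent.P.MP_97b9bc_mp.T.IfaceA

/-! Step MEAS. -/

set_option autoImplicit false

namespace Pool.Agent.P.MP_97b9bc_mp.T

open MeasureTheory Set Filter Topology
open scoped ContDiff

theorem meas_ae (p : R3 → Prop) : (∀ᵐ x, p x) ↔
    ∀ᵐ x : ({0}ᶜ : Set R3) ∂((volume : Measure R3).comap Subtype.val), p x.1 := by
  have h := MeasurableEmbedding.subtype_coe (s := ({0}ᶜ : Set R3))
    (measurableSet_singleton 0).compl
  rw [← h.ae_map_iff, h.map_comap, Subtype.range_coe, restrict_compl_singleton]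

theorem p_MEAS :
    S_MEAS := by
  intro ρ f hm h0 hf
  have hP := Measure.measurePreserving_homeomorphUnitSphereProd (volume : Measure R3)
  set e := homeomorphUnitSphereProd R3
  have hS := hP.symm e.toMeasurableEquiv
  set g : R3 → ℝ := fun x => max (hm.mk ρ x) 0
  have hg : Measurable g := hm.measurable_mk.max measurable_const
  have h1 : ∀ᵐ x, g x = f ‖x‖ := by
    filter_upwards [hm.ae_eq_mk, hf] with x a b
    simp only [g, ← a, ← b, max_eq_left (h0 x)]
  have h2 := hS.quasiMeasurePreserving.ae ((meas_ae _).1 h1)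
  have h3 := Measure.ae_ae_of_ae_prod h2
  have : NeZero (volume : Measure R3).toSphere := ⟨Measure.toSphere_ne_zero _⟩
  obtain ⟨o, ho⟩ := h3.exists
  refine ⟨fun r => g (r • (o : R3)), hg.comp (measurable_id.smul_const _),
    fun r => le_max_right _ _, ?_⟩
  have h4 : ∀ᵐ r : Ioi (0 : ℝ) ∂(Measure.volumeIoiPow (Module.finrank ℝ R3 - 1)),
      g ((r : ℝ) • (o : R3)) = f r := by
    filter_upwards [ho] with r hr
    have e1 : ((e.toMeasurableEquiv.symm (o, r) : ({0}ᶜ : Set R3)) : R3) = (r : ℝ) • (o : R3) := rfl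
    rw [e1, norm_smul, norm_eq_of_mem_sphere, mul_one, Real.norm_of_nonneg r.2.le] at hr
    exact hr
  have h5 := (Measure.quasiMeasurePreserving_snd.comp hP.quasiMeasurePreserving).ae h4
  have h6 : ∀ᵐ x : R3, g (‖x‖ • (o : R3)) = f ‖x‖ := (meas_ae _).2 (by simpa [e] using h5)
  filter_upwards [h6, hf] with x a b
  rw [a, b]

end Pool.Agent.P.MP_97b9bc_mp.T
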