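import Pool.Agent.P.MP_97b9bc_mp.T.IfaceA

/-! Step NEW. -/

set_option autoImplicit false

namespace Pool.Agent.P.MP_97b9bc_mp.T

open MeasureTheory Set Filter Topology
open scoped ContDiff ENNReal

lemma new_ang {a s : ℝ} (ha : 0 < a) (hs : 0 < s) (hne : s ≠ a) :
    ∫⁻ θ in Ioo (-Real.pi) Real.pi,
      ENNReal.ofReal (Real.sin θ / √(s ^ 2 + a ^ 2 - 2 * a * s * Real.cos θ)) =
      ENNReal.ofReal (2 / max a s) := by
  have hpi := Real.pi_pos
  have hD : ∀ θ, 0 < s ^ 2 + a ^ 2 - 2 * a * s * Real.cos θ := fun θ => by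
    have h1 : 0 < (s - a) ^ 2 := sq_pos_of_ne_zero (sub_ne_zero.2 hne)
    nlinarith [mul_nonneg (mul_pos ha hs).le (sub_nonneg.2 (Real.cos_le_one θ))]
  have hq : ∀ θ, 0 < √(s ^ 2 + a ^ 2 - 2 * a * s * Real.cos θ) := fun θ => Real.sqrt_pos.2 (hD θ)
  have hc : Continuous fun θ => Real.sin θ / √(s ^ 2 + a ^ 2 - 2 * a * s * Real.cos θ) :=
    Real.continuous_sin.div (by fun_prop) fun θ => (hq θ).ne'
  have hder : ∀ θ, HasDerivAt (fun θ => √(s ^ 2 + a ^ 2 - 2 * a * s * Real.cos θ) / (a * s))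
      (Real.sin θ / √(s ^ 2 + a ^ 2 - 2 * a * s * Real.cos θ)) θ := fun θ => by
    have h1 := ((((Real.hasDerivAt_cos θ).const_mul (2 * a * s)).const_sub
      (s ^ 2 + a ^ 2)).sqrt (hD θ).ne').div_const (a * s)
    refine h1.congr_deriv ?_
    have := (hq θ).ne'
    field_simp
  have hI := intervalIntegral.integral_eq_sub_of_hasDerivAt (a := 0) (b := Real.pi)
    (fun θ _ => hder θ) (hc.intervalIntegrable _ _)
  have e1 : √(s ^ 2 + a ^ 2 - 2 * a * s * Real.cos Real.pi) = s + a := by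
    rw [Real.cos_pi, show s ^ 2 + a ^ 2 - 2 * a * s * -1 = (s + a) ^ 2 by ring,
      Real.sqrt_sq (by positivity)]
  have e2 : √(s ^ 2 + a ^ 2 - 2 * a * s * Real.cos 0) = |s - a| := by
    rw [Real.cos_zero, show s ^ 2 + a ^ 2 - 2 * a * s * 1 = (s - a) ^ 2 by ring,
      Real.sqrt_sq_eq_abs]
  have e3 : (s + a) / (a * s) - |s - a| / (a * s) = 2 / max a s := by
    rcases le_total a s with h | h
    · rw [max_eq_right h, abs_of_nonneg (sub_nonneg.2 h)]
      field_simp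
      ring
    · rw [max_eq_left h, abs_of_nonpos (sub_nonpos.2 h)]
      field_simp
      ring
  rw [e1, e2, e3, intervalIntegral.integral_of_le hpi.le, integral_Ioc_eq_integral_Ioo] at hI
  rw [← Ioc_union_Ioo_eq_Ioo (b := 0) (by linarith) hpi,
    lintegral_union measurableSet_Ioo (disjoint_left.2 fun θ h1 h2 => h1.2.not_gt h2.1),
    setLIntegral_eq_zero measurableSet_Ioc fun θ hθ => ENNReal.ofReal_eq_zero.2
      (div_nonpos_of_nonpos_of_nonneg
        (Real.sin_nonpos_of_nonpos_of_neg_pi_le hθ.2 hθ.1.le) (hq θ).le),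
    zero_add, ← hI]
  refine (ofReal_integral_eq_lintegral_ofReal
    (hc.continuousOn.integrableOn_Icc.mono_set Ioo_subset_Icc_self) ?_).symm
  filter_upwards [ae_restrict_mem measurableSet_Ioo] with θ hθ
  exact div_nonneg (Real.sin_nonneg_of_nonneg_of_le_pi hθ.1.le hθ.2.le) (hq θ).le

lemma new_disc (g : ℝ → ℝ≥0∞) (hg : Measurable g) :
    ∫⁻ w : ℝ × ℝ, g (w.1 ^ 2 + w.2 ^ 2) =
      ENNReal.ofReal (2 * Real.pi) * ∫⁻ p, ENNReal.ofReal p * g (p ^ 2) := by
  have hm : Measurable fun p : ℝ => ENNReal.ofReal p * g (p ^ 2) := by fun_prop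
  have e : ∀ p : ℝ × ℝ, ENNReal.ofReal p.1 • g ((polarCoord.symm p).1 ^ 2 +
      (polarCoord.symm p).2 ^ 2) = ENNReal.ofReal p.1 * g (p.1 ^ 2) := fun p => by
    rw [polarCoord_symm_apply, smul_eq_mul]
    congr 2
    linear_combination p.1 ^ 2 * Real.cos_sq_add_sin_sq p.2
  rw [← lintegral_comp_polarCoord_symm]
  simp only [e]
  rw [polarCoord_target, Measure.volume_eq_prod,
    setLIntegral_prod (fun p : ℝ × ℝ => ENNReal.ofReal p.1 * g (p.1 ^ 2))
      (hm.comp measurable_fst).aemeasurable]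
  simp only [lintegral_const, Measure.restrict_apply MeasurableSet.univ, univ_inter,
    Real.volume_Ioo]
  rw [lintegral_mul_const _ hm, mul_comm, show Real.pi - -Real.pi = 2 * Real.pi by ring,
    setLIntegral_eq_of_support_subset fun p hp => ?_]
  by_contra h
  exact hp (by simp [ENNReal.ofReal_eq_zero.2 (not_lt.1 h)])

lemma new_mp : MeasurePreserving (fun y : R3 => (y 0, (y 1, y 2))) volume
    (volume : Measure (ℝ × ℝ × ℝ)) :=
  (((MeasurePreserving.id volume).prod (volume_preserving_finTwoArrow ℝ)).comp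
    (volume_preserving_piFinSuccAbove (fun _ : Fin 3 => ℝ) 0)).comp
      (PiLp.volume_preserving_ofLp (Fin 3))

lemma new_cyl (G : ℝ × ℝ → ℝ≥0∞) (hG : Measurable G) :
    ∫⁻ y : R3, G (y 0, y 1 ^ 2 + y 2 ^ 2) =
      ENNReal.ofReal (2 * Real.pi) * ∫⁻ q : ℝ × ℝ, ENNReal.ofReal q.2 * G (q.1, q.2 ^ 2) := by
  have h1 : Measurable fun q : ℝ × ℝ × ℝ => G (q.1, q.2.1 ^ 2 + q.2.2 ^ 2) := by fun_prop
  have h2 : Measurable fun q : ℝ × ℝ => ENNReal.ofReal q.2 * G (q.1, q.2 ^ 2) := by fun_prop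
  refine (new_mp.lintegral_comp h1).trans ?_
  rw [Measure.volume_eq_prod, lintegral_prod _ h1.aemeasurable, Measure.volume_eq_prod ℝ ℝ,
    lintegral_prod _ h2.aemeasurable, ← lintegral_const_mul' _ _ ENNReal.ofReal_ne_top]
  refine lintegral_congr fun ζ => ?_
  exact new_disc (fun u => G (ζ, u)) (by fun_prop)

lemma new_main (f : ℝ → ℝ) (hf : Measurable f) (h0 : ∀ r, 0 ≤ f r) {a : ℝ} (ha : 0 < a) :
    ∫⁻ q : ℝ × ℝ, ENNReal.ofReal q.2 *
        ENNReal.ofReal (f √(q.1 ^ 2 + q.2 ^ 2) / √((a - q.1) ^ 2 + q.2 ^ 2)) =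
      ENNReal.ofReal 2 * ∫⁻ s in Ioi (0 : ℝ), ENNReal.ofReal (s ^ 2 * f s / max a s) := by
  have hm : Measurable fun p : ℝ × ℝ => ENNReal.ofReal (p.1 ^ 2 * f p.1) *
      ENNReal.ofReal (Real.sin p.2 / √(p.1 ^ 2 + a ^ 2 - 2 * a * p.1 * Real.cos p.2)) := by
    fun_prop
  rw [← lintegral_comp_polarCoord_symm, polarCoord_target,
    setLIntegral_congr_fun (measurableSet_Ioi.prod measurableSet_Ioo)
      (g := fun p : ℝ × ℝ => ENNReal.ofReal (p.1 ^ 2 * f p.1) *
        ENNReal.ofReal (Real.sin p.2 / √(p.1 ^ 2 + a ^ 2 - 2 * a * p.1 * Real.cos p.2))),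
    Measure.volume_eq_prod, setLIntegral_prod _ hm.aemeasurable,
    ← lintegral_const_mul' _ _ ENNReal.ofReal_ne_top]
  · refine lintegral_congr_ae ?_
    have hne : ∀ᵐ s : ℝ, s ≠ a := by simp [ae_iff]
    filter_upwards [ae_restrict_mem measurableSet_Ioi, ae_restrict_of_ae hne] with s hs hsa
    rw [lintegral_const_mul' _ _ ENNReal.ofReal_ne_top, new_ang ha hs hsa,
      ← ENNReal.ofReal_mul (mul_nonneg (sq_nonneg _) (h0 _)), ← ENNReal.ofReal_mul zero_le_two]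
    congr 1
    ring
  · rintro ⟨s, θ⟩ ⟨hs, -⟩
    have hs' : 0 < s := hs
    have e1 : √((s * Real.cos θ) ^ 2 + (s * Real.sin θ) ^ 2) = s := by
      rw [show (s * Real.cos θ) ^ 2 + (s * Real.sin θ) ^ 2 = s ^ 2 by
        linear_combination s ^ 2 * Real.cos_sq_add_sin_sq θ, Real.sqrt_sq hs'.le]
    have e2 : (a - s * Real.cos θ) ^ 2 + (s * Real.sin θ) ^ 2 =
        s ^ 2 + a ^ 2 - 2 * a * s * Real.cos θ := by
      linear_combination s ^ 2 * Real.cos_sq_add_sin_sq θ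
    simp only [polarCoord_symm_apply, smul_eq_mul, e1, e2]
    rw [← ENNReal.ofReal_mul' (div_nonneg (h0 _) (Real.sqrt_nonneg _)), ← ENNReal.ofReal_mul hs'.le,
      ← ENNReal.ofReal_mul (mul_nonneg (sq_nonneg _) (h0 _))]
    congr 1
    ring

theorem p_NEW :
    S_NEW := by
  intro f hf h0 _ x hx
  have ha : 0 < ‖x‖ := norm_pos_iff.2 hx
  set e : R3 := EuclideanSpace.single 0 ‖x‖ with he
  have hn : ‖x‖ = ‖e‖ := by simp [he]
  set R := Submodule.reflection (ℝ ∙ (x - e))ᗮ with hR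
  have hRx : R x = e := Submodule.reflection_sub hn
  have h1 : pot (fun y => f ‖y‖) x = ∫ y : R3, f ‖y‖ / ‖e - y‖ := by
    rw [pot, ← MP_3d36e1_mp.iso_int R (fun y : R3 => f ‖y‖ / ‖e - y‖)]
    refine integral_congr_ae (Eventually.of_forall fun y => ?_)
    simp only []
    rw [← hRx, ← map_sub, R.norm_map, R.norm_map]
  have h2 : ∀ y : R3, f ‖y‖ / ‖e - y‖ =
      f √(y 0 ^ 2 + (y 1 ^ 2 + y 2 ^ 2)) / √((‖x‖ - y 0) ^ 2 + (y 1 ^ 2 + y 2 ^ 2)) := fun y => by
    rw [EuclideanSpace.norm_eq y, EuclideanSpace.norm_eq (e - y)]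
    simp [Fin.sum_univ_three, he, add_assoc]
  have h3 := new_cyl (fun q => ENNReal.ofReal (f √(q.1 ^ 2 + q.2) / √((‖x‖ - q.1) ^ 2 + q.2)))
    (by fun_prop)
  simp only [] at h3
  rw [new_main f hf h0 ha] at h3
  rw [h1, integral_eq_lintegral_of_nonneg_ae
      (Eventually.of_forall fun y => div_nonneg (h0 _) (norm_nonneg _))
      (Measurable.aestronglyMeasurable (by fun_prop)),
    integral_eq_lintegral_of_nonneg_ae (Eventually.of_forall fun s =>
      div_nonneg (mul_nonneg (sq_nonneg _) (h0 _)) (ha.le.trans (le_max_left _ _)))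
      (Measurable.aestronglyMeasurable (by fun_prop))]
  simp only [h2]
  rw [h3, ENNReal.toReal_mul, ENNReal.toReal_mul, ENNReal.toReal_ofReal (by positivity),
    ENNReal.toReal_ofReal zero_le_two]
  ring

end Pool.Agent.P.MP_97b9bc_mp.T
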