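import Pool.Agent.P.MP_97b9bc_mp.T.IfaceA

/-! Step PART. -/

set_option autoImplicit false

namespace Pool.Agent.P.MP_97b9bc_mp.T

open MeasureTheory Set Filter Topology
open scoped ContDiff

lemma part_ii {F : ℝ → ℝ} (hF : LocallyIntegrableOn F (Ioi 0)) {a b : ℝ} (ha : 0 < a)
    (hab : a ≤ b) : IntervalIntegrable F volume a b :=
  (intervalIntegrable_iff_integrableOn_Icc_of_le hab).2
    (hF.integrableOn_compact_subset (fun _ hx => ha.trans_le hx.1) isCompact_Icc)

lemma part_box {K : Set ℝ} (hK : IsCompact K) (h : K ⊆ Ioi 0) :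
    ∃ a b : ℝ, 0 < a ∧ a < 1 ∧ 1 < b ∧ K ⊆ Ioo a b := by
  have h1 : IsCompact (insert (1 : ℝ) K) := hK.insert 1
  obtain ⟨m, hm, hm'⟩ := h1.exists_isLeast ⟨1, mem_insert _ _⟩
  obtain ⟨M, hM, hM'⟩ := h1.exists_isGreatest ⟨1, mem_insert _ _⟩
  have h0 : 0 < m := by
    rcases hm with rfl | hm
    · exact one_pos
    · exact h hm
  have h2 := hm' (mem_insert _ _)
  have h3 := hM' (mem_insert _ _)
  refine ⟨m / 2, M + 1, by linarith, by linarith, by linarith, fun x hx => ⟨?_, ?_⟩⟩
  · have := hm' (mem_insert_of_mem _ hx); linarith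
  · have := hM' (mem_insert_of_mem _ hx); linarith

lemma part_red {g : ℝ → ℝ} {a b : ℝ} (ha : 0 < a) (hab : a ≤ b)
    (h : ∀ x, x ∉ Ioo a b → g x = 0) : ∫ r in Ioi (0 : ℝ), g r = ∫ r in a..b, g r := by
  rw [intervalIntegral.integral_of_le hab]
  exact setIntegral_eq_of_subset_of_forall_sdiff_eq_zero measurableSet_Ioi
    (fun x hx => ha.trans hx.1) (fun x hx => h x fun h' => hx.2 ⟨h'.1, h'.2.le⟩)

theorem p_PART :
    S_PART := by
  intro F hF
  constructor
  · intro r hr
    obtain ⟨a, b, ha, ha1, hb, hs⟩ := part_box (isCompact_singleton (x := r))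
      (singleton_subset_iff.2 hr)
    have hab : a ≤ b := by linarith
    have hr' := hs (mem_singleton r)
    have h1 := intervalIntegral.continuousOn_primitive_interval' (part_ii hF ha hab)
      (a := 1) (by rw [uIcc_of_le hab]; exact ⟨ha1.le, hb.le⟩)
    rw [uIcc_of_le hab] at h1
    exact (h1.continuousAt (Icc_mem_nhds hr'.1 hr'.2)).continuousWithinAt
  · intro χ hχ hs
    obtain ⟨a, b, ha, ha1, hb, hs'⟩ := part_box hχ.2 hs
    have hab : a ≤ b := by linarith
    have h1 : (1 : ℝ) ∈ uIcc a b := by rw [uIcc_of_le hab]; exact ⟨ha1.le, hb.le⟩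
    have hi := part_ii hF ha hab
    have hz : ∀ x, x ∉ Ioo a b → χ x = 0 := fun x hx =>
      image_eq_zero_of_notMem_tsupport fun h => hx (hs' h)
    have hz' : ∀ x, x ∉ Ioo a b → deriv χ x = 0 := fun x hx => by
      by_contra h
      exact hx (hs' (support_deriv_subset (Function.mem_support.2 h)))
    rw [part_red ha hab (fun x hx => by rw [hz' x hx, mul_zero]),
      part_red ha hab (fun x hx => by rw [hz x hx, mul_zero])]
    have hc : AbsolutelyContinuousOnInterval χ a b :=
      ContDiffOn.absolutelyContinuousOnInterval (hχ.1.of_le (by exact_mod_cast le_top)).contDiffOn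
    rw [(hi.absolutelyContinuousOnInterval_intervalIntegral h1).integral_mul_deriv_eq_deriv_mul hc,
      hz a (fun h => lt_irrefl _ h.1), hz b (fun h => lt_irrefl _ h.2), mul_zero, mul_zero,
      sub_zero, zero_sub]
    congr 1
    refine intervalIntegral.integral_congr_ae ?_
    filter_upwards [hi.ae_hasDerivAt_integral] with x hx hx'
    rw [(hx (uIoc_subset_uIcc hx') 1 h1).deriv]

end Pool.Agent.P.MP_97b9bc_mp.T
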