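import Pool.Agent.P.MP_97b9bc_mp.T.IfaceA

/-! Step PRIM. -/

set_option autoImplicit false

namespace Pool.Agent.P.MP_97b9bc_mp.T

open MeasureTheory Set Filter Topology
open scoped ContDiff

/-- a compactly supported function on the open half line lives in some `(a, b]` -/
theorem prim_bounds (χ : ℝ → ℝ) (hc : HasCompactSupport χ) (hs : tsupport χ ⊆ Ioi 0) :
    ∃ a b : ℝ, 0 < a ∧ 0 < b ∧ tsupport χ ⊆ Ioc a b := by
  rcases (tsupport χ).eq_empty_or_nonempty with he | hne
  · exact ⟨1, 1, one_pos, one_pos, by rw [he]; exact empty_subset _⟩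
  · obtain ⟨m, hm, hm'⟩ := hc.isCompact.exists_isLeast hne
    obtain ⟨M, hM, hM'⟩ := hc.isCompact.exists_isGreatest hne
    have hm0 : 0 < m := hs hm
    have hM0 : 0 < M := hs hM
    refine ⟨m / 2, M, by positivity, hM0, fun x hx => ⟨?_, hM' hx⟩⟩
    have := hm' hx
    linarith

theorem prim_whole (χ : ℝ → ℝ) (hs : tsupport χ ⊆ Ioi 0) :
    ∫ r in Ioi (0 : ℝ), χ r = ∫ r, χ r :=
  setIntegral_eq_integral_of_forall_compl_eq_zero fun _ hx =>
    image_eq_zero_of_notMem_tsupport fun h => hx (hs h)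

theorem prim_bump :
    ∃ χ : ℝ → ℝ, Test χ ∧ tsupport χ ⊆ Ioi 0 ∧ ∫ r in Ioi (0 : ℝ), χ r = 1 := by
  let f : ContDiffBump (1 : ℝ) := ⟨1 / 4, 1 / 2, by norm_num, by norm_num⟩
  have hs : tsupport (f.normed volume) ⊆ Ioi 0 := by
    rw [f.tsupport_normed_eq]
    intro x hx
    have h1 : dist x 1 ≤ 1 / 2 := hx
    rw [Real.dist_eq, abs_le] at h1
    show 0 < x
    linarith [h1.1]
  refine ⟨f.normed volume, ⟨f.contDiff_normed, f.hasCompactSupport_normed⟩, hs, ?_⟩
  rw [prim_whole _ hs]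
  exact f.integral_normed

theorem p_PRIM :
    S_PRIM := by
  refine ⟨prim_bump, fun χ hχ hs h0 => ?_⟩
  obtain ⟨a, b, ha, hb, hab⟩ := prim_bounds χ hχ.2 hs
  have hcont : Continuous χ := hχ.1.continuous
  have hder : ∀ r : ℝ, HasDerivAt (fun u : ℝ => ∫ s in (0 : ℝ)..u, χ s) (χ r) r := fun r =>
    intervalIntegral.integral_hasDerivAt_right (hcont.intervalIntegrable _ _)
      (hcont.stronglyMeasurableAtFilter _ _) hcont.continuousAt
  have hd : deriv (fun u : ℝ => ∫ s in (0 : ℝ)..u, χ s) = χ := funext fun r => (hder r).deriv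
  have hsupp : Function.support (fun u : ℝ => ∫ s in (0 : ℝ)..u, χ s) ⊆ Icc a b := by
    intro r hr
    by_contra hn
    apply hr
    rw [mem_Icc, not_and_or, not_le, not_le] at hn
    rcases hn with h | h
    · have hz : EqOn χ (fun _ => (0 : ℝ)) (uIcc 0 r) := by
        intro s hs'
        apply image_eq_zero_of_notMem_tsupport
        intro hs''
        have h1 := (hab hs'').1
        have h2 : s ≤ max 0 r := hs'.2
        have h3 : max 0 r < s := lt_of_le_of_lt (max_le ha.le h.le) h1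
        linarith
      show ∫ s in (0 : ℝ)..r, χ s = 0
      rw [intervalIntegral.integral_congr hz]
      simp
    · show ∫ s in (0 : ℝ)..r, χ s = 0
      rw [intervalIntegral.integral_eq_integral_of_support_subset, ← prim_whole χ hs, h0]
      intro s hs'
      have h1 := hab (subset_tsupport _ hs')
      exact ⟨ha.trans h1.1, h1.2.trans h.le⟩
  have hts : tsupport (fun u : ℝ => ∫ s in (0 : ℝ)..u, χ s) ⊆ Icc a b :=
    closure_minimal hsupp isClosed_Icc
  refine ⟨fun u : ℝ => ∫ s in (0 : ℝ)..u, χ s, ⟨?_, ?_⟩, ?_, hd⟩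
  · rw [contDiff_infty_iff_deriv, hd]
    exact ⟨fun r => (hder r).differentiableAt, hχ.1⟩
  · exact isCompact_Icc.of_isClosed_subset (isClosed_tsupport _) hts
  · exact fun x hx => ha.trans_le (hts hx).1

end Pool.Agent.P.MP_97b9bc_mp.T
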