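import Pool.Agent.P.MP_97b9bc_mp.T.IfaceA

/-! Step TST. -/

set_option autoImplicit false

namespace Pool.Agent.P.MP_97b9bc_mp.T

open MeasureTheory Set Filter Topology
open scoped ContDiff

theorem tst_test {χ : ℝ → ℝ} (hχ : Test χ) (h0 : tsupport χ ⊆ Ioi 0) :
    Test fun s => χ √s / √s := by
  obtain ⟨ε, hε, h1⟩ := Metric.isOpen_iff.1 (isClosed_tsupport χ).isOpen_compl 0
    fun h => lt_irrefl (0 : ℝ) (h0 h)
  obtain ⟨b, hb⟩ := hχ.2.isCompact.bddAbove
  refine ⟨contDiff_iff_contDiffAt.2 fun s => ?_, HasCompactSupport.intro (isCompact_Icc (a := 0)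
    (b := b ^ 2)) fun s hs => ?_⟩
  · rcases lt_or_ge 0 s with h | h
    · have h2 : ContDiffAt ℝ ∞ (fun s : ℝ => √s) s := contDiffAt_id.sqrt h.ne'
      exact (hχ.1.contDiffAt.comp s h2).div h2 (Real.sqrt_pos.2 h).ne'
    · have h2 : ∀ᶠ t in 𝓝 s, √t < ε :=
        Real.continuous_sqrt.continuousAt.eventually_lt continuousAt_const
          (by rwa [Real.sqrt_eq_zero_of_nonpos h])
      refine (contDiffAt_const (c := (0 : ℝ))).congr_of_eventuallyEq (h2.mono fun t ht => ?_)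
      have h3 : χ √t = 0 := image_eq_zero_of_notMem_tsupport (h1 (by
        rwa [mem_ball_zero_iff, Real.norm_of_nonneg (Real.sqrt_nonneg t)]))
      simp only [h3, zero_div]
  · rw [mem_Icc, not_and_or, not_le, not_le] at hs
    rcases hs with h | h
    · simp only [Real.sqrt_eq_zero_of_nonpos h.le, div_zero]
    · have h3 : χ √s = 0 := image_eq_zero_of_notMem_tsupport fun h4 =>
        (Real.lt_sqrt_of_sq_lt h).not_ge (hb h4)
      simp only [h3, zero_div]

theorem p_TST :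
    S_TST := by
  intro χ hχ h0
  obtain ⟨h, hh, he⟩ : ∃ h : ℝ → ℝ, Test h ∧ ∀ r, 0 < r → r * h (r ^ 2) = χ r :=
    ⟨_, tst_test hχ h0, fun r hr => by
      simp only [Real.sqrt_sq hr.le]
      exact mul_div_cancel₀ _ hr.ne'⟩
  have hd : Differentiable ℝ h := hh.1.differentiable (by simp)
  have hd' : Differentiable ℝ (deriv h) :=
    (contDiff_infty_iff_deriv.1 hh.1).2.differentiable (by simp)
  have hsq : ∀ r : ℝ, HasDerivAt (fun r : ℝ => r ^ 2) (2 * r) r := fun r => by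
    simpa using hasDerivAt_pow 2 r
  have h1 : ∀ r, 0 < r → deriv χ r = h (r ^ 2) + r * (deriv h (r ^ 2) * (2 * r)) := fun r hr => by
    have h2 : χ =ᶠ[𝓝 r] fun r => r * h (r ^ 2) :=
      (eventually_gt_nhds hr).mono fun t ht => (he t ht).symm
    have h3 : HasDerivAt (fun r : ℝ => r * h (r ^ 2)) _ r :=
      (hasDerivAt_id r).mul ((hd _).hasDerivAt.comp r (hsq r))
    rw [h2.deriv_eq, h3.deriv]
    simp
  refine ⟨h, hh, fun r hr => ⟨he r hr, ?_⟩⟩
  have h2 : deriv χ =ᶠ[𝓝 r] fun r => h (r ^ 2) + r * (deriv h (r ^ 2) * (2 * r)) :=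
    (eventually_gt_nhds hr).mono h1
  have h3 : HasDerivAt (fun r : ℝ => h (r ^ 2) + r * (deriv h (r ^ 2) * (2 * r))) _ r :=
    ((hd _).hasDerivAt.comp r (hsq r)).add ((hasDerivAt_id r).mul
      (((hd' _).hasDerivAt.comp r (hsq r)).mul ((hasDerivAt_id r).const_mul 2)))
  rw [h2.deriv_eq, h3.deriv]
  simp
  ring

end Pool.Agent.P.MP_97b9bc_mp.T
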