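import Pool.Agent.P.MP_97b9bc_mp.T.IfaceA
import Pool.Agent.P.MP_3d36e1_mp.Main

/-! Step WEAK. -/

set_option autoImplicit false

namespace Pool.Agent.P.MP_97b9bc_mp.T

open MeasureTheory Set Filter Topology
open scoped ContDiff

lemma weak_rpow {a : ℝ} (ha : 0 ≤ a) (p : ℝ) : √a ^ (2 * p) = a ^ p := by
  rw [Real.rpow_mul (Real.sqrt_nonneg a), Real.rpow_two, Real.sq_sqrt ha]

lemma weak_sq {a : ℝ} (ha : 0 ≤ a) (r : ℝ) : (r * √a) ^ 2 = r ^ 2 * a := by
  rw [mul_pow, Real.sq_sqrt ha]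

lemma weak_w {f : ℝ → ℝ} (hf : ∀ r, 0 ≤ f r) (z : ℝ) {r : ℝ} (hr : 0 < r) :
    wOf z (fun s => 4 * Real.pi * (s * √(f s)) ^ 2) r / r =
      z / r - 4 * Real.pi * ∫ s in Ioi (0 : ℝ), s ^ 2 * f s / max r s := by
  have h1 : ∀ s : ℝ, 4 * Real.pi * (s * √(f s)) ^ 2 * (r / max r s) =
      (r * (4 * Real.pi)) * (s ^ 2 * f s / max r s) := fun s => by
    rw [weak_sq (hf s)]; ring
  unfold wOf
  simp only [h1]
  rw [integral_const_mul]
  field_simp

theorem p_WEAK (hINT : S_INT) (hLAP : S_LAP) (hNEW : S_NEW) (hMEAS : S_MEAS) :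
    S_WEAK := by
  intro A γ z lam μ ρ g f hA hρ hf hEL
  obtain ⟨f1, hm, h0, hf1⟩ := hMEAS ρ f hρ.L1.aestronglyMeasurable hρ.nonneg hf
  have hI1 : IntegrableOn (fun r => r ^ 2 * f1 r) (Ioi (0 : ℝ)) :=
    (rad_integrable f1).1 (hρ.L1.congr hf1)
  have hI2 : IntegrableOn (fun r => r ^ 2 * f1 r ^ (5 / 3 : ℝ)) (Ioi (0 : ℝ)) :=
    (rad_integrable (fun r => f1 r ^ (5 / 3 : ℝ))).1
      ((MP_3d36e1_mp.Admissible.integrable_rpow (by norm_num) hρ).congr
        (hf1.mono fun x hx => by simp only [hx]))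
  have hdiv : ∀ r : ℝ, 0 < r → r * √(f1 r) / r = √(f1 r) := fun r hr => by
    field_simp
  have hpot : ∀ x : R3, x ≠ 0 →
      pot ρ x = 4 * Real.pi * ∫ s in Ioi (0 : ℝ), s ^ 2 * f1 s / max ‖x‖ s := fun x hx => by
    rw [← hNEW f1 hm h0 hI1 x hx]
    exact integral_congr_ae (hf1.mono fun y hy => by simp only [hy])
  have hne : ∀ᵐ x : R3, x ≠ 0 := by simp [ae_iff]
  refine ⟨fun r => r * √(f1 r), ⟨measurable_id.mul hm.sqrt, fun r hr => by positivity, ?_, ?_, ?_⟩, ?_⟩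
  · simp only [weak_sq (h0 _)]
    exact hI1
  · refine hI2.congr_fun (fun r hr => ?_) measurableSet_Ioi
    simp only [hdiv r hr]
    rw [show (10 / 3 : ℝ) = 2 * (5 / 3) by norm_num, weak_rpow (h0 r)]
  · intro h hh
    obtain ⟨hη, hlap⟩ := hLAP (fun x => √(ρ x)) g h hρ.grad
      (MP_3d36e1_mp.memLp_sqrt hρ.nonneg hρ.L1) hρ.grad_L2 hh
    obtain ⟨-, i1, -, i2, i3, i4, -⟩ := hINT lam ρ g _ hρ hη
    have hE := hEL _ hη
    unfold Lam at hE
    rw [hlap] at hE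
    set P : ℝ → ℝ := fun r => 4 * Real.pi * ∫ s in Ioi (0 : ℝ), s ^ 2 * f1 s / max r s with hP
    have e1 : ∫ x : R3, √(ρ x) *
        (4 * ‖x‖ ^ 2 * deriv (deriv h) (‖x‖ ^ 2) + 6 * deriv h (‖x‖ ^ 2)) =
        4 * Real.pi * ∫ r in Ioi (0 : ℝ), r * √(f1 r) *
          (4 * r ^ 3 * deriv (deriv h) (r ^ 2) + 6 * r * deriv h (r ^ 2)) := by
      have := rad_int (fun r => √(f1 r) *
        (4 * r ^ 2 * deriv (deriv h) (r ^ 2) + 6 * deriv h (r ^ 2)))
      rw [integral_congr_ae (hf1.mono fun x hx => by rw [hx]), this]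
      congr 2
      funext r
      ring
    have i5 : Integrable (fun x : R3 =>
        (γ * ρ x ^ (2 / 3 : ℝ) - z / ‖x‖ + pot ρ x) * (√(ρ x) * h (‖x‖ ^ 2))) := by
      refine (((i2.const_mul γ).sub (i3.const_mul z)).add i4).congr
        (Eventually.of_forall fun x => ?_)
      simp only [Pi.add_apply, Pi.sub_apply]
      ring
    have e2 : (∫ x : R3, (γ * ρ x ^ (2 / 3 : ℝ) - z / ‖x‖ + pot ρ x) * (√(ρ x) * h (‖x‖ ^ 2))) +
        μ * ∫ x : R3, √(ρ x) * h (‖x‖ ^ 2) =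
        4 * Real.pi * (A * ∫ r in Ioi (0 : ℝ), coef A γ z μ (fun r => r * √(f1 r)) r *
          (r * √(f1 r)) * (r * h (r ^ 2))) := by
      have := rad_int (fun r => (γ * f1 r ^ (2 / 3 : ℝ) - z / r + P r + μ) *
        (√(f1 r) * h (r ^ 2)))
      rw [← integral_const_mul μ, ← integral_add i5 (i1.const_mul μ), ← integral_const_mul A,
        setIntegral_congr_fun (g := fun r => r ^ 2 * ((γ * f1 r ^ (2 / 3 : ℝ) - z / r + P r + μ) *
          (√(f1 r) * h (r ^ 2)))) measurableSet_Ioi (fun r hr => ?_), ← this]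
      · refine integral_congr_ae ?_
        filter_upwards [hf1, hne] with x hx hx0
        rw [hpot x hx0, hx]
        ring
      · have hr' : 0 < r := hr
        unfold coef
        simp only [hdiv r hr', weak_w h0 z hr']
        rw [show (4 / 3 : ℝ) = 2 * (2 / 3) by norm_num, weak_rpow (h0 r)]
        field_simp
        ring
    rw [add_assoc, e2, e1] at hE
    have hc : 4 * Real.pi * A ≠ 0 := by positivity
    apply mul_left_cancel₀ hc
    linarith
  · rw [integral_congr_ae hf1, rad_int, ← integral_const_mul]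
    simp only [weak_sq (h0 _)]

end Pool.Agent.P.MP_97b9bc_mp.T
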