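import Pool.Agent.P.MP_97b9bc_mp.T.IfaceA

/-! Step PQ. -/

set_option autoImplicit false

namespace Pool.Agent.P.MP_97b9bc_mp.T

open MeasureTheory Set Filter Topology
open scoped ContDiff

lemma pq_alg {m w v L t2 s : ℝ} (hm : 0 < m) (ht : 0 ≤ t2) (hs : 0 < s) (h : s ^ 2 = m + w ^ 2) :
    0 ≤ ((t2 + L ^ 2) * m + v ^ 2) * s - (L * m + w * v) * ((L * m + w * v) / s) := by
  have e : ((t2 + L ^ 2) * m + v ^ 2) * s - (L * m + w * v) * ((L * m + w * v) / s) =
      (((t2 + L ^ 2) * m + v ^ 2) * s ^ 2 - (L * m + w * v) ^ 2) / s := by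
    field_simp
  rw [e, h]
  apply div_nonneg _ hs.le
  have : ((t2 + L ^ 2) * m + v ^ 2) * (m + w ^ 2) - (L * m + w * v) ^ 2 =
      t2 * m * (m + w ^ 2) + m * (L * w - v) ^ 2 := by ring
  rw [this]
  positivity

theorem p_PQ :
    S_PQ := by
  intro z μ Q X h
  set P : ℝ → ℝ := fun r => √(X.m r + X.w r ^ 2) with hP
  set n : ℝ → ℝ := fun r => X.L r * X.m r + X.w r * X.v r with hn
  have hp : ∀ r, 0 < r → 0 < X.m r + X.w r ^ 2 := fun r hr => by
    have := h.mpos hr
    positivity
  have hP0 : ∀ r, 0 < r → 0 < P r := fun r hr => Real.sqrt_pos.2 (hp r hr)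
  have dP : ∀ r, 0 < r → HasDerivAt P (n r / P r) r := fun r hr => by
    refine (((h.dm hr).fun_add ((h.dw r hr).fun_pow 2)).sqrt (hp r hr).ne').congr_deriv ?_
    have := (hP0 r hr).ne'
    simp only [hP, hn] at this ⊢
    push_cast
    field_simp
  have dn : ∀ r, 0 < r →
      HasDerivAt n ((X.t r ^ 2 + μ + X.L r ^ 2) * X.m r + X.v r ^ 2) r := fun r hr => by
    refine (((h.dL r hr).fun_mul (h.dm hr)).fun_add
      ((h.dw r hr).fun_mul (h.dv r hr))).congr_deriv ?_
    have := hr.ne'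
    unfold Q4.m
    field_simp
    ring
  have hG : ∀ a b, 0 < a → a ≤ b → n a / P a ≤ n b / P b := fun a b ha hab => by
    have := anti' (f := fun r => -(n r / P r)) hab
      (fun r h1 _ => ((dn r (ha.trans_le h1)).fun_div (dP r (ha.trans_le h1))
        (hP0 r (ha.trans_le h1)).ne').fun_neg)
      (fun r h1 _ => by
        have hr := ha.trans_le h1
        have := pq_alg (L := X.L r) (v := X.v r) (t2 := X.t r ^ 2 + μ) (h.mpos hr)
          (by have := h.mu; positivity) (hP0 r hr) (Real.sq_sqrt (hp r hr).le)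
        rw [neg_nonpos]
        exact div_nonneg this (sq_nonneg _))
    linarith
  have hG0 : ∀ a, 0 < a → n a / P a ≤ 0 := fun a ha => by
    by_contra hc
    push Not at hc
    set g := n a / P a with hg
    obtain ⟨r, h1, h2, h3⟩ := h.small one_pos (a + (1 + z + |Q|) / g + 1)
    have hz := h.zpos
    have hq : 0 ≤ (1 + z + |Q|) / g := by positivity
    have har : a ≤ r := by linarith
    have h4 := anti' (f := fun s => g * s - P s) har
      (fun s h1 _ => ((hasDerivAt_id' s).const_mul g).fun_sub (dP s (ha.trans_le h1)))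
      (fun s h1 _ => by have := hG a s ha h1; linarith)
    have hr : 0 < r := by linarith
    have hw : |X.w r| ≤ z + |Q| := by
      rw [abs_le]
      constructor
      · linarith [h.le_w hr, le_abs_self Q]
      · linarith [h.w_le hr, abs_nonneg Q]
    have h5 : P r ≤ 1 + z + |Q| := by
      refine Real.sqrt_le_iff.2 ⟨by positivity, ?_⟩
      have := sq_le_sq' (by linarith [abs_nonneg (X.w r)]) hw
      rw [sq_abs] at this
      nlinarith [abs_nonneg Q]
    have h6 : g * ((1 + z + |Q|) / g) = 1 + z + |Q| := by field_simp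
    have h7 : g * (a + (1 + z + |Q|) / g + 1) ≤ g * r := by gcongr
    have := hP0 a ha
    nlinarith
  have hm0 : Tendsto X.m (𝓝[>] 0) (𝓝 0) := by
    have h1 : Tendsto (fun r : ℝ => √(r * (r * X.t r ^ 2) ^ 3)) (𝓝[>] 0) (𝓝 √(0 * 0 ^ 3)) :=
      ((tendsto_id.mono_left nhdsWithin_le_nhds).mul (h.t0.pow 3)).sqrt
    rw [zero_mul, Real.sqrt_zero] at h1
    refine h1.congr' ?_
    filter_upwards [self_mem_nhdsWithin] with r hr
    rw [show r * (r * X.t r ^ 2) ^ 3 = X.m r ^ 2 by unfold Q4.m; ring,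
      Real.sqrt_sq (h.mpos hr).le]
  have hPz : Tendsto P (𝓝[>] 0) (𝓝 z) := by
    have := (hm0.add (h.w0.pow 2)).sqrt
    rwa [zero_add, Real.sqrt_sq h.zpos.le] at this
  have hw : ∀ r, 0 < r → |X.w r| ≤ z := fun r hr => by
    have h1 : P r ≤ z := by
      refine ge_of_tendsto hPz ?_
      filter_upwards [Ioc_mem_nhdsGT hr] with s hs
      exact anti' hs.2 (fun x h1 _ => dP x (hs.1.trans_le h1))
        (fun x h1 _ => hG0 x (hs.1.trans_le h1))
    exact (Real.abs_le_sqrt (by linarith [h.mpos hr])).trans h1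
  rw [← abs_neg]
  refine le_of_tendsto h.winf.abs ?_
  filter_upwards [eventually_gt_atTop 0] with r hr using hw r hr

end Pool.Agent.P.MP_97b9bc_mp.T
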