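import Pool.Agent.P.MP_97b9bc_mp.T.IfaceN

/-! Step INNER. -/

set_option autoImplicit false

namespace Pool.Agent.P.MP_97b9bc_mp.T

open MeasureTheory Set Filter Topology

/-- the inner solution -/
noncomputable def innerX (P P1 W V : ℝ → ℝ) : Q4 :=
  ⟨fun r => P r / r ^ 2, fun r => 3 / 2 * P1 r / P r - 2 / r, fun r => W r / r ^ 3,
    fun r => V r / r ^ 4⟩

/-- the inner residual -/
noncomputable def innerE (P P1 P2 W : ℝ → ℝ) (r : ℝ) : ℝ :=
  (3 / 2 * r ^ 4 * P r * P2 r + 3 / 4 * r ^ 4 * P1 r ^ 2 - 6 * r ^ 3 * P r * P1 r +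
    6 * r ^ 2 * P r ^ 2 - P r ^ 4 + W r * P r ^ 2) / (r ^ 4 * P r ^ 2)

lemma inner_pow (n : ℕ) (r : ℝ) : HasDerivAt (fun s : ℝ => s ^ (n + 1)) ((n + 1) * r ^ n) r := by
  simpa using hasDerivAt_pow (n + 1) r

theorem p_INNER (hGLUE : S_GLUE) :
    S_INNER := by
  intro E s P P1 P2 W W1 V V1 hE0 hE h hF
  obtain ⟨X2, e2, c2, p2, hG2, hm, hv, ⟨K, hK⟩, hr2, a1, a2, a3, a4⟩ := hF
  have hP : ∀ r, 0 < r → r ≤ 1 / 2 → 12 - r ≤ P r ∧ P r ≤ 12 + r := by
    intro r h0 h1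
    have := abs_le.1 (h r h0 h1).2.2.2.2.2.2.1
    constructor <;> linarith [this.1, this.2]
  have hP0 : ∀ r, 0 < r → r ≤ 1 / 2 → 0 < P r := fun r h0 h1 => by linarith [(hP r h0 h1).1]
  have he : ∀ r, 0 < r → r ≤ 1 / 2 → |innerE P P1 P2 W r| ≤ E := by
    intro r h0 h1
    have h2 := hP0 r h0 h1
    have h3 : 132 ≤ P r ^ 2 := by nlinarith [(hP r h0 h1).1]
    rw [innerE, abs_div, abs_of_pos (by positivity : 0 < r ^ 4 * P r ^ 2),
      div_le_iff₀ (by positivity)]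
    refine (h r h0 h1).2.2.2.2.2.2.2.2.2.2.trans ?_
    rw [mul_comm (r ^ 4)]
    gcongr
  have dt : ∀ r, 0 < r → r ≤ 1 / 2 → HasDerivAt (innerX P P1 W V).t
      (2 / 3 * (innerX P P1 W V).t r * ((innerX P P1 W V).L r - 1 / r)) r := by
    intro r h0 h1
    have h2 := (hP0 r h0 h1).ne'
    have h3 := h0.ne'
    refine ((h r h0 h1).1.fun_div (inner_pow 1 r) (by positivity)).congr_deriv ?_
    simp only [innerX]
    push_cast
    field_simp
    ring
  have dL : ∀ r, 0 < r → r ≤ 1 / 2 → HasDerivAt (innerX P P1 W V).L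
      ((innerX P P1 W V).t r ^ 2 - (innerX P P1 W V).w r / r - (innerX P P1 W V).L r ^ 2 +
        innerE P P1 P2 W r) r := by
    intro r h0 h1
    have h2 := (hP0 r h0 h1).ne'
    have h3 := h0.ne'
    refine (((((h r h0 h1).2.1.const_mul (3 / 2)).fun_div (h r h0 h1).1 h2)).fun_sub
      ((hasDerivAt_const r (2 : ℝ)).fun_div (hasDerivAt_id' r) h3)).congr_deriv ?_
    simp only [innerX, innerE]
    field_simp
    ring
  have dw : ∀ r, 0 < r → r ≤ 1 / 2 →
      HasDerivAt (innerX P P1 W V).w ((innerX P P1 W V).v r) r := by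
    intro r h0 h1
    have h3 := h0.ne'
    refine ((h r h0 h1).2.2.1.fun_div (inner_pow 2 r) (by positivity)).congr_deriv ?_
    simp only [innerX]
    rw [(h r h0 h1).2.2.2.2.1]
    push_cast
    field_simp
    ring
  have dv : ∀ r, 0 < r → r ≤ 1 / 2 →
      HasDerivAt (innerX P P1 W V).v (r * (innerX P P1 W V).t r ^ 3) r := by
    intro r h0 h1
    have h3 := h0.ne'
    refine ((h r h0 h1).2.2.2.1.fun_div (inner_pow 3 r) (by positivity)).congr_deriv ?_
    simp only [innerX]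
    rw [div_pow, ← (h r h0 h1).2.2.2.2.2.1]
    push_cast
    field_simp
    ring
  have dP : ∀ r : ℝ, HasDerivAt (fun x : ℝ => c2 (1 / 2) + 13 * E ^ 2 * (1 / 2 - x))
      (-(13 * E ^ 2)) r := by
    intro r
    refine ((((hasDerivAt_id' r).const_sub (1 / 2)).const_mul (13 * E ^ 2)).const_add
      (c2 (1 / 2))).congr_deriv ?_
    ring
  have hG1 : GoodOn (Ioc 0 (1 / 2)) (innerX P P1 W V) (innerE P P1 P2 W)
      (fun x : ℝ => c2 (1 / 2) + 13 * E ^ 2 * (1 / 2 - x)) (fun _ => 13 * E ^ 2) :=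
    { pos := fun r hr => div_pos (hP0 r hr.1 hr.2) (pow_pos hr.1 2)
      ct := fun r hr => (dt r hr.1 hr.2).continuousAt.continuousWithinAt
      cL := fun r hr => (dL r hr.1 hr.2).continuousAt.continuousWithinAt
      cw := fun r hr => (dw r hr.1 hr.2).continuousAt.continuousWithinAt
      cv := fun r hr => (dv r hr.1 hr.2).continuousAt.continuousWithinAt
      cP := fun r _ => (dP r).continuousAt.continuousWithinAt
      dt := fun r hr => (dt r hr.1 hr.2).hasDerivWithinAt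
      dL := fun r hr => (dL r hr.1 hr.2).hasDerivWithinAt
      dw := fun r hr => (dw r hr.1 hr.2).hasDerivWithinAt
      dv := fun r hr => (dv r hr.1 hr.2).hasDerivWithinAt
      dP := fun r _ => (dP r).hasDerivWithinAt
      src := fun r hr => Or.inl ⟨(he r hr.1 hr.2).trans hE, by
        have h1 : innerE P P1 P2 W r ^ 2 ≤ E ^ 2 := sq_le_sq' (abs_le.1 (he r hr.1 hr.2)).1
          (abs_le.1 (he r hr.1 hr.2)).2
        have h2 : r ^ 2 * (2 * (innerX P P1 W V).t r + 1) = 2 * P r + r ^ 2 := by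
          have := hr.1.ne'
          simp only [innerX]
          field_simp
        have h3 : 2 * P r + r ^ 2 ≤ 26 := by nlinarith [(hP r hr.1 hr.2).2, hr.1, hr.2]
        have h4 : (2 * P r + r ^ 2) * innerE P P1 P2 W r ^ 2 ≤ 26 * E ^ 2 := by gcongr
        rw [h2]
        linarith⟩ }
  obtain ⟨X, e, c, p, hG, b1, b2, b3⟩ := hGLUE (Ioc 0 (1 / 2)) (1 / 2) _ X2 _ _ _ e2 c2 p2
    Ioc_subset_Iic_self ⟨by norm_num, le_rfl⟩ hG1 hG2
    (by rw [a1]; simp only [innerX]; ring) (by rw [a2]; simp only [innerX]; norm_num)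
    (by rw [a3]; simp only [innerX]; ring) (by rw [a4]; simp only [innerX]; ring) (by simp)
  rw [Ioc_union_Ici_eq_Ioi (by norm_num)] at hG
  have hE2 : 0 ≤ E ^ 2 := sq_nonneg E
  refine ⟨e, X, ⟨hG.pos, hG.ct, hG.cL, hG.cw, hG.cv, hG.dt, hG.dL, hG.dw, hG.dv⟩, ?_,
    ⟨hm.congr' ?_, hv.congr' ?_, K, fun r hr => ?_⟩,
    ⟨fun r => s + 13 / 2 * E ^ 2 - c r, p, continuousOn_const.sub hG.cP, fun r hr =>
      ⟨?_, ?_, ?_, hG.src r hr⟩⟩, fun r h0 h1 => ?_, fun r hr => ?_⟩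
  · intro r h0 _ h1
    obtain ⟨c1, c2, c3, c4, -⟩ := b1 r h1
    obtain ⟨-, -, -, -, -, -, -, d1, d2, d3, -⟩ := h r h0 h1
    have h2 := hP r h0 h1
    have h3 := hP0 r h0 h1
    rw [c1, c2, c3, c4]
    simp only [innerX]
    refine ⟨?_, by gcongr; linarith [h2.2], ?_, ?_, ?_⟩
    · have h4 : r ≤ √r := Real.le_sqrt_of_sq_le (by nlinarith)
      rw [zero_div, Real.sqrt_zero, add_zero, div_mul_eq_mul_div]
      gcongr
      linarith [h2.1]
    · have h4 : |3 / 2 * P1 r / P r| ≤ 1 := by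
        rw [abs_div, abs_mul, abs_of_pos h3, div_le_one h3, abs_of_pos (by norm_num)]
        linarith [h2.1]
      have h5 : 2 ≤ 1 / r := by rw [le_div_iff₀ h0]; linarith
      have h6 : 2 / r = 2 * (1 / r) := by ring
      have h7 : 1000 / r = 1000 * (1 / r) := by ring
      rw [abs_le] at h4 ⊢
      constructor <;> linarith [h4.1, h4.2]
    · rw [abs_div, abs_of_pos (pow_pos h0 3)]
      gcongr
    · rw [abs_div, abs_of_pos (pow_pos h0 4)]
      gcongr
  · filter_upwards [eventually_ge_atTop (1 / 2)] with r hr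
    simp only [Q4.m, (b3 r hr).1]
  · filter_upwards [eventually_ge_atTop (1 / 2)] with r hr
    exact (b3 r hr).2.2.2.1.symm
  · rw [(b3 r (by linarith)).2.1, (b3 r (by linarith)).2.2.1]
    exact hK r (by linarith)
  · simpa using (hG.dP r hr).const_sub (s + 13 / 2 * E ^ 2)
  · beta_reduce
    rcases le_total r (1 / 2) with h1 | h1
    · rw [(b1 r h1).2.2.2.2]
      have := (hr2 (1 / 2) le_rfl).2.2.1
      nlinarith
    · rw [(b3 r h1).2.2.2.2.1]
      have := (hr2 r h1).2.2.1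
      linarith
  · beta_reduce
    rcases le_total r (1 / 2) with h1 | h1
    · rw [(b1 r h1).2.2.2.2]
      have := (hr2 (1 / 2) le_rfl).2.1
      nlinarith
    · rw [(b3 r h1).2.2.2.2.1]
      have := (hr2 r h1).2.1
      linarith
  · rcases h1.eq_or_lt with h2 | h2
    · rw [(b3 r h2.ge).2.2.2.2.2]
      exact (hr2 r h2.ge).2.2.2
    · rw [b2 r h2]
      linarith [he r h0 h1]
  · have h1 : 1 / 2 ≤ r := by linarith
    rw [(b3 r h1).1, (b3 r h1).2.2.1]
    exact (hr2 r h1).1 hr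

end Pool.Agent.P.MP_97b9bc_mp.T
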