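import Pool.Agent.P.MP_97b9bc_mp.T.IfaceN

/-! Step PIECE. -/

set_option autoImplicit false

namespace Pool.Agent.P.MP_97b9bc_mp.T

open MeasureTheory Set Filter Topology

lemma piece_dL (T T1 : ℝ → ℝ) (t2 w r : ℝ) (hr : 0 < r) (hT : 0 < T r)
    (h1 : HasDerivAt T (T1 r) r) (h2 : HasDerivAt T1 t2 r) :
    HasDerivAt (fun x => 3 / 2 * T1 x / T x + 1 / x)
      (T r ^ 2 - w / r - (3 / 2 * T1 r / T r + 1 / r) ^ 2 +
        (3 / 2 * r * T r * t2 + 3 / 4 * r * T1 r ^ 2 + 3 * T r * T1 r - r * T r ^ 4 +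
          w * T r ^ 2) / (r * T r ^ 2)) r := by
  have ha := (h2.const_mul (3 / 2)).div h1 hT.ne'
  have hb := (hasDerivAt_const r (1 : ℝ)).div (hasDerivAt_id r) hr.ne'
  have hc := ha.add hb
  refine HasDerivAt.congr_deriv hc ?_
  have h3 := hT.ne'
  have h4 := hr.ne'
  simp only [id]
  field_simp
  ring

theorem p_PIECE (hGLUE : S_GLUE) :
    S_PIECE := by
  intro a b E tm tM c s T T1 T2 W V ha hab htm hE hE2 hc h hF
  obtain ⟨X2, e2, P2, p2, hG2, hm2, hv2, ⟨K2, hK2⟩, hB2, ht, hL, hw, hv⟩ := hF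
  have hpos : ∀ r, a ≤ r → r ≤ b → 0 < T r := fun r h1 h2 =>
    htm.trans_le (h r h1 h2).2.2.2.2.1
  have htM : 0 < tM := (hpos a le_rfl hab.le).trans_le (h a le_rfl hab.le).2.2.2.2.2.1
  have hc0 : 0 ≤ c := le_trans (by positivity) hc
  let e1 : ℝ → ℝ := fun r =>
    (3 / 2 * r * T r * T2 r + 3 / 4 * r * T1 r ^ 2 + 3 * T r * T1 r - r * T r ^ 4 +
      W r * T r ^ 2) / (r * T r ^ 2)
  have he1 : ∀ r, a ≤ r → r ≤ b → |e1 r| ≤ E := by
    intro r h1 h2
    have hr : 0 < r := ha.trans_le h1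
    have hT := hpos r h1 h2
    have hd : 0 < r * T r ^ 2 := by positivity
    have h3 : a * tm ^ 2 ≤ r * T r ^ 2 :=
      mul_le_mul h1 (pow_le_pow_left₀ htm.le (h r h1 h2).2.2.2.2.1 2) (by positivity) hr.le
    show |_ / _| ≤ E
    rw [abs_div, abs_of_pos hd, div_le_iff₀ hd]
    exact (h r h1 h2).2.2.2.2.2.2.1.trans (mul_le_mul_of_nonneg_left h3 hE)
  let X1 : Q4 := ⟨T, fun x => 3 / 2 * T1 x / T x + 1 / x, W, V⟩
  have hdL : ∀ r, a ≤ r → r ≤ b →
      HasDerivAt X1.L (X1.t r ^ 2 - X1.w r / r - X1.L r ^ 2 + e1 r) r := fun r h1 h2 =>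
    piece_dL T T1 (T2 r) (W r) r (ha.trans_le h1) (hpos r h1 h2) (h r h1 h2).1 (h r h1 h2).2.1
  have hdP : ∀ r, HasDerivAt (fun x => P2 b + c * (b - x)) (-c) r := by
    intro r
    have := (((hasDerivAt_id r).const_sub b).const_mul c).const_add (P2 b)
    simpa using this
  have hcL : ContinuousOn X1.L (Icc a b) := fun r hr =>
    (hdL r hr.1 hr.2).continuousAt.continuousWithinAt
  have hcw : ContinuousOn X1.w (Icc a b) := fun r hr =>
    (h r hr.1 hr.2).2.2.1.continuousAt.continuousWithinAt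
  have hG1 : GoodOn (Icc a b) X1 e1 (fun x => P2 b + c * (b - x)) (fun _ => c) := by
    refine ⟨fun r hr => hpos r hr.1 hr.2,
      fun r hr => (h r hr.1 hr.2).1.continuousAt.continuousWithinAt, hcL, hcw,
      fun r hr => (h r hr.1 hr.2).2.2.2.1.continuousAt.continuousWithinAt,
      fun r _ => (hdP r).continuousAt.continuousWithinAt, ?_,
      fun r hr => (hdL r hr.1 hr.2).hasDerivWithinAt,
      fun r hr => (h r hr.1 hr.2).2.2.1.hasDerivWithinAt,
      fun r hr => (h r hr.1 hr.2).2.2.2.1.hasDerivWithinAt,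
      fun r _ => (hdP r).hasDerivWithinAt, ?_⟩
    · intro r hr
      have h0 := (hpos r hr.1 hr.2).ne'
      refine ((h r hr.1 hr.2).1.congr_deriv ?_).hasDerivWithinAt
      show T1 r = 2 / 3 * T r * (3 / 2 * T1 r / T r + 1 / r - 1 / r)
      rw [add_sub_cancel_right]
      field_simp
    · intro r hr
      left
      have h1 := he1 r hr.1 hr.2
      refine ⟨h1.trans hE2, le_trans ?_ hc⟩
      have hr0 : 0 < r := ha.trans_le hr.1
      have h2 : e1 r ^ 2 ≤ E ^ 2 := by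
        rw [← sq_abs]
        exact pow_le_pow_left₀ (abs_nonneg _) h1 2
      have h3 : r ^ 2 ≤ b ^ 2 := pow_le_pow_left₀ hr0.le hr.2 2
      have h4 : T r ≤ tM := (h r hr.1 hr.2).2.2.2.2.2.1
      have h5 := hpos r hr.1 hr.2
      show r ^ 2 * (2 * T r + 1) * e1 r ^ 2 / 2 ≤ _
      gcongr
  obtain ⟨X, e, P, p, hG, hl, hle, hr⟩ := hGLUE (Icc a b) b X1 X2 e1 _ _ e2 P2 p2
    (fun r hr => hr.2) ⟨hab.le, le_rfl⟩ hG1 hG2 ht.symm hL.symm hw.symm hv.symm (by simp)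
  rw [Icc_union_Ici_eq_Ici hab.le] at hG
  obtain ⟨K1, hK1⟩ := isCompact_Icc.exists_bound_of_continuousOn hcL
  obtain ⟨K3, hK3⟩ := isCompact_Icc.exists_bound_of_continuousOn hcw
  have hcab : 0 ≤ c * (b - a) := mul_nonneg hc0 (by linarith)
  refine ⟨X, e, P, p, hG, hm2.congr' ?_, hv2.congr' ?_, ⟨max K2 (max K1 K3), ?_⟩, ?_,
    (hl a hab.le).1, (hl a hab.le).2.1, (hl a hab.le).2.2.1, (hl a hab.le).2.2.2.1⟩
  · filter_upwards [eventually_ge_atTop b] with r h1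
    unfold Q4.m
    rw [(hr r h1).1]
  · filter_upwards [eventually_ge_atTop b] with r h1
    rw [(hr r h1).2.2.2.1]
  · intro r h1
    rcases le_total r b with h2 | h2
    · rw [(hl r h2).2.1, (hl r h2).2.2.1]
      exact ⟨(hK1 r ⟨h1, h2⟩).trans ((le_max_left _ _).trans (le_max_right _ _)),
        (hK3 r ⟨h1, h2⟩).trans ((le_max_right _ _).trans (le_max_right _ _))⟩
    · rw [(hr r h2).2.1, (hr r h2).2.2.1]
      exact ⟨(hK2 r h2).1.trans (le_max_left _ _), (hK2 r h2).2.trans (le_max_left _ _)⟩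
  · intro r h1
    rcases lt_or_ge r b with h2 | h2
    · have h3 := hl r h2.le
      have h4 := hB2 b le_rfl
      have h5 : 0 ≤ c * (b - r) := mul_nonneg hc0 (by linarith)
      have h6 : c * (b - r) ≤ c * (b - a) := mul_le_mul_of_nonneg_left (by linarith) hc0
      refine ⟨?_, ?_, ?_, ?_⟩
      · intro h31
        rw [h3.1, h3.2.2.1]
        exact (h r h1 h2.le).2.2.2.2.2.2.2 h31 h2
      · rw [h3.2.2.2.2]
        linarith [h4.2.1]
      · rw [h3.2.2.2.2]
        linarith [h4.2.2.1]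
      · rw [hle r h2]
        linarith [he1 r h1 h2.le]
    · have h3 := hr r h2
      have h4 := hB2 r h2
      refine ⟨?_, ?_, ?_, ?_⟩
      · intro h31
        rw [h3.1, h3.2.2.1]
        exact h4.1 h31
      · rw [h3.2.2.2.2.1]
        exact h4.2.1
      · rw [h3.2.2.2.2.1]
        linarith [h4.2.2.1]
      · rw [h3.2.2.2.2.2]
        exact h4.2.2.2

end Pool.Agent.P.MP_97b9bc_mp.T
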