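import Mathlib

/-! Polynomials as lists of rational coefficients. -/

set_option autoImplicit false

namespace Pool.Agent.P.MP_97b9bc_mp.T

/-- evaluation at a real number -/
noncomputable def ev : List ℚ → ℝ → ℝ
  | [], _ => 0
  | c :: p, x => c + x * ev p x

/-- evaluation at a rational number -/
def evQ : List ℚ → ℚ → ℚ
  | [], _ => 0
  | c :: p, x => c + x * evQ p x

/-- sum of absolute values of the terms -/
def absb : List ℚ → ℚ → ℚ
  | [], _ => 0
  | c :: p, x => |c| + x * absb p x

def padd : List ℚ → List ℚ → List ℚ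
  | [], q => q
  | a :: p, [] => a :: p
  | a :: p, b :: q => (a + b) :: padd p q

def psm (c : ℚ) : List ℚ → List ℚ
  | [] => []
  | a :: p => (c * a) :: psm c p

def pmul : List ℚ → List ℚ → List ℚ
  | [], _ => []
  | a :: p, q => padd (psm a q) (0 :: pmul p q)

def derA : ℚ → List ℚ → List ℚ
  | _, [] => []
  | n, a :: p => (n * a) :: derA (n + 1) p

def pder : List ℚ → List ℚ
  | [] => []
  | _ :: p => derA 1 p

def intA : ℚ → List ℚ → List ℚ
  | _, [] => []
  | n, a :: p => (a / n) :: intA (n + 1) p

/-- the primitive with value `y` at `x` -/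
def pint (x y : ℚ) (p : List ℚ) : List ℚ := (y - x * evQ (intA 1 p) x) :: intA 1 p

def allz : List ℚ → Bool
  | [] => true
  | a :: p => decide (a = 0) && allz p

lemma ev_cast (p : List ℚ) (x : ℚ) : ev p x = evQ p x := by
  induction p with
  | nil => simp [ev, evQ]
  | cons c p ih => simp [ev, evQ, ih]

lemma abs_ev_le (p : List ℚ) {x : ℝ} {h : ℚ} (hx : |x| ≤ h) : |ev p x| ≤ absb p h := by
  induction p with
  | nil => simp [ev, absb]
  | cons c p ih =>
    simp only [ev, absb]
    push_cast
    refine (abs_add_le _ _).trans ?_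
    rw [abs_mul]
    gcongr
    exact (abs_nonneg x).trans hx

lemma ev_padd (p q : List ℚ) (x : ℝ) : ev (padd p q) x = ev p x + ev q x := by
  induction p generalizing q with
  | nil => simp [padd, ev]
  | cons a p ih =>
    cases q with
    | nil => simp [padd, ev]
    | cons b q => simp only [padd, ev, ih]; push_cast; ring

lemma ev_psm (c : ℚ) (p : List ℚ) (x : ℝ) : ev (psm c p) x = c * ev p x := by
  induction p with
  | nil => simp [psm, ev]
  | cons a p ih => simp only [psm, ev, ih]; push_cast; ring

lemma ev_pmul (p q : List ℚ) (x : ℝ) : ev (pmul p q) x = ev p x * ev q x := by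
  induction p with
  | nil => simp [pmul, ev]
  | cons a p ih => simp only [pmul, ev_padd, ev_psm, ev, ih]; push_cast; ring

lemma ev_derA (n : ℚ) (p : List ℚ) (x : ℝ) : ev (derA (n + 1) p) x = ev (derA n p) x + ev p x := by
  induction p generalizing n with
  | nil => simp [derA, ev]
  | cons a p ih => simp only [derA, ev]; rw [ih (n + 1)]; push_cast; ring

lemma ev_derA_one (p : List ℚ) (x : ℝ) : ev (derA 1 p) x = ev p x + x * ev (pder p) x := by
  cases p with
  | nil => simp [derA, pder, ev]
  | cons a p => simp only [derA, pder, ev, ev_derA]; push_cast; ring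

lemma hasDerivAt_ev (p : List ℚ) (x : ℝ) : HasDerivAt (ev p) (ev (pder p) x) x := by
  induction p with
  | nil => simpa [ev, pder] using hasDerivAt_const x (0 : ℝ)
  | cons c p ih =>
    have := ((hasDerivAt_id' x).fun_mul ih).const_add (c : ℝ)
    refine HasDerivAt.congr_deriv (f := fun y => (c : ℝ) + y * ev p y) this ?_
    simp only [pder, ev_derA_one]
    ring

lemma derA_intA (n : ℚ) (hn : 0 < n) (p : List ℚ) : derA n (intA n p) = p := by
  induction p generalizing n with
  | nil => rfl
  | cons a p ih =>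
    simp only [intA, derA, ih (n + 1) (by linarith)]
    congr 1
    field_simp

lemma pder_pint (x y : ℚ) (p : List ℚ) : pder (pint x y p) = p := derA_intA 1 one_pos p

lemma evQ_pint (x y : ℚ) (p : List ℚ) : evQ (pint x y p) x = y := by
  simp [pint, evQ]

lemma hasDerivAt_pint (x y : ℚ) (p : List ℚ) (r : ℝ) : HasDerivAt (ev (pint x y p)) (ev p r) r := by
  have := hasDerivAt_ev (pint x y p) r
  rwa [pder_pint] at this

lemma ev_allz {p : List ℚ} (h : allz p = true) (x : ℝ) : ev p x = 0 := by
  induction p with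
  | nil => rfl
  | cons a p ih =>
    simp only [allz, Bool.and_eq_true, decide_eq_true_eq] at h
    simp [ev, h.1, ih h.2]

lemma ev_head_tail (p : List ℚ) (x : ℝ) : ev p x = p.headD 0 + x * ev p.tail x := by
  cases p <;> simp [ev]

/-- deviation from the constant coefficient -/
lemma abs_ev_sub (p : List ℚ) {x : ℝ} {h : ℚ} (hx : |x| ≤ h) :
    |ev p x - p.headD 0| ≤ h * absb p.tail h := by
  rw [ev_head_tail, add_sub_cancel_left, abs_mul]
  exact mul_le_mul hx (abs_ev_le _ hx) (abs_nonneg _) ((abs_nonneg x).trans hx)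

lemma ev_drop4 {p : List ℚ} (h : allz (p.take 4) = true) (x : ℝ) :
    ev p x = x ^ 4 * ev (p.drop 4) x := by
  rcases p with _ | ⟨a, _ | ⟨b, _ | ⟨c, _ | ⟨d, p⟩⟩⟩⟩ <;>
    simp [allz] at h <;> simp [ev, h]
  ring

end Pool.Agent.P.MP_97b9bc_mp.T
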