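import Pool.Agent.P.MP_97b9bc_mp.T.IfaceB

/-! Step OUTA. -/

set_option autoImplicit false

namespace Pool.Agent.P.MP_97b9bc_mp.T

open MeasureTheory Set Filter Topology

lemma outa_key {r a b m e p : ℝ} (hr : 0 < r) (ha : 0 < a) (hb : 0 < b) (hm : 0 ≤ m)
    (h1 : m ≤ r ^ 2 * (a + b)) (h2 : m * (a ^ 2 - b ^ 2) = r ^ 2 * a ^ 3 - r ^ 2 * b ^ 3)
    (h : (|e| ≤ 1 / 2 ∧ r ^ 2 * (2 * b + 1) * e ^ 2 / 2 ≤ p) ∨
      (e ≤ 0 ∧ r ^ 2 * b ^ 3 * (-e) ≤ p)) :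
    m * (a ^ 2 - b ^ 2) * e ≤ m * (a ^ 2 - b ^ 2) ^ 2 / 2 + p := by
  rcases h with ⟨he, hp⟩ | ⟨he, hp⟩
  · by_cases hab : a ≤ b + 1
    · have h3 : m ≤ r ^ 2 * (2 * b + 1) :=
        h1.trans (mul_le_mul_of_nonneg_left (by linarith) (by positivity))
      have h4 : m * e ^ 2 ≤ r ^ 2 * (2 * b + 1) * e ^ 2 :=
        mul_le_mul_of_nonneg_right h3 (by positivity)
      have h5 : 0 ≤ m * ((a ^ 2 - b ^ 2) - e) ^ 2 := by positivity
      nlinarith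
    · push Not at hab
      have h3 : 1 ≤ a ^ 2 - b ^ 2 := by nlinarith
      have h4 : 0 ≤ r ^ 2 * (2 * b + 1) * e ^ 2 / 2 := by positivity
      have h5 : e ≤ (a ^ 2 - b ^ 2) / 2 := by linarith [(abs_le.1 he).2]
      have h6 : 0 ≤ m * (a ^ 2 - b ^ 2) := mul_nonneg hm (by linarith)
      have h7 := mul_le_mul_of_nonneg_left h5 h6
      nlinarith
  · have h3 : 0 ≤ m * (a ^ 2 - b ^ 2) ^ 2 / 2 := by positivity
    have h4 : 0 ≤ r ^ 2 * a ^ 3 * (-e) := mul_nonneg (by positivity) (by linarith)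
    rw [h2]
    linarith

theorem p_OUTA (hGD : S_GD) :
    S_OUTA := by
  intro S e X Y hX hY hS
  obtain ⟨P, p, hP, hp⟩ := hS
  obtain ⟨hc, -, hd⟩ := hGD e X Y hX hY
  refine ⟨fun r => GG X Y r - P r, fun r => -formAt 0 0 e X Y r - p r, hc.sub hP,
    fun r hr => ?_⟩
  obtain ⟨h1, h2, h3, h4⟩ := hp r hr
  have ha := hX.pos r hr
  have hb := hY.pos r hr
  refine ⟨(hd r hr).1.sub h1, ?_, by linarith, by linarith⟩
  have hm : 0 ≤ mu X Y r := by unfold mu; positivity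
  have hU : 0 ≤ (X.m r + Y.m r) * (X.L r - Y.L r) ^ 2 := by unfold Q4.m; positivity
  have key := outa_key hr ha hb hm (mu_le ha hb) (mu_mul ha hb) h4
  simp only [formAt, form]
  linarith

end Pool.Agent.P.MP_97b9bc_mp.T
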