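import Pool.Agent.P.MP_97b9bc_mp.T.IfaceB

/-! Step OUTB. -/

set_option autoImplicit false

namespace Pool.Agent.P.MP_97b9bc_mp.T

open MeasureTheory Set Filter Topology

lemma outb_zero {f g : ℝ → ℝ} {K : ℝ} (hf : Tendsto f atTop (𝓝 0))
    (hg : ∀ r, 1 ≤ r → |g r| ≤ K) : Tendsto (fun r => f r * g r) atTop (𝓝 0) :=
  hf.zero_mul_isBoundedUnder_le ⟨K, by
    rw [eventually_map]
    filter_upwards [eventually_ge_atTop 1] with r hr using hg r hr⟩

lemma outb_far {X Y : Q4} (hX : Far X) (hY : Far Y) : Tendsto (GG X Y) atTop (𝓝 0) := by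
  obtain ⟨a1, a2, K1, a3⟩ := hX
  obtain ⟨b1, b2, K2, b3⟩ := hY
  have h1 := outb_zero (f := fun r => X.m r - Y.m r) (g := fun r => X.L r - Y.L r) (K := K1 + K2)
    (by simpa using a1.sub b1)
    (fun r hr => (abs_sub _ _).trans (add_le_add (a3 r hr).1 (b3 r hr).1))
  have h2 := outb_zero (f := fun r => X.v r - Y.v r) (g := fun r => X.w r - Y.w r) (K := K1 + K2)
    (by simpa using a2.sub b2)
    (fun r hr => (abs_sub _ _).trans (add_le_add (a3 r hr).2 (b3 r hr).2))
  have h3 := h1.neg.sub h2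
  rw [neg_zero, sub_zero] at h3
  refine h3.congr fun r => ?_
  unfold GG
  ring

theorem p_OUTB (hOUTA : S_OUTA) :
    S_OUTB := by
  intro S e X Y hX hY hS fX fY r0 hr0
  obtain ⟨F, F', hc, hF⟩ := hOUTA S e X Y hX hY hS
  have hmu : ∀ r, 0 < r → 0 ≤ mu X Y r := fun r hr => by
    have h1 := hX.pos r hr
    have h2 := hY.pos r hr
    exact le_trans (by positivity) (le_mu h1 h2)
  have hg : ∀ r, 0 < r → 0 ≤ mu X Y r * (X.t r ^ 2 - Y.t r ^ 2) ^ 2 / 2 := fun r hr => by
    have := hmu r hr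
    positivity
  have hsub : ∀ a b : ℝ, 0 < a → Icc a b ⊆ Ioi 0 := fun a b ha r hr => ha.trans_le hr.1
  have hanti : ∀ a b, 0 < a → a ≤ b → F b ≤ F a := fun a b ha hab =>
    anti hab (hc.mono (hsub a b ha)) (fun r h1 _ => (hF r (ha.trans_le h1)).1) (fun r h1 _ => by
      have h2 := (hF r (ha.trans_le h1)).2.1
      have h3 := hg r (ha.trans_le h1)
      nlinarith [sq_nonneg (X.v r - Y.v r)])
  have hlow : ∀ r, 0 < r → -S ≤ F r := fun r hr => by
    have h1 := (outb_far fX fY).sub_const S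
    rw [zero_sub] at h1
    refine le_of_tendsto h1 ?_
    filter_upwards [eventually_ge_atTop r] with R hR
    exact (hF R (hr.trans_le hR)).2.2.1.trans (hanti r R hr hR)
  obtain ⟨-, -, e1, e2⟩ := hF r0 hr0
  refine ⟨(hlow r0 hr0).trans e2, fun D R hD hR => ⟨?_, ?_⟩⟩
  · have hR0 : 0 < R := hr0.trans_le hR
    have key := sq_le_of_lin (b := (X.w R - Y.w R) - (X.w r0 - Y.w r0)) (D := D) (c := R / 4)
      (by positivity) (fun t => by
        have h1 := anti (f := fun r => F r + t * (X.w r - Y.w r) - t ^ 2 / 4 * r)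
          (f' := fun r => F' r + t * (X.v r - Y.v r) - t ^ 2 / 4 * 1) hR
          (((hc.add (continuousOn_const.mul (hX.cw.sub hY.cw))).sub
            (continuousOn_const.mul continuousOn_id)).mono (hsub r0 R hr0))
          (fun r h1 _ => by
            have h0 := hr0.trans_le h1
            exact ((hF r h0).1.fun_add (((hX.dw r h0).fun_sub (hY.dw r h0)).const_mul t)).fun_sub
              ((hasDerivWithinAt_id r _).const_mul _))
          (fun r h1 _ => by
            have h2 := (hF r (hr0.trans_le h1)).2.1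
            have h3 := hg r (hr0.trans_le h1)
            nlinarith [sq_nonneg (X.v r - Y.v r - t / 2)])
        have h2 := hlow R hR0
        have h3 : 0 ≤ t ^ 2 / 4 * r0 := by positivity
        linarith)
    linarith
  · have hR0 : 0 < R := hr0.trans_le hR
    have hcg : ContinuousOn (fun r => mu X Y r * (X.t r ^ 2 - Y.t r ^ 2) ^ 2 / 2) (Ioi 0) := by
      refine ContinuousOn.div_const (ContinuousOn.mul ?_ (((hX.ct.pow 2).sub (hY.ct.pow 2)).pow 2)) 2
      exact ((continuousOn_id.pow 2).mul (((hX.ct.pow 2).add (hX.ct.mul hY.ct)).add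
        (hY.ct.pow 2))).div (hX.ct.add hY.ct)
        (fun r hr => (add_pos (hX.pos r hr) (hY.pos r hr)).ne')
    obtain ⟨r, hr, hm⟩ := isCompact_Icc.exists_isMinOn (s := Icc R (R + 1))
      ⟨R, left_mem_Icc.2 (by linarith)⟩ (hcg.mono (hsub R (R + 1) hR0))
    set g := mu X Y r * (X.t r ^ 2 - Y.t r ^ 2) ^ 2 / 2 with hgd
    have h1 := anti (f := fun ρ => F ρ + g * ρ) (f' := fun ρ => F' ρ + g * 1)
      (show R ≤ R + 1 by linarith)
      ((hc.add (continuousOn_const.mul continuousOn_id)).mono (hsub R (R + 1) hR0))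
      (fun ρ h1 _ => (hF ρ (hR0.trans_le h1)).1.fun_add ((hasDerivWithinAt_id ρ _).const_mul _))
      (fun ρ h1 h2 => by
        have h3 := (hF ρ (hR0.trans_le h1)).2.1
        have h4 : g ≤ mu X Y ρ * (X.t ρ ^ 2 - Y.t ρ ^ 2) ^ 2 / 2 := hm ⟨h1, h2.le⟩
        nlinarith [sq_nonneg (X.v ρ - Y.v ρ)])
    have h2 := hlow (R + 1) (by linarith)
    have h3 := hanti r0 R hr0 hR
    have h4 : g ≤ D := by linarith
    have hr' : 0 < r := hR0.trans_le hr.1
    refine ⟨r, hr.1, hr.2, ?_⟩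
    by_cases h5 : X.t r ≤ 2 * Y.t r
    · exact Or.inl h5
    · right
      have p1 := hX.pos r hr'
      have p2 := hY.pos r hr'
      have h6 : 3 / 4 * (r ^ 2 * X.t r) ≤ mu X Y r := by
        refine le_trans ?_ (le_mu p1 p2)
        gcongr
        linarith
      have h7 : 3 / 4 * X.t r ^ 2 ≤ X.t r ^ 2 - Y.t r ^ 2 := by nlinarith
      have h8 : 3 / 4 * (r ^ 2 * X.t r) * (3 / 4 * X.t r ^ 2) ^ 2 / 2 ≤ g := by
        have := hmu r hr'
        rw [hgd]
        gcongr
      have h9 : 0 ≤ r ^ 2 * X.t r ^ 5 := by positivity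
      nlinarith

end Pool.Agent.P.MP_97b9bc_mp.T
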