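import Pool.Agent.P.MP_97b9bc_mp.T.IfaceB

/-! Step VAL. -/

set_option autoImplicit false

namespace Pool.Agent.P.MP_97b9bc_mp.T

open MeasureTheory Set Filter Topology

lemma val_S {S : ℝ} {e t : ℝ → ℝ} (h : Src S e t) : 0 ≤ S := by
  obtain ⟨P, p, -, h⟩ := h
  obtain ⟨-, a, b, -⟩ := h 1 one_pos
  linarith

lemma val_sigma {C' ρ0 η κ : ℝ} (hC : 0 < C') (hρ : 0 < ρ0) (hη : 0 < η) (hκ : 0 < κ) :
    ∃ σ : ℝ, 0 < σ ∧ σ ^ 2 ≤ ρ0 ∧ C' * (σ ^ 2) ^ κ ≤ η := by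
  have h1 : 0 < (η / C') ^ (1 / κ) := by positivity
  have h2 : 0 < min ρ0 ((η / C') ^ (1 / κ)) := lt_min hρ h1
  refine ⟨√(min ρ0 ((η / C') ^ (1 / κ))), Real.sqrt_pos.2 h2, ?_, ?_⟩
  · rw [Real.sq_sqrt h2.le]; exact min_le_left _ _
  · rw [Real.sq_sqrt h2.le]
    have h3 : (min ρ0 ((η / C') ^ (1 / κ))) ^ κ ≤ ((η / C') ^ (1 / κ)) ^ κ :=
      Real.rpow_le_rpow h2.le (min_le_right _ _) hκ.le
    rw [← Real.rpow_mul (by positivity), one_div_mul_cancel hκ.ne', Real.rpow_one,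
      le_div_iff₀ hC] at h3
    linarith

lemma val_r0 {C rb η : ℝ} (hC : 0 < C) (hb : 0 < rb) (hη : 0 < η) :
    ∃ r0 : ℝ, 0 < r0 ∧ r0 ≤ rb ∧ r0 ≤ 1 / 6800 ∧ C * √r0 ≤ η := by
  refine ⟨min (min rb (1 / 6800)) ((η / C) ^ 2), by positivity,
    (min_le_left _ _).trans (min_le_left _ _), (min_le_left _ _).trans (min_le_right _ _), ?_⟩
  have h3 : √(min (min rb (1 / 6800)) ((η / C) ^ 2)) ≤ η / C :=
    Real.sqrt_le_iff.2 ⟨by positivity, min_le_right _ _⟩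
  rw [le_div_iff₀ hC] at h3
  linarith

lemma val_abs {a b δ : ℝ} (hδ : 0 < δ) (h1 : b ^ 2 ≤ δ ^ 2 / 100) (h2 : (a - b) ^ 2 ≤ 3 / 4 * δ ^ 2) :
    -δ ≤ a ∧ a ≤ δ := by
  have h3 := abs_le_of_sq_le_sq' (show b ^ 2 ≤ (δ / 10) ^ 2 by nlinarith) (by positivity)
  have h4 := abs_le_of_sq_le_sq' (show (a - b) ^ 2 ≤ (9 / 10 * δ) ^ 2 by nlinarith) (by positivity)
  constructor <;> linarith [h3.1, h3.2, h4.1, h4.2]

lemma val_tail (hTAIL : S_TAIL) {z Q r3 : ℝ} {X : Q4} (h : Sol z 0 Q X)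
    (hw : X.w 31 ≤ -(916 / 1000)) (h1 : 31 ≤ r3) (h2 : r3 ≤ 32) (ht : X.t r3 ≤ 1 / 200) :
    Q ≤ -X.w 64 + 1 / 100000 ∧ ∀ r, 64 ≤ r → X.t r ≤ 64 ^ 4 / r ^ 4 := by
  obtain ⟨T1, T2⟩ := hTAIL z Q X h
  have h3 : 0 < r3 := by linarith
  have tp := h.pos r3 h3
  have a1 := T1 r3 (916 / 1000) 7 h3 (by norm_num) ((h.w_anti (by norm_num) h1).trans hw)
    (by push_cast; linarith) 64 (by linarith)
  have a2 : X.m r3 ≤ 32 ^ 2 * (1 / 200) ^ 3 := by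
    unfold Q4.m; gcongr
  have a3 : (r3 / 64) ^ 7 ≤ (1 / 2) ^ 7 :=
    pow_le_pow_left₀ (by positivity) (by linarith) 7
  have a4 : X.m 64 ≤ 1 / 1000000 := by
    refine a1.trans ((mul_le_mul a2 a3 (by positivity) (by positivity)).trans (by norm_num))
  have a5 : ∀ r, 64 ≤ r → X.m r ≤ 1 / 1000000 * (64 / r) ^ 10 := fun r hr => by
    have hr0 : 0 < r := by linarith
    refine (T1 64 (916 / 1000) 10 (by norm_num) (by norm_num)
      ((h.w_anti (by norm_num) (by norm_num)).trans hw) (by norm_num) r hr).trans ?_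
    gcongr
  refine ⟨(T2 64 (1 / 1000000) 10 (by norm_num) (by norm_num) a5).trans (by norm_num), ?_⟩
  intro r hr
  have hr0 : 0 < r := by linarith
  have a6 := a5 r hr
  unfold Q4.m at a6
  refine le_of_pow_le_pow_left₀ (n := 3) (by norm_num) (by positivity) ?_
  have a7 : X.t r ^ 3 ≤ 1 / 1000000 * (64 / r) ^ 10 / r ^ 2 := by
    rw [le_div_iff₀ (by positivity)]; linarith
  refine a7.trans ?_
  have e1 : 1 / 1000000 * (64 / r) ^ 10 / r ^ 2 = (64 ^ 10 / 1000000) / r ^ 12 := by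
    field_simp
  have e2 : ((64 : ℝ) ^ 4 / r ^ 4) ^ 3 = 64 ^ 12 / r ^ 12 := by
    field_simp
  rw [e1, e2]
  gcongr
  norm_num

theorem p_VAL (hWINE : S_WINE) (hEND : S_END) (hWIN : S_WIN) (hOUTB : S_OUTB) (hTAIL : S_TAIL) :
    S_VAL := by
  intro S K lo hi δ e Y hY hK hWY hFY hS he hlo hhi h31 ht hδ hδ' hSδ
  obtain ⟨K1, hK1, hW⟩ := hWINE
  have hS0 := val_S hS
  obtain ⟨C, rb, hC, hrb, -, hw⟩ := hWIN (max K K1) (hK.trans (le_max_left _ _))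
  obtain ⟨r0, hr0, hr1, hr2, hr3⟩ := val_r0 hC hrb (show 0 < δ ^ 2 / 1536 by positivity)
  obtain ⟨C', ρ0, hC', hρ0, hw⟩ := hw r0 hr0 hr1
  have hκ : (0 : ℝ) < √73 - 7 := by
    have : (7 : ℝ) < √73 := Real.lt_sqrt_of_sq_lt (by norm_num)
    linarith
  obtain ⟨σ, hσ, hσ1, hσ2⟩ := val_sigma hC' hρ0 (show 0 < δ ^ 2 / 1536 by positivity) hκ
  refine ⟨144 / σ ^ 6, fun z Q X hz hX => ?_⟩
  rw [div_le_iff₀ (by positivity)] at hz
  have hWX := (hW z Q σ X hX hσ hz).mono (by linarith) (le_max_right K K1) le_rfl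
  have hWY' := hWY.mono (by linarith) (le_max_left K K1) (sq_nonneg σ)
  obtain ⟨o1, o2⟩ := hOUTB S e X Y hX.app hY hS (hEND z Q X hX) hFY r0 hr0
  obtain ⟨w1, w2⟩ := hw (σ ^ 2) 1 S e X Y (by positivity) hσ1 hX.app hY hWX hWY' he o1
  rw [one_pow, mul_one] at w1 w2
  have hD : GG X Y r0 + 2 * S ≤ 3 * δ ^ 2 / 256 := by linarith
  have hb : (X.w r0 - Y.w r0) ^ 2 ≤ δ ^ 2 / 100 := by
    refine w2.trans ?_
    have h1 : C' * (σ ^ 2) ^ (√73 - 7) + C * √r0 + S ≤ δ ^ 2 := by nlinarith [sq_nonneg δ]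
    have h2 : 0 ≤ C' * (σ ^ 2) ^ (√73 - 7) + C * √r0 + S := by positivity
    calc 68 * r0 * (C' * (σ ^ 2) ^ (√73 - 7) + C * √r0 + S) ≤ 1 / 100 * δ ^ 2 :=
          mul_le_mul (by linarith) h1 h2 (by norm_num)
      _ = δ ^ 2 / 100 := by ring
  obtain ⟨b1, r3, c1, c2, c3⟩ := o2 _ 31 hD (by linarith)
  obtain ⟨b2, -⟩ := o2 _ 64 hD (by linarith)
  have d1 := val_abs hδ hb (b1.trans (by nlinarith [sq_nonneg δ]))
  have d2 := val_abs hδ hb (b2.trans (by nlinarith [sq_nonneg δ]))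
  have h3 : 0 < r3 := by linarith
  have tp := hX.pos r3 h3
  have ht3 : X.t r3 ≤ 1 / 200 := by
    rcases c3 with c3 | c3
    · linarith [ht r3 c1 (by linarith)]
    · refine le_of_pow_le_pow_left₀ (n := 5) (by norm_num) (by norm_num) ?_
      have e1 : 31 ^ 2 * X.t r3 ^ 5 ≤ r3 ^ 2 * X.t r3 ^ 5 := by gcongr
      have e2 : δ ^ 2 ≤ (1 / 5000) ^ 2 := by gcongr
      norm_num at e1 e2 ⊢
      linarith
  obtain ⟨t1, t2⟩ := val_tail hTAIL hX (by linarith [d1.2]) c1 (by linarith) ht3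
  have l1 := hX.le_w (show (0 : ℝ) < 64 by norm_num)
  exact ⟨by linarith [d2.2], by linarith [d2.1], t2⟩

end Pool.Agent.P.MP_97b9bc_mp.T
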