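import Pool.Agent.P.MP_97b9bc_mp.T.Basic

/-! Statements of the chapter on the explicit approximate solution. -/

set_option autoImplicit false

namespace Pool.Agent.P.MP_97b9bc_mp.T

open MeasureTheory Set Filter Topology

/-- lower bound for the excess charge of the approximate solution -/
noncomputable def lo : ℝ := 917433 / 1000000

/-- upper bound for the excess charge of the approximate solution -/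
noncomputable def hi : ℝ := 917438 / 1000000

/-- approximate solution on the set `I`, with residual `e`, remaining cost `P`, cost density `p` -/
structure GoodOn (I : Set ℝ) (X : Q4) (e P p : ℝ → ℝ) : Prop where
  pos : ∀ r ∈ I, 0 < X.t r
  ct : ContinuousOn X.t I
  cL : ContinuousOn X.L I
  cw : ContinuousOn X.w I
  cv : ContinuousOn X.v I
  cP : ContinuousOn P I
  dt : ∀ r ∈ I, HasDerivWithinAt X.t (2 / 3 * X.t r * (X.L r - 1 / r)) (Ici r) r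
  dL : ∀ r ∈ I, HasDerivWithinAt X.L (X.t r ^ 2 - X.w r / r - X.L r ^ 2 + e r) (Ici r) r
  dw : ∀ r ∈ I, HasDerivWithinAt X.w (X.v r) (Ici r) r
  dv : ∀ r ∈ I, HasDerivWithinAt X.v (r * X.t r ^ 3) (Ici r) r
  dP : ∀ r ∈ I, HasDerivWithinAt P (-p r) (Ici r) r
  src : ∀ r ∈ I, (|e r| ≤ 1 / 2 ∧ r ^ 2 * (2 * X.t r + 1) * e r ^ 2 / 2 ≤ p r) ∨
    (e r ≤ 0 ∧ r ^ 2 * X.t r ^ 3 * (-e r) ≤ p r)

/-- the bounds wanted far out -/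
def Ex (X : Q4) (r : ℝ) : Prop :=
  31 ≤ r → X.t r ≤ 1 / 400 ∧ lo ≤ -X.w r ∧ -X.w r ≤ hi

/-- there is an approximate solution on `[a, ∞)` with the given values at `a` and cost `s` -/
def From (a t0 l0 w0 v0 s : ℝ) : Prop :=
  ∃ (X : Q4) (e P p : ℝ → ℝ), GoodOn (Ici a) X e P p ∧
    Tendsto X.m atTop (𝓝 0) ∧ Tendsto X.v atTop (𝓝 0) ∧
    (∃ K, ∀ r, a ≤ r → |X.L r| ≤ K ∧ |X.w r| ≤ K) ∧
    (∀ r, a ≤ r → Ex X r ∧ 0 ≤ P r ∧ P r ≤ s ∧ |e r| ≤ 1) ∧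
    X.t a = t0 ∧ X.L a = l0 ∧ X.w a = w0 ∧ X.v a = v0

/-- there is a global approximate solution of cost `S` -/
def NumC (S : ℝ) : Prop :=
  ∃ (e : ℝ → ℝ) (Y : Q4), App e Y ∧ Win 1000 0 Y ∧ Far Y ∧ Src S e Y.t ∧
    (∀ r, 0 < r → r ≤ 1 / 2 → |e r| ≤ 1) ∧ ∀ r, Ex Y r

-- deps:
def S_GLUE : Prop :=
  ∀ (I : Set ℝ) (b : ℝ) (X1 X2 : Q4) (e1 P1 p1 e2 P2 p2 : ℝ → ℝ), I ⊆ Iic b → b ∈ I →
    GoodOn I X1 e1 P1 p1 → GoodOn (Ici b) X2 e2 P2 p2 →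
    X1.t b = X2.t b → X1.L b = X2.L b → X1.w b = X2.w b → X1.v b = X2.v b → P1 b = P2 b →
    ∃ (X : Q4) (e P p : ℝ → ℝ), GoodOn (I ∪ Ici b) X e P p ∧
      (∀ r, r ≤ b → X.t r = X1.t r ∧ X.L r = X1.L r ∧ X.w r = X1.w r ∧ X.v r = X1.v r ∧
        P r = P1 r) ∧ (∀ r, r < b → e r = e1 r) ∧
      ∀ r, b ≤ r → X.t r = X2.t r ∧ X.L r = X2.L r ∧ X.w r = X2.w r ∧ X.v r = X2.v r ∧
        P r = P2 r ∧ e r = e2 r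

-- deps:
def S_TLN : Prop :=
  ∀ t0 w0 : ℝ, 0 < t0 → t0 ≤ 1 / 400 → lo ≤ -w0 → -w0 + t0 ^ 3 * 80 ^ 3 / 240 ≤ hi →
    From 80 t0 (-(1 / 10)) w0 (-(t0 ^ 3 * 80 ^ 2 / 16)) (80 ^ 2 * t0 ^ 3 / 16)

-- deps: GLUE
def S_PIECE : Prop :=
  ∀ (a b E tm tM c s : ℝ) (T T1 T2 W V : ℝ → ℝ), 0 < a → a < b → 0 < tm → 0 ≤ E → E ≤ 1 / 2 →
    b ^ 2 * (2 * tM + 1) * E ^ 2 / 2 ≤ c →
    (∀ r, a ≤ r → r ≤ b → HasDerivAt T (T1 r) r ∧ HasDerivAt T1 (T2 r) r ∧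
      HasDerivAt W (V r) r ∧ HasDerivAt V (r * T r ^ 3) r ∧ tm ≤ T r ∧ T r ≤ tM ∧
      |3 / 2 * r * T r * T2 r + 3 / 4 * r * T1 r ^ 2 + 3 * T r * T1 r - r * T r ^ 4 +
        W r * T r ^ 2| ≤ E * (a * tm ^ 2) ∧
      (31 ≤ r → r < b → T r ≤ 1 / 400 ∧ lo ≤ -W r ∧ -W r ≤ hi)) →
    From b (T b) (3 / 2 * T1 b / T b + 1 / b) (W b) (V b) s →
    From a (T a) (3 / 2 * T1 a / T a + 1 / a) (W a) (V a) (s + c * (b - a))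

-- deps: GLUE
def S_INNER : Prop :=
  ∀ (E s : ℝ) (P P1 P2 W W1 V V1 : ℝ → ℝ), 0 ≤ E → E ≤ 1 / 2 →
    (∀ r, 0 < r → r ≤ 1 / 2 → HasDerivAt P (P1 r) r ∧ HasDerivAt P1 (P2 r) r ∧
      HasDerivAt W (W1 r) r ∧ HasDerivAt V (V1 r) r ∧ V r = r * W1 r - 3 * W r ∧
      r * V1 r - 4 * V r = P r ^ 3 ∧ |P r - 12| ≤ r ∧ |P1 r| ≤ 1 ∧ |W r| ≤ 1000 ∧ |V r| ≤ 1000 ∧
      |3 / 2 * r ^ 4 * P r * P2 r + 3 / 4 * r ^ 4 * P1 r ^ 2 - 6 * r ^ 3 * P r * P1 r +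
        6 * r ^ 2 * P r ^ 2 - P r ^ 4 + W r * P r ^ 2| ≤ E * (132 * r ^ 4)) →
    From (1 / 2) (4 * P (1 / 2)) (3 / 2 * P1 (1 / 2) / P (1 / 2) - 4) (8 * W (1 / 2))
      (16 * V (1 / 2)) s →
    NumC (s + 13 / 2 * E ^ 2)

end Pool.Agent.P.MP_97b9bc_mp.T
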