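import Pool.Agent.P.MP_97b9bc_mp.T.NData
import Pool.Agent.P.MP_97b9bc_mp.T.IfaceN

/-! Soundness of the checker. -/

set_option autoImplicit false

namespace Pool.Agent.P.MP_97b9bc_mp.T

open Set

lemma From.mono {a t0 l0 w0 v0 s s' : ℝ} (h : From a t0 l0 w0 v0 s) (hs : s ≤ s') :
    From a t0 l0 w0 v0 s' := by
  obtain ⟨X, e, P, p, h1, h2, h3, h4, h5, h6⟩ := h
  exact ⟨X, e, P, p, h1, h2, h3, h4, fun r hr =>
    ⟨(h5 r hr).1, (h5 r hr).2.1, (h5 r hr).2.2.1.trans hs, (h5 r hr).2.2.2⟩, h6⟩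

lemma okTail_sound (hT : S_TLN) {a t0 t1 w0 v0 s : ℚ} (h : okTail a t0 t1 w0 v0 s = true) :
    From a t0 (3 / 2 * t1 / t0 + 1 / a) w0 v0 s := by
  simp only [okTail, Bool.and_eq_true, decide_eq_true_eq] at h
  obtain ⟨⟨⟨⟨⟨⟨⟨rfl, h2⟩, h3⟩, rfl⟩, h5⟩, h6⟩, rfl⟩, h8⟩ := h
  have h2' : (0 : ℝ) < t0 := by exact_mod_cast h2
  have h3' : ((t0 : ℚ) : ℝ) ≤ ((1 / 400 : ℚ) : ℝ) := Rat.cast_le.2 h3
  have h5' := (Rat.cast_le (K := ℝ)).2 h5
  have h6' := (Rat.cast_le (K := ℝ)).2 h6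
  have h8' := (Rat.cast_le (K := ℝ)).2 h8
  push_cast at h3' h5' h6' h8' ⊢
  have := (hT t0 w0 h2' h3' h5' h6').mono h8'
  have e : (3 / 2 * -(6 * (t0 : ℝ) / 80) / t0 + 1 / 80) = -(1 / 10) := by
    field_simp
    norm_num
  rw [e]
  exact this

lemma hasDerivAt_shift {p q : List ℚ} (c : ℝ) (h : ∀ x, HasDerivAt (ev p) (ev q x) x) (r : ℝ) :
    HasDerivAt (fun r => ev p (r - c)) (ev q (r - c)) r := by
  simpa using (h (r - c)).comp_sub_const r c

lemma ev_dev (p : List ℚ) {x : ℝ} {g : ℚ} (hx : |x| ≤ g) :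
    ((p.headD 0 - dev p g : ℚ) : ℝ) ≤ ev p x ∧ ev p x ≤ ((p.headD 0 + dev p g : ℚ) : ℝ) := by
  have := abs_le.1 (abs_ev_sub p hx)
  unfold dev
  push_cast
  constructor <;> linarith [this.1, this.2]

lemma okPc_sound (hP : S_PIECE) {a b c g E t0 t1 w0 v0 : ℚ} {s : ℝ} {T : List ℚ}
    (hc : c = (a + b) / 2) (hg : g = (b - a) / 2)
    (h : okPc a b c g E t0 t1 T (pint (-g) w0 (pV c g v0 T)) = true)
    (hF : From b (evQ T g) (3 / 2 * (evQ (pder T) g : ℚ) / (evQ T g : ℚ) + 1 / b)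
      (evQ (pint (-g) w0 (pV c g v0 T)) g) (evQ (pV c g v0 T) g) s) :
    From a t0 (3 / 2 * t1 / t0 + 1 / a) w0 v0 (s + (cost b g E T : ℚ) * (b - a)) := by
  set V := pV c g v0 T with hV
  set W := pint (-g) w0 V with hW
  simp only [okPc, Bool.and_eq_true, Bool.or_eq_true, decide_eq_true_eq] at h
  obtain ⟨⟨⟨⟨⟨⟨⟨⟨h1, h2⟩, h3⟩, h4⟩, h5⟩, h6⟩, h7⟩, h8⟩, h9⟩ := h
  have ea : (a : ℝ) - c = ((-g : ℚ) : ℝ) := by rw [hc, hg]; push_cast; ring
  have eb : (b : ℝ) - c = ((g : ℚ) : ℝ) := by rw [hc, hg]; push_cast; ring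
  have key := hP a b E ((T.headD 0 - dev T g : ℚ) : ℝ) ((T.headD 0 + dev T g : ℚ) : ℝ)
    (cost b g E T : ℚ) s (fun r => ev T (r - c)) (fun r => ev (pder T) (r - c))
    (fun r => ev (pder (pder T)) (r - c)) (fun r => ev W (r - c)) (fun r => ev V (r - c))
    (by exact_mod_cast h1) (by exact_mod_cast h2) (by exact_mod_cast h3) (by exact_mod_cast h4)
    (by have := (Rat.cast_le (K := ℝ)).2 h5; push_cast at this; exact this)
    (by unfold cost; push_cast; exact le_rfl) ?_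
    (by simp only [eb, ev_cast]; exact hF)
  · simp only [ea, ev_cast, h6, h7] at key
    rwa [hW, evQ_pint, hV, pV, evQ_pint] at key
  intro r hr1 hr2
  have hx : |r - c| ≤ g := by
    rw [abs_le]
    push_cast at ea
    constructor <;> linarith
  refine ⟨hasDerivAt_shift _ (hasDerivAt_ev _) r, hasDerivAt_shift _ (hasDerivAt_ev _) r,
    hasDerivAt_shift _ (hasDerivAt_pint _ _ _) r, ?_, (ev_dev T hx).1, (ev_dev T hx).2, ?_, ?_⟩
  · refine (hasDerivAt_shift _ (hasDerivAt_pint _ _ _) r).congr_deriv ?_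
    simp only [ev_pmul, ev]
    push_cast
    ring
  · have h10 := (abs_ev_le (resid c T W) hx).trans ((Rat.cast_le (K := ℝ)).2 h8)
    simp only [resid, ev_padd, ev_pmul, ev_psm, ev] at h10
    push_cast at h10 ⊢
    refine le_trans (le_of_eq ?_) h10
    congr 1
    ring
  · intro h31 hb
    rcases h9 with h9 | ⟨⟨h9, h10⟩, h11⟩
    · have := (Rat.cast_le (K := ℝ)).2 h9
      push_cast at this
      linarith
    · have h9' := (Rat.cast_le (K := ℝ)).2 h9
      have h10' := (Rat.cast_le (K := ℝ)).2 h10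
      have h11' := (Rat.cast_le (K := ℝ)).2 h11
      have a1 := (ev_dev T hx).2
      have a2 := ev_dev W hx
      unfold lo hi
      push_cast at h9' h10' h11' a1 a2
      refine ⟨by linarith, by linarith [a2.2], by linarith [a2.1]⟩

lemma chk_sound (hT : S_TLN) (hP : S_PIECE) (ps : List Pc) :
    ∀ a t0 t1 w0 v0 s : ℚ, chk ps a t0 t1 w0 v0 s = true →
      From a t0 (3 / 2 * t1 / t0 + 1 / a) w0 v0 s := by
  induction ps with
  | nil => intro a t0 t1 w0 v0 s h; exact okTail_sound hT h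
  | cons P ps ih =>
    intro a t0 t1 w0 v0 s h
    rw [chk, Bool.and_eq_true] at h
    refine (okPc_sound hP rfl rfl h.1 (ih _ _ _ _ _ _ h.2)).mono (le_of_eq ?_)
    push_cast
    ring

lemma chkIn_sound (hT : S_TLN) (hP : S_PIECE) (hI : S_INNER) {P W : List ℚ} {E S : ℚ}
    {ps : List Pc} (h : chkIn P W E ps S = true) : NumC S := by
  simp only [chkIn, Bool.and_eq_true, decide_eq_true_eq] at h
  obtain ⟨⟨⟨⟨⟨⟨⟨⟨⟨⟨h1, h2⟩, h3⟩, h4⟩, h5⟩, h6⟩, h7⟩, h8⟩, h9⟩, h10⟩, h11⟩ := h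
  have hF := chk_sound hT hP ps _ _ _ _ _ _ h11
  have hb : ∀ {p : List ℚ} {k : ℚ} {r : ℝ}, 0 < r → r ≤ 1 / 2 → absb p (1 / 2) ≤ k →
      |ev p r| ≤ k := fun {p k r} h1 h2 h3 =>
    (abs_ev_le p (h := 1 / 2) (by rw [abs_of_pos h1]; push_cast; exact h2)).trans
      (Rat.cast_le.2 h3)
  have hP12 : ∀ r : ℝ, 0 < r → r ≤ 1 / 2 → |ev P r - 12| ≤ r := fun r h1 h2 => by
    have := hb h1 h2 h5
    rw [ev_head_tail, h4]
    push_cast at this ⊢
    rw [add_sub_cancel_left, abs_mul, abs_of_pos h1]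
    exact mul_le_of_le_one_right h1.le this
  have key := hI E ((S - 13 / 2 * E ^ 2 : ℚ) : ℝ) (ev P) (ev (pder P)) (ev (pder (pder P))) (ev W)
    (ev (pder W)) (ev (inV W)) (ev (pder (inV W))) (by exact_mod_cast h1)
    (by have := (Rat.cast_le (K := ℝ)).2 h2; push_cast at this; exact this) ?_ ?_
  · convert key using 1
    push_cast
    ring
  · intro r hr1 hr2
    refine ⟨hasDerivAt_ev _ _, hasDerivAt_ev _ _, hasDerivAt_ev _ _, hasDerivAt_ev _ _, ?_, ?_,
      hP12 r hr1 hr2, by exact_mod_cast hb hr1 hr2 h6, by exact_mod_cast hb hr1 hr2 h7,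
      by exact_mod_cast hb hr1 hr2 h8, ?_⟩
    · simp only [inV, ev_padd, ev_psm, ev]
      push_cast
      ring
    · have := ev_allz h3 r
      simp only [ev_padd, ev_psm, ev_pmul, ev] at this
      push_cast at this
      linarith
    · have a1 := hb hr1 hr2 h10
      have a2 := ev_drop4 h9 r
      have a3 : |ev (inN P W) r| ≤ E * (132 * r ^ 4) := by
        rw [a2, abs_mul, abs_of_pos (by positivity : 0 < r ^ 4)]
        push_cast at a1
        nlinarith [pow_pos hr1 4]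
      simp only [inN, ev_padd, ev_psm, ev_pmul, ev] at a3
      push_cast at a3
      refine le_trans (le_of_eq ?_) a3
      congr 1
      ring
  · have e2 : ((1 / 2 : ℚ) : ℝ) = 1 / 2 := by norm_num
    have hp : 0 < ev P (1 / 2) := by
      have := abs_le.1 (hP12 (1 / 2) (by norm_num) le_rfl)
      linarith [this.1]
    push_cast at hF
    simp only [← ev_cast, e2] at hF
    convert hF using 1
    · field_simp
      ring
    · push_cast
      ring

theorem num (hT : S_TLN) (hP : S_PIECE) (hI : S_INNER) : NumC (1 / 10 ^ 11) := by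
  have := chkIn_sound hT hP hI chk_data
  push_cast at this
  exact this

end Pool.Agent.P.MP_97b9bc_mp.T
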