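import Pool.Agent.P.MP_97b9bc_mp.T.Basic

/-! Statements of the chapter on the radial system. -/

set_option autoImplicit false

namespace Pool.Agent.P.MP_97b9bc_mp.T

open MeasureTheory Set Filter Topology

-- deps:
def S_BL : Prop :=
  ∀ (z Q : ℝ) (X : Q4), Sol z 0 Q X →
    (∀ l r : ℝ, 0 < l → l < 1 → 0 < r →
      l * X.t r ^ 2 ≤ X.w r / r + 9 / (64 * l ^ 2 * (1 - l))) ∧ ∀ r, 0 < r → -r ≤ X.w r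

-- deps:
def S_BUMP : Prop :=
  ∀ (z Q : ℝ) (X : Q4), Sol z 0 Q X → ∀ r h F T : ℝ, 0 < h → h < r → 0 ≤ T →
    (∀ s, r - h ≤ s → s ≤ r + h → F ≤ X.w s / s) → T ^ 2 ≤ F - 4 / h ^ 2 →
    (r - h) ^ 2 * T ^ 3 ≤ X.m r

-- deps: BUMP
def S_KO : Prop :=
  ∃ K0 : ℝ, 1 ≤ K0 ∧ ∀ (z Q : ℝ) (X : Q4), Sol z 0 Q X → ∀ r, 0 < r → r ≤ 1 → X.w r ≤ K0 / r ^ 3

-- deps: BL
def S_SUB : Prop :=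
  ∀ (z Q σ : ℝ) (X : Q4), Sol z 0 Q X → 0 < σ → 144 ≤ z * σ ^ 6 → ∀ r, 0 < r → √r + σ ≤ 9 / 10 →
    144 / (√r + σ) ^ 6 - 294 / (√r + σ) ^ 2 ≤ X.w r

-- deps: BUMP SUB
def S_LOW : Prop :=
  ∀ (z Q σ : ℝ) (X : Q4), Sol z 0 Q X → 0 < σ → 144 ≤ z * σ ^ 6 → ∀ r, 0 < r →
    12 / r ^ 2 * (1 - 9 * (√r + σ / √r)) ≤ X.t r

-- deps:
def S_RIC : Prop :=
  ∀ (L L' : ℝ → ℝ) (r h ω : ℝ), 0 < h → 0 ≤ ω →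
    (∀ s, r - h ≤ s → s ≤ r + h → HasDerivAt L (L' s) s ∧ L' s ≤ ω ^ 2 - L s ^ 2) →
    |L r| ≤ ω + 1 / h

-- deps: BL KO LOW RIC
def S_WINE : Prop :=
  ∃ K : ℝ, 1 ≤ K ∧ ∀ (z Q σ : ℝ) (X : Q4), Sol z 0 Q X → 0 < σ → 144 ≤ z * σ ^ 6 →
    Win K (σ ^ 2) X

-- deps: BL RIC
def S_END : Prop :=
  ∀ (z Q : ℝ) (X : Q4), Sol z 0 Q X → Far X

-- deps:
def S_GD : Prop :=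
  ∀ (e : ℝ → ℝ) (X Y : Q4), App (fun _ => 0) X → App e Y →
    ContinuousOn (GG X Y) (Ioi 0) ∧ (∀ r0, ContinuousOn (Phi r0 X Y) (Ioi 0)) ∧
    ∀ r, 0 < r → HasDerivWithinAt (GG X Y) (-formAt 0 0 e X Y r) (Ici r) r ∧
      ∀ r0, r0 ≠ 0 →
        HasDerivWithinAt (Phi r0 X Y)
          (-formAt ((1 - r / r0) ^ 2) (2 * (1 - r / r0) / r0) e X Y r) (Ici r) r ∧
        Phi r0 X Y r = phi r (mu X Y r) ((1 - r / r0) ^ 2) (X.L r - Y.L r)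
          (X.t r ^ 2 - Y.t r ^ 2) (X.v r - Y.v r) ((X.w r - Y.w r) / r)

-- deps:
def S_ALGA : Prop :=
  ∀ K : ℝ, 1 ≤ K → ∃ H C η0 : ℝ, 0 < H ∧ 0 < C ∧ 0 < η0 ∧
    ∀ θ η U m c d Λ k l s x y e : ℝ, 0 < θ → θ ≤ η → η ≤ η0 → 1 ≤ U * θ ^ 8 →
      18 * (1 - K * η) ≤ m → m ≤ 2 * K → |Λ| * θ ^ 2 ≤ 2 * K → 1 - 2 * η ≤ c → c ≤ 1 →
      0 ≤ d → d * θ ^ 2 ≤ 2 * η → 7 ≤ k → k ≤ 9 → k ^ 2 ≤ 73 - H * η →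
      -(C * e ^ 2 / θ) ≤ form (θ ^ 2) U m c d Λ l s x y e - k / θ ^ 2 * phi (θ ^ 2) m c l s x y

-- deps:
def S_ALGB : Prop :=
  ∀ K : ℝ, 1 ≤ K → ∃ C rb : ℝ, 0 < C ∧ 0 < rb ∧
    ∀ r U m c d Λ l s x y e : ℝ, 0 < r → r ≤ rb → 1 ≤ U * r ^ 4 → 17 ≤ m → m ≤ 2 * K →
      |Λ| * r ≤ 2 * K → 0 ≤ c → c ≤ 1 → 0 ≤ d → (d * r) ^ 2 ≤ 4 * c →
      x ^ 2 / 2 + c * y ^ 2 - C * e ^ 2 ≤ form r U m c d Λ l s x y e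

-- deps: GD ALGA
def S_WINA : Prop :=
  ∀ K : ℝ, 1 ≤ K → ∃ C M rb : ℝ, 0 < C ∧ 2 ≤ M ∧ 0 < rb ∧ ∀ r0, 0 < r0 → r0 ≤ rb →
    ∃ C' : ℝ, 0 < C' ∧ ∀ (ρ E : ℝ) (e : ℝ → ℝ) (X Y : Q4), 0 < ρ → M * ρ ≤ r0 / M →
      App (fun _ => 0) X → App e Y → Win K ρ X → Win K ρ Y →
      (∀ r, 0 < r → r ≤ 1 / 2 → |e r| ≤ E) →
      Phi r0 X Y (r0 / M) ≤ C' * ρ ^ (√73 - 7) + C * E ^ 2 * √r0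

-- deps: GD ALGB
def S_WINB : Prop :=
  ∀ K : ℝ, 1 ≤ K → ∃ C rb : ℝ, 0 < C ∧ 0 < rb ∧ rb ≤ 1 / 2 ∧
    ∀ (r0 r1 ρ E : ℝ) (e : ℝ → ℝ) (X Y : Q4), r0 ≤ rb → 0 < r1 → r1 ≤ r0 / 2 → ρ ≤ r1 →
      √(ρ / r1) ≤ 1 / (36 * K) →
      App (fun _ => 0) X → App e Y → Win K ρ X → Win K ρ Y →
      (∀ r, 0 < r → r ≤ 1 / 2 → |e r| ≤ E) → ∀ t : ℝ,
      GG X Y r0 + t * (X.w r0 - Y.w r0) ≤ Phi r0 X Y r1 + (17 * t ^ 2 + C * E ^ 2) * r0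

-- deps: WINA WINB
def S_WIN : Prop :=
  ∀ K : ℝ, 1 ≤ K → ∃ C rb : ℝ, 0 < C ∧ 0 < rb ∧ rb ≤ 1 / 2 ∧ ∀ r0, 0 < r0 → r0 ≤ rb →
    ∃ C' ρ0 : ℝ, 0 < C' ∧ 0 < ρ0 ∧ ∀ (ρ E S : ℝ) (e : ℝ → ℝ) (X Y : Q4), 0 < ρ → ρ ≤ ρ0 →
      App (fun _ => 0) X → App e Y → Win K ρ X → Win K ρ Y →
      (∀ r, 0 < r → r ≤ 1 / 2 → |e r| ≤ E) → -S ≤ GG X Y r0 →
      GG X Y r0 ≤ C' * ρ ^ (√73 - 7) + C * E ^ 2 * √r0 ∧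
        (X.w r0 - Y.w r0) ^ 2 ≤ 68 * r0 * (C' * ρ ^ (√73 - 7) + C * E ^ 2 * √r0 + S)

-- deps: GD
def S_OUTA : Prop :=
  ∀ (S : ℝ) (e : ℝ → ℝ) (X Y : Q4), App (fun _ => 0) X → App e Y → Src S e Y.t →
    ∃ F F' : ℝ → ℝ, ContinuousOn F (Ioi 0) ∧ ∀ r, 0 < r →
      HasDerivWithinAt F (F' r) (Ici r) r ∧
      F' r ≤ -(X.v r - Y.v r) ^ 2 - mu X Y r * (X.t r ^ 2 - Y.t r ^ 2) ^ 2 / 2 ∧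
      GG X Y r - S ≤ F r ∧ F r ≤ GG X Y r

-- deps: OUTA
def S_OUTB : Prop :=
  ∀ (S : ℝ) (e : ℝ → ℝ) (X Y : Q4), App (fun _ => 0) X → App e Y → Src S e Y.t →
    Far X → Far Y → ∀ r0, 0 < r0 → -S ≤ GG X Y r0 ∧ ∀ D R, GG X Y r0 + 2 * S ≤ D → r0 ≤ R →
      ((X.w R - Y.w R) - (X.w r0 - Y.w r0)) ^ 2 ≤ R * D ∧
        ∃ r, R ≤ r ∧ r ≤ R + 1 ∧ (X.t r ≤ 2 * Y.t r ∨ r ^ 2 * X.t r ^ 5 ≤ 5 * D)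

-- deps: OUTA OUTB
def S_OUTC : Prop :=
  ∀ (z1 Q1 z2 Q2 : ℝ) (X Y : Q4), Sol z1 0 Q1 X → Sol z2 0 Q2 Y → Far X → Far Y →
    ∀ r0 R C : ℝ, 0 < r0 → r0 ≤ R → 0 < C →
      (∀ r, R ≤ r → r ^ 2 * (X.t r + Y.t r) ≤ C / r ^ 2) →
      ((Q2 - Q1) - (X.w R - Y.w R)) ^ 2 ≤ 2 * C / R * GG X Y r0

-- deps:
def S_TAIL : Prop :=
  ∀ (z Q : ℝ) (X : Q4), Sol z 0 Q X →
    (∀ (R q : ℝ) (n : ℕ), 0 < R → 1 ≤ n → X.w R ≤ -q → (n : ℝ) * (n + 1) ≤ 2 * q * R →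
      ∀ r, R ≤ r → X.m r ≤ X.m R * (R / r) ^ n) ∧
    ∀ (R c : ℝ) (n : ℕ), 0 < R → 2 ≤ n → (∀ r, R ≤ r → X.m r ≤ c * (R / r) ^ n) →
      Q ≤ -X.w R + c * R / (n - 1)

-- deps: WINE END WIN OUTB TAIL
def S_VAL : Prop :=
  ∀ (S K lo hi δ : ℝ) (e : ℝ → ℝ) (Y : Q4), App e Y → 1 ≤ K → Win K 0 Y → Far Y → Src S e Y.t →
    (∀ r, 0 < r → r ≤ 1 / 2 → |e r| ≤ 1) → lo ≤ -Y.w 64 → -Y.w 64 ≤ hi →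
    Y.w 31 ≤ -(917 / 1000) → (∀ r, 31 ≤ r → r ≤ 32 → Y.t r ≤ 1 / 400) →
    0 < δ → δ ≤ 1 / 5000 → 192 * S ≤ δ ^ 2 →
    ∃ z0 : ℝ, ∀ (z Q : ℝ) (X : Q4), z0 ≤ z → Sol z 0 Q X →
      lo - δ ≤ Q ∧ Q ≤ hi + δ + 1 / 100000 ∧ ∀ r, 64 ≤ r → X.t r ≤ 64 ^ 4 / r ^ 4

-- deps: WINE END WIN OUTB OUTC
def S_RATE : Prop :=
  ∀ z0 : ℝ, (∀ (z Q : ℝ) (X : Q4), z0 ≤ z → Sol z 0 Q X → ∀ r, 64 ≤ r → X.t r ≤ 64 ^ 4 / r ^ 4) →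
    ∃ z1 C : ℝ, ∀ (z Q z' Q' : ℝ) (X Y : Q4), z1 ≤ z → z ≤ z' → Sol z 0 Q X → Sol z' 0 Q' Y →
      |Q - Q'| ≤ C * z ^ (-((√73 - 7) / 6))

-- deps:
def S_LIM : Prop :=
  ∀ (P : ℝ → ℝ → Prop) (κ z0 z1 C lo hi : ℝ), 0 < κ → (∀ z, 0 < z → ∃ Q, P z Q) →
    (∀ z Q, 0 < z → P z Q → |Q| ≤ z) →
    (∀ z Q z' Q', 0 < z → z1 ≤ z → z ≤ z' → P z Q → P z' Q' → |Q - Q'| ≤ C * z ^ (-κ)) →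
    (∀ z Q, 0 < z → z0 ≤ z → P z Q → lo ≤ Q ∧ Q ≤ hi) →
    ∃ q, lo ≤ q ∧ q ≤ hi ∧ ∃ C', ∀ z Q, 0 < z → P z Q → |Q - q| ≤ C' * z ^ (-κ)

end Pool.Agent.P.MP_97b9bc_mp.T
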