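import Pool.Agent.P.MP_97b9bc_mp.T.IfaceB

/-! Step ALGA. -/

set_option autoImplicit false

namespace Pool.Agent.P.MP_97b9bc_mp.T

open MeasureTheory Set Filter Topology

lemma alga_q {A B C s y : ℝ} (hA : 0 < A) (h : B ^ 2 ≤ A * C) :
    0 ≤ A * s ^ 2 - 2 * B * s * y + C * y ^ 2 := by
  have e : A * (A * s ^ 2 - 2 * B * s * y + C * y ^ 2) =
      (A * s - B * y) ^ 2 + (A * C - B ^ 2) * y ^ 2 := by ring
  have h1 : 0 ≤ A * (A * s ^ 2 - 2 * B * s * y + C * y ^ 2) := by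
    rw [e]
    exact add_nonneg (sq_nonneg _) (mul_nonneg (sub_nonneg.2 h) (sq_nonneg _))
  exact nonneg_of_mul_nonneg_right h1 hA

lemma alga_s {θ u m c s y : ℝ} (h0 : 0 < θ) (h1 : θ ≤ u) (h2 : u ≤ 1 / 4)
    (hm : 18 * (1 - u) ≤ m) (hc0 : 0 ≤ c) (hc : c ≤ 1) :
    0 ≤ (1 - θ) * m * s ^ 2 - 36 * c * y * s + 18 * (1 + 4 * u) * y ^ 2 := by
  have a1 : 18 * (1 - 2 * u) ≤ (1 - θ) * m := by nlinarith
  have a2 : c ^ 2 ≤ (1 - 2 * u) * (1 + 4 * u) := by nlinarith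
  have a3 := alga_q (s := s) (y := y) (by linarith : 0 < 1 - 2 * u) a2
  have a4 := mul_le_mul_of_nonneg_right a1 (sq_nonneg s)
  linarith

lemma alga_x {θ b x y : ℝ} (h0 : 0 < θ) (h2 : θ ≤ 1 / 4) :
    0 ≤ (1 - θ) * x ^ 2 + b * x * y + b ^ 2 / 4 * (1 + 2 * θ) * y ^ 2 := by
  have a1 : 0 ≤ θ * (1 - 2 * θ) := mul_nonneg h0.le (by linarith)
  have a2 : (-b / 2) ^ 2 ≤ (1 - θ) * (b ^ 2 / 4 * (1 + 2 * θ)) := by
    have := mul_nonneg a1 (sq_nonneg b)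
    nlinarith
  have a3 := alga_q (s := x) (y := y) (by linarith : 0 < 1 - θ) a2
  linarith

lemma alga_y {θ η K c k : ℝ} (hK : 1 ≤ K) (h0 : 0 < θ) (h1 : θ ≤ η) (h2 : η ≤ 1 / 4)
    (hc0 : 1 - 2 * η ≤ c) (hc : c ≤ 1) (hk0 : 7 ≤ k) (hk1 : k ≤ 9)
    (hk : k ^ 2 ≤ 73 - 800 * K * η) :
    18 * (1 + 4 * (K * η)) + (k - c) ^ 2 / 4 * (1 + 2 * θ) + 2 * θ ≤
      36 * c + c / 2 - k * c / 2 := by
  obtain ⟨δ, rfl⟩ : ∃ δ, c = 1 - δ := ⟨1 - c, by ring⟩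
  have d0 : 0 ≤ δ := by linarith
  have d1 : δ ≤ 2 * η := by linarith
  have a1 : η ≤ K * η := by nlinarith
  have a2 : (k - (1 - δ)) ^ 2 ≤ 81 := by nlinarith
  have a3 : (k - (1 - δ)) ^ 2 * θ ≤ 81 * θ := mul_le_mul_of_nonneg_right a2 h0.le
  have a4 : k * δ ≤ 9 * δ := mul_le_mul_of_nonneg_right hk1 d0
  have a5 : δ * δ ≤ δ := by nlinarith
  have a6 : 0 ≤ k * δ := mul_nonneg (by linarith) d0
  nlinarith

lemma alga_nu {θ η K m c d L k : ℝ} (hK : 1 ≤ K) (h0 : 0 < θ) (h1 : θ ≤ η)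
    (h2 : η * (60000 * K ^ 2) ≤ 1) (hm0 : 0 ≤ m) (hm : m ≤ 2 * K) (hL : |L| ≤ 2 * K)
    (hc0 : 0 ≤ c) (hc : c ≤ 1) (hd0 : 0 ≤ d) (hd : d ≤ 1) (hk0 : 7 ≤ k) (hk1 : k ≤ 9)
    (h3 : η ≤ 1 / 4) :
    θ ^ 3 * (k ^ 2 * m / 2 + 324 * c ^ 2 +
      (36 * c + 36 * c * L + 36 * d - 36 * k * c) ^ 2 / 4) ≤ 1 := by
  obtain ⟨l1, l2⟩ := abs_le.1 hL
  have b1 : c * L ≤ 2 * K := by nlinarith
  have b2 : -(2 * K) ≤ c * L := by nlinarith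
  have b3 : 0 ≤ k * c := mul_nonneg (by linarith) hc0
  have b4 : k * c ≤ 9 := by nlinarith
  have b5 : (36 * c + 36 * c * L + 36 * d - 36 * k * c) ^ 2 ≤ (468 * K) ^ 2 :=
    sq_le_sq' (by linarith) (by linarith)
  have b6 : k ^ 2 ≤ 81 := by nlinarith
  have b7 : k ^ 2 * m ≤ 81 * (2 * K) := mul_le_mul b6 hm hm0 (by norm_num)
  have b8 : c ^ 2 ≤ 1 := by nlinarith
  have b9 : K ≤ K ^ 2 := by nlinarith
  have c1 : k ^ 2 * m / 2 + 324 * c ^ 2 +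
      (36 * c + 36 * c * L + 36 * d - 36 * k * c) ^ 2 / 4 ≤ 60000 * K ^ 2 := by nlinarith
  have c2 : θ ^ 3 ≤ η := by
    have : θ ^ 2 ≤ 1 := by nlinarith
    nlinarith
  have c3 : 0 ≤ k ^ 2 * m / 2 + 324 * c ^ 2 +
      (36 * c + 36 * c * L + 36 * d - 36 * k * c) ^ 2 / 4 := by positivity
  exact (mul_le_mul c2 c1 c3 (by linarith)).trans h2

lemma alga_core {θ η K V m c d L k ν s x y ε : ℝ} (hK : 1 ≤ K) (h0 : 0 < θ) (h1 : θ ≤ η)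
    (h2 : η * (60000 * K ^ 2) ≤ 1) (hV : 1 ≤ V) (hm0 : 18 * (1 - K * η) ≤ m) (hm : m ≤ 2 * K)
    (hL : |L| ≤ 2 * K) (hc0 : 1 - 2 * η ≤ c) (hc : c ≤ 1) (hd0 : 0 ≤ d) (hd : d ≤ 2 * η)
    (hk0 : 7 ≤ k) (hk1 : k ≤ 9) (hk : k ^ 2 ≤ 73 - 800 * K * η) :
    -((K + 324) * θ * ε ^ 2) ≤ V * ν ^ 2 + m * s ^ 2 + x ^ 2 - m * s * θ * ε - 36 * c * y * s +
      36 * c * y ^ 2 - 36 * c * θ ^ 2 * ν * x +
      θ ^ 2 * (36 * c + 36 * c * L + 36 * d - 36 * k * c) * y * ν + 36 * c * θ * y * ε -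
      c * x * y + c * y ^ 2 / 2 + d * y ^ 2 / 2 + k * m * θ ^ 2 * s * ν + k * x * y -
      k * c * y ^ 2 / 2 := by
  have hη : 0 < η := h0.trans_le h1
  have u0 : η ≤ K * η := by nlinarith
  have u1 : K * η ≤ 1 / 4 := by
    have : K * η ≤ K * (K * η) := by nlinarith
    nlinarith
  have u2 : η ≤ 1 / 4 := u0.trans u1
  have c0 : 0 ≤ c := by linarith
  have m0 : 0 ≤ m := by linarith
  have A1 := alga_s (s := s) (y := y) h0 (h1.trans u0) u1 hm0 c0 hc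
  have A2 := alga_x (b := k - c) (x := x) (y := y) h0 (h1.trans u2)
  have A3 := mul_le_mul_of_nonneg_right (alga_y hK h0 h1 u2 hc0 hc hk0 hk1 hk) (sq_nonneg y)
  have A4 := mul_le_mul_of_nonneg_right
    (alga_nu hK h0 h1 h2 m0 hm hL c0 hc hd0 (by linarith) hk0 hk1 u2) (sq_nonneg ν)
  have A5 := mul_le_mul_of_nonneg_right hV (sq_nonneg ν)
  have A6 : 0 ≤ d * y ^ 2 := mul_nonneg hd0 (sq_nonneg y)
  generalize 36 * c + 36 * c * L + 36 * d - 36 * k * c = B at A4 ⊢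
  have B1 : 0 ≤ θ * m * (s - ε) ^ 2 := by positivity
  have B2 : 0 ≤ θ * m * (s + k * θ * ν) ^ 2 := by positivity
  have B3 : 0 ≤ θ * (x - 18 * c * θ * ν) ^ 2 := by positivity
  have B4 : 0 ≤ θ * (y + B * θ * ν / 2) ^ 2 := by positivity
  have B5 : 0 ≤ θ * (y + 18 * c * ε) ^ 2 := by positivity
  have B6 : m / 2 + 324 * c ^ 2 ≤ K + 324 := by nlinarith
  have B7 := mul_le_mul_of_nonneg_right B6 (mul_nonneg h0.le (sq_nonneg ε))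
  nlinarith

theorem p_ALGA :
    S_ALGA := by
  intro K hK
  have hK0 : 0 < K := by linarith
  refine ⟨800 * K, K + 324, 1 / (60000 * K ^ 2), by positivity, by positivity, by positivity, ?_⟩
  intro θ η U m c d Λ k l s x y e h0 h1 h2 hU hm0 hm hL hc0 hc hd0 hd hk0 hk1 hk
  obtain ⟨ν, rfl⟩ : ∃ ν, l = θ ^ 4 * ν := ⟨l / θ ^ 4, by field_simp⟩
  obtain ⟨ε, rfl⟩ : ∃ ε, e = θ * ε := ⟨e / θ, by field_simp⟩
  have h2' : η * (60000 * K ^ 2) ≤ 1 := (le_div_iff₀ (by positivity)).1 h2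
  have hL' : |Λ * θ ^ 2| ≤ 2 * K := by rwa [abs_mul, abs_of_pos (pow_pos h0 2)]
  have A := alga_core (ν := ν) (s := s) (x := x) (y := y) (ε := ε) hK h0 h1 h2' hU hm0 hm hL'
    hc0 hc (mul_nonneg hd0 (sq_nonneg θ)) hd hk0 hk1 hk
  have hθ := h0.ne'
  convert A using 1
  · field_simp
  · unfold form phi
    field_simp
    ring

end Pool.Agent.P.MP_97b9bc_mp.T
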