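import Pool.Agent.P.MP_97b9bc_mp.T.IfaceB

/-! Step ALGB. -/

set_option autoImplicit false

namespace Pool.Agent.P.MP_97b9bc_mp.T

open MeasureTheory Set Filter Topology

lemma algb_core (K W m c a δ q s x y e : ℝ) (hK : 1 ≤ K) (hW : 10000 * K ^ 2 ≤ W)
    (hm : 17 ≤ m) (hm2 : m ≤ 2 * K) (ha : |a| ≤ 2 * K) (hc : 0 ≤ c) (hc1 : c ≤ 1) (hδ : 0 ≤ δ)
    (hδ2 : δ ^ 2 ≤ 4 * c) :
    x ^ 2 / 2 + c * y ^ 2 - (17 * K + 324) * e ^ 2 ≤
      W * q ^ 2 + m * s ^ 2 + x ^ 2 - m * s * e -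
        36 * c * (y * (s - y) + q * (x - y) - y * a * q - y * e) - c / 2 * (2 * x * y - y ^ 2) +
        (36 * δ * y * q + δ * y ^ 2 / 2) := by
  have hy : 0 ≤ y ^ 2 := sq_nonneg y
  have hq : 0 ≤ q ^ 2 := sq_nonneg q
  have he : 0 ≤ e ^ 2 := sq_nonneg e
  have hs : 0 ≤ s ^ 2 := sq_nonneg s
  have hcy : 0 ≤ c * y ^ 2 := mul_nonneg hc hy
  have hcc : c ^ 2 ≤ c := by nlinarith
  have hc2 : c ^ 2 ≤ 1 := hcc.trans hc1
  have hccy : c ^ 2 * y ^ 2 ≤ c * y ^ 2 := mul_le_mul_of_nonneg_right hcc hy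
  have h1 : 33 / 2 * s ^ 2 - 17 * K * e ^ 2 ≤ m * s ^ 2 - m * s * e := by
    have a1 : 0 ≤ m * (s - 17 * e) ^ 2 := mul_nonneg (by linarith) (sq_nonneg _)
    have a2 : 17 * s ^ 2 ≤ m * s ^ 2 := mul_le_mul_of_nonneg_right hm hs
    have a3 : m * e ^ 2 ≤ 2 * K * e ^ 2 := mul_le_mul_of_nonneg_right hm2 he
    nlinarith
  have h2 : -(20 * (c * y ^ 2)) ≤ 33 / 2 * s ^ 2 - 36 * c * y * s := by
    nlinarith [sq_nonneg (s - 12 / 11 * c * y)]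
  have h3 : -(c * y ^ 2) ≤ x ^ 2 / 4 - c * x * y := by
    nlinarith [sq_nonneg (x - 2 * c * y)]
  have h4 : -(1296 * q ^ 2) ≤ x ^ 2 / 4 - 36 * c * q * x := by
    have a1 : c ^ 2 * q ^ 2 ≤ 1 * q ^ 2 := mul_le_mul_of_nonneg_right hc2 hq
    nlinarith [sq_nonneg (x - 72 * c * q)]
  have h5 : -(c * y ^ 2 / 2 + 5832 * (K ^ 2 * q ^ 2)) ≤ 36 * c * (1 + a) * y * q := by
    have a1 : 0 ≤ c * (y + 36 * (1 + a) * q) ^ 2 := mul_nonneg hc (sq_nonneg _)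
    have a2 : (1 + a) ^ 2 ≤ 9 * K ^ 2 := by
      have b := abs_le.mp ha
      nlinarith [b.1, b.2]
    have a3 : c * (1 + a) ^ 2 ≤ 9 * K ^ 2 := by
      have : c * (1 + a) ^ 2 ≤ 1 * (1 + a) ^ 2 := mul_le_mul_of_nonneg_right hc1 (sq_nonneg _)
      linarith
    have a4 : c * (1 + a) ^ 2 * q ^ 2 ≤ 9 * K ^ 2 * q ^ 2 := mul_le_mul_of_nonneg_right a3 hq
    nlinarith
  have h6 : -(c * y ^ 2 / 2 + 2592 * q ^ 2) ≤ 36 * δ * y * q := by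
    have a1 : δ ^ 2 * y ^ 2 ≤ 4 * c * y ^ 2 := mul_le_mul_of_nonneg_right hδ2 hy
    nlinarith [sq_nonneg (δ * y + 144 * q)]
  have h7 : -(c * y ^ 2 + 324 * e ^ 2) ≤ 36 * c * y * e := by
    have a1 : 0 ≤ c * (y + 18 * e) ^ 2 := mul_nonneg hc (sq_nonneg _)
    have a2 : c * e ^ 2 ≤ 1 * e ^ 2 := mul_le_mul_of_nonneg_right hc1 he
    nlinarith
  have h8 : 0 ≤ δ * y ^ 2 := mul_nonneg hδ hy
  have h9 : 10000 * (K ^ 2 * q ^ 2) ≤ W * q ^ 2 := by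
    have := mul_le_mul_of_nonneg_right hW hq
    linarith
  have h10 : q ^ 2 ≤ K ^ 2 * q ^ 2 := by
    have : (1 : ℝ) ≤ K ^ 2 := by nlinarith
    have := mul_le_mul_of_nonneg_right this hq
    linarith
  linarith

theorem p_ALGB :
    S_ALGB := by
  intro K hK
  have hK0 : 0 < K := by linarith
  refine ⟨17 * K + 324, 1 / (100 * K), by linarith, by positivity, ?_⟩
  intro r U m c d Λ l s x y e hr hrb hU hm hm2 hΛ hc hc1 hd hd2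
  have hrK : r * (100 * K) ≤ 1 := by
    rwa [le_div_iff₀ (by positivity)] at hrb
  have hW : 10000 * K ^ 2 ≤ U * r ^ 2 := by
    have h1 : (r * (100 * K)) ^ 2 ≤ 1 := by
      have h0 : 0 ≤ r * (100 * K) := by positivity
      nlinarith
    have h2 : 10000 * K ^ 2 * r ^ 2 ≤ U * r ^ 2 * r ^ 2 := by nlinarith
    exact le_of_mul_le_mul_right h2 (by positivity)
  have ha : |Λ * r| ≤ 2 * K := by
    rw [abs_mul, abs_of_pos hr]; exact hΛ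
  have h := algb_core K (U * r ^ 2) m c (Λ * r) (d * r) (l / r) s x y e hK hW hm hm2 ha hc hc1
    (mul_nonneg hd hr.le) hd2
  refine h.trans (le_of_eq ?_)
  unfold form
  field_simp

end Pool.Agent.P.MP_97b9bc_mp.T
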