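import Pool.Agent.P.MP_97b9bc_mp.T.IfaceB

/-! Step BL. -/

set_option autoImplicit false

namespace Pool.Agent.P.MP_97b9bc_mp.T

open MeasureTheory Set Filter Topology

lemma bl_main {z Q : ℝ} {X : Q4} (h : Sol z 0 Q X) {l r : ℝ} (h0 : 0 < l) (h1 : l < 1)
    (hr : 0 < r) : l * (r * X.t r ^ 2) - X.w r - 9 / (64 * l ^ 2 * (1 - l)) * r ≤ 0 := by
  set c := 9 / (64 * l ^ 2 * (1 - l)) with hc
  have hl : 0 < 1 - l := sub_pos.2 h1
  have hc0 : 0 < c := by positivity
  by_contra hp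
  push Not at hp
  obtain ⟨a, ha, ha0, har⟩ : ∃ a, l * (a * X.t a ^ 2) - X.w a - c * a < 0 ∧ 0 < a ∧ a ≤ r := by
    have h2 : Tendsto (fun s : ℝ => c * s) (𝓝[>] 0) (𝓝 (c * 0)) :=
      (tendsto_id.const_mul c).mono_left nhdsWithin_le_nhds
    have h3 := (((h.t0.const_mul l).sub h.w0).sub h2).eventually
      (gt_mem_nhds (show l * 0 - z - c * 0 < 0 by linarith [h.zpos]))
    exact (h3.and (Ioc_mem_nhdsGT hr)).exists
  obtain ⟨b, hb, hb1, hm⟩ := h.small one_pos (max r ((1 + Q) / c))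
  have hb0 : 0 < b := by linarith
  have hg : b * X.t b ^ 2 ≤ 1 := by
    have ht := h.pos b hb0
    have hm0 := h.mpos hb0
    have e : (b * X.t b ^ 2) ^ 3 * b = X.m b ^ 2 := by
      unfold Q4.m
      ring
    have h2 : (b * X.t b ^ 2) ^ 3 ≤ 1 := by
      have : 0 < (b * X.t b ^ 2) ^ 3 := by positivity
      nlinarith
    exact (pow_le_one_iff_of_nonneg (by positivity) three_ne_zero).1 h2
  have hb' : l * (b * X.t b ^ 2) - X.w b - c * b ≤ 0 := by
    have h2 := (div_le_iff₀ hc0).1 ((le_max_right _ _).trans hb)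
    have h3 := h.le_w hb0
    have ht := h.pos b hb0
    have : 0 < b * X.t b ^ 2 := by positivity
    nlinarith
  obtain ⟨s, hs, -, h2, -, h3⟩ := maxp (f := fun s => l * (s * X.t s ^ 2) - X.w s - c * s)
    (f' := fun s => l * (X.t s ^ 2 * (4 / 3 * (s * X.L s) - 1 / 3)) - X.v s - c)
    (f'' := fun s => l * (s * (4 / 3 * X.t s ^ 2 * (X.t s ^ 2 - X.w s / s) +
      4 / 9 * X.t s ^ 2 * (X.L s - 1 / s) ^ 2)) - s * X.t s ^ 3)
    ⟨har, (le_max_left _ _).trans hb⟩
    (fun s hs _ => by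
      have hs0 := ha0.trans_le hs
      refine (((((hasDerivAt_id' s).fun_mul ((h.dt s hs0).fun_pow 2)).const_mul l).fun_sub
        (h.dw s hs0)).fun_sub ((hasDerivAt_id' s).const_mul c)).congr_deriv ?_
      have := hs0.ne'
      push_cast
      field_simp
      ring)
    (fun s hs _ => by
      have hs0 := ha0.trans_le hs
      refine ((((((h.dt s hs0).fun_pow 2).fun_mul (((((hasDerivAt_id' s).fun_mul
        (h.dL s hs0)).const_mul (4 / 3)).sub_const (1 / 3)))).const_mul l).fun_sub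
        (h.dv s hs0)).sub_const c).congr_deriv ?_
      have := hs0.ne'
      push_cast
      field_simp
      ring) ha.le hb' hp
  have hs0 := ha0.trans hs
  have ht := h.pos s hs0
  have h4 : 0 < l * (s * X.t s ^ 2) - X.w s - c * s := hp.trans_le h2
  have h5 : X.w s / s < l * X.t s ^ 2 - c := by
    rw [div_lt_iff₀ hs0]
    linarith
  have h6 : 3 * X.t s ≤ 4 * l * ((1 - l) * X.t s ^ 2 + c) := by
    have e : 4 * l * ((1 - l) * X.t s ^ 2 + c) - 3 * X.t s =
        4 * l * (1 - l) * (X.t s - 3 / (8 * l * (1 - l))) ^ 2 := by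
      rw [hc]
      field_simp
      ring
    have : 0 ≤ 4 * l * (1 - l) * (X.t s - 3 / (8 * l * (1 - l))) ^ 2 := by positivity
    linarith
  have h7 : 3 * X.t s < 4 * l * (X.t s ^ 2 - X.w s / s) := by
    refine h6.trans_lt (mul_lt_mul_of_pos_left ?_ (by positivity))
    linarith
  have h8 : 0 < s * X.t s ^ 2 * (4 * l * (X.t s ^ 2 - X.w s / s) - 3 * X.t s) := by
    have := sub_pos.2 h7
    positivity
  have h9 : 0 ≤ l * (s * (X.t s ^ 2 * (X.L s - 1 / s) ^ 2)) := by positivity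
  linarith

theorem p_BL :
    S_BL := by
  intro z Q X h
  refine ⟨fun l r h0 h1 hr => ?_, fun r hr => ?_⟩
  · have := bl_main h h0 h1 hr
    rw [← sub_le_iff_le_add, le_div_iff₀ hr]
    linarith
  · have := bl_main h (l := 2 / 3) (by norm_num) (by norm_num) hr
    have ht := h.pos r hr
    have h2 : 0 < r * X.t r ^ 2 := by positivity
    norm_num at this
    linarith

end Pool.Agent.P.MP_97b9bc_mp.T
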