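import Pool.Agent.P.MP_97b9bc_mp.T.IfaceB

/-! Step BUMP. -/

set_option autoImplicit false

namespace Pool.Agent.P.MP_97b9bc_mp.T

open MeasureTheory Set Filter Topology

lemma bump_db (h r s : ℝ) :
    HasDerivAt (fun s => h ^ 2 - (s - r) ^ 2) (-(2 * (s - r))) s := by
  have := (((hasDerivAt_id' s).sub_const r).fun_pow 2).const_sub (h ^ 2)
  refine this.congr_deriv ?_
  push_cast
  ring

lemma bump_alg {h x L t W : ℝ} (hh : 0 < h) (hb : 0 < h ^ 2 - x ^ 2)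
    (h1 : -8 * x - 2 * (L * (h ^ 2 - x ^ 2)) = 0)
    (h2 : -8 * 1 - 2 * ((t ^ 2 - W + 0 - L ^ 2) * (h ^ 2 - x ^ 2) + L * -(2 * x)) ≤ 0) :
    W - 4 / h ^ 2 ≤ t ^ 2 := by
  have e : h ^ 2 = (h ^ 2 - x ^ 2) + x ^ 2 := by ring
  have h0 : 0 < h ^ 2 := by positivity
  generalize h ^ 2 - x ^ 2 = b at hb h1 h2 e
  generalize h ^ 2 = H at e h0
  have hL : L = -4 * x / b := by field_simp; linarith
  subst hL e
  have h3 : 0 ≤ (t ^ 2 - W) * b ^ 2 + 4 * b - 8 * x ^ 2 := by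
    have e2 : (t ^ 2 - W) * b ^ 2 + 4 * b - 8 * x ^ 2 = -(b / 2) *
      (-8 * 1 - 2 * ((t ^ 2 - W + 0 - (-4 * x / b) ^ 2) * b + -4 * x / b * -(2 * x))) := by
      field_simp; ring
    rw [e2]; nlinarith
  have h4 : W - t ^ 2 ≤ 4 / (b + x ^ 2) := by
    rw [le_div_iff₀ h0]
    have : (W - t ^ 2) * (b + x ^ 2) * b ^ 2 ≤ 4 * b ^ 2 := by
      nlinarith [mul_nonneg h3 h0.le, mul_nonneg hb.le (sq_nonneg x), sq_nonneg (x ^ 2)]
    exact le_of_mul_le_mul_right this (by positivity)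
  linarith

theorem p_BUMP :
    S_BUMP := by
  intro z Q X hX r h F T hh hr hT hF hTF
  have hp : ∀ s, r - h ≤ s → 0 < s := fun s hs => by linarith
  obtain ⟨s, s1, s2, h1, h2, h3⟩ := maxp (a := r - h) (b := r + h) (r := r)
    (f := fun s => (h ^ 2 - (s - r) ^ 2) ^ 4 / X.m s)
    (f' := fun s => (h ^ 2 - (s - r) ^ 2) ^ 3 / X.m s *
      (-8 * (s - r) - 2 * (X.L s * (h ^ 2 - (s - r) ^ 2))))
    ⟨by linarith, by linarith⟩
    (fun s hs _ => by
      have m0 := (hX.mpos (hp s hs)).ne'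
      refine (((bump_db h r s).fun_pow 4).fun_div (hX.dm (hp s hs)) m0).congr_deriv ?_
      push_cast
      field_simp
      ring)
    (fun s hs _ =>
      (((bump_db h r s).fun_pow 3).fun_div (hX.dm (hp s hs)) (hX.mpos (hp s hs)).ne').fun_mul
        ((((hasDerivAt_id' s).sub_const r).const_mul (-8)).fun_sub
          (((hX.dL s (hp s hs)).fun_mul (bump_db h r s)).const_mul 2)))
    (by simp) (by simp) (by have := hX.mpos (hp r (by linarith)); simp; positivity)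
  have s0 := hp s s1.le
  have m0 := hX.mpos s0
  have mr := hX.mpos (hp r (by linarith))
  have hb : 0 < h ^ 2 - (s - r) ^ 2 := by nlinarith
  have u0 : 0 < (h ^ 2 - (s - r) ^ 2) ^ 3 / X.m s := by positivity
  have k0 := (mul_eq_zero.1 h2).resolve_left u0.ne'
  rw [k0, mul_zero, zero_add] at h3
  have h4 := bump_alg hh hb k0 (nonpos_of_mul_nonpos_right h3 u0)
  have h5 : T ≤ X.t s := by
    refine le_of_sq_le_sq ?_ (hX.pos s s0).le
    linarith [hF s s1.le s2.le]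
  have h6 : (r - h) ^ 2 * T ^ 3 ≤ X.m s := by
    have : 0 ≤ r - h := by linarith
    unfold Q4.m
    gcongr
  have h7 : (h ^ 2 - (s - r) ^ 2) ^ 4 ≤ (h ^ 2) ^ 4 := by
    gcongr
    linarith [sq_nonneg (s - r)]
  simp only [sub_self, ne_eq, OfNat.ofNat_ne_zero, not_false_eq_true, zero_pow, sub_zero] at h1
  rw [div_le_div_iff₀ mr m0] at h1
  have h8 : (h ^ 2) ^ 4 * X.m s ≤ (h ^ 2) ^ 4 * X.m r :=
    h1.trans (mul_le_mul_of_nonneg_right h7 mr.le)
  exact h6.trans (le_of_mul_le_mul_left h8 (by positivity))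

end Pool.Agent.P.MP_97b9bc_mp.T
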