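import Pool.Agent.P.MP_97b9bc_mp.T.IfaceA

/-! Step CLS. -/

set_option autoImplicit false

namespace Pool.Agent.P.MP_97b9bc_mp.T

open MeasureTheory Set Filter Topology
open scoped ContDiff

lemma cls_mono {f g : ℝ → ℝ} (hf : LocallyIntegrableOn f (Ioi 0)) (hg : Measurable g)
    (h : ∀ r, 0 < r → |g r| ≤ f r) : LocallyIntegrableOn g (Ioi 0) := by
  rw [locallyIntegrableOn_iff isOpen_Ioi.isLocallyClosed] at hf ⊢
  intro K hK hc
  refine (hf K hK hc).mono' hg.aestronglyMeasurable ?_
  filter_upwards [ae_restrict_mem hc.measurableSet] with r hr using h r (hK hr)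

lemma cls_pow {x : ℝ} (hx : 0 ≤ x) : x ^ (4 / 3 : ℝ) * x ≤ 1 + x ^ (10 / 3 : ℝ) := by
  have e : x ^ (4 / 3 : ℝ) * x = x ^ (7 / 3 : ℝ) := by
    rw [← Real.rpow_add_one' hx (by norm_num)]; norm_num
  rw [e]
  have h0 := Real.rpow_nonneg hx (10 / 3 : ℝ)
  rcases le_total x 1 with h | h
  · linarith [Real.rpow_le_one hx h (show (0 : ℝ) ≤ 7 / 3 by norm_num)]
  · linarith [Real.rpow_le_rpow_of_exponent_le h (show (7 / 3 : ℝ) ≤ 10 / 3 by norm_num)]

theorem p_CLS (hTST : S_TST) (hDBR : S_DBR) (hWPA : S_WPA) :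
    S_CLS := by
  intro A γ z μ u hu
  have hm := hu.meas
  have hlc : IsLocallyClosed (Ioi (0 : ℝ)) := isOpen_Ioi.isLocallyClosed
  have hinv : ContinuousOn (fun r : ℝ => r⁻¹) (Ioi 0) :=
    continuousOn_id.inv₀ fun r hr => ne_of_gt hr
  have hw : ContinuousOn (wOf z fun s => 4 * Real.pi * u s ^ 2) (Ioi 0) :=
    (hWPA z _ (hu.L2.const_mul _) (fun r _ => by positivity)).1
  have l1 : LocallyIntegrableOn u (Ioi 0) := by
    refine cls_mono (f := fun r => 1 + u r ^ 2)
      ((continuousOn_const.locallyIntegrableOn measurableSet_Ioi).add hu.L2.locallyIntegrableOn)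
      hm (fun r hr => ?_)
    rw [abs_of_nonneg (hu.nonneg r hr)]
    nlinarith [sq_nonneg (u r - 1)]
  have l2 : LocallyIntegrableOn (fun r => (u r / r) ^ (4 / 3 : ℝ) * u r) (Ioi 0) := by
    refine cls_mono (f := fun r => r + r⁻¹ * (r ^ 2 * (u r / r) ^ (10 / 3 : ℝ)))
      ((continuousOn_id.locallyIntegrableOn measurableSet_Ioi).add
        (hu.Lp.locallyIntegrableOn.continuousOn_mul hinv hlc)) (by fun_prop) (fun r hr => ?_)
    have h0 := hu.nonneg r hr
    have h1 := mul_le_mul_of_nonneg_left (cls_pow (show 0 ≤ u r / r by positivity)) hr.le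
    rw [abs_of_nonneg (by positivity)]
    have e1 : r * ((u r / r) ^ (4 / 3 : ℝ) * (u r / r)) = (u r / r) ^ (4 / 3 : ℝ) * u r := by
      field_simp
    have e2 : r * (1 + (u r / r) ^ (10 / 3 : ℝ)) =
        r + r⁻¹ * (r ^ 2 * (u r / r) ^ (10 / 3 : ℝ)) := by
      field_simp
    rwa [e1, e2] at h1
  have l3 : LocallyIntegrableOn (fun r => coef A γ z μ u r * u r) (Ioi 0) := by
    have e : (fun r => coef A γ z μ u r * u r) = fun r => γ / A * ((u r / r) ^ (4 / 3 : ℝ) * u r) +
        (μ - wOf z (fun s => 4 * Real.pi * u s ^ 2) r * r⁻¹) / A * u r := by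
      funext r; unfold coef; ring
    rw [e]
    exact (l2.continuousOn_mul continuousOn_const hlc).add
      (l1.continuousOn_mul ((continuousOn_const.sub (hw.mul hinv)).div_const A) hlc)
  obtain ⟨U0, c, hae0, hd0⟩ := hDBR u _ l1 l3 (fun χ h1 h2 => by
    obtain ⟨h, hh, he⟩ := hTST χ h1 h2
    calc ∫ r in Ioi (0 : ℝ), u r * deriv (deriv χ) r
        = ∫ r in Ioi (0 : ℝ), u r * (4 * r ^ 3 * deriv (deriv h) (r ^ 2) +
            6 * r * deriv h (r ^ 2)) :=
          setIntegral_congr_fun measurableSet_Ioi fun r hr => by simp only [(he r hr).2]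
      _ = _ := hu.eq h hh
      _ = _ := setIntegral_congr_fun measurableSet_Ioi fun r hr => by simp only [(he r hr).1])
  classical
  set U : ℝ → ℝ := (Ioi (0 : ℝ)).piecewise U0 0 with hU
  have hUeq : ∀ r, 0 < r → U r = U0 r := fun r hr => piecewise_eq_of_mem _ _ _ hr
  have hd : ∀ r, 0 < r → HasDerivAt U (c + ∫ s in (1 : ℝ)..r, coef A γ z μ u s * u s) r := by
    intro r hr
    refine (hd0 r hr).congr_of_eventuallyEq ?_
    filter_upwards [Ioi_mem_nhds hr] with s hs using hUeq s hs
  have hc : ContinuousOn U (Ioi 0) := fun r hr => (hd r hr).continuousAt.continuousWithinAt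
  have hae : ∀ᵐ r ∂(volume.restrict (Ioi (0 : ℝ))), u r = U r := by
    filter_upwards [hae0, ae_restrict_mem measurableSet_Ioi] with r h1 h2
    rw [h1, hUeq r h2]
  have hUm : Measurable U :=
    ContinuousOn.measurable_piecewise (fun r hr => (hd0 r hr).continuousAt.continuousWithinAt)
      continuousOn_const measurableSet_Ioi
  have hU0 : ∀ r, 0 < r → 0 ≤ U r := by
    have : EqOn (fun r => max (U r) 0) U (Ioi 0) := by
      refine Measure.eqOn_open_of_ae_eq (μ := volume) ?_ isOpen_Ioi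
        (hc.sup continuousOn_const) hc
      filter_upwards [hae, ae_restrict_mem measurableSet_Ioi] with r h1 h2
      rw [← h1]
      exact max_eq_left (hu.nonneg r h2)
    intro r hr
    rw [← this hr]
    exact le_max_right _ _
  have hweq : (wOf z fun s => 4 * Real.pi * U s ^ 2) = wOf z fun s => 4 * Real.pi * u s ^ 2 := by
    funext r
    unfold wOf
    congr 1
    refine integral_congr_ae ?_
    filter_upwards [hae] with s hs
    rw [hs]
  have hG : ∀ᵐ r ∂(volume.restrict (Ioi (0 : ℝ))),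
      coef A γ z μ u r * u r = coef A γ z μ U r * U r := by
    filter_upwards [hae] with s hs
    unfold coef
    rw [hweq, hs]
  have hGc : ContinuousOn (fun r => coef A γ z μ U r * U r) (Ioi 0) := by
    unfold coef
    rw [hweq]
    have h0 : ∀ r ∈ Ioi (0 : ℝ), id r ≠ 0 := fun r hr => ne_of_gt hr
    exact ((((continuousOn_const.mul ((hc.div continuousOn_id h0).rpow_const
      fun _ _ => Or.inr (by norm_num))).sub (hw.div continuousOn_id h0)).add
        continuousOn_const).div_const A).mul hc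
  have hsub : ∀ r, 0 < r → uIcc (1 : ℝ) r ⊆ Ioi 0 := fun r hr s hs =>
    lt_of_lt_of_le (lt_min one_pos hr) hs.1
  refine ⟨U, fun r => c + ∫ s in (1 : ℝ)..r, coef A γ z μ U s * U s,
    ⟨⟨hUm, hU0, ?_, ?_, fun h hh => ?_⟩, fun r hr => ?_, fun r hr => ?_⟩, hae⟩
  · refine hu.L2.congr ?_
    filter_upwards [hae] with s hs
    rw [hs]
  · refine hu.Lp.congr ?_
    filter_upwards [hae] with s hs
    rw [hs]
  · refine Eq.trans (integral_congr_ae ?_) ((hu.eq h hh).trans (integral_congr_ae ?_))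
    · filter_upwards [hae] with s hs
      rw [hs]
    · filter_upwards [hG] with s hs
      rw [hs]
  · refine (hd r hr).congr_deriv ?_
    congr 1
    refine intervalIntegral.integral_congr_ae ?_
    filter_upwards [(ae_restrict_iff' measurableSet_Ioi).1 hG] with s hs h1
    exact hs (hsub r hr (uIoc_subset_uIcc h1))
  · exact (intervalIntegral.integral_hasDerivAt_right ((hGc.mono (hsub r hr)).intervalIntegrable)
      (hGc.stronglyMeasurableAtFilter isOpen_Ioi r hr)
      (hGc.continuousAt (Ioi_mem_nhds hr))).const_add c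

end Pool.Agent.P.MP_97b9bc_mp.T
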