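import Pool.Agent.P.MP_97b9bc_mp.T.IfaceB

/-! Step END. -/

set_option autoImplicit false

namespace Pool.Agent.P.MP_97b9bc_mp.T

open MeasureTheory Set Filter Topology

theorem end_L (hBL : S_BL) (hRIC : S_RIC) {z Q : ℝ} {X : Q4} (h : Sol z 0 Q X) {r : ℝ}
    (hr : 1 ≤ r) : |X.L r| ≤ √(2 * z + 9 / 4) + 2 := by
  have hz := h.zpos
  have := hRIC X.L (fun s => X.t s ^ 2 - X.w s / s + 0 - X.L s ^ 2) r (1 / 2) (√(2 * z + 9 / 4))
    (by norm_num) (Real.sqrt_nonneg _) fun s h1 _ => by
      have hs : 0 < s := by linarith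
      refine ⟨h.dL s hs, ?_⟩
      rw [Real.sq_sqrt (by positivity)]
      have a := (hBL z Q X h).1 (1 / 2) s (by norm_num) (by norm_num) hs
      have b : X.w s / s ≤ 2 * z := by
        rw [div_le_iff₀ hs]
        nlinarith [h.w_le hs]
      norm_num at a
      linarith
  norm_num at this
  exact this

theorem end_m {z Q K : ℝ} {X : Q4} (h : Sol z 0 Q X) (hK0 : 0 ≤ K) (hK : ∀ r, 1 ≤ r → |X.L r| ≤ K)
    {r : ℝ} (hr : 1 ≤ r) : X.m r ≤ Real.exp (2 * K) *
      ((X.w r - r * X.v r + Q) - (X.w (r + 1) - (r + 1) * X.v (r + 1) + Q)) := by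
  have hm := h.mpos (r := r) (by linarith)
  have a : ∀ s, r ≤ s → s ≤ r + 1 → X.m r * Real.exp (-(2 * K)) ≤ X.m s := by
    intro s h1 h2
    have := anti' (f := fun s => -(X.m s * Real.exp (2 * K * s)))
      (f' := fun s => -(2 * X.L s * X.m s * Real.exp (2 * K * s) +
        X.m s * (Real.exp (2 * K * s) * (2 * K * 1)))) h1
      (fun u hu _ => ((h.dm (by linarith)).fun_mul
        ((hasDerivAt_id' u).const_mul (2 * K)).exp).fun_neg)
      (fun u hu _ => by
        have h3 := (abs_le.1 (hK u (by linarith))).1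
        have h4 : 0 ≤ X.m u * Real.exp (2 * K * u) :=
          (mul_pos (h.mpos (by linarith)) (Real.exp_pos _)).le
        nlinarith [mul_nonneg h4 (show 0 ≤ X.L u + K by linarith)])
    have h5 : X.m r * Real.exp (2 * K * r) ≤ X.m s * Real.exp (2 * K * s) := by linarith
    have h6 : Real.exp (-(2 * K)) * Real.exp (2 * K * s) ≤ Real.exp (2 * K * r) := by
      rw [← Real.exp_add]
      exact Real.exp_le_exp.2 (by nlinarith)
    refine le_of_mul_le_mul_right ?_ (Real.exp_pos (2 * K * s))
    rw [mul_assoc]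
    exact (mul_le_mul_of_nonneg_left h6 hm.le).trans h5
  have b := anti' (f := fun s => X.w s - s * X.v s + Q + X.m r * Real.exp (-(2 * K)) * s)
    (f' := fun s => -X.m s + X.m r * Real.exp (-(2 * K)) * 1) (show r ≤ r + 1 by linarith)
    (fun u hu _ => (h.dn (by linarith)).fun_add ((hasDerivAt_id' u).const_mul _))
    (fun u h1 h2 => by linarith [a u h1 h2])
  have c : X.m r = Real.exp (2 * K) * (X.m r * Real.exp (-(2 * K))) := by
    rw [Real.exp_neg]; field_simp
  rw [c]
  exact mul_le_mul_of_nonneg_left (by linarith) (Real.exp_pos _).le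

theorem p_END (hBL : S_BL) (hRIC : S_RIC) :
    S_END := by
  intro z Q X h
  have hK0 : 0 ≤ √(2 * z + 9 / 4) + 2 := by positivity
  refine ⟨?_, ?_, max (√(2 * z + 9 / 4) + 2) (z + |Q|), fun r hr =>
    ⟨(end_L hBL hRIC h hr).trans (le_max_left _ _), le_trans ?_ (le_max_right _ _)⟩⟩
  · have t := (h.n0.sub (h.n0.comp (tendsto_atTop_add_const_right atTop 1 tendsto_id))).const_mul
      (Real.exp (2 * (√(2 * z + 9 / 4) + 2)))
    rw [sub_zero, mul_zero] at t
    refine squeeze_zero' ?_ ?_ t
    · filter_upwards [eventually_gt_atTop 0] with r hr using (h.mpos hr).le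
    · filter_upwards [eventually_ge_atTop 1] with r hr using
        end_m h hK0 (fun r hr => end_L hBL hRIC h hr) hr
  · have t := h.rv.mul tendsto_inv_atTop_zero
    rw [mul_zero] at t
    refine t.congr' ?_
    filter_upwards [eventually_gt_atTop 0] with r hr
    field_simp
  · have h1 := h.w_le (r := r) (by linarith)
    have h2 := h.le_w (r := r) (by linarith)
    have := h.zpos
    exact abs_le.2 ⟨by linarith [le_abs_self Q], by linarith [abs_nonneg Q]⟩

end Pool.Agent.P.MP_97b9bc_mp.T
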