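import Pool.Agent.P.MP_97b9bc_mp.T.IfaceB

/-! Step GD. -/

set_option autoImplicit false

namespace Pool.Agent.P.MP_97b9bc_mp.T

open MeasureTheory Set Filter Topology

theorem p_GD :
    S_GD := by
  intro e X Y hX hY
  have hG : ContinuousOn (GG X Y) (Ioi 0) :=
    ((hX.cm.sub hY.cm).mul (hX.cL.sub hY.cL)).neg.sub ((hX.cw.sub hY.cw).mul (hX.cv.sub hY.cv))
  refine ⟨hG, fun r0 => ?_, fun r hr => ?_⟩
  · refine hG.add (((continuousOn_const.sub (continuousOn_id.div_const r0)).pow 2).mul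
      (((continuousOn_const.mul ((hX.cw.sub hY.cw).div continuousOn_id fun r hr => ?_)).mul
        (hX.cL.sub hY.cL)).add (((hX.cw.sub hY.cw).pow 2).div
          (continuousOn_const.mul continuousOn_id) fun r hr => ?_)))
    · exact ne_of_gt hr
    · exact mul_ne_zero two_ne_zero (ne_of_gt hr)
  have hm := mu_mul (hX.pos r hr) (hY.pos r hr)
  have hr0 := hr.ne'
  have dm := (hX.dm hr).fun_sub (hY.dm hr)
  have dL := (hX.dL r hr).fun_sub (hY.dL r hr)
  have dw := (hX.dw r hr).fun_sub (hY.dw r hr)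
  have dv := (hX.dv r hr).fun_sub (hY.dv r hr)
  have di := (hasDerivAt_id' r).hasDerivWithinAt (s := Ici r)
  have e1 : r * X.t r ^ 3 = X.m r / r := by unfold Q4.m; field_simp
  have e2 : r * Y.t r ^ 3 = Y.m r / r := by unfold Q4.m; field_simp
  have e3 : X.m r = Y.m r + mu X Y r * (X.t r ^ 2 - Y.t r ^ 2) := by linarith
  have dG : HasDerivWithinAt (GG X Y) (-formAt 0 0 e X Y r) (Ici r) r := by
    refine HasDerivWithinAt.congr_deriv (f := GG X Y)
      ((dm.fun_mul dL).fun_neg.fun_sub (dw.fun_mul dv)) ?_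
    unfold formAt form
    rw [e1, e2, e3]
    field_simp
    ring
  refine ⟨dG, fun r0 h0 => ⟨?_, ?_⟩⟩
  · refine HasDerivWithinAt.congr_deriv (f := Phi r0 X Y)
      (dG.fun_add ((((di.div_const r0).const_sub 1).fun_pow 2).fun_mul
        ((((dw.fun_div di hr0).const_mul 36).fun_mul dL).fun_add
          ((dw.fun_pow 2).fun_div (di.const_mul 2) (mul_ne_zero two_ne_zero hr0))))) ?_
    unfold formAt form
    push_cast
    field_simp
    ring
  · unfold Phi phi GG
    rw [e3]
    field_simp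
    ring

end Pool.Agent.P.MP_97b9bc_mp.T
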