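import Pool.Agent.P.MP_97b9bc_mp.T.IfaceA

/-! Step GLOB. -/

set_option autoImplicit false

namespace Pool.Agent.P.MP_97b9bc_mp.T

open MeasureTheory Set Filter Topology
open scoped ContDiff

lemma glob_mono {lam lam' : ℝ} {ρ : R3 → ℝ} {g : R3 → R3} (h : Adm lam ρ g)
    (hm : ∫ x, ρ x ≤ lam') : Adm lam' ρ g :=
  ⟨h.nonneg, h.grad, h.grad_L2, h.L1, h.Lp, h.coulomb, hm⟩

lemma glob_mid {A γ z lam lam' : ℝ} (hA : 0 < A) (hγ : 0 < γ) (hz : 0 < z)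
    {ρ ρ' : R3 → ℝ} {g g' : R3 → R3} (h : Adm lam ρ g) (h' : Adm lam' ρ' g')
    (hlt : tfw A γ z ρ' g' < tfw A γ z ρ g) :
    ∃ (σ : R3 → ℝ) (k : R3 → R3), Adm (((∫ x, ρ x) + ∫ x, ρ' x) / 2) σ k ∧
      tfw A γ z σ k < tfw A γ z ρ g := by
  have a1 : Adm (max lam lam') ρ g := glob_mono h (h.mass.trans (le_max_left _ _))
  have a2 : Adm (max lam lam') ρ' g' := glob_mono h' (h'.mass.trans (le_max_right _ _))
  obtain ⟨_, k, hk, hle⟩ := MP_3d36e1_mp.midpoint_energy (A := A) (γ := γ) (p := 5 / 3)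
    (by norm_num) hA hz a1 a2
  refine ⟨fun x => (ρ x + ρ' x) / 2, k, glob_mono hk ?_, ?_⟩
  · rw [integral_div, integral_add h.L1 h'.L1]
  · have h0 : 0 ≤ ∫ x, MP_3d36e1_mp.defect (5 / 3) (ρ x) (ρ' x) :=
      integral_nonneg fun x => MP_3d36e1_mp.defect_nonneg (by norm_num) (h.nonneg x) (h'.nonneg x)
    have h1 : 0 ≤ γ / (5 / 3) * ∫ x, MP_3d36e1_mp.defect (5 / 3) (ρ x) (ρ' x) := by positivity
    rw [tfw_eq, tfw_eq] at hlt
    rw [tfw_eq, tfw_eq]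
    linarith

lemma glob_iter {A γ z lam lam' : ℝ} (hA : 0 < A) (hγ : 0 < γ) (hz : 0 < z)
    {ρ ρ' : R3 → ℝ} {g g' : R3 → R3} (h : Adm lam ρ g) (h' : Adm lam' ρ' g')
    (hlt : tfw A γ z ρ' g' < tfw A γ z ρ g) (n : ℕ) :
    ∃ (σ : R3 → ℝ) (k : R3 → R3), Adm ((∫ x, ρ x) + lam' * (1 / 2) ^ n) σ k ∧
      tfw A γ z σ k < tfw A γ z ρ g := by
  induction n with
  | zero =>
    refine ⟨ρ', g', glob_mono h' ?_, hlt⟩
    have h0 : 0 ≤ ∫ x, ρ x := integral_nonneg h.nonneg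
    have := h'.mass
    simp only [pow_zero, mul_one]
    linarith
  | succ n ih =>
    obtain ⟨σ, k, a, b⟩ := ih
    obtain ⟨σ', k', a', b'⟩ := glob_mid hA hγ hz h a b
    refine ⟨σ', k', glob_mono a' (a'.mass.trans ?_), b'⟩
    have := a.mass
    rw [pow_succ]
    linarith

theorem p_GLOB (hSOB : S_SOB) (hMINSOL : S_MINSOL) (hPQ : S_PQ) :
    S_GLOB := by
  intro A γ z hA hγ hz
  have hc := cc_pos hA hγ
  constructor
  · have hlam : 0 < 2 * z + 1 := by linarith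
    obtain ⟨ρ, hρ⟩ := MP_3d36e1_mp.exists_minimiser (A := A) (γ := γ) (p := 5 / 3)
      (by norm_num) hA hγ hz hlam
    obtain ⟨g, hg⟩ := mini_of_isMinimiser hρ
    obtain ⟨μ, X, -, hX⟩ := hMINSOL A γ z _ ρ g hA hγ hz hlam hg
    have hq := (abs_le.1 (hPQ _ _ _ _ hX)).2
    have hN : ∫ x, ρ x ≤ 2 * z := by
      have := (div_le_div_iff_of_pos_right hc).1 hq
      linarith
    refine ⟨ρ, g, hg.1.root, fun ρ' g' h' => ?_⟩
    by_contra hlt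
    push Not at hlt
    have a' := hSOB ρ' g' h'
    have ht : Tendsto (fun n : ℕ => (∫ x, ρ' x) * (1 / 2 : ℝ) ^ n) atTop (𝓝 ((∫ x, ρ' x) * 0)) :=
      (tendsto_pow_atTop_nhds_zero_of_lt_one (by norm_num) (by norm_num)).const_mul _
    rw [mul_zero] at ht
    obtain ⟨n, hn⟩ := (ht.eventually (gt_mem_nhds (show (0 : ℝ) < 1 by norm_num))).exists
    obtain ⟨σ, k, a, b⟩ := glob_iter hA hγ hz hg.1 a' hlt n
    have := hg.2 σ k (glob_mono a (a.mass.trans (by linarith)))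
    linarith
  · rintro ρ ⟨g, hg, hmin⟩
    have a := hSOB ρ g hg
    have h0 : 0 ≤ ∫ x, ρ x := integral_nonneg hg.nonneg
    have hm : Mini A γ z ((∫ x, ρ x) + 1) ρ g :=
      ⟨glob_mono a (by linarith), fun ρ' g' h' => hmin ρ' g' h'.root⟩
    obtain ⟨μ, X, hμ, hX⟩ := hMINSOL A γ z _ ρ g hA hγ hz (by linarith) hm
    rw [hμ (by linarith)] at hX
    exact ⟨X, hX⟩

end Pool.Agent.P.MP_97b9bc_mp.T
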