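import Pool.Agent.P.MP_97b9bc_mp.T.IfaceN

/-! Step GLUE. -/

set_option autoImplicit false

namespace Pool.Agent.P.MP_97b9bc_mp.T

open MeasureTheory Set Filter Topology

/-- the glued function -/
noncomputable def glue_f (b : ℝ) (f1 f2 : ℝ → ℝ) (r : ℝ) : ℝ := if r < b then f1 r else f2 r

lemma glue_lt {b r : ℝ} (f1 f2 : ℝ → ℝ) (h : r < b) : glue_f b f1 f2 r = f1 r := if_pos h

lemma glue_ge {b r : ℝ} (f1 f2 : ℝ → ℝ) (h : b ≤ r) : glue_f b f1 f2 r = f2 r :=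
  if_neg (not_lt.2 h)

lemma glue_le {b r : ℝ} {f1 f2 : ℝ → ℝ} (e : f1 b = f2 b) (h : r ≤ b) :
    glue_f b f1 f2 r = f1 r := by
  rcases h.eq_or_lt with rfl | h
  · rw [glue_ge _ _ le_rfl, e]
  · exact glue_lt _ _ h

lemma glue_cont {I : Set ℝ} {b : ℝ} {f1 f2 : ℝ → ℝ} (hI : I ⊆ Iic b) (hb : b ∈ I)
    (e : f1 b = f2 b) (h1 : ContinuousOn f1 I) (h2 : ContinuousOn f2 (Ici b)) :
    ContinuousOn (glue_f b f1 f2) (I ∪ Ici b) := by
  have c1 : ContinuousOn (glue_f b f1 f2) I := h1.congr fun r hr => glue_le e (hI hr)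
  have c2 : ContinuousOn (glue_f b f1 f2) (Ici b) := h2.congr fun r hr => glue_ge _ _ hr
  intro r hr
  refine ContinuousWithinAt.union ?_ ?_
  · rcases lt_trichotomy r b with h | h | h
    · rcases hr with hr | hr
      · exact c1 r hr
      · exact absurd hr (not_le.2 h)
    · rw [h]; exact c1 b hb
    · refine continuousWithinAt_of_notMem_closure fun hc => ?_
      have := closure_minimal hI isClosed_Iic hc
      exact absurd this (not_le.2 h)
  · rcases lt_or_ge r b with h | h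
    · refine continuousWithinAt_of_notMem_closure fun hc => ?_
      rw [closure_Ici] at hc
      exact absurd hc (not_le.2 h)
    · exact c2 r h

lemma glue_d1 {b r d : ℝ} {f1 : ℝ → ℝ} (f2 : ℝ → ℝ) (h : r < b)
    (hd : HasDerivWithinAt f1 d (Ici r) r) : HasDerivWithinAt (glue_f b f1 f2) d (Ici r) r := by
  refine hd.congr_of_eventuallyEq ?_ (glue_lt _ _ h)
  filter_upwards [nhdsWithin_le_nhds (Iio_mem_nhds h)] with s hs using glue_lt _ _ hs

lemma glue_d2 {b r d : ℝ} (f1 : ℝ → ℝ) {f2 : ℝ → ℝ} (h : b ≤ r)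
    (hd : HasDerivWithinAt f2 d (Ici r) r) : HasDerivWithinAt (glue_f b f1 f2) d (Ici r) r :=
  hd.congr (fun _ hs => glue_ge _ _ (h.trans hs)) (glue_ge _ _ h)

theorem p_GLUE :
    S_GLUE := by
  intro I b X1 X2 e1 P1 p1 e2 P2 p2 hI hb g1 g2 et eL ew ev eP
  have cs : ∀ r ∈ I ∪ Ici b, (r < b ∧ r ∈ I) ∨ b ≤ r := by
    intro r hr
    rcases lt_or_ge r b with h | h
    · rcases hr with hr | hr
      · exact Or.inl ⟨h, hr⟩
      · exact Or.inr hr
    · exact Or.inr h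
  refine ⟨⟨glue_f b X1.t X2.t, glue_f b X1.L X2.L, glue_f b X1.w X2.w, glue_f b X1.v X2.v⟩,
    glue_f b e1 e2, glue_f b P1 P2, glue_f b p1 p2,
    ⟨?_, glue_cont hI hb et g1.ct g2.ct, glue_cont hI hb eL g1.cL g2.cL,
      glue_cont hI hb ew g1.cw g2.cw, glue_cont hI hb ev g1.cv g2.cv,
      glue_cont hI hb eP g1.cP g2.cP, ?_, ?_, ?_, ?_, ?_, ?_⟩,
    fun r hr => ⟨glue_le et hr, glue_le eL hr, glue_le ew hr, glue_le ev hr, glue_le eP hr⟩,
    fun r hr => glue_lt _ _ hr,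
    fun r hr => ⟨glue_ge _ _ hr, glue_ge _ _ hr, glue_ge _ _ hr, glue_ge _ _ hr, glue_ge _ _ hr,
      glue_ge _ _ hr⟩⟩
  all_goals
    intro r hr
    rcases cs r hr with ⟨h, hi⟩ | h
  all_goals try dsimp only
  all_goals first
    | simp only [glue_lt _ _ h]
    | simp only [glue_ge _ _ h]
  · exact g1.pos r hi
  · exact g2.pos r h
  · exact glue_d1 _ h (g1.dt r hi)
  · exact glue_d2 _ h (g2.dt r h)
  · exact glue_d1 _ h (g1.dL r hi)
  · exact glue_d2 _ h (g2.dL r h)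
  · exact glue_d1 _ h (g1.dw r hi)
  · exact glue_d2 _ h (g2.dw r h)
  · exact glue_d1 _ h (g1.dv r hi)
  · exact glue_d2 _ h (g2.dv r h)
  · exact glue_d1 _ h (g1.dP r hi)
  · exact glue_d2 _ h (g2.dP r h)
  · exact g1.src r hi
  · exact g2.src r h

end Pool.Agent.P.MP_97b9bc_mp.T
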