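import Pool.Agent.P.MP_97b9bc_mp.T.IfaceB

/-! Step KO. -/

set_option autoImplicit false

namespace Pool.Agent.P.MP_97b9bc_mp.T

open MeasureTheory Set Filter Topology

theorem ko_step (hBUMP : S_BUMP) {z Q : ℝ} {X : Q4} (h : Sol z 0 Q X) {r : ℝ} (hr : 0 < r)
    (hr1 : r ≤ 1) (hw : 2 * 6144 ^ 2 / r ^ 3 ≤ X.w r) :
    2 * 6144 ^ 2 / (r / 2) ^ 3 ≤ X.w (r / 2) := by
  have hw0 : 0 ≤ X.w r := le_trans (by positivity) hw
  set κ : ℝ := 6144 ^ 3 / (12 * r ^ 5) with hκ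
  have h1 : ∀ s, r / 2 ≤ s → s ≤ 3 * r / 4 → κ ≤ s * X.t s ^ 3 := by
    intro s hs1 hs2
    have hs : 0 < s := by linarith
    have hb := hBUMP z Q X h s (r / 4) (2 * 6144 ^ 2 / r ^ 4) (6144 / r ^ 2) (by positivity)
      (by linarith) (by positivity) (fun σ hσ1 hσ2 => by
        have hσ : 0 < σ := by linarith
        have e1 : X.w r ≤ X.w σ := h.w_anti hσ (by linarith)
        calc 2 * 6144 ^ 2 / r ^ 4 = 2 * 6144 ^ 2 / r ^ 3 / r := by field_simp
          _ ≤ X.w r / r := by gcongr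
          _ ≤ X.w r / σ := by gcongr; linarith
          _ ≤ X.w σ / σ := by gcongr) (by
        have e : 2 * 6144 ^ 2 / r ^ 4 - 4 / (r / 4) ^ 2 - (6144 / r ^ 2) ^ 2 =
            (6144 ^ 2 - 64 * r ^ 2) / r ^ 4 := by field_simp; ring
        have : 0 ≤ (6144 ^ 2 - 64 * r ^ 2) / r ^ 4 :=
          div_nonneg (by nlinarith) (by positivity)
        linarith)
    have h2 : (r / 4) ^ 2 * (6144 / r ^ 2) ^ 3 ≤ s ^ 2 * X.t s ^ 3 := by
      refine le_trans ?_ hb
      gcongr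
      linarith
    have h3 : κ * s ≤ (r / 4) ^ 2 * (6144 / r ^ 2) ^ 3 := by
      calc κ * s ≤ κ * (3 * r / 4) := by gcongr
        _ = _ := by rw [hκ]; field_simp; ring
    refine le_of_mul_le_mul_right ?_ hs
    calc κ * s ≤ s ^ 2 * X.t s ^ 3 := h3.trans h2
      _ = _ := by ring
  have h2 : ∀ s, r / 2 ≤ s → s ≤ 3 * r / 4 → X.v s + κ * (3 * r / 4 - s) ≤ 0 := by
    intro s hs1 hs2
    have := anti' (f := fun x => κ * x - X.v x) (f' := fun x => κ * 1 - x * X.t x ^ 3) hs2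
      (fun x hx _ => ((hasDerivAt_id' x).const_mul κ).fun_sub (h.dv x (by linarith)))
      (fun x hx hx' => by linarith [h1 x (by linarith) hx'])
    have h3 := h.vneg (3 * r / 4) (by linarith)
    linarith
  have h3 := anti' (f := fun x => X.w x + κ * (3 * r / 4 * x - x ^ 2 / 2))
    (f' := fun x => X.v x + κ * (3 * r / 4 - x)) (a := r / 2) (b := 3 * r / 4) (by linarith)
    (fun x hx _ => by
      refine ((h.dw x (by linarith)).fun_add (((((hasDerivAt_id' x).const_mul (3 * r / 4)).fun_sub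
        (((hasDerivAt_id' x).fun_pow 2).div_const 2))).const_mul κ)).congr_deriv ?_
      push_cast
      ring) h2
  have h4 : X.w r ≤ X.w (3 * r / 4) := h.w_anti (by linarith) (by linarith)
  have h5 : 2 * 6144 ^ 2 / (r / 2) ^ 3 = κ * (r ^ 2 / 32) := by
    rw [hκ]; field_simp; ring
  rw [h5]
  nlinarith

theorem p_KO (hBUMP : S_BUMP) :
    S_KO := by
  refine ⟨2 * 6144 ^ 2, by norm_num, fun z Q X h r hr hr1 => ?_⟩
  by_contra hn
  have h1 : ∀ n : ℕ, 2 * 6144 ^ 2 / (r / 2 ^ n) ^ 3 ≤ X.w (r / 2 ^ n) := by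
    intro n
    induction n with
    | zero => simpa using (not_le.1 hn).le
    | succ n ih =>
      have e : r / 2 ^ (n + 1) = r / 2 ^ n / 2 := by rw [pow_succ, div_div]
      rw [e]
      exact ko_step hBUMP h (by positivity)
        ((div_le_self hr.le (one_le_pow₀ one_le_two)).trans hr1) ih
  obtain ⟨n, hn⟩ := pow_unbounded_of_one_lt z (one_lt_two (α := ℝ))
  have h2 := (h1 n).trans (h.w_le (by positivity))
  have h3 : (2 : ℝ) ^ n ≤ 2 * 6144 ^ 2 / (r / 2 ^ n) ^ 3 := by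
    have hp : (1 : ℝ) ≤ 2 ^ n := one_le_pow₀ one_le_two
    rw [le_div_iff₀ (by positivity)]
    have e : (2 : ℝ) ^ n * (r / 2 ^ n) ^ 3 = r * (r / 2 ^ n) ^ 2 := by field_simp
    have : r / 2 ^ n ≤ 1 := (div_le_self hr.le hp).trans hr1
    have h4 : r * (r / 2 ^ n) ^ 2 ≤ 1 * 1 ^ 2 := by gcongr
    rw [e]
    linarith
  linarith

end Pool.Agent.P.MP_97b9bc_mp.T
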