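import Pool.Agent.P.MP_97b9bc_mp.T.IfaceB

/-! Step LIM. -/

set_option autoImplicit false

namespace Pool.Agent.P.MP_97b9bc_mp.T

open MeasureTheory Set Filter Topology

theorem p_LIM :
    S_LIM := by
  intro P κ z0 z1 C lo hi hκ hex hb hc hr
  have hpos : ∀ n : ℕ, (0 : ℝ) < n + 1 := fun n => by positivity
  choose Q hQ using fun n : ℕ => hex (n + 1) (hpos n)
  have hinf : Tendsto (fun n : ℕ => (n : ℝ) + 1) atTop atTop :=
    tendsto_atTop_add_const_right _ _ tendsto_natCast_atTop_atTop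
  have hev : ∀ᶠ n : ℕ in atTop, Q n ∈ Icc lo hi :=
    (hinf.eventually_ge_atTop z0).mono fun n hn => hr _ _ (hpos n) hn (hQ n)
  obtain ⟨q, hq, φ, hφ, hl⟩ := (isCompact_Icc (a := lo) (b := hi)).tendsto_subseq' hev.frequently
  refine ⟨q, hq.1, hq.2, max C ((z1 + |q|) * z1 ^ κ), fun z R hz hR => ?_⟩
  have hzp : 0 < z ^ (-κ) := Real.rpow_pos_of_pos hz _
  rcases le_or_gt z1 z with h | h
  · refine le_trans ?_ (mul_le_mul_of_nonneg_right (le_max_left _ _) hzp.le)
    have h1 : Tendsto (fun n => |R - Q (φ n)|) atTop (𝓝 |R - q|) :=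
      (tendsto_const_nhds.sub hl).abs
    refine le_of_tendsto h1 ?_
    exact ((hinf.comp hφ.tendsto_atTop).eventually_ge_atTop z).mono fun n hn =>
      hc z R _ _ hz h hn hR (hQ (φ n))
  · refine le_trans ?_ (mul_le_mul_of_nonneg_right (le_max_right _ _) hzp.le)
    have h1 : |R - q| ≤ z1 + |q| := (abs_sub _ _).trans (by linarith [hb z R hz hR])
    have h2 : 1 ≤ z1 ^ κ * z ^ (-κ) := by
      rw [Real.rpow_neg hz.le, ← div_eq_mul_inv, one_le_div (Real.rpow_pos_of_pos hz _)]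
      exact Real.rpow_le_rpow hz.le h.le hκ.le
    have h3 : 0 ≤ z1 + |q| := (abs_nonneg _).trans h1
    calc |R - q| ≤ (z1 + |q|) * 1 := by rw [mul_one]; exact h1
      _ ≤ (z1 + |q|) * (z1 ^ κ * z ^ (-κ)) := mul_le_mul_of_nonneg_left h2 h3
      _ = _ := by ring

end Pool.Agent.P.MP_97b9bc_mp.T
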