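import Pool.Agent.P.MP_97b9bc_mp.T.IfaceA

/-! Step MINSOL. -/

set_option autoImplicit false

namespace Pool.Agent.P.MP_97b9bc_mp.T

open MeasureTheory Set Filter Topology
open scoped ContDiff

theorem p_MINSOL (hEL : S_EL) (hWEAK : S_WEAK) (hCLS : S_CLS) (hTO : S_TO) (hPOS : S_POS) (hNZ : S_NZ) (hSCALE : S_SCALE) (hWPA : S_WPA) :
    S_MINSOL := by
  intro A γ z lam ρ g hA hγ hz hlam h
  have hm := h.isMinimiser
  obtain ⟨f, hf⟩ := MP_3d36e1_mp.radial_of_invariant h.1.L1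
    (fun R => MP_3d36e1_mp.minimiser_unique (by norm_num) hA hγ hz (hm.iso R) hm)
  obtain ⟨μ, hμ, hμ0, hel⟩ := hEL A γ z lam ρ g hA hγ hz hlam h
  obtain ⟨u, hu, hint⟩ := hWEAK A γ z lam μ ρ g f hA h.1 hf hel
  obtain ⟨U, U1, hU, hae⟩ := hCLS A γ z μ u hu
  have hint' : ∫ x, ρ x = ∫ r in Ioi (0 : ℝ), 4 * Real.pi * U r ^ 2 := by
    rw [hint]
    exact integral_congr_ae (by filter_upwards [hae] with r hr; rw [hr])
  have cU : ContinuousOn U (Ioi 0) := fun r hr => (hU.d1 r hr).continuousAt.continuousWithinAt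
  have cw := (hWPA z (fun s => 4 * Real.pi * U s ^ 2) (hU.weak.L2.const_mul _)
    (fun r _ => by positivity)).1
  have h0 : ∀ r ∈ Ioi (0 : ℝ), r ≠ 0 := fun r hr => ne_of_gt hr
  have cc' : ContinuousOn (coef A γ z μ U) (Ioi 0) := by
    unfold coef
    exact (((continuousOn_const.mul ((cU.div continuousOn_id h0).rpow_const
      fun _ _ => Or.inr (by norm_num))).sub (cw.div continuousOn_id h0)).add
      continuousOn_const).div_const A
  rcases hPOS _ U U1 cc' hU.weak.nonneg hU.d1 hU.d2 with hp | hp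
  · obtain ⟨μ', X, h1, h2⟩ := hSCALE A γ z μ U U1 hA hγ hz hμ hU hp
      (hTO A γ z μ U U1 hA hγ hz hμ hU)
    exact ⟨μ', X, fun hl => h1 (hμ0 hl), hint' ▸ h2⟩
  · have := hNZ A γ z lam ρ g hA hγ hz hlam h
    rw [hint', setIntegral_eq_zero_of_forall_eq_zero fun r hr => by rw [hp r hr]; simp] at this
    exact absurd this (lt_irrefl _)

end Pool.Agent.P.MP_97b9bc_mp.T
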