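import Pool.Agent.P.MP_97b9bc_mp.T.IfaceB

/-! Step OUTC. -/

set_option autoImplicit false

namespace Pool.Agent.P.MP_97b9bc_mp.T

open MeasureTheory Set Filter Topology

lemma outc_ineq {m s t q B : ℝ} (hm : 0 ≤ m) (hq0 : 0 ≤ q) (hq1 : q ≤ 1) (hB : m ≤ B) :
    t * (-(q * (m * s))) ≤ m * s ^ 2 / 2 + t ^ 2 * B / 2 := by
  have h1 : 0 ≤ m * (s + q * t) ^ 2 := by positivity
  have h2 : q ^ 2 ≤ 1 := by nlinarith
  have h3 : m * q ^ 2 ≤ B := by nlinarith
  have h4 : t ^ 2 * (m * q ^ 2) ≤ t ^ 2 * B := mul_le_mul_of_nonneg_left h3 (sq_nonneg t)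
  nlinarith

theorem p_OUTC (hOUTA : S_OUTA) (hOUTB : S_OUTB) :
    S_OUTC := by
  intro z1 Q1 z2 Q2 X Y hX hY fX fY r0 R C hr0 hR hC hb
  have hR0 : 0 < R := hr0.trans_le hR
  obtain ⟨F, F', hFc, hF⟩ := hOUTA 0 (fun _ => 0) X Y hX.app hY.app (src_zero _)
  have hG : ∀ r, 0 < r → 0 ≤ F r := fun r hr => by
    have h1 := (hOUTB 0 (fun _ => 0) X Y hX.app hY.app (src_zero _) fX fY r hr).1
    have h2 := (hF r hr).2.2.1
    linarith
  have hmu : ∀ r, 0 < r → 0 ≤ mu X Y r := fun r hr => by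
    have h1 := hX.pos r hr
    have h2 := hY.pos r hr
    refine le_trans ?_ (le_mu h1 h2)
    positivity
  have hFR : F R ≤ GG X Y r0 := by
    refine le_trans (anti (f' := F') hR (hFc.mono fun r hr => hr0.trans_le hr.1)
      (fun r h1 _ => (hF r (hr0.trans_le h1)).1) (fun r h1 _ => ?_)) (hF r0 hr0).2.2.2
    have h2 := (hF r (hr0.trans_le h1)).2.1
    have h3 := hmu r (hr0.trans_le h1)
    have h4 : 0 ≤ mu X Y r * (X.t r ^ 2 - Y.t r ^ 2) ^ 2 / 2 := by positivity
    nlinarith [sq_nonneg (X.v r - Y.v r)]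
  set Z : ℝ → ℝ := fun r => (X.w r - Y.w r) - (r - R) * (X.v r - Y.v r) with hZ
  have hdZ : ∀ r, 0 < r → HasDerivAt Z
      (-((r - R) / r * (mu X Y r * (X.t r ^ 2 - Y.t r ^ 2)))) r := fun r hr => by
    have := ((hX.dw r hr).fun_sub (hY.dw r hr)).fun_sub
      (((hasDerivAt_id' r).sub_const R).fun_mul ((hX.dv r hr).fun_sub (hY.dv r hr)))
    refine this.congr_deriv ?_
    rw [mu_mul (hX.pos r hr) (hY.pos r hr)]
    unfold Q4.m
    field_simp
    ring
  have hlim : Tendsto Z atTop (𝓝 (Q2 - Q1)) := by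
    have h1 := (hX.winf.sub hY.winf).sub
      ((hX.rv.sub hY.rv).sub ((fX.2.1.sub fY.2.1).const_mul R))
    have e : -Q1 - -Q2 - (0 - 0 - R * (0 - 0)) = Q2 - Q1 := by ring
    rw [e] at h1
    refine h1.congr fun r => ?_
    simp only [hZ]
    ring
  have key : ∀ t : ℝ, t * ((Q2 - Q1) - (X.w R - Y.w R)) ≤ GG X Y r0 + C / (2 * R) * t ^ 2 := by
    intro t
    have h1 : ∀ r, R ≤ r → t * Z r ≤ GG X Y r0 + C / (2 * R) * t ^ 2 + t * Z R := by
      intro r hr
      have hd : ∀ s, 0 < s → HasDerivAt (fun s => t * Z s + t ^ 2 * C / 2 * s⁻¹)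
          (t * (-((s - R) / s * (mu X Y s * (X.t s ^ 2 - Y.t s ^ 2)))) +
            t ^ 2 * C / 2 * (-(s ^ 2)⁻¹)) s := fun s hs =>
        ((hdZ s hs).const_mul t).fun_add ((hasDerivAt_inv hs.ne').const_mul _)
      have h2 := anti (f := fun s => F s + (t * Z s + t ^ 2 * C / 2 * s⁻¹)) hr
        ((hFc.mono fun s hs => hR0.trans_le hs.1).add
          (fun s hs => (hd s (hR0.trans_le hs.1)).continuousAt.continuousWithinAt))
        (fun s h1 _ => (hF s (hR0.trans_le h1)).1.fun_add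
          (hd s (hR0.trans_le h1)).hasDerivWithinAt)
        (fun s h1 _ => by
          have hs := hR0.trans_le h1
          have h3 := (hF s hs).2.1
          have h4 := outc_ineq (s := X.t s ^ 2 - Y.t s ^ 2) (t := t) (q := (s - R) / s)
            (hmu s hs) (div_nonneg (by linarith) hs.le) ((div_le_one hs).2 (by linarith))
            ((mu_le (hX.pos s hs) (hY.pos s hs)).trans (hb s h1))
          have e : t ^ 2 * (C / s ^ 2) / 2 = -(t ^ 2 * C / 2 * (-(s ^ 2)⁻¹)) := by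
            field_simp
          rw [e] at h4
          nlinarith [sq_nonneg (X.v s - Y.v s)])
      have h3 := hG r (hR0.trans_le hr)
      have hr' := hR0.trans_le hr
      have h4 : 0 ≤ t ^ 2 * C / 2 * r⁻¹ := by positivity
      have e : t ^ 2 * C / 2 * R⁻¹ = C / (2 * R) * t ^ 2 := by field_simp
      simp only [e] at h2
      linarith
    have h2 : t * (Q2 - Q1) ≤ GG X Y r0 + C / (2 * R) * t ^ 2 + t * Z R :=
      le_of_tendsto (hlim.const_mul t) (by
        filter_upwards [eventually_ge_atTop R] with r hr using h1 r hr)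
    have e : Z R = X.w R - Y.w R := by simp [hZ]
    rw [e] at h2
    linarith
  have := sq_le_of_lin (by positivity) key
  refine this.trans_eq ?_
  field_simp
  ring

end Pool.Agent.P.MP_97b9bc_mp.T
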