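import Pool.Agent.P.MP_97b9bc_mp.T.IfaceB

/-! Step RATE. -/

set_option autoImplicit false

namespace Pool.Agent.P.MP_97b9bc_mp.T

open MeasureTheory Set Filter Topology

lemma rate_abs {x c A : ℝ} (hc : 0 ≤ c) (hA : 0 ≤ A) (h : x ^ 2 ≤ c * A ^ 2) :
    |x| ≤ √c * A := by
  refine abs_le_of_sq_le_sq' ?_ (by positivity) |> abs_le.2
  rw [mul_pow, Real.sq_sqrt hc]
  exact h

lemma rate_six {a : ℝ} (ha : 0 ≤ a) : (a ^ (1 / 6 : ℝ)) ^ 6 = a := by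
  rw [← Real.rpow_natCast, ← Real.rpow_mul ha]
  norm_num

lemma rate_pow {a k : ℝ} (ha : 0 ≤ a) : ((a ^ (1 / 6 : ℝ)) ^ 2) ^ k = (a ^ (k / 6)) ^ 2 := by
  rw [← Real.rpow_natCast, ← Real.rpow_natCast, ← Real.rpow_mul ha, ← Real.rpow_mul ha,
    ← Real.rpow_mul ha]
  congr 1
  push_cast
  ring

theorem p_RATE (hWINE : S_WINE) (hEND : S_END) (hWIN : S_WIN) (hOUTB : S_OUTB) (hOUTC : S_OUTC) :
    S_RATE := by
  intro z0 ht
  obtain ⟨K, hK, hW⟩ := hWINE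
  obtain ⟨C, rb, -, hrb, hrb2, h1⟩ := hWIN K hK
  obtain ⟨C', ρ0, hC', hρ0, h2⟩ := h1 rb hrb le_rfl
  refine ⟨max z0 (144 / ρ0 ^ 3),
    (√(68 * rb * C') + √(64 * C') + √(2 * (2 * 64 ^ 4) / 64 * C')) * 144 ^ ((√73 - 7) / 6), ?_⟩
  intro z Q z' Q' X Y hz hzz hX hY
  have hz0 : 0 < z := hX.zpos
  have ha : 0 < 144 / z := by positivity
  set σ : ℝ := (144 / z) ^ (1 / 6 : ℝ) with hσ
  have hσ0 : 0 < σ := Real.rpow_pos_of_pos ha _
  have h6 : σ ^ 6 = 144 / z := rate_six ha.le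
  have e1 : z * σ ^ 6 = 144 := by rw [h6]; field_simp
  have hWX := hW z Q σ X hX hσ0 e1.ge
  have hWY := hW z' Q' σ Y hY hσ0 (e1.ge.trans (by gcongr))
  have hρ : σ ^ 2 ≤ ρ0 := by
    refine le_of_pow_le_pow_left₀ (n := 3) (by norm_num) hρ0.le ?_
    rw [← pow_mul, show 2 * 3 = 6 from rfl, h6, div_le_iff₀ hz0]
    have := (le_max_right _ _).trans hz
    rw [div_le_iff₀ (by positivity)] at this
    linarith
  have hFX := hEND z Q X hX
  have hFY := hEND z' Q' Y hY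
  obtain ⟨h3, h4⟩ := hOUTB 0 _ X Y hX.app hY.app (src_zero _) hFX hFY rb hrb
  obtain ⟨h5, h7⟩ := h2 (σ ^ 2) 0 0 _ X Y (by positivity) hρ hX.app hY.app hWX hWY
    (fun r _ _ => by simp) h3
  set A : ℝ := (144 / z) ^ ((√73 - 7) / 6) with hA
  have hA0 : 0 ≤ A := (Real.rpow_pos_of_pos ha _).le
  have e2 : (σ ^ 2) ^ (√73 - 7) = A ^ 2 := rate_pow ha.le
  rw [e2] at h5 h7
  have h5' : GG X Y rb ≤ C' * A ^ 2 := by simpa using h5
  have h8 := (h4 (C' * A ^ 2) 64 (by linarith) (by linarith)).1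
  have hz1 : z0 ≤ z := (le_max_left _ _).trans hz
  have h9 := hOUTC z Q z' Q' X Y hX hY hFX hFY rb 64 (2 * 64 ^ 4) hrb (by linarith)
    (by norm_num) (fun r hr => by
      have a1 := ht z Q X hz1 hX r hr
      have a2 := ht z' Q' Y (hz1.trans hzz) hY r hr
      have hr0 : 0 < r := by linarith
      calc r ^ 2 * (X.t r + Y.t r) ≤ r ^ 2 * (64 ^ 4 / r ^ 4 + 64 ^ 4 / r ^ 4) := by gcongr
        _ = 2 * 64 ^ 4 / r ^ 2 := by field_simp; ring)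
  have b1 := rate_abs (x := X.w rb - Y.w rb) (c := 68 * rb * C') (by positivity) hA0
    (h7.trans_eq (by ring))
  have b2 := rate_abs (c := 64 * C') (by positivity) hA0 (h8.trans_eq (by ring))
  have b3 := rate_abs (c := 2 * (2 * 64 ^ 4) / 64 * C') (by positivity) hA0
    (h9.trans (by rw [mul_assoc _ C']; gcongr))
  have e3 : A = 144 ^ ((√73 - 7) / 6) * z ^ (-((√73 - 7) / 6)) := by
    rw [hA, Real.div_rpow (by norm_num) hz0.le, Real.rpow_neg hz0.le, div_eq_mul_inv]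
  rw [mul_assoc, ← e3, abs_sub_comm]
  rw [abs_le] at b1 b2 b3 ⊢
  constructor <;> nlinarith [b1.1, b1.2, b2.1, b2.2, b3.1, b3.2]

end Pool.Agent.P.MP_97b9bc_mp.T
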