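import Pool.Agent.P.MP_97b9bc_mp.T.IfaceB

/-! Step RIC. -/

set_option autoImplicit false

namespace Pool.Agent.P.MP_97b9bc_mp.T

open MeasureTheory Set Filter Topology

theorem ric_up (L L' : ℝ → ℝ) (r h ω : ℝ) (hh : 0 < h) (hω : 0 ≤ ω)
    (H : ∀ s, r - h ≤ s → s ≤ r → HasDerivAt L (L' s) s ∧ L' s ≤ ω ^ 2 - L s ^ 2) :
    L r ≤ ω + 1 / h := by
  have key : ∀ c : ℝ, 1 < c → (L r - ω) * (r - (r - h)) ≤ c := by
    intro c hc
    have hd : ∀ s, r - h ≤ s → s ≤ r → HasDerivAt (fun s => (L s - ω) * (s - (r - h)))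
        (L' s * (s - (r - h)) + (L s - ω) * 1) s := fun s h1 h2 =>
      ((H s h1 h2).1.sub_const ω).mul ((hasDerivAt_id s).sub_const (r - h))
    refine image_le_of_deriv_right_lt_deriv_boundary
      (f := fun s => (L s - ω) * (s - (r - h)))
      (f' := fun s => L' s * (s - (r - h)) + (L s - ω) * 1) (a := r - h) (b := r)
      (fun s hs => (hd s hs.1 hs.2).continuousAt.continuousWithinAt)
      (fun s hs => (hd s hs.1 hs.2.le).hasDerivWithinAt) (B := fun _ => c) (B' := fun _ => 0)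
      (by simp; linarith) (fun s => hasDerivAt_const s c) (fun s hs he => ?_)
      ⟨by linarith, le_rfl⟩
    have h1 := (H s hs.1 hs.2.le).2
    have h2 : 0 ≤ s - (r - h) := by linarith [hs.1]
    have he' : (L s - ω) * (s - (r - h)) = c := he
    have h3 : 0 < L s - ω := by
      by_contra h4
      nlinarith [mul_nonneg (neg_nonneg.2 (not_lt.1 h4)) h2]
    have h5 := mul_le_mul_of_nonneg_right h1 h2
    have h6 : (ω ^ 2 - L s ^ 2) * (s - (r - h)) =
        -((L s - ω) * c) - 2 * (ω * ((L s - ω) * (s - (r - h)))) := by rw [← he']; ring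
    have h7 := mul_nonneg hω (mul_nonneg h3.le h2)
    nlinarith [mul_pos h3 (sub_pos.2 hc)]
  have h1 : (L r - ω) * h ≤ 1 := by
    refine le_of_forall_gt_imp_ge_of_dense fun c hc => ?_
    simpa using key c hc
  rw [← sub_le_iff_le_add', le_div_iff₀ hh]
  exact h1

theorem p_RIC :
    S_RIC := by
  intro L L' r h ω hh hω H
  have h1 := ric_up L L' r h ω hh hω fun s h1 h2 => H s h1 (by linarith)
  have h2 := ric_up (fun s => -L (2 * r - s)) (fun s => L' (2 * r - s)) r h ω hh hω
    fun s h1 h2 => by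
      obtain ⟨h3, h4⟩ := H (2 * r - s) (by linarith) (by linarith)
      refine ⟨?_, by simpa using h4⟩
      exact HasDerivAt.congr_deriv (h3.comp s ((hasDerivAt_id s).const_sub (2 * r))).neg (by ring)
  rw [show 2 * r - r = r by ring] at h2
  exact abs_le.2 ⟨by linarith, h1⟩

end Pool.Agent.P.MP_97b9bc_mp.T
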