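import Pool.Agent.P.MP_97b9bc_mp.T.IfaceA

/-! Step SCALE. -/

set_option autoImplicit false

namespace Pool.Agent.P.MP_97b9bc_mp.T

open MeasureTheory Set Filter Topology
open scoped ContDiff

lemma scale_der {f : ℝ → ℝ} {f' b x : ℝ} (k : ℝ) (h : HasDerivAt f f' (x / b)) :
    HasDerivAt (fun y => f (y / b) / k) (f' / b / k) x := by
  have := (h.comp x ((hasDerivAt_id' x).div_const b)).div_const k
  refine HasDerivAt.congr_deriv (f := fun y => f (y / b) / k) this ?_
  ring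

lemma scale_zero {b : ℝ} (hb : 0 < b) : Tendsto (fun x : ℝ => x / b) (𝓝[>] 0) (𝓝[>] 0) := by
  refine tendsto_nhdsWithin_iff.2 ⟨?_, ?_⟩
  · have : Tendsto (fun x : ℝ => x / b) (𝓝 0) (𝓝 (0 / b)) :=
      (continuous_id.div_const b).tendsto 0
    rw [zero_div] at this
    exact this.mono_left nhdsWithin_le_nhds
  · filter_upwards [self_mem_nhdsWithin] with x hx using div_pos hx hb

lemma scale_sol {A γ z μ M k b : ℝ} {T L w v : ℝ → ℝ} (hA : 0 < A) (hγ : 0 < γ) (hz : 0 < z)
    (hμ : 0 ≤ μ) (hk : 0 < k) (hb : 0 < b) (h1 : A = γ * k ^ 2)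
    (h2 : A * b = 4 * Real.pi * k ^ 3) (pos : ∀ r, 0 < r → 0 < T r)
    (dt : ∀ r, 0 < r → HasDerivAt T (2 / 3 * T r * (L r - 1 / r)) r)
    (dL : ∀ r, 0 < r → HasDerivAt L ((γ * T r ^ 2 - w r / r + μ) / A - L r ^ 2) r)
    (dw : ∀ r, 0 < r → HasDerivAt w (v r) r)
    (dv : ∀ r, 0 < r → HasDerivAt v (4 * Real.pi * r * T r ^ 3) r)
    (vneg : ∀ r, 0 < r → v r ≤ 0) (rv : Tendsto (fun r => r * v r) atTop (𝓝 0))
    (winf : Tendsto w atTop (𝓝 (z - M))) (w0 : Tendsto w (𝓝[>] 0) (𝓝 z))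
    (t0 : Tendsto (fun r => r * T r ^ 2) (𝓝[>] 0) (𝓝 0)) :
    Sol (z / (A * b)) (μ / (A * b ^ 2)) ((M - z) / (A * b))
      ⟨fun x => T (x / b) / (k * b), fun x => L (x / b) / b, fun x => w (x / b) / (A * b),
        fun x => v (x / b) / (b * (A * b))⟩ where
  zpos := by positivity
  mu := by positivity
  pos x hx := div_pos (pos _ (div_pos hx hb)) (by positivity)
  dt x hx := (scale_der _ (dt _ (div_pos hx hb))).congr_deriv (by field_simp)
  dL x hx := (scale_der _ (dL _ (div_pos hx hb))).congr_deriv (by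
    subst h1
    field_simp)
  dw x hx := (scale_der _ (dw _ (div_pos hx hb))).congr_deriv (by field_simp)
  dv x hx := (scale_der _ (dv _ (div_pos hx hb))).congr_deriv (by
    have := Real.pi_pos
    simp only [h2]
    field_simp)
  vneg x hx := div_nonpos_of_nonpos_of_nonneg (vneg _ (div_pos hx hb)) (by positivity)
  rv := by
    have := (rv.comp (tendsto_id.atTop_div_const hb)).div_const (A * b)
    rw [zero_div] at this
    refine this.congr fun x => ?_
    simp only [Function.comp, id]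
    field_simp
  winf := by
    have := (winf.comp (tendsto_id.atTop_div_const hb)).div_const (A * b)
    rw [show -((M - z) / (A * b)) = (z - M) / (A * b) by ring]
    exact this
  w0 := (w0.comp (scale_zero hb)).div_const _
  t0 := by
    have := (t0.comp (scale_zero hb)).div_const (k ^ 2 * b)
    rw [zero_div] at this
    refine this.congr fun x => ?_
    simp only [Function.comp]
    field_simp

theorem p_SCALE (hWPA : S_WPA) (hWPB : S_WPB) :
    S_SCALE := by
  intro A γ z μ U U1 hA hγ hz hμ hC hU h0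
  have hπ := Real.pi_pos
  have hs : 0 < A / γ := div_pos hA hγ
  obtain ⟨k, hk, hk2⟩ : ∃ k : ℝ, 0 < k ∧ A / γ = k ^ 2 :=
    ⟨√(A / γ), Real.sqrt_pos.2 hs, (Real.sq_sqrt hs.le).symm⟩
  have hc : cc A γ = 4 * Real.pi * k ^ 3 := by
    rw [cc, hk2, ← Real.rpow_natCast, ← Real.rpow_mul hk.le, ← Real.rpow_natCast]
    norm_num
  have hb : A * (4 * Real.pi * k ^ 3 / A) = 4 * Real.pi * k ^ 3 := by field_simp
  have hi : IntegrableOn (fun s => 4 * Real.pi * U s ^ 2) (Ioi 0) := hC.weak.L2.const_mul _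
  have hn : ∀ r, 0 < r → 0 ≤ 4 * Real.pi * U r ^ 2 := fun r _ => by positivity
  obtain ⟨-, w0, winf, -⟩ := hWPA z _ hi hn
  obtain ⟨v, hv, rv⟩ := hWPB z _ hi hn fun r hr =>
    (continuousAt_const.mul ((hC.d1 r hr).continuousAt.pow 2)).continuousWithinAt
  have hp : ∀ r, 0 < r → 0 < U r / r := fun r hr => div_pos (hU r hr) hr
  have e2 : ∀ r, 0 < r → ((U r / r) ^ (2 / 3 : ℝ)) ^ 2 = (U r / r) ^ (4 / 3 : ℝ) := fun r hr => by
    rw [← Real.rpow_natCast, ← Real.rpow_mul (hp r hr).le]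
    norm_num
  have e3 : ∀ r, 0 < r → ((U r / r) ^ (2 / 3 : ℝ)) ^ 3 = (U r / r) ^ 2 := fun r hr => by
    rw [← Real.rpow_natCast, ← Real.rpow_mul (hp r hr).le, ← Real.rpow_natCast]
    norm_num
  have := scale_sol (T := fun r => (U r / r) ^ (2 / 3 : ℝ)) (L := fun r => U1 r / U r)
    (b := 4 * Real.pi * k ^ 3 / A) hA hγ hz hμ hk (by positivity)
    (by rw [← hk2]; field_simp) hb (fun r hr => Real.rpow_pos_of_pos (hp r hr) _)
    (fun r hr => ?_) (fun r hr => ?_) (fun r hr => (hv r hr).1) (fun r hr => ?_)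
    (fun r hr => (hv r hr).2.2) rv winf w0 ?_
  · rw [hc]
    nth_rewrite 1 [hb] at this
    nth_rewrite 1 [hb] at this
    exact ⟨_, _, fun h => by rw [h, zero_div], this⟩
  · have h1 := hU r hr
    refine (((hC.d1 r hr).fun_div (hasDerivAt_id' r) hr.ne').rpow_const
      (Or.inl (hp r hr).ne')).congr_deriv ?_
    rw [Real.rpow_sub_one (hp r hr).ne']
    field_simp
  · have h1 := hU r hr
    refine ((hC.d2 r hr).fun_div (hC.d1 r hr) h1.ne').congr_deriv ?_
    rw [e2 r hr, coef]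
    field_simp
  · refine (hv r hr).2.1.congr_deriv ?_
    rw [e3 r hr]
    field_simp
  · refine h0.congr' ?_
    filter_upwards [self_mem_nhdsWithin] with r hr
    rw [e2 r hr]

end Pool.Agent.P.MP_97b9bc_mp.T
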