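import Pool.Agent.P.MP_97b9bc_mp.T.IfaceB

/-! Step SUB. -/

set_option autoImplicit false

namespace Pool.Agent.P.MP_97b9bc_mp.T

open MeasureTheory Set Filter Topology

lemma sub_alg {q s t W : ℝ} (hq : 0 < q) (hqs : q ≤ s) (hs : s ≤ 9 / 10) (ht : 0 < t)
    (hW : W < 144 / s ^ 6 - 294 / s ^ 2)
    (hB : (1 - s ^ 4 / 2) * t ^ 2 ≤
      W / q ^ 2 + 9 / (64 * (1 - s ^ 4 / 2) ^ 2 * (1 - (1 - s ^ 4 / 2))))
    (h2 : (1512 / s ^ 8 - 441 / s ^ 4) / q ^ 2 + (216 / s ^ 7 - 147 / s ^ 3) / q ^ 3 ≤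
      q ^ 2 * t ^ 3) : False := by
  have hs0 : 0 < s := hq.trans_le hqs
  obtain ⟨e, he⟩ : ∃ e, e = s ^ 4 := ⟨_, rfl⟩
  have he0 : 0 < e := by rw [he]; positivity
  have he1 : e ≤ 2 / 3 := by
    have : s ^ 4 ≤ (9 / 10 : ℝ) ^ 4 := by gcongr
    rw [he]; linarith [show (9 / 10 : ℝ) ^ 4 ≤ 2 / 3 by norm_num]
  obtain ⟨y, hy⟩ : ∃ y, y = q / s := ⟨_, rfl⟩
  have hy0 : 0 < y := by rw [hy]; positivity
  have hy1 : y ≤ 1 := by rw [hy, div_le_one hs0]; exact hqs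
  obtain ⟨u, hu⟩ : ∃ u, u = q * t * s ^ 3 := ⟨_, rfl⟩
  have hu0 : 0 < u := by rw [hu]; positivity
  have hc : 9 / (64 * (1 - s ^ 4 / 2) ^ 2 * (1 - (1 - s ^ 4 / 2))) ≤ 9 / (8 * e) := by
    rw [← he]
    refine div_le_div_of_nonneg_left (by norm_num) (by positivity) ?_
    have : 1 / 4 ≤ (1 - e / 2) ^ 2 := by nlinarith
    nlinarith
  have hW' : W * s ^ 6 < 144 - 294 * e := by
    have h := mul_lt_mul_of_pos_right hW (show 0 < s ^ 6 by positivity)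
    have e1 : (144 / s ^ 6 - 294 / s ^ 2) * s ^ 6 = 144 - 294 * e := by
      rw [he]; field_simp
    linarith
  have hu2 : (1 - e / 2) * u ^ 2 ≤ 144 - 292 * e := by
    have h := mul_le_mul_of_nonneg_right (hB.trans (add_le_add le_rfl hc))
      (show 0 ≤ q ^ 2 * s ^ 6 by positivity)
    have e1 : (1 - s ^ 4 / 2) * t ^ 2 * (q ^ 2 * s ^ 6) = (1 - e / 2) * u ^ 2 := by
      rw [he, hu]; ring
    have e2 : (W / q ^ 2 + 9 / (8 * e)) * (q ^ 2 * s ^ 6) = W * s ^ 6 + 9 / 8 * (y ^ 2 * e) := by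
      rw [he, hy]; field_simp
    have h3 : y ^ 2 * e ≤ e := by
      have : y ^ 2 ≤ 1 := pow_le_one₀ hy0.le hy1
      nlinarith
    rw [e1, e2] at h
    linarith
  have hu3 : u ^ 2 ≤ 144 - 220 * e := by
    by_contra hn
    push Not at hn
    have h1 : 0 < 1 - e / 2 := by linarith
    have := mul_lt_mul_of_pos_left hn h1
    nlinarith
  have hu4 : u ≤ 12 := by nlinarith
  have hu5 : u ^ 3 < 1728 - 588 * e := by
    have : u ^ 3 ≤ 12 * u ^ 2 := by nlinarith [sq_nonneg u]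
    linarith
  have h := mul_le_mul_of_nonneg_right h2 (show 0 ≤ q ^ 4 * s ^ 6 by positivity)
  have e1 : ((1512 / s ^ 8 - 441 / s ^ 4) / q ^ 2 + (216 / s ^ 7 - 147 / s ^ 3) / q ^ 3) *
      (q ^ 4 * s ^ 6) = y ^ 2 * (1512 - 441 * e) + y * (216 - 147 * e) := by
    rw [he, hy]; field_simp
  have e2 : q ^ 2 * t ^ 3 * (q ^ 4 * s ^ 6) = y ^ 3 * u ^ 3 := by
    rw [hu, hy]; field_simp
  rw [e1, e2] at h
  have a1 : y ^ 3 ≤ y ^ 2 := pow_le_pow_of_le_one hy0.le hy1 (by norm_num)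
  have a2 : y ^ 3 ≤ y := by
    simpa using pow_le_pow_of_le_one hy0.le hy1 (show 1 ≤ 3 by norm_num)
  have a3 := mul_le_mul_of_nonneg_right a1 (show 0 ≤ 1512 - 441 * e by linarith)
  have a4 := mul_le_mul_of_nonneg_right a2 (show 0 ≤ 216 - 147 * e by linarith)
  have a5 := mul_lt_mul_of_pos_left hu5 (show 0 < y ^ 3 by positivity)
  linarith

lemma sub_d1 {σ r : ℝ} (hσ : 0 < σ) (hr : 0 < r) :
    HasDerivAt (fun x => 144 / (√x + σ) ^ 6 - 294 / (√x + σ) ^ 2)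
      ((-432 / (√r + σ) ^ 7 + 294 / (√r + σ) ^ 3) / √r) r := by
  have hq : 0 < √r := Real.sqrt_pos.2 hr
  have hs : √r + σ ≠ 0 := by positivity
  have h1 := (Real.hasDerivAt_sqrt hr.ne').add_const σ
  have h2 := ((hasDerivAt_const r (144 : ℝ)).fun_div (h1.fun_pow 6) (pow_ne_zero _ hs)).fun_sub
    ((hasDerivAt_const r (294 : ℝ)).fun_div (h1.fun_pow 2) (pow_ne_zero _ hs))
  refine h2.congr_deriv ?_
  have := hq.ne'
  push_cast
  field_simp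
  ring

lemma sub_d2 {σ r : ℝ} (hσ : 0 < σ) (hr : 0 < r) :
    HasDerivAt (fun x => (-432 / (√x + σ) ^ 7 + 294 / (√x + σ) ^ 3) / √x)
      ((1512 / (√r + σ) ^ 8 - 441 / (√r + σ) ^ 4) / √r ^ 2 +
        (216 / (√r + σ) ^ 7 - 147 / (√r + σ) ^ 3) / √r ^ 3) r := by
  have hq : 0 < √r := Real.sqrt_pos.2 hr
  have hs : √r + σ ≠ 0 := by positivity
  have h0 := Real.hasDerivAt_sqrt hr.ne'
  have h1 := h0.add_const σ
  have h2 := (((hasDerivAt_const r (-432 : ℝ)).fun_div (h1.fun_pow 7) (pow_ne_zero _ hs)).fun_add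
    ((hasDerivAt_const r (294 : ℝ)).fun_div (h1.fun_pow 3) (pow_ne_zero _ hs))).fun_div h0 hq.ne'
  refine h2.congr_deriv ?_
  have := hq.ne'
  push_cast
  generalize √r = q at *
  generalize q + σ = s at *
  field_simp
  ring

theorem p_SUB (hBL : S_BL) :
    S_SUB := by
  intro z Q σ X h hσ hz r hr hrs
  obtain ⟨hb1, hb2⟩ := hBL z Q X h
  by_contra hn
  push Not at hn
  have hq : 0 < √r := Real.sqrt_pos.2 hr
  have hR0 : 0 < 9 / 10 - σ := by linarith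
  have hRs : √((9 / 10 - σ) ^ 2) = 9 / 10 - σ := Real.sqrt_sq hR0.le
  have hle : ∀ x, x ≤ (9 / 10 - σ) ^ 2 → √x + σ ≤ 9 / 10 := fun x hx => by
    have := Real.sqrt_le_sqrt hx
    rw [hRs] at this
    linarith
  have hrR : r ≤ (9 / 10 - σ) ^ 2 := by
    rw [← Real.sq_sqrt hr.le]
    gcongr
    linarith
  obtain ⟨a, ha1, ha2⟩ : ∃ a, z - 1 < X.w a ∧ a ∈ Ioc 0 r :=
    ((h.w0.eventually (lt_mem_nhds (show z - 1 < z by linarith))).and
      (Ioc_mem_nhdsGT hr)).exists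
  obtain ⟨x, hx1, hx2, hx3, -, hx4⟩ := maxp
    (f := fun x => 144 / (√x + σ) ^ 6 - 294 / (√x + σ) ^ 2 - X.w x)
    (a := a) (b := (9 / 10 - σ) ^ 2) (r := r) ⟨ha2.2, hrR⟩
    (fun s h1 _ => (sub_d1 hσ (ha2.1.trans_le h1)).fun_sub (h.dw s (ha2.1.trans_le h1)))
    (fun s h1 _ => (sub_d2 hσ (ha2.1.trans_le h1)).fun_sub (h.dv s (ha2.1.trans_le h1)))
    (by
      have h0 : 0 ≤ √a := Real.sqrt_nonneg a
      have h1 := hle a (ha2.2.trans hrR)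
      have h2 : 144 / (√a + σ) ^ 6 ≤ z := by
        rw [div_le_iff₀ (by positivity)]
        refine hz.trans ?_
        have := h.zpos
        gcongr
        linarith
      have h3 : 1 ≤ 294 / (√a + σ) ^ 2 := by
        rw [le_div_iff₀ (by positivity)]
        nlinarith
      show 144 / (√a + σ) ^ 6 - 294 / (√a + σ) ^ 2 - X.w a ≤ 0
      linarith)
    (by
      have h1 := hb2 _ (show 0 < (9 / 10 - σ) ^ 2 by positivity)
      have h2 : (9 / 10 - σ) ^ 2 ≤ 1 := by nlinarith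
      show 144 / (√((9 / 10 - σ) ^ 2) + σ) ^ 6 - 294 / (√((9 / 10 - σ) ^ 2) + σ) ^ 2 -
        X.w ((9 / 10 - σ) ^ 2) ≤ 0
      rw [hRs, show 9 / 10 - σ + σ = 9 / 10 by ring]
      have h3 : (144 : ℝ) / (9 / 10) ^ 6 - 294 / (9 / 10) ^ 2 ≤ -1 := by norm_num
      linarith)
    (by
      show 0 < 144 / (√r + σ) ^ 6 - 294 / (√r + σ) ^ 2 - X.w r
      linarith)
  have hx0 : 0 < x := ha2.1.trans hx1
  have hqx : 0 < √x := Real.sqrt_pos.2 hx0
  have hsx := hle x hx2.le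
  have hx5 : 144 / (√r + σ) ^ 6 - 294 / (√r + σ) ^ 2 - X.w r ≤
      144 / (√x + σ) ^ 6 - 294 / (√x + σ) ^ 2 - X.w x := hx3
  have he0 : 0 < (√x + σ) ^ 4 := by positivity
  have he1 : (√x + σ) ^ 4 ≤ 1 := pow_le_one₀ (by positivity) (by linarith)
  refine sub_alg (q := √x) (s := √x + σ) (t := X.t x) (W := X.w x) hqx (by linarith) hsx
    (h.pos x hx0) (by linarith) ?_ ?_
  · rw [Real.sq_sqrt hx0.le]
    exact hb1 _ x (by linarith) (by linarith) hx0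
  · have e1 : √x ^ 2 * X.t x ^ 3 = x * X.t x ^ 3 := by rw [Real.sq_sqrt hx0.le]
    rw [e1]
    linarith

end Pool.Agent.P.MP_97b9bc_mp.T
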