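import Pool.Agent.P.MP_97b9bc_mp.T.IfaceB

/-! Step TAIL. -/

set_option autoImplicit false

namespace Pool.Agent.P.MP_97b9bc_mp.T

open MeasureTheory Set Filter Topology

lemma tail_pow (R : ℝ) (k : ℕ) {r : ℝ} (hr : 0 < r) :
    HasDerivAt (fun s => (R / s) ^ k) (-(k / r) * (R / r) ^ k) r := by
  have h1 : HasDerivAt (fun s => R / s) (-(1 / r) * (R / r)) r := by
    have := (hasDerivAt_const r R).fun_div (hasDerivAt_id' r) hr.ne'
    refine this.congr_deriv ?_
    field_simp
    ring
  refine (h1.fun_pow k).congr_deriv ?_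
  rcases k with _ | k
  · simp
  · rw [Nat.add_sub_cancel, pow_succ]; ring

lemma tail_one {z Q : ℝ} {X : Q4} (h : Sol z 0 Q X) {R q : ℝ} {n : ℕ} (hR : 0 < R) (hn : 1 ≤ n)
    (hw : X.w R ≤ -q) (hq : (n : ℝ) * (n + 1) ≤ 2 * q * R) {r : ℝ} (hr : R ≤ r) :
    X.m r ≤ X.m R * (R / r) ^ n := by
  by_contra hc
  push Not at hc
  have hn' : (1 : ℝ) ≤ n := by exact_mod_cast hn
  have hq0 : 0 < q := by
    by_contra h0
    nlinarith
  set ε := (X.m r - X.m R * (R / r) ^ n) / 2 with hε
  have hε0 : 0 < ε := by rw [hε]; linarith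
  obtain ⟨b, hb, -, hb'⟩ := h.small hε0 r
  have hmR := h.mpos hR
  obtain ⟨s, hs, -, h1, -, h2⟩ := maxp (a := R) (b := b) (r := r)
    (f := fun s => X.m s - X.m R * (R / s) ^ n - ε)
    (f' := fun s => 2 * X.L s * X.m s + X.m R * (n / s * (R / s) ^ n))
    (f'' := fun s => 2 * (X.t s ^ 2 - X.w s / s + X.L s ^ 2) * X.m s -
      X.m R * (n * (n + 1) / s ^ 2 * (R / s) ^ n)) ⟨hr, hb⟩
    (fun s h1 _ => by
      have h0 := hR.trans_le h1
      refine (((h.dm h0).fun_sub ((tail_pow R n h0).const_mul (X.m R))).sub_const ε).congr_deriv ?_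
      ring)
    (fun s h1 _ => by
      have h0 := hR.trans_le h1
      have a1 := (((h.dL s h0).const_mul 2).fun_mul (h.dm h0)).fun_add
        ((((hasDerivAt_const s (n : ℝ)).fun_div (hasDerivAt_id' s) h0.ne').fun_mul
          (tail_pow R n h0)).const_mul (X.m R))
      refine a1.congr_deriv ?_
      field_simp
      ring)
    (by simp only [div_self hR.ne', one_pow]; linarith)
    (by
      have : 0 ≤ X.m R * (R / b) ^ n := by
        have := hR.trans_le (hr.trans hb)
        positivity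
      linarith)
    (by linarith)
  have h0 := hR.trans hs
  have hm := h.mpos h0
  have h3 : n * (n + 1) / s ^ 2 ≤ 2 * (X.t s ^ 2 - X.w s / s + X.L s ^ 2) := by
    have a1 : q / s ≤ -(X.w s / s) := by
      rw [← neg_div]
      exact div_le_div_of_nonneg_right (by linarith [h.w_anti hR hs.le]) h0.le
    have a2 : n * (n + 1) / s ^ 2 ≤ 2 * (q / s) := by
      rw [div_le_iff₀ (by positivity)]
      have : 2 * (q / s) * s ^ 2 = 2 * q * s := by field_simp
      nlinarith
    nlinarith [sq_nonneg (X.t s), sq_nonneg (X.L s)]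
  have h4 : 0 < (n : ℝ) * (n + 1) / s ^ 2 := by positivity
  have h5 : 0 < X.m s - X.m R * (R / s) ^ n := by linarith
  nlinarith [mul_pos h4 h5, mul_le_mul_of_nonneg_right h3 hm.le]

lemma tail_two {z Q : ℝ} {X : Q4} (h : Sol z 0 Q X) {R c : ℝ} {n : ℕ} (hR : 0 < R) (hn : 2 ≤ n)
    (hm : ∀ r, R ≤ r → X.m r ≤ c * (R / r) ^ n) : Q ≤ -X.w R + c * R / (n - 1) := by
  obtain ⟨k, rfl⟩ : ∃ k, n = k + 1 := ⟨n - 1, by omega⟩
  have hk : (0 : ℝ) < k := by exact_mod_cast (by omega : 0 < k)
  have hc : 0 ≤ c := by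
    have := hm R le_rfl
    rw [div_self hR.ne', one_pow, mul_one] at this
    linarith [h.mpos hR]
  have h1 : X.w R - R * X.v R + Q - c * R / k ≤ 0 := by
    refine ge_of_tendsto h.n0 ?_
    filter_upwards [eventually_ge_atTop R] with r hr
    have a1 := anti' (f := fun s => c * R / k * (R / s) ^ k - (X.w s - s * X.v s + Q))
      (f' := fun s => X.m s - c * (R / s) ^ (k + 1)) hr
      (fun s h1 _ => by
        have h0 := hR.trans_le h1
        refine (((tail_pow R k h0).const_mul (c * R / k)).fun_sub (h.dn h0)).congr_deriv ?_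
        rw [pow_succ]
        field_simp
        ring)
      (fun s h1 _ => by linarith [hm s h1])
    have a2 : 0 ≤ c * R / k * (R / r) ^ k := by
      have := hR.trans_le hr
      positivity
    simp only [div_self hR.ne', one_pow, mul_one] at a1
    linarith
  have h2 := mul_nonneg hR.le (neg_nonneg.2 (h.vneg R hR))
  push_cast
  rw [add_sub_cancel_right]
  linarith

theorem p_TAIL :
    S_TAIL :=
  fun _ _ _ h => ⟨fun _ _ _ hR hn hw hq _ hr => tail_one h hR hn hw hq hr,
    fun _ _ _ hR hn hm => tail_two h hR hn hm⟩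

end Pool.Agent.P.MP_97b9bc_mp.T
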