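import Pool.Agent.P.MP_97b9bc_mp.T.IfaceA

/-! Step TAY. -/

set_option autoImplicit false

namespace Pool.Agent.P.MP_97b9bc_mp.T

open MeasureTheory Set Filter Topology
open scoped ContDiff

theorem tay_four (V P : ℝ) (hV : 0 ≤ V) (hP : 0 ≤ P) :
    |V ^ 4 - P ^ 4| ≤ (V + P) * |V ^ 3 - P ^ 3| := by
  rcases le_total P V with h | h
  · have h4 : P ^ 4 ≤ V ^ 4 := pow_le_pow_left₀ hP h 4
    have h3 : P ^ 3 ≤ V ^ 3 := pow_le_pow_left₀ hP h 3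
    have h2 : P ^ 2 ≤ V ^ 2 := pow_le_pow_left₀ hP h 2
    rw [abs_of_nonneg (by linarith), abs_of_nonneg (by linarith)]
    have : 0 ≤ P * V * (V ^ 2 - P ^ 2) := mul_nonneg (mul_nonneg hP hV) (by linarith)
    nlinarith
  · have h4 : V ^ 4 ≤ P ^ 4 := pow_le_pow_left₀ hV h 4
    have h3 : V ^ 3 ≤ P ^ 3 := pow_le_pow_left₀ hV h 3
    have h2 : V ^ 2 ≤ P ^ 2 := pow_le_pow_left₀ hV h 2
    rw [abs_of_nonpos (by linarith), abs_of_nonpos (by linarith)]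
    have : 0 ≤ P * V * (P ^ 2 - V ^ 2) := mul_nonneg (mul_nonneg hP hV) (by linarith)
    nlinarith

theorem tay_cube (V : ℝ) (hV : 0 ≤ V) : V ≤ (V ^ 3 + 2) / 3 := by
  have : 0 ≤ (V - 1) ^ 2 * (V + 2) := mul_nonneg (sq_nonneg _) (by linarith)
  nlinarith

theorem tay_poly (V P b : ℝ) (hV : 0 ≤ V) (hP : 0 ≤ P) (hb : |b| ≤ 1)
    (hVb : V ^ 3 = |P ^ 3 + b|) :
    V ^ 10 ≤ P ^ 10 + 10 / 3 * (P ^ 4 * (P ^ 3 * b)) + 12 * (b ^ 2 * (1 + P ^ 6)) := by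
  have hp : 0 ≤ P ^ 3 := pow_nonneg hP 3
  have h6 : V ^ 6 = (P ^ 3 + b) ^ 2 := by
    rw [← sq_abs (P ^ 3 + b), ← hVb]; ring
  have hconv : V ^ 10 - P ^ 10 ≤ 5 / 3 * V ^ 4 * (V ^ 6 - P ^ 6) := by
    have : 0 ≤ (V ^ 2 - P ^ 2) ^ 2 *
        (2 * (V ^ 2) ^ 3 + 4 * (V ^ 2) ^ 2 * P ^ 2 + 6 * V ^ 2 * (P ^ 2) ^ 2 + 3 * (P ^ 2) ^ 3) := by
      positivity
    nlinarith
  have hd : |V ^ 3 - P ^ 3| ≤ |b| := by
    have := abs_abs_sub_abs_le_abs_sub (P ^ 3 + b) (P ^ 3)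
    rw [abs_of_nonneg hp, ← hVb] at this
    simpa using this
  have hV3 : V ^ 3 ≤ P ^ 3 + 1 := by
    have := (abs_le.mp (hd.trans hb)).2
    linarith
  have hVP : V + P ≤ 5 / 3 + 2 / 3 * P ^ 3 := by
    have h1 := tay_cube V hV
    have h2 := tay_cube P hP
    linarith
  have h4 : |V ^ 4 - P ^ 4| ≤ (5 / 3 + 2 / 3 * P ^ 3) * |b| :=
    (tay_four V P hV hP).trans (mul_le_mul hVP hd (abs_nonneg _) (by positivity))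
  have hb2 : b ^ 2 ≤ 1 := by
    have := sq_le_sq' (abs_le.mp hb).1 (abs_le.mp hb).2
    simpa using this
  have hcross : P ^ 3 * b * (V ^ 4 - P ^ 4) ≤ 3 / 2 * (b ^ 2 * (1 + P ^ 6)) := by
    have h1 : b * (V ^ 4 - P ^ 4) ≤ (5 / 3 + 2 / 3 * P ^ 3) * b ^ 2 := by
      calc b * (V ^ 4 - P ^ 4) ≤ |b * (V ^ 4 - P ^ 4)| := le_abs_self _
        _ = |b| * |V ^ 4 - P ^ 4| := abs_mul _ _
        _ ≤ |b| * ((5 / 3 + 2 / 3 * P ^ 3) * |b|) := mul_le_mul_of_nonneg_left h4 (abs_nonneg _)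
        _ = (5 / 3 + 2 / 3 * P ^ 3) * |b| ^ 2 := by ring
        _ = (5 / 3 + 2 / 3 * P ^ 3) * b ^ 2 := by rw [sq_abs]
    have h2 : P ^ 3 * (5 / 3 + 2 / 3 * P ^ 3) ≤ 3 / 2 * (1 + P ^ 6) := by
      nlinarith [sq_nonneg (P ^ 3 - 1)]
    calc P ^ 3 * b * (V ^ 4 - P ^ 4) = P ^ 3 * (b * (V ^ 4 - P ^ 4)) := by ring
      _ ≤ P ^ 3 * ((5 / 3 + 2 / 3 * P ^ 3) * b ^ 2) := mul_le_mul_of_nonneg_left h1 hp
      _ = P ^ 3 * (5 / 3 + 2 / 3 * P ^ 3) * b ^ 2 := by ring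
      _ ≤ 3 / 2 * (1 + P ^ 6) * b ^ 2 := mul_le_mul_of_nonneg_right h2 (sq_nonneg b)
      _ = 3 / 2 * (b ^ 2 * (1 + P ^ 6)) := by ring
  have hV4 : V ^ 4 ≤ 3 * (1 + P ^ 6) := by
    have h1 : V ^ 4 ≤ 1 + V ^ 6 := by
      have : 0 ≤ (V ^ 2 - 1) ^ 2 * (2 * V ^ 2 + 1) := by positivity
      have h0 : 0 ≤ V ^ 6 := pow_nonneg hV 6
      nlinarith
    have h2 : V ^ 6 ≤ 2 * P ^ 6 + 2 := by
      rw [h6]; nlinarith [sq_nonneg (P ^ 3 - b)]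
    have h0 : 0 ≤ P ^ 6 := pow_nonneg hP 6
    linarith
  have hsq : V ^ 4 * b ^ 2 ≤ 3 * (1 + P ^ 6) * b ^ 2 :=
    mul_le_mul_of_nonneg_right hV4 (sq_nonneg b)
  have hdiff : V ^ 6 - P ^ 6 = 2 * (P ^ 3 * b) + b ^ 2 := by rw [h6]; ring
  rw [hdiff] at hconv
  have h0 : 0 ≤ b ^ 2 * (1 + P ^ 6) := by positivity
  nlinarith

theorem tay_rp (W : ℝ) (hW : 0 ≤ W) :
    (W ^ 6) ^ (5 / 3 : ℝ) = W ^ 10 ∧ (W ^ 6) ^ (2 / 3 : ℝ) = W ^ 4 := by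
  constructor
  · rw [← Real.rpow_natCast W 6, ← Real.rpow_mul hW, ← Real.rpow_natCast W 10]; norm_num
  · rw [← Real.rpow_natCast W 6, ← Real.rpow_mul hW, ← Real.rpow_natCast W 4]; norm_num

theorem tay_root (t : ℝ) (ht : 0 ≤ t) : ∃ W : ℝ, 0 ≤ W ∧ W ^ 3 = t :=
  ⟨t ^ ((3 : ℕ)⁻¹ : ℝ), Real.rpow_nonneg ht _, Real.rpow_inv_natCast_pow ht (by norm_num)⟩

theorem p_TAY :
    S_TAY := by
  intro a b ha hb
  obtain ⟨P, hP, hP3⟩ := tay_root (√a) (Real.sqrt_nonneg a)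
  obtain ⟨V, hV, hV3⟩ := tay_root (|√a + b|) (abs_nonneg _)
  have ha6 : a = P ^ 6 := by
    have : P ^ 6 = (P ^ 3) ^ 2 := by ring
    rw [this, hP3, Real.sq_sqrt ha]
  have hs6 : (√a + b) ^ 2 = V ^ 6 := by
    have : V ^ 6 = (V ^ 3) ^ 2 := by ring
    rw [this, hV3, sq_abs]
  have key := tay_poly V P b hV hP hb (by rw [hP3, hV3])
  rw [hs6, (tay_rp V hV).1, ← hP3]
  have e1 : a ^ (5 / 3 : ℝ) = P ^ 10 := by rw [ha6]; exact (tay_rp P hP).1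
  have e2 : a ^ (2 / 3 : ℝ) = P ^ 4 := by rw [ha6]; exact (tay_rp P hP).2
  rw [e1, e2]
  calc V ^ 10 ≤ P ^ 10 + 10 / 3 * (P ^ 4 * (P ^ 3 * b)) + 12 * (b ^ 2 * (1 + P ^ 6)) := key
    _ = P ^ 10 + 10 / 3 * (P ^ 4 * (P ^ 3 * b)) + 12 * (b ^ 2 * (1 + a)) := by rw [← ha6]

end Pool.Agent.P.MP_97b9bc_mp.T
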