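import Pool.Agent.P.MP_97b9bc_mp.T.IfaceN

/-! Step TLN. -/

set_option autoImplicit false

namespace Pool.Agent.P.MP_97b9bc_mp.T

open MeasureTheory Set Filter Topology

lemma tln_q {r : ℝ} (hr : 0 < r) : HasDerivAt (fun s : ℝ => 80 / s) (-(80 / r) / r) r := by
  have h := (hasDerivAt_const r (80 : ℝ)).fun_div (hasDerivAt_id' r) hr.ne'
  refine h.congr_deriv ?_
  field_simp
  ring

lemma tln_pow (n : ℕ) {r : ℝ} (hr : 0 < r) :
    HasDerivAt (fun s : ℝ => (80 / s) ^ (n + 1)) (-((n + 1 : ℝ) * (80 / r) ^ (n + 1) / r)) r := by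
  refine ((tln_q hr).fun_pow (n + 1)).congr_deriv ?_
  simp only [Nat.add_sub_cancel, pow_succ]
  push_cast
  ring

lemma tln_lim (n : ℕ) : Tendsto (fun s : ℝ => (80 / s) ^ (n + 1)) atTop (𝓝 0) := by
  have h : Tendsto (fun s : ℝ => 80 / s) atTop (𝓝 0) := tendsto_const_nhds.div_atTop tendsto_id
  simpa using h.pow (n + 1)

theorem p_TLN :
    S_TLN := by
  intro t0 w0 ht0 ht1 hlo hhi
  unfold lo at hlo
  unfold hi at hhi
  have hdt : ∀ r : ℝ, 0 < r → HasDerivAt (fun r : ℝ => t0 * (80 / r) ^ 6)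
      (2 / 3 * (t0 * (80 / r) ^ 6) * (-8 / r - 1 / r)) r := fun r hr => by
    refine ((tln_pow 5 hr).const_mul t0).congr_deriv ?_
    push_cast
    ring
  have hdL : ∀ r : ℝ, 0 < r → HasDerivAt (fun r : ℝ => -8 / r) (8 / r ^ 2) r := fun r hr => by
    have h := (hasDerivAt_const r (-8 : ℝ)).fun_div (hasDerivAt_id' r) hr.ne'
    refine h.congr_deriv ?_
    ring
  have hdw : ∀ r : ℝ, 0 < r →
      HasDerivAt (fun r : ℝ => w0 + t0 ^ 3 * 80 ^ 3 / 240 * ((80 / r) ^ 15 - 1))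
        (-(t0 ^ 3 * 80 ^ 2 / 16) * (80 / r) ^ 16) r := fun r hr => by
    refine ((((tln_pow 14 hr).sub_const 1).const_mul (t0 ^ 3 * 80 ^ 3 / 240)).const_add
      w0).congr_deriv ?_
    push_cast
    ring
  have hdv : ∀ r : ℝ, 0 < r →
      HasDerivAt (fun r : ℝ => -(t0 ^ 3 * 80 ^ 2 / 16) * (80 / r) ^ 16)
        (r * (t0 * (80 / r) ^ 6) ^ 3) r := fun r hr => by
    refine ((tln_pow 15 hr).const_mul (-(t0 ^ 3 * 80 ^ 2 / 16))).congr_deriv ?_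
    push_cast
    field_simp
    ring
  have hdP : ∀ r : ℝ, 0 < r →
      HasDerivAt (fun r : ℝ => 80 ^ 2 * t0 ^ 3 / 16 * (80 / r) ^ 16)
        (-(80 ^ 2 * t0 ^ 3 * (80 / r) ^ 16 / r)) r := fun r hr => by
    refine ((tln_pow 15 hr).const_mul (80 ^ 2 * t0 ^ 3 / 16)).congr_deriv ?_
    push_cast
    ring
  have hm : ∀ r : ℝ, 0 < r →
      r ^ 2 * (t0 * (80 / r) ^ 6) ^ 3 = 80 ^ 2 * t0 ^ 3 * (80 / r) ^ 16 := fun r hr => by
    field_simp
  have pos : ∀ r : ℝ, 80 ≤ r → 0 < r := fun r hr => by linarith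
  have q0 : ∀ r : ℝ, 80 ≤ r → 0 < 80 / r := fun r hr => by have := pos r hr; positivity
  have q1 : ∀ r : ℝ, 80 ≤ r → 80 / r ≤ 1 := fun r hr => (div_le_one (pos r hr)).2 hr
  have qn : ∀ (n : ℕ) (r : ℝ), 80 ≤ r → (80 / r) ^ n ≤ 1 := fun n r hr =>
    pow_le_one₀ (q0 r hr).le (q1 r hr)
  have c0 : 0 ≤ t0 ^ 3 * 80 ^ 3 / 240 := by positivity
  have hw : ∀ r : ℝ, 80 ≤ r →
      917433 / 1000000 ≤ -(w0 + t0 ^ 3 * 80 ^ 3 / 240 * ((80 / r) ^ 15 - 1)) ∧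
      -(w0 + t0 ^ 3 * 80 ^ 3 / 240 * ((80 / r) ^ 15 - 1)) ≤ 917438 / 1000000 := fun r hr => by
    have h1 : t0 ^ 3 * 80 ^ 3 / 240 * ((80 / r) ^ 15 - 1) ≤ 0 :=
      mul_nonpos_of_nonneg_of_nonpos c0 (sub_nonpos.2 (qn 15 r hr))
    have h2 : 0 ≤ t0 ^ 3 * 80 ^ 3 / 240 * (80 / r) ^ 15 :=
      mul_nonneg c0 (pow_pos (q0 r hr) 15).le
    constructor
    · linarith
    · rw [mul_sub]; linarith
  have ht : ∀ r : ℝ, 80 ≤ r → t0 * (80 / r) ^ 6 ≤ 1 / 400 := fun r hr =>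
    (mul_le_of_le_one_right ht0.le (qn 6 r hr)).trans ht1
  have he : ∀ r : ℝ, 80 ≤ r →
      72 / r ^ 2 - (t0 * (80 / r) ^ 6) ^ 2 +
        (w0 + t0 ^ 3 * 80 ^ 3 / 240 * ((80 / r) ^ 15 - 1)) / r ≤ 0 ∧
      -(72 / r ^ 2 - (t0 * (80 / r) ^ 6) ^ 2 +
        (w0 + t0 ^ 3 * 80 ^ 3 / 240 * ((80 / r) ^ 15 - 1)) / r) ≤ 1 / r := fun r hr => by
    obtain ⟨h1, h2⟩ := hw r hr
    have hr0 := pos r hr
    set W := w0 + t0 ^ 3 * 80 ^ 3 / 240 * ((80 / r) ^ 15 - 1)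
    have hq := q1 r hr
    have e1 : 72 / r ^ 2 = 9 / 10 * (80 / r) * (1 / r) := by field_simp; ring
    have e2 : W / r = W * (1 / r) := by ring
    have hi0 : 0 < 1 / r := by positivity
    have h3 : (t0 * (80 / r) ^ 6) ^ 2 ≤ (1 / 400) ^ 2 * (80 / r) := by
      have e3 : (t0 * (80 / r) ^ 6) ^ 2 = t0 ^ 2 * ((80 / r) * (80 / r) ^ 11) := by ring
      rw [e3]
      exact mul_le_mul (pow_le_pow_left₀ ht0.le ht1 2)
        (mul_le_of_le_one_right (q0 r hr).le (qn 11 r hr)) (by positivity) (by positivity)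
    have e4 : (80 : ℝ) / r = 80 * (1 / r) := by ring
    have h4 : 0 ≤ 72 / r ^ 2 := by positivity
    constructor
    · have h5 : (9 / 10 * (80 / r) + W) * (1 / r) ≤ 0 :=
        mul_nonpos_of_nonpos_of_nonneg (by linarith) hi0.le
      have h6 := sq_nonneg (t0 * (80 / r) ^ 6)
      rw [e1, e2]
      linarith [add_mul (9 / 10 * (80 / r)) W (1 / r)]
    · have h5 : -W * (1 / r) ≤ 917438 / 1000000 * (1 / r) := mul_le_mul_of_nonneg_right h2 hi0.le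
      have h6 : (1 / 400 : ℝ) ^ 2 * (80 / r) = 1 / 2000 * (1 / r) := by rw [e4]; ring
      rw [e2]
      linarith
  refine ⟨⟨fun r => t0 * (80 / r) ^ 6, fun r => -8 / r,
      fun r => w0 + t0 ^ 3 * 80 ^ 3 / 240 * ((80 / r) ^ 15 - 1),
      fun r => -(t0 ^ 3 * 80 ^ 2 / 16) * (80 / r) ^ 16⟩,
    fun r => 72 / r ^ 2 - (t0 * (80 / r) ^ 6) ^ 2 +
      (w0 + t0 ^ 3 * 80 ^ 3 / 240 * ((80 / r) ^ 15 - 1)) / r,
    fun r => 80 ^ 2 * t0 ^ 3 / 16 * (80 / r) ^ 16,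
    fun r => 80 ^ 2 * t0 ^ 3 * (80 / r) ^ 16 / r,
    ⟨fun r hr => mul_pos ht0 (pow_pos (q0 r hr) 6),
      fun r hr => (hdt r (pos r hr)).continuousAt.continuousWithinAt,
      fun r hr => (hdL r (pos r hr)).continuousAt.continuousWithinAt,
      fun r hr => (hdw r (pos r hr)).continuousAt.continuousWithinAt,
      fun r hr => (hdv r (pos r hr)).continuousAt.continuousWithinAt,
      fun r hr => (hdP r (pos r hr)).continuousAt.continuousWithinAt,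
      fun r hr => (hdt r (pos r hr)).hasDerivWithinAt,
      fun r hr => ((hdL r (pos r hr)).congr_deriv ?_).hasDerivWithinAt,
      fun r hr => (hdw r (pos r hr)).hasDerivWithinAt,
      fun r hr => (hdv r (pos r hr)).hasDerivWithinAt,
      fun r hr => (hdP r (pos r hr)).hasDerivWithinAt,
      fun r hr => Or.inr ⟨(he r hr).1, ?_⟩⟩, ?_, ?_, ⟨1, fun r hr => ⟨?_, ?_⟩⟩,
    fun r hr => ⟨fun _ => ⟨ht r hr, (hw r hr).1, (hw r hr).2⟩, ?_, ?_, ?_⟩, ?_, ?_, ?_, ?_⟩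
  · ring
  · show r ^ 2 * (t0 * (80 / r) ^ 6) ^ 3 * _ ≤ 80 ^ 2 * t0 ^ 3 * (80 / r) ^ 16 / r
    rw [hm r (pos r hr), div_eq_mul_one_div (80 ^ 2 * t0 ^ 3 * (80 / r) ^ 16) r]
    have := q0 r hr
    exact mul_le_mul_of_nonneg_left (he r hr).2 (by positivity)
  · have h := (tln_lim 15).const_mul (80 ^ 2 * t0 ^ 3)
    rw [mul_zero] at h
    refine h.congr' ?_
    filter_upwards [eventually_gt_atTop (0 : ℝ)] with r hr
    exact (hm r hr).symm
  · have h := (tln_lim 15).const_mul (-(t0 ^ 3 * 80 ^ 2 / 16))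
    rw [mul_zero] at h
    exact h
  · show |-8 / r| ≤ 1
    have h1 := q1 r hr
    have h0 := q0 r hr
    have e : -8 / r = -(1 / 10) * (80 / r) := by ring
    rw [e, abs_le]
    constructor <;> linarith
  · show |w0 + t0 ^ 3 * 80 ^ 3 / 240 * ((80 / r) ^ 15 - 1)| ≤ 1
    obtain ⟨h1, h2⟩ := hw r hr
    rw [abs_le]
    constructor <;> linarith
  · have := q0 r hr
    positivity
  · exact mul_le_of_le_one_right (by positivity) (qn 16 r hr)
  · obtain ⟨h1, h2⟩ := he r hr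
    have h3 : 1 / r ≤ 1 := (div_le_one (pos r hr)).2 (by linarith)
    rw [abs_le]
    constructor <;> linarith
  · simp
  · norm_num
  · simp
  · simp

end Pool.Agent.P.MP_97b9bc_mp.T
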