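import Pool.Agent.P.MP_97b9bc_mp.T.IfaceB

/-! Step WIN. -/

set_option autoImplicit false

namespace Pool.Agent.P.MP_97b9bc_mp.T

open MeasureTheory Set Filter Topology

theorem p_WIN (hWINA : S_WINA) (hWINB : S_WINB) :
    S_WIN := by
  intro K hK
  obtain ⟨CA, M, rA, hCA, hM, hrA, hA⟩ := hWINA K hK
  obtain ⟨CB, rB, hCB, hrB, hrB2, hB⟩ := hWINB K hK
  refine ⟨CA + CB, min rA rB, by positivity, lt_min hrA hrB, (min_le_right _ _).trans hrB2, ?_⟩
  intro r0 hr0 hr0b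
  obtain ⟨C', hC', hA'⟩ := hA r0 hr0 (hr0b.trans (min_le_left _ _))
  have hM0 : 0 < M := by linarith
  have hK0 : 0 < K := by linarith
  have hr1 : 0 < r0 / M := by positivity
  refine ⟨C', min (r0 / M / M) (r0 / M / (36 * K) ^ 2), hC', lt_min (by positivity)
    (by positivity), ?_⟩
  intro ρ E S e X Y hρ hρ0 hX hY hWX hWY he hS
  have h1 : ρ ≤ r0 / M / M := hρ0.trans (min_le_left _ _)
  have h2 : ρ ≤ r0 / M / (36 * K) ^ 2 := hρ0.trans (min_le_right _ _)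
  have h3 : M * ρ ≤ r0 / M := by
    rw [le_div_iff₀ hM0] at h1
    linarith
  have h4 : r0 / M ≤ r0 / 2 := by gcongr
  have h5 : ρ ≤ r0 / M := by nlinarith
  have h6 : √(ρ / (r0 / M)) ≤ 1 / (36 * K) := by
    apply Real.sqrt_le_iff.2
    refine ⟨by positivity, ?_⟩
    rw [div_le_iff₀ hr1]
    refine h2.trans (le_of_eq ?_)
    field_simp
  have h7 : r0 ≤ √r0 := by
    apply Real.le_sqrt_of_sq_le
    have : r0 ≤ 1 / 2 := (hr0b.trans (min_le_right _ _)).trans hrB2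
    nlinarith
  have hP := hA' ρ E e X Y hρ h3 hX hY hWX hWY he
  have hG := hB r0 (r0 / M) ρ E e X Y (hr0b.trans (min_le_right _ _)) hr1 h4 h5 h6 hX hY hWX hWY he
  have h8 : CB * E ^ 2 * r0 ≤ CB * E ^ 2 * √r0 := by gcongr
  have key : ∀ t : ℝ, GG X Y r0 + t * (X.w r0 - Y.w r0) ≤
      C' * ρ ^ (√73 - 7) + (CA + CB) * E ^ 2 * √r0 + 17 * r0 * t ^ 2 := by
    intro t
    have := hG t
    nlinarith
  refine ⟨by simpa using key 0, ?_⟩
  have := sq_le_of_lin (b := X.w r0 - Y.w r0)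
    (D := C' * ρ ^ (√73 - 7) + (CA + CB) * E ^ 2 * √r0 + S) (c := 17 * r0) (by positivity)
    (fun t => by have := key t; linarith)
  linarith

end Pool.Agent.P.MP_97b9bc_mp.T
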