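import Pool.Agent.P.MP_97b9bc_mp.T.IfaceB

/-! Step WINA. -/

set_option autoImplicit false

namespace Pool.Agent.P.MP_97b9bc_mp.T

open MeasureTheory Set Filter Topology

lemma wina_mul {a b A B : ℝ} (ha : |a| ≤ A) (hb : |b| ≤ B) : a * b ≤ A * B ∧ -(a * b) ≤ A * B := by
  have h : |a * b| ≤ A * B := by
    rw [abs_mul]; exact mul_le_mul ha hb (abs_nonneg _) ((abs_nonneg _).trans ha)
  exact ⟨(le_abs_self _).trans h, (neg_le_abs _).trans h⟩

lemma wina_bd {A B W V c u K : ℝ} (hu : 1 ≤ u) (hK : 1 ≤ K) (hA : |A| ≤ K ^ 3 * u ^ 4)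
    (hB : |B| ≤ 2 * K * u) (hW : |W| ≤ 2 * K * u ^ 3) (hV : |V| ≤ 2 * K * u ^ 4)
    (hc0 : 0 ≤ c) (hc1 : c ≤ 1) :
    -(A * B) - W * V + c * (36 * (W * u) * B + W ^ 2 * u / 2) ≤ 154 * K ^ 4 * u ^ 7 := by
  have hu0 : 0 ≤ u := by linarith
  have hK0 : 0 ≤ K := by linarith
  have h57 : u ^ 5 ≤ u ^ 7 := pow_le_pow_right₀ hu (by norm_num)
  have h24 : K ^ 2 ≤ K ^ 4 := pow_le_pow_right₀ hK (by norm_num)
  have h1 : -(A * B) ≤ 2 * (K ^ 4 * u ^ 7) := by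
    refine (wina_mul hA hB).2.trans ?_
    calc K ^ 3 * u ^ 4 * (2 * K * u) = 2 * (K ^ 4 * u ^ 5) := by ring
      _ ≤ 2 * (K ^ 4 * u ^ 7) := by gcongr
  have h2 : -(W * V) ≤ 4 * (K ^ 4 * u ^ 7) := by
    refine (wina_mul hW hV).2.trans ?_
    calc 2 * K * u ^ 3 * (2 * K * u ^ 4) = 4 * (K ^ 2 * u ^ 7) := by ring
      _ ≤ 4 * (K ^ 4 * u ^ 7) := by gcongr
  have h3 : W * B * u ≤ 4 * (K ^ 4 * u ^ 7) := by
    refine (mul_le_mul_of_nonneg_right (wina_mul hW hB).1 hu0).trans ?_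
    calc 2 * K * u ^ 3 * (2 * K * u) * u = 4 * (K ^ 2 * u ^ 5) := by ring
      _ ≤ 4 * (K ^ 4 * u ^ 7) := by gcongr
  have h4 : W * W * u ≤ 4 * (K ^ 4 * u ^ 7) := by
    refine (mul_le_mul_of_nonneg_right (wina_mul hW hW).1 hu0).trans ?_
    calc 2 * K * u ^ 3 * (2 * K * u ^ 3) * u = 4 * (K ^ 2 * u ^ 7) := by ring
      _ ≤ 4 * (K ^ 4 * u ^ 7) := by gcongr
  have h0 : 0 ≤ K ^ 4 * u ^ 7 := by positivity
  have h5 : 36 * (W * u) * B + W ^ 2 * u / 2 ≤ 146 * (K ^ 4 * u ^ 7) := by nlinarith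
  have h6 : c * (36 * (W * u) * B + W ^ 2 * u / 2) ≤ 146 * (K ^ 4 * u ^ 7) := by
    refine (mul_le_mul_of_nonneg_left h5 hc0).trans ?_
    nlinarith
  nlinarith

lemma wina_sub {a b A : ℝ} (ha : |a| ≤ A) (hb : |b| ≤ A) : |a - b| ≤ 2 * A := by
  have := abs_sub a b
  linarith

/-- crude upper bound for the corrected functional in the window -/
lemma wina_Phi {K ρ r r0 : ℝ} {X Y : Q4} (hK : 1 ≤ K) (hr : 0 < r) (hρ : ρ ≤ r)
    (hr2 : r ≤ 1 / 2) (hr0 : r ≤ r0) (hX : 0 < X.t r) (hY : 0 < Y.t r)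
    (wX : Win K ρ X) (wY : Win K ρ Y) : Phi r0 X Y r ≤ 154 * K ^ 4 / r ^ 7 := by
  obtain ⟨-, a2, a3, a4, a5⟩ := wX r hr hρ hr2
  obtain ⟨-, b2, b3, b4, b5⟩ := wY r hr hρ hr2
  have hr0' : 0 < r0 := hr.trans_le hr0
  have hu : 1 ≤ r⁻¹ := by rw [le_inv_comm₀ one_pos hr]; linarith
  have hm : ∀ t : ℝ, 0 < t → t ≤ K / r ^ 2 → 0 < r ^ 2 * t ^ 3 ∧ r ^ 2 * t ^ 3 ≤ K ^ 3 * r⁻¹ ^ 4 := by
    intro t h1 h2
    refine ⟨by positivity, ?_⟩
    calc r ^ 2 * t ^ 3 ≤ r ^ 2 * (K / r ^ 2) ^ 3 := by gcongr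
      _ = K ^ 3 * r⁻¹ ^ 4 := by field_simp
  have hA : |X.m r - Y.m r| ≤ K ^ 3 * r⁻¹ ^ 4 := by
    have h1 := hm _ hX a2
    have h2 := hm _ hY b2
    unfold Q4.m
    rw [abs_le]; constructor <;> linarith [h1.1, h1.2, h2.1, h2.2]
  have hq0 : 0 ≤ r / r0 := by positivity
  have hq1 : r / r0 ≤ 1 := (div_le_one hr0').2 hr0
  have := wina_bd (A := X.m r - Y.m r) (B := X.L r - Y.L r) (W := X.w r - Y.w r)
    (V := X.v r - Y.v r) (c := (1 - r / r0) ^ 2) hu hK hA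
    ((wina_sub a3 b3).trans_eq (by field_simp)) ((wina_sub a4 b4).trans_eq (by field_simp))
    ((wina_sub a5 b5).trans_eq (by field_simp)) (sq_nonneg _) (by nlinarith)
  calc Phi r0 X Y r = -((X.m r - Y.m r) * (X.L r - Y.L r)) - (X.w r - Y.w r) * (X.v r - Y.v r) +
        (1 - r / r0) ^ 2 * (36 * ((X.w r - Y.w r) * r⁻¹) * (X.L r - Y.L r) +
          (X.w r - Y.w r) ^ 2 * r⁻¹ / 2) := by
        unfold Phi GG; field_simp
    _ ≤ 154 * K ^ 4 * r⁻¹ ^ 7 := this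
    _ = 154 * K ^ 4 / r ^ 7 := by field_simp

/-- the exponent of the integrating factor -/
noncomputable def wina_g (H ρ r0 r : ℝ) : ℝ :=
  √73 * Real.log r - H * (2 * √r - 2 * √ρ / √r + r / r0)

lemma wina_dg (H ρ r0 : ℝ) {r : ℝ} (hρ : 0 ≤ ρ) (hr : 0 < r) :
    HasDerivAt (wina_g H ρ r0) ((√73 - H * (√r + √(ρ / r) + r / r0)) / r) r := by
  have hs : 0 < √r := Real.sqrt_pos.2 hr
  have h1 := (Real.hasDerivAt_log hr.ne').const_mul (√73)
  have h2 := Real.hasDerivAt_sqrt hr.ne'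
  have h3 := (hasDerivAt_const r (2 * √ρ)).fun_div h2 hs.ne'
  have h4 := (hasDerivAt_id' r).div_const r0
  have h5 := h1.fun_sub ((((h2.const_mul 2).fun_sub h3).fun_add h4).const_mul H)
  refine HasDerivAt.congr_deriv (f := fun r => √73 * Real.log r -
    H * (2 * √r - 2 * √ρ / √r + r / r0)) h5 ?_
  rw [Real.sqrt_div hρ]
  obtain ⟨s, hs1, rfl⟩ : ∃ s : ℝ, 0 < s ∧ r = s ^ 2 := ⟨√r, hs, (Real.sq_sqrt hr.le).symm⟩
  rw [Real.sqrt_sq hs1.le]
  field_simp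
  ring

lemma wina_73 : 8 ≤ √73 ∧ √73 ≤ 9 ∧ √73 ^ 2 = 73 :=
  ⟨Real.le_sqrt_of_sq_le (by norm_num), Real.sqrt_le_iff.2 ⟨by norm_num, by norm_num⟩,
    Real.sq_sqrt (by norm_num)⟩

theorem p_WINA (hGD : S_GD) (hALGA : S_ALGA) :
    S_WINA := by
  intro K hK
  obtain ⟨H, C, η0, hH, hC, hη0, hA⟩ := hALGA K hK
  have hK0 : 0 < K := by linarith
  obtain ⟨δ, hδ, hδ0, hδH, hδK⟩ : ∃ δ : ℝ, 0 < δ ∧ 3 * δ ≤ η0 ∧ H * (3 * δ) ≤ 1 ∧
      K * (3 * δ) ≤ 1 / 18 := by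
    refine ⟨min η0 (min (1 / H) (1 / (18 * K))) / 3, by positivity, ?_, ?_, ?_⟩
    · linarith [min_le_left η0 (min (1 / H) (1 / (18 * K)))]
    · have : min η0 (min (1 / H) (1 / (18 * K))) ≤ 1 / H :=
        (min_le_right _ _).trans (min_le_left _ _)
      rw [le_div_iff₀ hH] at this
      linarith
    · have : min η0 (min (1 / H) (1 / (18 * K))) ≤ 1 / (18 * K) :=
        (min_le_right _ _).trans (min_le_right _ _)
      rw [le_div_iff₀ (by positivity)] at this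
      linarith
  have hδ1 : δ ≤ 1 / 54 := by nlinarith
  have hδ2 : 0 < δ ^ 2 := by positivity
  have hδ3 : δ ^ 2 ≤ δ := by nlinarith
  obtain ⟨M, hM⟩ : ∃ M : ℝ, M = 1 / δ ^ 2 := ⟨_, rfl⟩
  have hMδ : M * δ ^ 2 = 1 := by rw [hM]; field_simp
  have hM0 : 0 < M := by rw [hM]; positivity
  have hM2 : 2 ≤ M := by
    rw [hM, le_div_iff₀ hδ2]; linarith
  refine ⟨2 * C, M, δ ^ 2, by positivity, hM2, hδ2, fun r0 hr0 hrb => ?_⟩
  have hr1 : 0 < r0 / M := by positivity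
  refine ⟨Real.exp 4 * (154 * K ^ 4) * M ^ (√73 - 7) / (r0 / M) ^ (√73), by positivity, ?_⟩
  intro ρ E e X Y hρ hρ1 aX aY wX wY hE
  obtain ⟨-, cP, dP⟩ := hGD e X Y aX aY
  obtain ⟨s8, s9, s2⟩ := wina_73
  have ha0 : 0 < M * ρ := by positivity
  have hb : r0 / M = r0 * δ ^ 2 := by rw [hM]; field_simp
  have hbr : r0 / M ≤ r0 := by
    rw [hb]; exact mul_le_of_le_one_right hr0.le (by linarith)
  have hw : ∀ r, M * ρ ≤ r → r ≤ r0 / M → 0 < r ∧ ρ ≤ r ∧ r ≤ 1 / 2 ∧ r ≤ r0 ∧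
      √r + √(ρ / r) + r / r0 ≤ 3 * δ := by
    intro r h1 h2
    have hr : 0 < r := ha0.trans_le h1
    have h3 : r ≤ r0 := h2.trans hbr
    have h4 : 2 * ρ ≤ M * ρ := by gcongr
    refine ⟨hr, by linarith, by linarith, h3, ?_⟩
    have e1 : √r ≤ δ := Real.sqrt_le_iff.2 ⟨hδ.le, h3.trans hrb⟩
    have e2 : √(ρ / r) ≤ δ := by
      refine Real.sqrt_le_iff.2 ⟨hδ.le, ?_⟩
      rw [div_le_iff₀ hr]
      calc ρ = δ ^ 2 * (M * ρ) := by rw [← mul_assoc, mul_comm (δ ^ 2), hMδ, one_mul]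
        _ ≤ δ ^ 2 * r := by gcongr
    have e3 : r / r0 ≤ δ := by
      rw [div_le_iff₀ hr0]
      rw [hb] at h2
      have : r0 * δ ^ 2 ≤ r0 * δ := by gcongr
      linarith
    linarith
  have key : ∀ r, M * ρ ≤ r → r ≤ r0 / M →
      -formAt ((1 - r / r0) ^ 2) (2 * (1 - r / r0) / r0) e X Y r ≤
        -((√73 - H * (√r + √(ρ / r) + r / r0)) / r * Phi r0 X Y r) + C * E ^ 2 / √r := by
    intro r h1 h2
    obtain ⟨hr, hρr, hr2, hrr, hη⟩ := hw r h1 h2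
    obtain ⟨a1, a2, a3, -, -⟩ := wX r hr hρr hr2
    obtain ⟨b1, b2, b3, -, -⟩ := wY r hr hρr hr2
    have tX := aX.pos r hr
    have tY := aY.pos r hr
    have hs : 0 < √r := Real.sqrt_pos.2 hr
    have hs2 : √r ^ 2 = r := Real.sq_sqrt hr.le
    have hq0 : 0 ≤ r / r0 := by positivity
    have hq1 : r / r0 ≤ 1 := (div_le_one hr0).2 hrr
    have hp0 : 0 ≤ √(ρ / r) := Real.sqrt_nonneg _
    obtain ⟨η, hηe⟩ : ∃ η : ℝ, η = √r + √(ρ / r) + r / r0 := ⟨_, rfl⟩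
    rw [← hηe] at hη ⊢
    have hη0' : 0 < η := by rw [hηe]; positivity
    have hHη : H * η ≤ 1 := le_trans (by gcongr) hδH
    have hHη0 : 0 < H * η := by positivity
    have hKη : K * η ≤ 1 / 18 := le_trans (by gcongr) hδK
    have hKη' : K * (√r + √(ρ / r)) ≤ K * η := by
      gcongr; rw [hηe]; linarith
    have hr20 : 0 < r ^ 2 := by positivity
    have lt : ∀ t : ℝ, 12 / r ^ 2 * (1 - K * (√r + √(ρ / r))) ≤ t →
        12 * (1 - K * η) ≤ r ^ 2 * t := by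
      intro t ht
      rw [div_mul_eq_mul_div, div_le_iff₀ hr20] at ht
      linarith
    have ut : ∀ t : ℝ, t ≤ K / r ^ 2 → r ^ 2 * t ≤ K := by
      intro t ht
      rw [le_div_iff₀ hr20] at ht
      linarith
    have lX := lt _ a1
    have lY := lt _ b1
    have uX := ut _ a2
    have uY := ut _ b2
    have c1 : 1 ≤ (X.m r + Y.m r) * √r ^ 8 := by
      have e8 : √r ^ 8 = r ^ 4 := by rw [show (8 : ℕ) = 2 * 4 by norm_num, pow_mul, hs2]
      have f1 : 1 ≤ (r ^ 2 * X.t r) ^ 3 := one_le_pow₀ (by linarith)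
      have f2 : 0 ≤ (r ^ 2 * Y.t r) ^ 3 := by positivity
      rw [e8]
      unfold Q4.m
      calc (1 : ℝ) ≤ (r ^ 2 * X.t r) ^ 3 + (r ^ 2 * Y.t r) ^ 3 := by linarith
        _ = _ := by ring
    have c2 : 18 * (1 - K * η) ≤ mu X Y r := by
      have := le_mu tX tY
      linarith
    have c3 : mu X Y r ≤ 2 * K := by
      have := mu_le tX tY
      linarith
    have c4 : |X.L r + Y.L r| * √r ^ 2 ≤ 2 * K := by
      rw [hs2]
      rw [le_div_iff₀ hr] at a3 b3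
      have := mul_le_mul_of_nonneg_right (abs_add_le (X.L r) (Y.L r)) hr.le
      linarith
    have hqη : r / r0 ≤ η := by rw [hηe]; linarith
    have c5 : 2 * (1 - r / r0) / r0 * √r ^ 2 ≤ 2 * η := by
      rw [hs2]
      have : 2 * (1 - r / r0) / r0 * r = 2 * (1 - r / r0) * (r / r0) := by ring
      rw [this]
      linarith [mul_self_nonneg (r / r0)]
    have hqq : r / r0 * (r / r0) ≤ r / r0 := mul_le_of_le_one_right hq0 hq1
    have d1 : 1 - 2 * η ≤ (1 - r / r0) ^ 2 := by linarith [mul_self_nonneg (r / r0)]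
    have d2 : (1 - r / r0) ^ 2 ≤ 1 := by linarith
    have d3 : (√73 - H * η) ^ 2 ≤ 73 - H * η := by
      have g1 : 8 * (H * η) ≤ √73 * (H * η) := by gcongr
      have g2 : H * η * (H * η) ≤ H * η := mul_le_of_le_one_right hHη0.le hHη
      linarith
    have := hA (√r) η (X.m r + Y.m r) (mu X Y r) ((1 - r / r0) ^ 2) (2 * (1 - r / r0) / r0)
      (X.L r + Y.L r) (√73 - H * η) (X.L r - Y.L r) (X.t r ^ 2 - Y.t r ^ 2) (X.v r - Y.v r)
      ((X.w r - Y.w r) / r) (e r) hs (by rw [hηe]; linarith) (by linarith) c1 c2 c3 c4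
      d1 d2 (div_nonneg (by linarith) hr0.le) c5 (by linarith) (by linarith) d3
    rw [hs2, ← ((dP r hr).2 r0 hr0.ne').2] at this
    have he : e r ^ 2 ≤ E ^ 2 := by
      have h := hE r hr hr2
      rw [← sq_abs (e r)]
      gcongr
    have he2 : C * e r ^ 2 / √r ≤ C * E ^ 2 / √r := by gcongr
    unfold formAt
    linarith
  have gmono : ∀ r, M * ρ ≤ r → r ≤ r0 / M → wina_g H ρ r0 r ≤ wina_g H ρ r0 (r0 / M) := by
    intro r h1 h2
    have := anti' (f := fun s => -wina_g H ρ r0 s) h2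
      (fun s h3 _ => (wina_dg H ρ r0 hρ.le (ha0.trans_le (h1.trans h3))).fun_neg)
      (fun s h3 h4 => by
        obtain ⟨hs, -, -, -, hη⟩ := hw s (h1.trans h3) h4
        have : H * (√s + √(ρ / s) + s / r0) ≤ 1 := le_trans (by gcongr) hδH
        have : 0 ≤ (√73 - H * (√s + √(ρ / s) + s / r0)) / s := div_nonneg (by linarith) hs.le
        linarith)
    linarith
  obtain ⟨J1, hJ1⟩ : ∃ J1, J1 = Real.exp (wina_g H ρ r0 (r0 / M)) := ⟨_, rfl⟩
  have hJ10 : 0 < J1 := by rw [hJ1]; exact Real.exp_pos _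
  have main := anti (f := fun r => Real.exp (wina_g H ρ r0 r) * Phi r0 X Y r -
      2 * C * E ^ 2 * J1 * √r)
    (f' := fun r => Real.exp (wina_g H ρ r0 r) * ((√73 - H * (√r + √(ρ / r) + r / r0)) / r) *
      Phi r0 X Y r + Real.exp (wina_g H ρ r0 r) *
        (-formAt ((1 - r / r0) ^ 2) (2 * (1 - r / r0) / r0) e X Y r) -
      2 * C * E ^ 2 * J1 * (1 / (2 * √r))) hρ1
    (fun r hr => by
      have h0 : 0 < r := ha0.trans_le hr.1
      refine ContinuousWithinAt.sub (ContinuousWithinAt.mul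
        (wina_dg H ρ r0 hρ.le h0).exp.continuousAt.continuousWithinAt
        ((cP r0 r h0).continuousAt (Ioi_mem_nhds h0)).continuousWithinAt) ?_
      exact (Real.continuous_sqrt.continuousAt.const_mul _).continuousWithinAt)
    (fun r h1 _ => by
      have h0 : 0 < r := ha0.trans_le h1
      exact ((wina_dg H ρ r0 hρ.le h0).exp.hasDerivWithinAt.fun_mul
        ((dP r h0).2 r0 hr0.ne').1).fun_sub
        ((Real.hasDerivAt_sqrt h0.ne').const_mul _).hasDerivWithinAt)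
    (fun r h1 h2 => by
      have h0 : 0 < r := ha0.trans_le h1
      have hs : 0 < √r := Real.sqrt_pos.2 h0
      have k1 := mul_le_mul_of_nonneg_left (key r h1 h2.le) (Real.exp_pos (wina_g H ρ r0 r)).le
      have k2 : Real.exp (wina_g H ρ r0 r) ≤ J1 := by
        rw [hJ1]; exact Real.exp_le_exp.2 (gmono r h1 h2.le)
      have k3 : Real.exp (wina_g H ρ r0 r) * (C * E ^ 2 / √r) ≤ J1 * (C * E ^ 2 / √r) := by
        gcongr
      have k4 : 2 * C * E ^ 2 * J1 * (1 / (2 * √r)) = J1 * (C * E ^ 2 / √r) := by field_simp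
      rw [k4]
      linarith)
  rw [← hJ1] at main
  obtain ⟨-, hρa, ha2, har, hηa⟩ := hw (M * ρ) le_rfl hρ1
  obtain ⟨-, -, -, -, hηb⟩ := hw (r0 / M) hρ1 le_rfl
  have hB := wina_Phi hK ha0 hρa ha2 har (aX.pos _ ha0) (aY.pos _ ha0) wX wY
  have hg : wina_g H ρ r0 (M * ρ) ≤ wina_g H ρ r0 (r0 / M) +
      (4 + (Real.log (M * ρ) * √73 - Real.log (r0 / M) * √73)) := by
    unfold wina_g
    have f1 : H * (√(M * ρ) + √(ρ / (M * ρ)) + M * ρ / r0) ≤ 1 := le_trans (by gcongr) hδH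
    have f2 : H * (√(r0 / M) + √(ρ / (r0 / M)) + r0 / M / r0) ≤ 1 := le_trans (by gcongr) hδH
    rw [Real.sqrt_div hρ.le] at f1 f2
    have g1 : 0 ≤ H * √(M * ρ) := by positivity
    have g2 : 0 ≤ H * (M * ρ / r0) := by positivity
    have g3 : 0 ≤ H * (√ρ / √(r0 / M)) := by positivity
    have g4 : 0 ≤ H * (r0 / M / r0) := by positivity
    rw [mul_div_assoc 2, mul_div_assoc 2]
    linarith
  have hJ : Real.exp (wina_g H ρ r0 (M * ρ)) ≤
      J1 * (Real.exp 4 * ((M * ρ) ^ (√73) / (r0 / M) ^ (√73))) := by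
    rw [Real.rpow_def_of_pos ha0, Real.rpow_def_of_pos hr1, ← Real.exp_sub, ← Real.exp_add, hJ1,
      ← Real.exp_add]
    exact Real.exp_le_exp.2 hg
  have f1 : Real.exp (wina_g H ρ r0 (M * ρ)) * Phi r0 X Y (M * ρ) ≤
      J1 * (Real.exp 4 * ((M * ρ) ^ (√73) / (r0 / M) ^ (√73))) * (154 * K ^ 4 / (M * ρ) ^ 7) :=
    (mul_le_mul_of_nonneg_left hB (Real.exp_pos _).le).trans
      (mul_le_mul_of_nonneg_right hJ (by positivity))
  have f2 : Real.exp 4 * ((M * ρ) ^ (√73) / (r0 / M) ^ (√73)) * (154 * K ^ 4 / (M * ρ) ^ 7) =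
      Real.exp 4 * (154 * K ^ 4) * M ^ (√73 - 7) / (r0 / M) ^ (√73) * ρ ^ (√73 - 7) := by
    have e1 : (M * ρ) ^ (√73 - 7) = (M * ρ) ^ (√73) / (M * ρ) ^ 7 := by
      rw [Real.rpow_sub ha0]
      norm_cast
    rw [Real.mul_rpow hM0.le hρ.le] at e1
    calc _ = Real.exp 4 * (154 * K ^ 4) * ((M * ρ) ^ (√73) / (M * ρ) ^ 7) / (r0 / M) ^ (√73) := by
          ring
      _ = _ := by rw [← e1]; ring
  rw [mul_assoc, f2] at f1
  have f3 : √(r0 / M) ≤ √r0 := Real.sqrt_le_sqrt hbr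
  have f4 : 0 ≤ 2 * C * E ^ 2 * J1 * √(M * ρ) := by positivity
  have f5 : 2 * C * E ^ 2 * J1 * √(r0 / M) ≤ 2 * C * E ^ 2 * J1 * √r0 := by gcongr
  refine le_of_mul_le_mul_left ?_ hJ10
  linarith

end Pool.Agent.P.MP_97b9bc_mp.T
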