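import Pool.Agent.P.MP_97b9bc_mp.T.IfaceB

/-! Step WINB. -/

set_option autoImplicit false

namespace Pool.Agent.P.MP_97b9bc_mp.T

open MeasureTheory Set Filter Topology

lemma winb_low {K ρ r1 r : ℝ} {X : Q4} (hK : 1 ≤ K) (h : Win K ρ X) (h1 : 0 < r1) (h2 : r1 ≤ r)
    (h3 : ρ ≤ r1) (h4 : r ≤ 1 / 2) (h5 : r ≤ (1 / (36 * K)) ^ 2)
    (h6 : √(ρ / r1) ≤ 1 / (36 * K)) :
    34 / 3 ≤ r ^ 2 * X.t r ∧ r ^ 2 * X.t r ≤ K ∧ |X.L r| * r ≤ K := by
  have hr : 0 < r := h1.trans_le h2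
  obtain ⟨a, b, c, -⟩ := h r hr (h3.trans h2) h4
  have k0 : 0 < K := by linarith
  have e1 : √r ≤ 1 / (36 * K) := Real.sqrt_le_iff.2 ⟨by positivity, h5⟩
  have e2 : √(ρ / r) ≤ 1 / (36 * K) := by
    rcases le_total 0 ρ with h0 | h0
    · exact (Real.sqrt_le_sqrt (div_le_div_of_nonneg_left h0 h1 h2)).trans h6
    · rw [Real.sqrt_eq_zero'.2 (div_nonpos_of_nonpos_of_nonneg h0 hr.le)]
      positivity
  have e3 : K * (√r + √(ρ / r)) ≤ 1 / 18 := by
    have : K * (1 / (36 * K) + 1 / (36 * K)) = 1 / 18 := by field_simp; norm_num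
    rw [← this]
    gcongr
  have r2 : 0 < r ^ 2 := by positivity
  refine ⟨?_, ?_, (le_div_iff₀ hr).1 c⟩
  · rw [div_mul_eq_mul_div, div_le_iff₀ r2] at a
    linarith
  · rw [le_div_iff₀ r2] at b
    linarith

lemma winb_alg {F x y u s t ζ C e E : ℝ} (hF : x ^ 2 / 2 + u ^ 2 * y ^ 2 - C * e ^ 2 ≤ F)
    (hC : 0 < C) (he : |e| ≤ E) (s0 : 0 ≤ s) (s1 : s ≤ 8) (z0 : 0 ≤ ζ) (z1 : ζ ≤ 1) :
    -F + t * (u * s * y + ζ * x) - (17 * t ^ 2 + C * E ^ 2) ≤ 0 := by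
  have h1 : e ^ 2 ≤ E ^ 2 := sq_le_sq' (abs_le.1 he).1 (abs_le.1 he).2
  have h2 : C * e ^ 2 ≤ C * E ^ 2 := by gcongr
  have h3 : s ^ 2 * t ^ 2 ≤ 64 * t ^ 2 := by gcongr; nlinarith
  have h4 : ζ ^ 2 * t ^ 2 ≤ 1 * t ^ 2 := by gcongr; nlinarith
  nlinarith [sq_nonneg (u * y - s * t / 2), sq_nonneg (x - ζ * t), sq_nonneg t]

theorem p_WINB (hGD : S_GD) (hALGB : S_ALGB) :
    S_WINB := by
  intro K hK
  obtain ⟨C, rb, hC, hrb, H⟩ := hALGB K hK
  have k0 : 0 < K := by linarith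
  refine ⟨C, min rb (min (1 / 2) ((1 / (36 * K)) ^ 2)), hC, by positivity,
    (min_le_right _ _).trans (min_le_left _ _), ?_⟩
  intro r0 r1 ρ E e X Y h0 h1 h2 h3 h4 hX hY wX wY he t
  obtain ⟨b1, b2⟩ := le_min_iff.1 h0
  obtain ⟨b2, b3⟩ := le_min_iff.1 b2
  have p0 : 0 < r0 := by linarith
  have hle : r1 ≤ r0 := by linarith
  obtain ⟨-, cP, dP⟩ := hGD e X Y hX hY
  obtain ⟨c1, hc1⟩ : ∃ c1, c1 = (1 - r1 / r0) ^ 2 := ⟨_, rfl⟩
  have q1 : r1 / r0 ≤ 1 / 2 := by rw [div_le_iff₀ p0]; linarith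
  have c4 : 1 / 4 ≤ c1 := by rw [hc1]; nlinarith
  have c0 : 0 < c1 := by linarith
  have sub : Icc r1 r0 ⊆ Ioi 0 := fun r hr => h1.trans_le hr.1
  have key := anti (f := fun r => Phi r0 X Y r +
      t * ((1 - (1 - r / r0) ^ 2 / c1) * (X.w r - Y.w r)) - (17 * t ^ 2 + C * E ^ 2) * r)
    (f' := fun r => -formAt ((1 - r / r0) ^ 2) (2 * (1 - r / r0) / r0) e X Y r +
      t * ((1 - r / r0) * (2 * (r / r0) / c1) * ((X.w r - Y.w r) / r) +
        (1 - (1 - r / r0) ^ 2 / c1) * (X.v r - Y.v r)) - (17 * t ^ 2 + C * E ^ 2)) hle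
    ((((cP r0).mono sub).add (continuousOn_const.mul ((by fun_prop : ContinuousOn
      (fun r : ℝ => 1 - (1 - r / r0) ^ 2 / c1) _).mul ((hX.cw.sub hY.cw).mono sub)))).sub
      (by fun_prop)) ?_ ?_
  · have e1 : Phi r0 X Y r0 = GG X Y r0 := by simp [Phi, div_self p0.ne']
    have e2 : 0 ≤ (17 * t ^ 2 + C * E ^ 2) * r1 := by positivity
    simp only [e1, ← hc1, div_self p0.ne', div_self c0.ne', sub_self] at key
    norm_num at key
    linarith
  · intro r a _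
    have hr : 0 < r := h1.trans_le a
    have d1 : HasDerivAt (fun r : ℝ => 1 - (1 - r / r0) ^ 2 / c1)
        (2 * (1 - r / r0) / r0 / c1) r := by
      refine ((((((hasDerivAt_id' r).div_const r0).const_sub 1).fun_pow 2).div_const
        c1).const_sub 1).congr_deriv ?_
      push_cast
      ring
    refine (((((dP r hr).2 r0 p0.ne').1).fun_add ((d1.hasDerivWithinAt.fun_mul
      ((hX.dw r hr).fun_sub (hY.dw r hr))).const_mul t)).fun_sub
      (((hasDerivAt_id' r).const_mul _).hasDerivWithinAt)).congr_deriv ?_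
    have := hr.ne'
    field_simp
  · intro r a b
    have hr : 0 < r := h1.trans_le a
    obtain ⟨x1, x2, x3⟩ := winb_low hK wX h1 a h3 (by linarith) (by linarith) h4
    obtain ⟨y1, y2, y3⟩ := winb_low hK wY h1 a h3 (by linarith) (by linarith) h4
    have tX := hX.pos r hr
    have tY := hY.pos r hr
    have m1 := le_mu tX tY
    have m2 := mu_le tX tY
    have q0 : 0 ≤ r / r0 := by positivity
    have q2 : r / r0 ≤ 1 := (div_le_one p0).2 b.le
    have q3 : r1 / r0 ≤ r / r0 := by gcongr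
    have u0 : 0 ≤ 1 - r / r0 := by linarith
    have cl : (1 - r / r0) ^ 2 ≤ c1 := by rw [hc1]; gcongr
    refine winb_alg (H r _ _ _ _ _ _ _ _ _ _ hr (by linarith) ?_ (by linarith) (by linarith) ?_
      (sq_nonneg _) (by nlinarith) (by positivity) ?_) hC (he r hr (by linarith))
      (by positivity) ?_ ?_ ?_
    · have : (X.m r + Y.m r) * r ^ 4 = (r ^ 2 * X.t r) ^ 3 + (r ^ 2 * Y.t r) ^ 3 := by
        unfold Q4.m; ring
      rw [this]
      have i1 : 1 ≤ (r ^ 2 * X.t r) ^ 3 := one_le_pow₀ (by linarith)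
      have i2 : 1 ≤ (r ^ 2 * Y.t r) ^ 3 := one_le_pow₀ (by linarith)
      linarith
    · have := mul_le_mul_of_nonneg_right (abs_add_le (X.L r) (Y.L r)) hr.le
      linarith
    · have : (2 * (1 - r / r0) / r0 * r) ^ 2 = 4 * (1 - r / r0) ^ 2 * (r / r0) ^ 2 := by ring
      rw [this]
      exact mul_le_of_le_one_right (by positivity) (pow_le_one₀ q0 q2)
    · rw [div_le_iff₀ c0]; linarith
    · exact sub_nonneg.2 ((div_le_one c0).2 cl)
    · exact sub_le_self _ (by positivity)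

end Pool.Agent.P.MP_97b9bc_mp.T
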