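import Pool.Agent.P.MP_97b9bc_mp.T.IfaceB

/-! Step WINE. -/

set_option autoImplicit false

namespace Pool.Agent.P.MP_97b9bc_mp.T

open MeasureTheory Set Filter Topology

lemma wine_t (hBL : S_BL) {z Q K0 : ℝ} {X : Q4} (h : Sol z 0 Q X)
    (hw : ∀ r, 0 < r → r ≤ 1 → X.w r ≤ K0 / r ^ 3) {r : ℝ} (hr : 0 < r) (h1 : r ≤ 1) :
    r ^ 4 * X.t r ^ 2 ≤ 2 * K0 + 9 / 4 := by
  have a := (hBL z Q X h).1 (1 / 2) r (by norm_num) (by norm_num) hr
  have b := hw r hr h1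
  rw [le_div_iff₀ (by positivity)] at b
  have c : r ^ 4 ≤ 1 := pow_le_one₀ hr.le h1
  have d : r ^ 4 * (X.w r / r) = X.w r * r ^ 3 := by field_simp
  have e := mul_le_mul_of_nonneg_left a (show 0 ≤ r ^ 4 by positivity)
  rw [mul_add, d] at e
  norm_num at e
  linarith

lemma wine_W (hBL : S_BL) {z Q K0 : ℝ} {X : Q4} (h : Sol z 0 Q X) (hK : 1 ≤ K0)
    (hw : ∀ r, 0 < r → r ≤ 1 → X.w r ≤ K0 / r ^ 3) {s : ℝ} (hs : 0 < s) (h1 : s ≤ 2 / 3) :
    X.t s ^ 2 - X.w s / s ≤ ((K0 + 2) / s) ^ 2 := by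
  have hl : 1 / 2 ≤ 1 - s ^ 2 := by nlinarith
  have a := (hBL z Q X h).1 (1 - s ^ 2) s (by linarith) (by nlinarith) hs
  have b := wine_t hBL h hw hs (by linarith)
  have c : 9 / (64 * (1 - s ^ 2) ^ 2 * (1 - (1 - s ^ 2))) ≤ 9 / 16 / s ^ 2 := by
    rw [sub_sub_cancel, div_div]
    have : 1 / 4 ≤ (1 - s ^ 2) ^ 2 := by nlinarith
    have h2 : 16 ≤ 64 * (1 - s ^ 2) ^ 2 := by linarith
    gcongr
  have d : s ^ 2 * X.t s ^ 2 ≤ (2 * K0 + 9 / 4) / s ^ 2 := by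
    rw [le_div_iff₀ (by positivity)]
    linarith
  have e : (2 * K0 + 9 / 4) / s ^ 2 + 9 / 16 / s ^ 2 ≤ ((K0 + 2) / s) ^ 2 := by
    rw [← add_div, div_pow]
    gcongr
    nlinarith
  linarith

lemma wine_v (hBL : S_BL) {z Q K0 : ℝ} {X : Q4} (h : Sol z 0 Q X)
    (hw : ∀ r, 0 < r → r ≤ 1 → X.w r ≤ K0 / r ^ 3) {r : ℝ} (hr : 0 < r) (h1 : r ≤ 1) :
    -X.v r * r ^ 4 ≤ 16 * K0 + 2 := by
  have a := anti' (f := fun s => X.w s - s * X.v r) (f' := fun s => X.v s - 1 * X.v r)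
    (show r / 2 ≤ r by linarith)
    (fun s h2 _ => (h.dw s (by linarith)).fun_sub ((hasDerivAt_id' s).mul_const _))
    (fun s h2 h3 => by linarith [h.v_mono (show 0 < s by linarith) h3])
  have b := hw (r / 2) (by linarith) (by linarith)
  rw [le_div_iff₀ (by positivity)] at b
  have c := (hBL z Q X h).2 r hr
  have d : r ^ 4 ≤ 1 := pow_le_one₀ hr.le h1
  have e : -X.v r * r ≤ 2 * X.w (r / 2) + 2 * r := by linarith
  have f := mul_le_mul_of_nonneg_right e (show 0 ≤ r ^ 3 by positivity)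
  linarith

theorem p_WINE (hBL : S_BL) (hKO : S_KO) (hLOW : S_LOW) (hRIC : S_RIC) :
    S_WINE := by
  obtain ⟨K0, hK, hKO⟩ := hKO
  refine ⟨16 * K0 + 9, by linarith, fun z Q σ X h hσ hz r hr _ h2 => ?_⟩
  have hw := hKO z Q X h
  have h1 : r ≤ 1 := by linarith
  refine ⟨le_trans ?_ (hLOW z Q σ X h hσ hz r hr), ?_, ?_, ?_, ?_⟩
  · rw [Real.sqrt_div (sq_nonneg σ), Real.sqrt_sq hσ.le]
    gcongr
    linarith
  · rw [le_div_iff₀ (by positivity)]
    have a := wine_t hBL h hw hr h1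
    refine abs_le_of_sq_le_sq' ?_ (by linarith) |>.2
    nlinarith
  · have a := hRIC X.L (fun s => X.t s ^ 2 - X.w s / s + 0 - X.L s ^ 2) r (r / 4)
      (2 * (K0 + 2) / r) (by linarith) (by positivity) (fun s h3 h4 => by
        have hs : 0 < s := by linarith
        refine ⟨h.dL s hs, ?_⟩
        have b := wine_W hBL h hK hw hs (by linarith)
        have c : (K0 + 2) / s ≤ 2 * (K0 + 2) / r := by
          rw [div_le_div_iff₀ hs hr]
          nlinarith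
        have d : ((K0 + 2) / s) ^ 2 ≤ (2 * (K0 + 2) / r) ^ 2 := by gcongr
        linarith)
    refine a.trans ?_
    rw [one_div_div, ← add_div]
    exact div_le_div_of_nonneg_right (by linarith) hr.le
  · have d : r ^ 4 ≤ 1 := pow_le_one₀ hr.le h1
    have c := (hBL z Q X h).2 r hr
    refine abs_le.2 ⟨le_trans ?_ c, (hw r hr h1).trans ?_⟩
    · rw [neg_le_neg_iff, le_div_iff₀ (by positivity)]
      linarith
    · gcongr
      linarith
  · rw [abs_of_nonpos (h.vneg r hr), le_div_iff₀ (by positivity)]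
    linarith [wine_v hBL h hw hr h1]

end Pool.Agent.P.MP_97b9bc_mp.T
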