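import Pool.Agent.P.MP_97b9bc_mp.T.TCOU
import Pool.Agent.P.MP_97b9bc_mp.T.TSOB
import Pool.Agent.P.MP_97b9bc_mp.T.TABS
import Pool.Agent.P.MP_97b9bc_mp.T.TTAY
import Pool.Agent.P.MP_97b9bc_mp.T.TBIL
import Pool.Agent.P.MP_97b9bc_mp.T.TINT
import Pool.Agent.P.MP_97b9bc_mp.T.TVAR
import Pool.Agent.P.MP_97b9bc_mp.T.TEL
import Pool.Agent.P.MP_97b9bc_mp.T.TLAP
import Pool.Agent.P.MP_97b9bc_mp.T.TNEW
import Pool.Agent.P.MP_97b9bc_mp.T.TMEAS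
import Pool.Agent.P.MP_97b9bc_mp.T.TWEAK
import Pool.Agent.P.MP_97b9bc_mp.T.TTST
import Pool.Agent.P.MP_97b9bc_mp.T.TPRIM
import Pool.Agent.P.MP_97b9bc_mp.T.TDBRO
import Pool.Agent.P.MP_97b9bc_mp.T.TPART
import Pool.Agent.P.MP_97b9bc_mp.T.TDBR
import Pool.Agent.P.MP_97b9bc_mp.T.TWPA
import Pool.Agent.P.MP_97b9bc_mp.T.TWPB
import Pool.Agent.P.MP_97b9bc_mp.T.TCLS
import Pool.Agent.P.MP_97b9bc_mp.T.TBCO
import Pool.Agent.P.MP_97b9bc_mp.T.TTO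
import Pool.Agent.P.MP_97b9bc_mp.T.TPOS
import Pool.Agent.P.MP_97b9bc_mp.T.TNZ
import Pool.Agent.P.MP_97b9bc_mp.T.TSCALE
import Pool.Agent.P.MP_97b9bc_mp.T.TMINSOL
import Pool.Agent.P.MP_97b9bc_mp.T.TPQ
import Pool.Agent.P.MP_97b9bc_mp.T.TGLOB
import Pool.Agent.P.MP_97b9bc_mp.T.TBL
import Pool.Agent.P.MP_97b9bc_mp.T.TBUMP
import Pool.Agent.P.MP_97b9bc_mp.T.TKO
import Pool.Agent.P.MP_97b9bc_mp.T.TSUB
import Pool.Agent.P.MP_97b9bc_mp.T.TLOW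
import Pool.Agent.P.MP_97b9bc_mp.T.TRIC
import Pool.Agent.P.MP_97b9bc_mp.T.TWINE
import Pool.Agent.P.MP_97b9bc_mp.T.TEND
import Pool.Agent.P.MP_97b9bc_mp.T.TGD
import Pool.Agent.P.MP_97b9bc_mp.T.TALGA
import Pool.Agent.P.MP_97b9bc_mp.T.TALGB
import Pool.Agent.P.MP_97b9bc_mp.T.TWINA
import Pool.Agent.P.MP_97b9bc_mp.T.TWINB
import Pool.Agent.P.MP_97b9bc_mp.T.TWIN
import Pool.Agent.P.MP_97b9bc_mp.T.TOUTA
import Pool.Agent.P.MP_97b9bc_mp.T.TOUTB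
import Pool.Agent.P.MP_97b9bc_mp.T.TOUTC
import Pool.Agent.P.MP_97b9bc_mp.T.TTAIL
import Pool.Agent.P.MP_97b9bc_mp.T.TVAL
import Pool.Agent.P.MP_97b9bc_mp.T.TRATE
import Pool.Agent.P.MP_97b9bc_mp.T.TLIM
import Pool.Agent.P.MP_97b9bc_mp.T.TGLUE
import Pool.Agent.P.MP_97b9bc_mp.T.TTLN
import Pool.Agent.P.MP_97b9bc_mp.T.TPIECE
import Pool.Agent.P.MP_97b9bc_mp.T.TINNER
import Pool.Agent.P.MP_97b9bc_mp.T.NSound
import Pool.Agent.P.MP_97b9bc_mp.T.Fin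

/-! All steps together. -/

set_option autoImplicit false

namespace Pool.Agent.P.MP_97b9bc_mp.T

theorem all_COU : S_COU :=
  p_COU
theorem all_SOB : S_SOB :=
  p_SOB all_COU
theorem all_ABS : S_ABS :=
  p_ABS
theorem all_TAY : S_TAY :=
  p_TAY
theorem all_BIL : S_BIL :=
  p_BIL all_COU
theorem all_INT : S_INT :=
  p_INT all_COU
theorem all_VAR : S_VAR :=
  p_VAR all_SOB all_ABS all_TAY all_BIL all_INT
theorem all_EL : S_EL :=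
  p_EL all_VAR all_INT
theorem all_LAP : S_LAP :=
  p_LAP
theorem all_NEW : S_NEW :=
  p_NEW
theorem all_MEAS : S_MEAS :=
  p_MEAS
theorem all_WEAK : S_WEAK :=
  p_WEAK all_INT all_LAP all_NEW all_MEAS
theorem all_TST : S_TST :=
  p_TST
theorem all_PRIM : S_PRIM :=
  p_PRIM
theorem all_DBRO : S_DBRO :=
  p_DBRO all_PRIM
theorem all_PART : S_PART :=
  p_PART
theorem all_DBR : S_DBR :=
  p_DBR all_DBRO all_PART
theorem all_WPA : S_WPA :=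
  p_WPA
theorem all_WPB : S_WPB :=
  p_WPB
theorem all_CLS : S_CLS :=
  p_CLS all_TST all_DBR all_WPA
theorem all_BCO : S_BCO :=
  p_BCO all_WPA
theorem all_TO : S_TO :=
  p_TO all_WPA all_BCO
theorem all_POS : S_POS :=
  p_POS
theorem all_NZ : S_NZ :=
  p_NZ
theorem all_SCALE : S_SCALE :=
  p_SCALE all_WPA all_WPB
theorem all_MINSOL : S_MINSOL :=
  p_MINSOL all_EL all_WEAK all_CLS all_TO all_POS all_NZ all_SCALE all_WPA
theorem all_PQ : S_PQ :=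
  p_PQ
theorem all_GLOB : S_GLOB :=
  p_GLOB all_SOB all_MINSOL all_PQ
theorem all_BL : S_BL :=
  p_BL
theorem all_BUMP : S_BUMP :=
  p_BUMP
theorem all_KO : S_KO :=
  p_KO all_BUMP
theorem all_SUB : S_SUB :=
  p_SUB all_BL
theorem all_LOW : S_LOW :=
  p_LOW all_BUMP all_SUB
theorem all_RIC : S_RIC :=
  p_RIC
theorem all_WINE : S_WINE :=
  p_WINE all_BL all_KO all_LOW all_RIC
theorem all_END : S_END :=
  p_END all_BL all_RIC
theorem all_GD : S_GD :=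
  p_GD
theorem all_ALGA : S_ALGA :=
  p_ALGA
theorem all_ALGB : S_ALGB :=
  p_ALGB
theorem all_WINA : S_WINA :=
  p_WINA all_GD all_ALGA
theorem all_WINB : S_WINB :=
  p_WINB all_GD all_ALGB
theorem all_WIN : S_WIN :=
  p_WIN all_WINA all_WINB
theorem all_OUTA : S_OUTA :=
  p_OUTA all_GD
theorem all_OUTB : S_OUTB :=
  p_OUTB all_OUTA
theorem all_OUTC : S_OUTC :=
  p_OUTC all_OUTA all_OUTB
theorem all_TAIL : S_TAIL :=
  p_TAIL
theorem all_VAL : S_VAL :=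
  p_VAL all_WINE all_END all_WIN all_OUTB all_TAIL
theorem all_RATE : S_RATE :=
  p_RATE all_WINE all_END all_WIN all_OUTB all_OUTC
theorem all_LIM : S_LIM :=
  p_LIM
theorem all_GLUE : S_GLUE :=
  p_GLUE
theorem all_TLN : S_TLN :=
  p_TLN
theorem all_PIECE : S_PIECE :=
  p_PIECE all_GLUE
theorem all_INNER : S_INNER :=
  p_INNER all_GLUE

end Pool.Agent.P.MP_97b9bc_mp.T
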