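import Pool.Agent.P.MP_97b9bc_mp.Defs
import Pool.Agent.P.MP_3d36e1_mp.Radial

/-! Working definitions and small tools. -/

set_option autoImplicit false

namespace Pool.Agent.P.MP_97b9bc_mp.T

open MeasureTheory Set Filter Topology
open scoped ContDiff

/-- admissible densities of the library, exponent five thirds -/
abbrev Adm (lam : ℝ) (ρ : R3 → ℝ) (g : R3 → R3) : Prop :=
  MP_3d36e1_mp.Admissible (5 / 3) lam ρ g

/-- `ρ` with gradient `g` minimises the energy under the constraint mass at most `lam` -/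
def Mini (A γ z lam : ℝ) (ρ : R3 → ℝ) (g : R3 → R3) : Prop :=
  Adm lam ρ g ∧ ∀ ρ' g', Adm lam ρ' g' → tfw A γ z ρ g ≤ tfw A γ z ρ' g'

/-- smooth with compact support -/
def Test {E : Type} [NormedAddCommGroup E] [NormedSpace ℝ E] (η : E → ℝ) : Prop :=
  ContDiff ℝ ∞ η ∧ HasCompactSupport η

/-- Coulomb potential of a density -/
noncomputable def pot (ρ : R3 → ℝ) (x : R3) : ℝ := ∫ y, ρ y / ‖x - y‖

/-- half of the first variation of the energy -/
noncomputable def Lam (A γ z : ℝ) (ρ : R3 → ℝ) (g : R3 → R3) (η : R3 → ℝ) : ℝ :=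
  A * (∫ x, inner ℝ (g x) (gradient η x)) +
    ∫ x, (γ * ρ x ^ (2 / 3 : ℝ) - z / ‖x‖ + pot ρ x) * (√(ρ x) * η x)

/-- `r` times the total potential, for the radial charge density `m` -/
noncomputable def wOf (z : ℝ) (m : ℝ → ℝ) (r : ℝ) : ℝ :=
  z - ∫ s in Ioi (0 : ℝ), m s * (r / max r s)

/-- the coefficient of the radial equation -/
noncomputable def coef (A γ z μ : ℝ) (u : ℝ → ℝ) (r : ℝ) : ℝ :=
  (γ * (u r / r) ^ (4 / 3 : ℝ) - wOf z (fun s => 4 * Real.pi * u s ^ 2) r / r + μ) / A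

/-- the weak radial equation for `u = r ψ` -/
structure Weak (A γ z μ : ℝ) (u : ℝ → ℝ) : Prop where
  meas : Measurable u
  nonneg : ∀ r, 0 < r → 0 ≤ u r
  L2 : IntegrableOn (fun r => u r ^ 2) (Ioi 0)
  Lp : IntegrableOn (fun r => r ^ 2 * (u r / r) ^ (10 / 3 : ℝ)) (Ioi 0)
  eq : ∀ h : ℝ → ℝ, Test h →
    ∫ r in Ioi (0 : ℝ), u r * (4 * r ^ 3 * deriv (deriv h) (r ^ 2) + 6 * r * deriv h (r ^ 2)) =
      ∫ r in Ioi (0 : ℝ), coef A γ z μ u r * u r * (r * h (r ^ 2))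

/-- the classical radial equation -/
structure Clas (A γ z μ : ℝ) (u u1 : ℝ → ℝ) : Prop where
  weak : Weak A γ z μ u
  d1 : ∀ r, 0 < r → HasDerivAt u (u1 r) r
  d2 : ∀ r, 0 < r → HasDerivAt u1 (coef A γ z μ u r * u r) r

/-- the unit of charge -/
noncomputable def cc (A γ : ℝ) : ℝ := 4 * Real.pi * (A / γ) ^ (3 / 2 : ℝ)

/-- four real functions -/
structure Q4 where
  t : ℝ → ℝ
  L : ℝ → ℝ
  w : ℝ → ℝ
  v : ℝ → ℝ

/-- radial charge density -/
def Q4.m (X : Q4) (r : ℝ) : ℝ := r ^ 2 * X.t r ^ 3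

/-- the radial system in reduced units: `t = ψ^(2/3)`, `L = u'/u`, `w = r φ`, `v = w'` -/
structure Sol (z μ Q : ℝ) (X : Q4) : Prop where
  zpos : 0 < z
  mu : 0 ≤ μ
  pos : ∀ r, 0 < r → 0 < X.t r
  dt : ∀ r, 0 < r → HasDerivAt X.t (2 / 3 * X.t r * (X.L r - 1 / r)) r
  dL : ∀ r, 0 < r → HasDerivAt X.L (X.t r ^ 2 - X.w r / r + μ - X.L r ^ 2) r
  dw : ∀ r, 0 < r → HasDerivAt X.w (X.v r) r
  dv : ∀ r, 0 < r → HasDerivAt X.v (r * X.t r ^ 3) r
  vneg : ∀ r, 0 < r → X.v r ≤ 0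
  rv : Tendsto (fun r => r * X.v r) atTop (𝓝 0)
  winf : Tendsto X.w atTop (𝓝 (-Q))
  w0 : Tendsto X.w (𝓝[>] 0) (𝓝 z)
  t0 : Tendsto (fun r => r * X.t r ^ 2) (𝓝[>] 0) (𝓝 0)

/-- approximate solutions with residual `e` -/
structure App (e : ℝ → ℝ) (X : Q4) : Prop where
  pos : ∀ r, 0 < r → 0 < X.t r
  ct : ContinuousOn X.t (Ioi 0)
  cL : ContinuousOn X.L (Ioi 0)
  cw : ContinuousOn X.w (Ioi 0)
  cv : ContinuousOn X.v (Ioi 0)
  dt : ∀ r, 0 < r → HasDerivWithinAt X.t (2 / 3 * X.t r * (X.L r - 1 / r)) (Ici r) r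
  dL : ∀ r, 0 < r → HasDerivWithinAt X.L (X.t r ^ 2 - X.w r / r - X.L r ^ 2 + e r) (Ici r) r
  dw : ∀ r, 0 < r → HasDerivWithinAt X.w (X.v r) (Ici r) r
  dv : ∀ r, 0 < r → HasDerivWithinAt X.v (r * X.t r ^ 3) (Ici r) r

/-- bounds in the Sommerfeld window -/
def Win (K ρ : ℝ) (X : Q4) : Prop :=
  ∀ r, 0 < r → ρ ≤ r → r ≤ 1 / 2 →
    12 / r ^ 2 * (1 - K * (√r + √(ρ / r))) ≤ X.t r ∧ X.t r ≤ K / r ^ 2 ∧ |X.L r| ≤ K / r ∧
      |X.w r| ≤ K / r ^ 3 ∧ |X.v r| ≤ K / r ^ 4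

/-- behaviour at infinity -/
def Far (X : Q4) : Prop :=
  Tendsto X.m atTop (𝓝 0) ∧ Tendsto X.v atTop (𝓝 0) ∧
    ∃ K, ∀ r, 1 ≤ r → |X.L r| ≤ K ∧ |X.w r| ≤ K

/-- the residual costs at most `S` in total -/
def Src (S : ℝ) (e t : ℝ → ℝ) : Prop :=
  ∃ P p : ℝ → ℝ, ContinuousOn P (Ioi 0) ∧ ∀ r, 0 < r →
    HasDerivWithinAt P (p r) (Ici r) r ∧ 0 ≤ P r ∧ P r ≤ S ∧
      ((|e r| ≤ 1 / 2 ∧ r ^ 2 * (2 * t r + 1) * e r ^ 2 / 2 ≤ p r) ∨
        (e r ≤ 0 ∧ r ^ 2 * t r ^ 3 * (-e r) ≤ p r))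

/-- the basic monotone functional -/
def GG (X Y : Q4) (r : ℝ) : ℝ :=
  -((X.m r - Y.m r) * (X.L r - Y.L r)) - (X.w r - Y.w r) * (X.v r - Y.v r)

/-- the corrected functional -/
noncomputable def Phi (r0 : ℝ) (X Y : Q4) (r : ℝ) : ℝ :=
  GG X Y r + (1 - r / r0) ^ 2 *
    (36 * ((X.w r - Y.w r) / r) * (X.L r - Y.L r) + (X.w r - Y.w r) ^ 2 / (2 * r))

/-- difference quotient of the charge density against the square of `t` -/
noncomputable def mu (X Y : Q4) (r : ℝ) : ℝ :=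
  r ^ 2 * (X.t r ^ 2 + X.t r * Y.t r + Y.t r ^ 2) / (X.t r + Y.t r)

/-- minus the derivative of the corrected functional -/
noncomputable def form (r U m c d Λ l s x y e : ℝ) : ℝ :=
  U * l ^ 2 + m * s ^ 2 + x ^ 2 - m * s * e -
    36 * c * (y * (s - y) + l * (x - y) / r - y * Λ * l - y * e) - c / 2 * (2 * x * y - y ^ 2) +
    d * (36 * y * l + r * y ^ 2 / 2)

/-- the corrected functional as a quadratic form -/
noncomputable def phi (r m c l s x y : ℝ) : ℝ :=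
  -(m * s * l) - r * x * y + c * (36 * y * l + r * y ^ 2 / 2)

/-- `form` evaluated along two solutions -/
noncomputable def formAt (c d : ℝ) (e : ℝ → ℝ) (X Y : Q4) (r : ℝ) : ℝ :=
  form r (X.m r + Y.m r) (mu X Y r) c d (X.L r + Y.L r) (X.L r - Y.L r) (X.t r ^ 2 - Y.t r ^ 2)
    (X.v r - Y.v r) ((X.w r - Y.w r) / r) (e r)

lemma tfw_eq (A γ z : ℝ) (ρ : R3 → ℝ) (g : R3 → R3) :
    tfw A γ z ρ g = MP_3d36e1_mp.energy A γ (5 / 3) z ρ g := by
  unfold tfw MP_3d36e1_mp.energy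
  ring

lemma Adm.root {lam : ℝ} {ρ : R3 → ℝ} {g : R3 → R3} (h : Adm lam ρ g) : H1Root ρ g :=
  ⟨h.nonneg, h.L1, h.grad, h.grad_L2⟩

lemma Mini.isMinimiser {A γ z lam : ℝ} {ρ : R3 → ℝ} {g : R3 → R3} (h : Mini A γ z lam ρ g) :
    MP_3d36e1_mp.IsMinimiser A γ (5 / 3) z lam ρ :=
  ⟨g, h.1, fun ρ' g' h' => by rw [← tfw_eq, ← tfw_eq]; exact h.2 ρ' g' h'⟩

lemma mini_of_isMinimiser {A γ z lam : ℝ} {ρ : R3 → ℝ}
    (h : MP_3d36e1_mp.IsMinimiser A γ (5 / 3) z lam ρ) : ∃ g, Mini A γ z lam ρ g := by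
  obtain ⟨g, h1, h2⟩ := h
  exact ⟨g, h1, fun ρ' g' h' => by rw [tfw_eq, tfw_eq]; exact h2 ρ' g' h'⟩

/-- a continuous function with nonpositive right derivative decreases -/
lemma anti {f f' : ℝ → ℝ} {a b : ℝ} (hab : a ≤ b) (hc : ContinuousOn f (Icc a b))
    (hd : ∀ r, a ≤ r → r < b → HasDerivWithinAt f (f' r) (Ici r) r)
    (h0 : ∀ r, a ≤ r → r < b → f' r ≤ 0) : f b ≤ f a :=
  image_le_of_deriv_right_le_deriv_boundary (B := fun _ => f a) (B' := fun _ => 0) hc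
    (fun r hr => hd r hr.1 hr.2) le_rfl continuousOn_const
    (fun _ _ => hasDerivWithinAt_const _ _ _) (fun r hr => h0 r hr.1 hr.2) (right_mem_Icc.2 hab)

/-- the same with two-sided derivatives -/
lemma anti' {f f' : ℝ → ℝ} {a b : ℝ} (hab : a ≤ b)
    (hd : ∀ r, a ≤ r → r ≤ b → HasDerivAt f (f' r) r)
    (h0 : ∀ r, a ≤ r → r ≤ b → f' r ≤ 0) : f b ≤ f a :=
  anti hab (fun r hr => (hd r hr.1 hr.2).continuousAt.continuousWithinAt)
    (fun r h1 h2 => (hd r h1 h2.le).hasDerivWithinAt) (fun r h1 h2 => h0 r h1 h2.le)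

/-- second derivative test at an interior maximum -/
lemma max2 {f f' : ℝ → ℝ} {s c : ℝ} (hm : IsLocalMax f s)
    (hd : ∀ᶠ r in 𝓝 s, HasDerivAt f (f' r) r) (h2 : HasDerivAt f' c s) : f' s = 0 ∧ c ≤ 0 := by
  have h0 : f' s = 0 := hm.hasDerivAt_eq_zero hd.self_of_nhds
  refine ⟨h0, ?_⟩
  by_contra hc
  push Not at hc
  have hs : ∀ᶠ r in 𝓝[>] s, 0 < f' r := by
    have := (hasDerivAt_iff_tendsto_slope_left_right.1 h2).2.eventually (lt_mem_nhds hc)
    filter_upwards [this, self_mem_nhdsWithin] with r hr hr'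
    rw [slope_def_field, h0, sub_zero] at hr
    have h3 : 0 < r - s := sub_pos.2 hr'
    exact (div_pos_iff_of_pos_right h3).1 hr
  have h3 : ∀ᶠ r in 𝓝[>] s, 0 < f' r ∧ HasDerivAt f (f' r) r ∧ f r ≤ f s :=
    hs.and ((hd.and hm).filter_mono nhdsWithin_le_nhds)
  obtain ⟨b, hb, hb'⟩ := (nhdsGT_basis s).eventually_iff.1 h3
  set t := (s + b) / 2 with ht
  have hst : s < t := by rw [ht]; linarith
  have htb : t < b := by rw [ht]; linarith
  have hcont : ContinuousOn f (Icc s t) := fun r hr => by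
    rcases hr.1.eq_or_lt with rfl | h
    · exact hd.self_of_nhds.continuousAt.continuousWithinAt
    · exact (hb' ⟨h, hr.2.trans_lt htb⟩).2.1.continuousAt.continuousWithinAt
  obtain ⟨x, hx, hx'⟩ := exists_hasDerivAt_eq_slope f f' hst hcont
    (fun r hr => (hb' ⟨hr.1, hr.2.trans htb⟩).2.1)
  have h4 := (hb' ⟨hx.1, hx.2.trans htb⟩).1
  have h5 := (hb' ⟨hst, htb⟩).2.2
  rw [hx'] at h4
  have := (div_pos_iff_of_pos_right (sub_pos.2 hst)).1 h4
  linarith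

/-- maximum principle on an interval: a function that is nonpositive at both ends and positive
somewhere has an interior positive maximum, with vanishing first and nonpositive second
derivative -/
lemma maxp {f f' f'' : ℝ → ℝ} {a b r : ℝ} (hr : r ∈ Icc a b)
    (hd : ∀ s, a ≤ s → s ≤ b → HasDerivAt f (f' s) s)
    (hd2 : ∀ s, a ≤ s → s ≤ b → HasDerivAt f' (f'' s) s)
    (ha : f a ≤ 0) (hb : f b ≤ 0) (hp : 0 < f r) :
    ∃ s, a < s ∧ s < b ∧ f r ≤ f s ∧ f' s = 0 ∧ f'' s ≤ 0 := by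
  obtain ⟨s, hs, hm⟩ := isCompact_Icc.exists_isMaxOn ⟨r, hr⟩
    (fun s hs => (hd s hs.1 hs.2).continuousAt.continuousWithinAt)
  have h1 : f r ≤ f s := hm hr
  have has : a < s := lt_of_le_of_ne hs.1 (by rintro rfl; linarith)
  have hsb : s < b := lt_of_le_of_ne hs.2 (by rintro rfl; linarith)
  have hn : Icc a b ∈ 𝓝 s := Icc_mem_nhds has hsb
  obtain ⟨h2, h3⟩ := max2 (hm.isLocalMax hn)
    (by filter_upwards [hn] with x hx using hd x hx.1 hx.2) (hd2 s hs.1 hs.2)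
  exact ⟨s, has, hsb, h1, h2, h3⟩

/-- optimising a family of bounds -/
lemma sq_le_of_lin {b D c : ℝ} (hc : 0 < c) (h : ∀ t : ℝ, t * b ≤ D + c * t ^ 2) :
    b ^ 2 ≤ 4 * c * D := by
  have := h (b / (2 * c))
  have e1 : b / (2 * c) * b = b ^ 2 / (2 * c) := by ring
  have e2 : c * (b / (2 * c)) ^ 2 = b ^ 2 / (4 * c) := by field_simp; ring
  rw [e1, e2] at this
  have e3 : b ^ 2 / (2 * c) - b ^ 2 / (4 * c) = b ^ 2 / (4 * c) := by field_simp; ring
  have h4 : b ^ 2 / (4 * c) ≤ D := by linarith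
  rw [div_le_iff₀ (by positivity)] at h4
  linarith

namespace Sol

variable {z μ Q : ℝ} {X : Q4}

lemma mpos (h : Sol z μ Q X) {r : ℝ} (hr : 0 < r) : 0 < X.m r := by
  have := h.pos r hr
  unfold Q4.m; positivity

lemma dm (h : Sol z μ Q X) {r : ℝ} (hr : 0 < r) : HasDerivAt X.m (2 * X.L r * X.m r) r := by
  have := ((hasDerivAt_id' r).fun_pow 2).fun_mul ((h.dt r hr).fun_pow 3)
  refine HasDerivAt.congr_deriv (f := fun s => s ^ 2 * X.t s ^ 3) this ?_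
  have := hr.ne'
  unfold Q4.m
  push_cast
  field_simp
  ring

lemma w_anti (h : Sol z μ Q X) {a b : ℝ} (ha : 0 < a) (hab : a ≤ b) : X.w b ≤ X.w a :=
  anti' hab (fun r h1 _ => h.dw r (ha.trans_le h1)) (fun r h1 _ => h.vneg r (ha.trans_le h1))

lemma v_mono (h : Sol z μ Q X) {a b : ℝ} (ha : 0 < a) (hab : a ≤ b) : X.v a ≤ X.v b := by
  have := anti' (f := fun r => -X.v r) hab (fun r h1 _ => (h.dv r (ha.trans_le h1)).fun_neg)
    (fun r h1 _ => by
      have := h.pos r (ha.trans_le h1)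
      have h2 := ha.trans_le h1
      have : 0 < r * X.t r ^ 3 := by positivity
      linarith)
  linarith

lemma w_le (h : Sol z μ Q X) {r : ℝ} (hr : 0 < r) : X.w r ≤ z := by
  refine ge_of_tendsto h.w0 ?_
  filter_upwards [Ioc_mem_nhdsGT hr] with s hs using h.w_anti hs.1 hs.2

lemma le_w (h : Sol z μ Q X) {r : ℝ} (hr : 0 < r) : -Q ≤ X.w r := by
  refine le_of_tendsto h.winf ?_
  filter_upwards [eventually_ge_atTop r] with s hs using h.w_anti hr hs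

/-- the charge outside radius `r` has derivative minus the density -/
lemma dn (h : Sol z μ Q X) {r : ℝ} (hr : 0 < r) :
    HasDerivAt (fun s => X.w s - s * X.v s + Q) (-X.m r) r := by
  have := ((h.dw r hr).fun_sub ((hasDerivAt_id' r).fun_mul (h.dv r hr))).add_const Q
  refine this.congr_deriv ?_
  unfold Q4.m
  ring

lemma n0 (h : Sol z μ Q X) : Tendsto (fun s => X.w s - s * X.v s + Q) atTop (𝓝 0) := by
  have := (h.winf.sub h.rv).add_const Q
  simpa using this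

/-- the density is small somewhere far out -/
lemma small (h : Sol z μ Q X) {ε : ℝ} (hε : 0 < ε) (R : ℝ) : ∃ r, R ≤ r ∧ 1 ≤ r ∧ X.m r ≤ ε := by
  obtain ⟨a, ha⟩ := eventually_atTop.1 ((Metric.tendsto_nhds.1 h.n0) (ε / 2) (by positivity))
  set b := max a (max R 1) with hb
  have hb1 : 1 ≤ b := (le_max_right _ _).trans (le_max_right _ _)
  have hbR : R ≤ b := (le_max_left _ _).trans (le_max_right _ _)
  obtain ⟨x, hx, hx'⟩ := exists_hasDerivAt_eq_slope (fun s => X.w s - s * X.v s + Q)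
    (fun r => -X.m r) (show b < b + 1 by linarith)
    (fun r hr => (h.dn (by linarith [hr.1])).continuousAt.continuousWithinAt)
    (fun r hr => h.dn (by linarith [hr.1]))
  have h1 := ha b (le_max_left _ _)
  have h2 := ha (b + 1) (by linarith [le_max_left a (max R 1)])
  rw [Real.dist_eq, sub_zero, abs_lt] at h1 h2
  refine ⟨x, by linarith [hx.1], by linarith [hx.1], ?_⟩
  rw [show b + 1 - b = 1 by ring, div_one] at hx'
  linarith [h1.2, h2.1]

lemma app (h : Sol z 0 Q X) : App (fun _ => 0) X where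
  pos := h.pos
  ct r hr := (h.dt r hr).continuousAt.continuousWithinAt
  cL r hr := (h.dL r hr).continuousAt.continuousWithinAt
  cw r hr := (h.dw r hr).continuousAt.continuousWithinAt
  cv r hr := (h.dv r hr).continuousAt.continuousWithinAt
  dt r hr := (h.dt r hr).hasDerivWithinAt
  dL r hr := by simpa using (h.dL r hr).hasDerivWithinAt
  dw r hr := (h.dw r hr).hasDerivWithinAt
  dv r hr := (h.dv r hr).hasDerivWithinAt

end Sol

lemma src_zero (t : ℝ → ℝ) : Src 0 (fun _ => 0) t :=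
  ⟨fun _ => 0, fun _ => 0, continuousOn_const, fun r _ =>
    ⟨hasDerivWithinAt_const _ _ _, le_rfl, le_rfl, Or.inr ⟨le_rfl, by simp⟩⟩⟩

lemma mu_mul {X Y : Q4} {r : ℝ} (hX : 0 < X.t r) (hY : 0 < Y.t r) :
    mu X Y r * (X.t r ^ 2 - Y.t r ^ 2) = X.m r - Y.m r := by
  unfold mu Q4.m
  field_simp
  ring

lemma mu_le {X Y : Q4} {r : ℝ} (hX : 0 < X.t r) (hY : 0 < Y.t r) :
    mu X Y r ≤ r ^ 2 * (X.t r + Y.t r) := by
  unfold mu
  rw [div_le_iff₀ (by positivity)]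
  have : 0 ≤ r ^ 2 * (X.t r * Y.t r) := by positivity
  nlinarith

lemma le_mu {X Y : Q4} {r : ℝ} (hX : 0 < X.t r) (hY : 0 < Y.t r) :
    3 / 4 * (r ^ 2 * (X.t r + Y.t r)) ≤ mu X Y r := by
  unfold mu
  rw [le_div_iff₀ (by positivity)]
  have : 0 ≤ r ^ 2 * (X.t r - Y.t r) ^ 2 := by positivity
  nlinarith

lemma cc_pos {A γ : ℝ} (hA : 0 < A) (hγ : 0 < γ) : 0 < cc A γ := by
  unfold cc; positivity

lemma Win.mono {K K' ρ ρ' : ℝ} {X : Q4} (h : Win K ρ X) (hK0 : 0 ≤ K) (hK : K ≤ K')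
    (hρ : ρ ≤ ρ') : Win K' ρ' X := by
  intro r hr h1 h2
  obtain ⟨a, b, c, d, e⟩ := h r hr (hρ.trans h1) h2
  refine ⟨le_trans ?_ a, b.trans (by gcongr), c.trans (by gcongr), d.trans (by gcongr),
    e.trans (by gcongr)⟩
  have hK' : 0 ≤ K' := hK0.trans hK
  gcongr

lemma App.dm {e : ℝ → ℝ} {X : Q4} (h : App e X) {r : ℝ} (hr : 0 < r) :
    HasDerivWithinAt X.m (2 * X.L r * X.m r) (Ici r) r := by
  have := (((hasDerivAt_id' r).fun_pow 2).hasDerivWithinAt (s := Ici r)).fun_mul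
    ((h.dt r hr).fun_pow 3)
  refine HasDerivWithinAt.congr_deriv (f := fun s => s ^ 2 * X.t s ^ 3) this ?_
  have := hr.ne'
  unfold Q4.m
  push_cast
  field_simp
  ring

lemma App.cm {e : ℝ → ℝ} {X : Q4} (h : App e X) : ContinuousOn X.m (Ioi 0) :=
  (continuousOn_id.pow 2).mul (h.ct.pow 3)

/-- integration of radial functions -/
lemma rad_int (f : ℝ → ℝ) :
    ∫ x : R3, f ‖x‖ = 4 * Real.pi * ∫ r in Ioi (0 : ℝ), r ^ 2 * f r := by
  rw [integral_fun_norm_addHaar volume f, MP_3d36e1_mp.finrank_R3, Measure.real,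
    EuclideanSpace.volume_ball_fin_three]
  simp only [smul_eq_mul, nsmul_eq_mul, ENNReal.ofReal_one, one_pow, one_mul]
  rw [ENNReal.toReal_ofReal (by positivity)]
  push_cast
  ring

lemma rad_integrable (f : ℝ → ℝ) :
    Integrable (fun x : R3 => f ‖x‖) ↔ IntegrableOn (fun r => r ^ 2 * f r) (Ioi (0 : ℝ)) := by
  rw [integrable_fun_norm_addHaar volume, MP_3d36e1_mp.finrank_R3]
  simp only [smul_eq_mul]

end Pool.Agent.P.MP_97b9bc_mp.T
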