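import Pool.Agent.P.MP_97b9bc_mp.T.IfaceA
import Pool.Agent.P.MP_97b9bc_mp.T.IfaceB
import Pool.Agent.P.MP_97b9bc_mp.T.IfaceN

/-! The final assembly, from the chapter statements. -/

set_option autoImplicit false

namespace Pool.Agent.P.MP_97b9bc_mp.T

open MeasureTheory Set

theorem fin (hG : S_GLOB) (hPQ : S_PQ) (hV : S_VAL) (hR : S_RATE) (hL : S_LIM)
    (hN : NumC (1 / 10 ^ 11)) :
    ∃ q : ℝ, 11.528 < q ∧ q < 11.53 ∧ ∀ A γ : ℝ, 0 < A → 0 < γ →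
      (∀ z : ℝ, 0 < z → ∃ ρ, IsGround A γ z ρ) ∧
      ∃ C : ℝ, ∀ z : ℝ, 0 < z → ∀ ρ, IsGround A γ z ρ →
        |(∫ x, ρ x) - z - q * (A / γ) ^ (3 / 2 : ℝ)| ≤ C * z ^ (-((√73 - 7) / 6)) := by
  obtain ⟨e, Y, h1, h2, h3, h4, h5, h6⟩ := hN
  have h31 := h6 31 le_rfl
  have h64 := h6 64 (by norm_num)
  obtain ⟨z0, hz0⟩ := hV (1 / 10 ^ 11) 1000 lo hi (44 / 1000000) e Y h1 (by norm_num) h2 h3 h4 h5
    h64.2.1 h64.2.2 (by have := h31.2.1; unfold lo at this; linarith)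
    (fun r hr _ => (h6 r hr).1) (by norm_num) (by norm_num) (by norm_num)
  obtain ⟨z1, C, hC⟩ := hR z0 (fun z Q X hz hX => (hz0 z Q X hz hX).2.2)
  have hκ : 0 < (√73 - 7) / 6 := by
    have : (7 : ℝ) < √73 := Real.lt_sqrt_of_sq_lt (by norm_num)
    linarith
  obtain ⟨q, hq1, hq2, C', hC'⟩ := hL (fun z Q => ∃ X, Sol z 0 Q X) ((√73 - 7) / 6) z0 z1 C
    (lo - 44 / 1000000) (hi + 44 / 1000000 + 1 / 100000) hκ
    (fun z hz => by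
      have hc := cc_pos one_pos one_pos
      obtain ⟨⟨ρ, hρ⟩, h⟩ := hG 1 1 (z * cc 1 1) one_pos one_pos (by positivity)
      obtain ⟨X, hX⟩ := h ρ hρ
      rw [mul_div_cancel_right₀ _ hc.ne'] at hX
      exact ⟨_, X, hX⟩)
    (fun z Q _ ⟨X, hX⟩ => hPQ z 0 Q X hX)
    (fun z Q z' Q' _ a b ⟨X, hX⟩ ⟨X', hX'⟩ => hC z Q z' Q' X X' a b hX hX')
    (fun z Q _ a ⟨X, hX⟩ => ⟨(hz0 z Q X a hX).1, (hz0 z Q X a hX).2.1⟩)
  unfold lo at hq1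
  unfold hi at hq2
  have p1 := Real.pi_gt_d6
  have p2 := Real.pi_lt_d6
  refine ⟨4 * Real.pi * q, by nlinarith, by nlinarith, fun A γ hA hγ =>
    ⟨fun z hz => (hG A γ z hA hγ hz).1, ?_⟩⟩
  have hc := cc_pos hA hγ
  refine ⟨cc A γ * C' * cc A γ ^ ((√73 - 7) / 6), fun z hz ρ hρ => ?_⟩
  obtain ⟨X, hX⟩ := (hG A γ z hA hγ hz).2 ρ hρ
  have h := hC' _ _ (div_pos hz hc) ⟨X, hX⟩
  have e1 : (∫ x, ρ x) - z - 4 * Real.pi * q * (A / γ) ^ (3 / 2 : ℝ) =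
      cc A γ * (((∫ x, ρ x) - z) / cc A γ - q) := by
    rw [mul_sub, mul_div_cancel₀ _ hc.ne']
    unfold cc
    ring
  rw [e1, abs_mul, abs_of_pos hc]
  rw [Real.div_rpow hz.le hc.le, Real.rpow_neg hc.le, div_inv_eq_mul] at h
  calc _ ≤ cc A γ * (C' * (z ^ (-((√73 - 7) / 6)) * cc A γ ^ ((√73 - 7) / 6))) := by gcongr
    _ = _ := by ring

end Pool.Agent.P.MP_97b9bc_mp.T
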