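import Pool.Agent.P.MP_97b9bc_mp.T.Basic

/-! Statements of the variational chapter: from minimisers to the radial system. -/

set_option autoImplicit false

namespace Pool.Agent.P.MP_97b9bc_mp.T

open MeasureTheory Set Filter Topology
open scoped ContDiff

-- deps:
def S_COU : Prop :=
  ∀ ρ : R3 → ℝ, Integrable ρ → MemLp ρ (ENNReal.ofReal (5 / 3)) →
    (∀ x, Integrable (fun y => ρ y / ‖x - y‖)) ∧ (∃ C, ∀ x, |pot ρ x| ≤ C) ∧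
      AEStronglyMeasurable (pot ρ) volume ∧
      ∀ σ : R3 → ℝ, Integrable σ →
        Integrable (fun q : R3 × R3 => σ q.1 * ρ q.2 / ‖q.1 - q.2‖) ∧
          ∫ q : R3 × R3, σ q.1 * ρ q.2 / ‖q.1 - q.2‖ = ∫ x, σ x * pot ρ x

-- deps: COU
-- imports: Pool.Agent.P.MP_593b7e_an.Sobolev
def S_SOB : Prop :=
  ∀ (ρ : R3 → ℝ) (g : R3 → R3), H1Root ρ g → Adm (∫ x, ρ x) ρ g

-- deps:
def S_ABS : Prop :=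
  ∀ (ρ : R3 → ℝ) (g : R3 → R3) (η : R3 → ℝ) (t : ℝ), H1Root ρ g → Test η →
    ∃ g', H1Root (fun x => (√(ρ x) + t * η x) ^ 2) g' ∧
      ∫ x, ‖g' x‖ ^ 2 ≤ (∫ x, ‖g x‖ ^ 2) + 2 * t * (∫ x, inner ℝ (g x) (gradient η x)) +
        t ^ 2 * ∫ x, ‖gradient η x‖ ^ 2

-- deps:
def S_TAY : Prop :=
  ∀ a b : ℝ, 0 ≤ a → |b| ≤ 1 →
    ((√a + b) ^ 2) ^ (5 / 3 : ℝ) ≤
      a ^ (5 / 3 : ℝ) + 10 / 3 * (a ^ (2 / 3 : ℝ) * (√a * b)) + 12 * (b ^ 2 * (1 + a))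

-- deps: COU
def S_BIL : Prop :=
  ∀ ρ σ τ : R3 → ℝ, Integrable ρ → MemLp ρ (ENNReal.ofReal (5 / 3)) →
    Integrable σ → MemLp σ (ENNReal.ofReal (5 / 3)) →
    Integrable τ → MemLp τ (ENNReal.ofReal (5 / 3)) →
    ∃ c0 c1 c2 : ℝ, ∀ t : ℝ,
      ∫ q : R3 × R3, (ρ q.1 + t * σ q.1 + t ^ 2 * τ q.1) * (ρ q.2 + t * σ q.2 + t ^ 2 * τ q.2) /
          ‖q.1 - q.2‖ =
        (∫ q : R3 × R3, ρ q.1 * ρ q.2 / ‖q.1 - q.2‖) + 2 * t * (∫ x, σ x * pot ρ x) +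
          t ^ 2 * (c0 + c1 * t + c2 * t ^ 2)

-- deps: COU
-- imports: Pool.Agent.P.MP_3d36e1_mp.Main
def S_INT : Prop :=
  ∀ (lam : ℝ) (ρ : R3 → ℝ) (g : R3 → R3) (η : R3 → ℝ), Adm lam ρ g → Test η →
    Integrable (fun x => inner ℝ (g x) (gradient η x)) ∧
      Integrable (fun x => √(ρ x) * η x) ∧
      MemLp (fun x => √(ρ x) * η x) (ENNReal.ofReal (5 / 3)) ∧
      Integrable (fun x => ρ x ^ (2 / 3 : ℝ) * (√(ρ x) * η x)) ∧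
      Integrable (fun x => 1 / ‖x‖ * (√(ρ x) * η x)) ∧
      Integrable (fun x => pot ρ x * (√(ρ x) * η x)) ∧
      Integrable (fun x => 1 / ‖x‖ * η x ^ 2)

-- deps: SOB ABS TAY BIL INT
-- imports: Pool.Agent.P.MP_3d36e1_mp.Main
def S_VAR : Prop :=
  ∀ (A γ z lam : ℝ) (ρ : R3 → ℝ) (g : R3 → R3) (η : R3 → ℝ), 0 < A → 0 < γ → 0 < z →
    Mini A γ z lam ρ g → Test η →
    (∀ᶠ t in 𝓝[>] (0 : ℝ), ∫ x, (√(ρ x) + t * η x) ^ 2 ≤ lam) → 0 ≤ Lam A γ z ρ g η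

-- deps: VAR INT
def S_EL : Prop :=
  ∀ (A γ z lam : ℝ) (ρ : R3 → ℝ) (g : R3 → R3), 0 < A → 0 < γ → 0 < z → 0 < lam →
    Mini A γ z lam ρ g →
    ∃ μ : ℝ, 0 ≤ μ ∧ (∫ x, ρ x < lam → μ = 0) ∧
      ∀ η : R3 → ℝ, Test η → Lam A γ z ρ g η + μ * ∫ x, √(ρ x) * η x = 0

-- deps:
def S_LAP : Prop :=
  ∀ (u : R3 → ℝ) (g : R3 → R3) (h : ℝ → ℝ), IsWeakGradient u g → MemLp u 2 → MemLp g 2 → Test h →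
    Test (fun x : R3 => h (‖x‖ ^ 2)) ∧
      ∫ x, inner ℝ (g x) (gradient (fun x : R3 => h (‖x‖ ^ 2)) x) =
        -∫ x, u x * (4 * ‖x‖ ^ 2 * deriv (deriv h) (‖x‖ ^ 2) + 6 * deriv h (‖x‖ ^ 2))

-- deps:
def S_NEW : Prop :=
  ∀ f : ℝ → ℝ, Measurable f → (∀ r, 0 ≤ f r) → IntegrableOn (fun r => r ^ 2 * f r) (Ioi 0) →
    ∀ x : R3, x ≠ 0 →
      pot (fun y => f ‖y‖) x = 4 * Real.pi * ∫ s in Ioi (0 : ℝ), s ^ 2 * f s / max ‖x‖ s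

-- deps:
def S_MEAS : Prop :=
  ∀ (ρ : R3 → ℝ) (f : ℝ → ℝ), AEStronglyMeasurable ρ volume → (∀ x, 0 ≤ ρ x) →
    (∀ᵐ x, ρ x = f ‖x‖) → ∃ f1 : ℝ → ℝ, Measurable f1 ∧ (∀ r, 0 ≤ f1 r) ∧ ∀ᵐ x, ρ x = f1 ‖x‖

-- deps: INT LAP NEW MEAS
-- imports: Pool.Agent.P.MP_3d36e1_mp.Main
def S_WEAK : Prop :=
  ∀ (A γ z lam μ : ℝ) (ρ : R3 → ℝ) (g : R3 → R3) (f : ℝ → ℝ), 0 < A → Adm lam ρ g →
    (∀ᵐ x, ρ x = f ‖x‖) →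
    (∀ η : R3 → ℝ, Test η → Lam A γ z ρ g η + μ * ∫ x, √(ρ x) * η x = 0) →
    ∃ u, Weak A γ z μ u ∧ ∫ x, ρ x = ∫ r in Ioi (0 : ℝ), 4 * Real.pi * u r ^ 2

-- deps:
def S_TST : Prop :=
  ∀ χ : ℝ → ℝ, Test χ → tsupport χ ⊆ Ioi 0 → ∃ h : ℝ → ℝ, Test h ∧ ∀ r, 0 < r →
    r * h (r ^ 2) = χ r ∧
      4 * r ^ 3 * deriv (deriv h) (r ^ 2) + 6 * r * deriv h (r ^ 2) = deriv (deriv χ) r

-- deps: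
def S_PRIM : Prop :=
  (∃ χ : ℝ → ℝ, Test χ ∧ tsupport χ ⊆ Ioi 0 ∧ ∫ r in Ioi (0 : ℝ), χ r = 1) ∧
    ∀ χ : ℝ → ℝ, Test χ → tsupport χ ⊆ Ioi 0 → ∫ r in Ioi (0 : ℝ), χ r = 0 →
      ∃ ξ : ℝ → ℝ, Test ξ ∧ tsupport ξ ⊆ Ioi 0 ∧ deriv ξ = χ

-- deps: PRIM
def S_DBRO : Prop :=
  ∀ f : ℝ → ℝ, LocallyIntegrableOn f (Ioi 0) →
    (∀ χ : ℝ → ℝ, Test χ → tsupport χ ⊆ Ioi 0 →
      ∫ r in Ioi (0 : ℝ), f r * deriv (deriv χ) r = 0) →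
    ∃ a b : ℝ, ∀ᵐ r ∂(volume.restrict (Ioi (0 : ℝ))), f r = a + b * r

-- deps:
def S_PART : Prop :=
  ∀ F : ℝ → ℝ, LocallyIntegrableOn F (Ioi 0) →
    ContinuousOn (fun r => ∫ s in (1 : ℝ)..r, F s) (Ioi 0) ∧
      ∀ χ : ℝ → ℝ, Test χ → tsupport χ ⊆ Ioi 0 →
        ∫ r in Ioi (0 : ℝ), (∫ s in (1 : ℝ)..r, F s) * deriv χ r = -∫ r in Ioi (0 : ℝ), F r * χ r

-- deps: DBRO PART
def S_DBR : Prop :=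
  ∀ u F : ℝ → ℝ, LocallyIntegrableOn u (Ioi 0) → LocallyIntegrableOn F (Ioi 0) →
    (∀ χ : ℝ → ℝ, Test χ → tsupport χ ⊆ Ioi 0 →
      ∫ r in Ioi (0 : ℝ), u r * deriv (deriv χ) r = ∫ r in Ioi (0 : ℝ), F r * χ r) →
    ∃ (U : ℝ → ℝ) (c : ℝ), (∀ᵐ r ∂(volume.restrict (Ioi (0 : ℝ))), u r = U r) ∧
      ∀ r, 0 < r → HasDerivAt U (c + ∫ s in (1 : ℝ)..r, F s) r

-- deps:
def S_WPA : Prop :=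
  ∀ (z : ℝ) (m : ℝ → ℝ), IntegrableOn m (Ioi 0) → (∀ r, 0 < r → 0 ≤ m r) →
    ContinuousOn (wOf z m) (Ioi 0) ∧ Tendsto (wOf z m) (𝓝[>] 0) (𝓝 z) ∧
      Tendsto (wOf z m) atTop (𝓝 (z - ∫ s in Ioi (0 : ℝ), m s)) ∧
      ∀ r, 0 < r → z - ∫ s in Ioi (0 : ℝ), m s ≤ wOf z m r ∧ wOf z m r ≤ z

-- deps:
def S_WPB : Prop :=
  ∀ (z : ℝ) (m : ℝ → ℝ), IntegrableOn m (Ioi 0) → (∀ r, 0 < r → 0 ≤ m r) →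
    ContinuousOn m (Ioi 0) → ∃ v : ℝ → ℝ,
      (∀ r, 0 < r → HasDerivAt (wOf z m) (v r) r ∧ HasDerivAt v (m r / r) r ∧ v r ≤ 0) ∧
        Tendsto (fun r => r * v r) atTop (𝓝 0)

-- deps: TST DBR WPA
def S_CLS : Prop :=
  ∀ (A γ z μ : ℝ) (u : ℝ → ℝ), Weak A γ z μ u →
    ∃ U U1 : ℝ → ℝ, Clas A γ z μ U U1 ∧ ∀ᵐ r ∂(volume.restrict (Ioi (0 : ℝ))), u r = U r

-- deps: WPA
def S_BCO : Prop :=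
  ∀ (A γ z μ : ℝ) (U U1 : ℝ → ℝ), Clas A γ z μ U U1 →
    Tendsto (fun r => U r - r * U1 r) (𝓝[>] 0) (𝓝 0)

-- deps: WPA BCO
def S_TO : Prop :=
  ∀ (A γ z μ : ℝ) (U U1 : ℝ → ℝ), 0 < A → 0 < γ → 0 < z → 0 ≤ μ → Clas A γ z μ U U1 →
    Tendsto (fun r => r * (U r / r) ^ (4 / 3 : ℝ)) (𝓝[>] 0) (𝓝 0)

-- deps:
def S_POS : Prop :=
  ∀ c U U1 : ℝ → ℝ, ContinuousOn c (Ioi 0) → (∀ r, 0 < r → 0 ≤ U r) →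
    (∀ r, 0 < r → HasDerivAt U (U1 r) r) → (∀ r, 0 < r → HasDerivAt U1 (c r * U r) r) →
    (∀ r, 0 < r → 0 < U r) ∨ ∀ r, 0 < r → U r = 0

-- deps:
-- imports: Pool.Agent.P.MP_3d36e1_mp.Main
def S_NZ : Prop :=
  ∀ (A γ z lam : ℝ) (ρ : R3 → ℝ) (g : R3 → R3), 0 < A → 0 < γ → 0 < z → 0 < lam →
    Mini A γ z lam ρ g → 0 < ∫ x, ρ x

-- deps: WPA WPB
def S_SCALE : Prop :=
  ∀ (A γ z μ : ℝ) (U U1 : ℝ → ℝ), 0 < A → 0 < γ → 0 < z → 0 ≤ μ → Clas A γ z μ U U1 →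
    (∀ r, 0 < r → 0 < U r) →
    Tendsto (fun r => r * (U r / r) ^ (4 / 3 : ℝ)) (𝓝[>] 0) (𝓝 0) →
    ∃ (μ' : ℝ) (X : Q4), (μ = 0 → μ' = 0) ∧
      Sol (z / cc A γ) μ' (((∫ r in Ioi (0 : ℝ), 4 * Real.pi * U r ^ 2) - z) / cc A γ) X

-- deps: EL WEAK CLS TO POS NZ SCALE WPA
def S_MINSOL : Prop :=
  ∀ (A γ z lam : ℝ) (ρ : R3 → ℝ) (g : R3 → R3), 0 < A → 0 < γ → 0 < z → 0 < lam →
    Mini A γ z lam ρ g →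
    ∃ (μ : ℝ) (X : Q4), (∫ x, ρ x < lam → μ = 0) ∧
      Sol (z / cc A γ) μ (((∫ x, ρ x) - z) / cc A γ) X

-- deps:
def S_PQ : Prop :=
  ∀ (z μ Q : ℝ) (X : Q4), Sol z μ Q X → |Q| ≤ z

-- deps: SOB MINSOL PQ
def S_GLOB : Prop :=
  ∀ A γ z : ℝ, 0 < A → 0 < γ → 0 < z →
    (∃ ρ, IsGround A γ z ρ) ∧
      ∀ ρ, IsGround A γ z ρ → ∃ X : Q4, Sol (z / cc A γ) 0 (((∫ x, ρ x) - z) / cc A γ) X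

end Pool.Agent.P.MP_97b9bc_mp.T
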