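import Pool.Agent.P.MP_97b9bc_mp.T.NPoly

/-! The checker for the approximate solution. -/

set_option autoImplicit false

namespace Pool.Agent.P.MP_97b9bc_mp.T

/-- a piece: right end point, bound of the residual, coefficients at the midpoint -/
structure Pc where
  b : ℚ
  E : ℚ
  T : List ℚ

def resid (c : ℚ) (T W : List ℚ) : List ℚ :=
  padd (padd (pmul [c, 1] (padd (psm (3 / 2) (pmul T (pder (pder T))))
      (psm (3 / 4) (pmul (pder T) (pder T))))) (psm 3 (pmul T (pder T))))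
    (pmul (padd W (psm (-1) (pmul [c, 1] (pmul T T)))) (pmul T T))

def pV (c g v0 : ℚ) (T : List ℚ) : List ℚ := pint (-g) v0 (pmul [c, 1] (pmul (pmul T T) T))

def dev (p : List ℚ) (g : ℚ) : ℚ := g * absb p.tail g

def okTail (a t0 t1 w0 v0 s : ℚ) : Bool :=
  decide (a = 80) && decide (0 < t0) && decide (t0 ≤ 1 / 400) && decide (t1 = -(6 * t0 / 80)) &&
    decide (917433 / 1000000 ≤ -w0) && decide (-w0 + t0 ^ 3 * 80 ^ 3 / 240 ≤ 917438 / 1000000) &&
    decide (v0 = -(t0 ^ 3 * 80 ^ 2 / 16)) && decide (80 ^ 2 * t0 ^ 3 / 16 ≤ s)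

def okPc (a b c g E t0 t1 : ℚ) (T W : List ℚ) : Bool :=
  decide (0 < a) && decide (a < b) && decide (0 < T.headD 0 - dev T g) && decide (0 ≤ E) &&
    decide (E ≤ 1 / 2) && decide (evQ T (-g) = t0) && decide (evQ (pder T) (-g) = t1) &&
    decide (absb (resid c T W) g ≤ E * (a * (T.headD 0 - dev T g) ^ 2)) &&
    (decide (b ≤ 31) || (decide (T.headD 0 + dev T g ≤ 1 / 400) &&
      decide (917433 / 1000000 ≤ -W.headD 0 - dev W g) &&
      decide (-W.headD 0 + dev W g ≤ 917438 / 1000000)))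

def cost (b g E : ℚ) (T : List ℚ) : ℚ := b ^ 2 * (2 * (T.headD 0 + dev T g) + 1) * E ^ 2 / 2

def chk : List Pc → ℚ → ℚ → ℚ → ℚ → ℚ → ℚ → Bool
  | [], a, t0, t1, w0, v0, s => okTail a t0 t1 w0 v0 s
  | P :: ps, a, t0, t1, w0, v0, s =>
    okPc a P.b ((a + P.b) / 2) ((P.b - a) / 2) P.E t0 t1 P.T
        (pint (-((P.b - a) / 2)) w0 (pV ((a + P.b) / 2) ((P.b - a) / 2) v0 P.T)) &&
      chk ps P.b (evQ P.T ((P.b - a) / 2)) (evQ (pder P.T) ((P.b - a) / 2))
        (evQ (pint (-((P.b - a) / 2)) w0 (pV ((a + P.b) / 2) ((P.b - a) / 2) v0 P.T))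
          ((P.b - a) / 2))
        (evQ (pV ((a + P.b) / 2) ((P.b - a) / 2) v0 P.T) ((P.b - a) / 2))
        (s - cost P.b ((P.b - a) / 2) P.E P.T * (P.b - a))

/-- coefficients of `r ^ 3 * w` on the inner piece -/
def inW (β : ℚ) : ℚ → List ℚ → List ℚ
  | _, [] => []
  | n, a :: p => (if n = 4 then β else a / ((n - 3) * (n - 4))) :: inW β (n + 1) p

def inV (W : List ℚ) : List ℚ := padd (0 :: pder W) (psm (-3) W)

def inN (P W : List ℚ) : List ℚ :=
  padd (padd (padd (padd (psm (3 / 2) (0 :: 0 :: 0 :: 0 :: pmul P (pder (pder P))))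
      (psm (3 / 4) (0 :: 0 :: 0 :: 0 :: pmul (pder P) (pder P))))
      (psm (-6) (0 :: 0 :: 0 :: pmul P (pder P)))) (psm 6 (0 :: 0 :: pmul P P)))
    (pmul (padd W (psm (-1) (pmul P P))) (pmul P P))

def chkIn (P W : List ℚ) (E : ℚ) (ps : List Pc) (S : ℚ) : Bool :=
  decide (0 ≤ E) && decide (E ≤ 1 / 2) &&
    allz (padd (padd (0 :: pder (inV W)) (psm (-4) (inV W))) (psm (-1) (pmul P (pmul P P)))) &&
    decide (P.headD 0 = 12) && decide (absb P.tail (1 / 2) ≤ 1) &&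
    decide (absb (pder P) (1 / 2) ≤ 1) && decide (absb W (1 / 2) ≤ 1000) &&
    decide (absb (inV W) (1 / 2) ≤ 1000) && allz ((inN P W).take 4) &&
    decide (absb ((inN P W).drop 4) (1 / 2) ≤ E * 132) &&
    chk ps (1 / 2) (4 * evQ P (1 / 2)) (4 * evQ (pder P) (1 / 2) - 16 * evQ P (1 / 2))
      (8 * evQ W (1 / 2)) (16 * evQ (inV W) (1 / 2)) (S - 13 / 2 * E ^ 2)

def chkAll (P : List ℚ) (β E : ℚ) (ps : List Pc) (S : ℚ) : Bool :=
  chkIn P (inW β 0 (pmul P (pmul P P))) E ps S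

end Pool.Agent.P.MP_97b9bc_mp.T
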