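import Pool.Agent.P.MP_97b9bc_mp.T.IfaceB

/-! Step LOW. -/

set_option autoImplicit false

namespace Pool.Agent.P.MP_97b9bc_mp.T

open MeasureTheory Set Filter Topology

theorem low_anti {z μ Q : ℝ} {X : Q4} (h : Sol z μ Q X) : AntitoneOn X.w (Ioi 0) :=
  antitoneOn_of_deriv_nonpos (convex_Ioi 0)
    (fun r hr => (h.dw r hr).continuousAt.continuousWithinAt)
    (fun r hr => (h.dw r (interior_subset hr)).differentiableAt.differentiableWithinAt)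
    fun r hr => by
      rw [(h.dw r (interior_subset hr)).deriv]
      exact h.vneg r (interior_subset hr)

theorem low_bern {η : ℝ} (h0 : 0 < η) : 1 - 7 * η ≤ 1 / (1 + η) ^ 7 := by
  have h1 : (-2 : ℝ) ≤ -(η / (1 + η)) := by
    have : η / (1 + η) ≤ 1 := (div_le_one (by positivity)).2 (by linarith)
    linarith
  have h2 := one_add_mul_le_pow h1 7
  have h3 : 1 + -(η / (1 + η)) = 1 / (1 + η) := by field_simp; ring
  have h4 : η / (1 + η) ≤ η := div_le_self h0.le (by linarith)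
  rw [h3, div_pow, one_pow] at h2
  push_cast at h2
  linarith

theorem low_ineq {θ η : ℝ} (h0 : 0 < θ) (h1 : θ ≤ η) (h2 : 9 * η < 1) :
    (12 * (1 - 8 * η) / (θ ^ 2) ^ 2) ^ 2 ≤
      (144 / (θ * (1 + η)) ^ 6 - 294 / θ ^ 2) / (θ ^ 2 * (1 + η)) - 4 / (θ ^ 3) ^ 2 := by
  have hη : 0 < η := h0.trans_le h1
  have e1 : (12 * (1 - 8 * η) / (θ ^ 2) ^ 2) ^ 2 = 144 * (1 - 8 * η) ^ 2 / θ ^ 8 := by
    field_simp; ring
  have e2 : (144 / (θ * (1 + η)) ^ 6 - 294 / θ ^ 2) / (θ ^ 2 * (1 + η)) - 4 / (θ ^ 3) ^ 2 =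
      (144 * (1 / (1 + η) ^ 7) - 294 * (θ ^ 4 / (1 + η)) - 4 * θ ^ 2) / θ ^ 8 := by
    field_simp
  rw [e1, e2]
  refine div_le_div_of_nonneg_right ?_ (by positivity)
  have h3 := low_bern hη
  have h4 : θ ^ 4 / (1 + η) ≤ η := by
    refine (div_le_self (by positivity) (by linarith)).trans ?_
    calc θ ^ 4 ≤ θ ^ 1 := pow_le_pow_of_le_one h0.le (by linarith) (by norm_num)
      _ ≤ η := by simpa using h1
  have h5 : θ ^ 4 / (1 + η) ≤ θ ^ 2 * θ ^ 2 := by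
    rw [← pow_add]
    exact div_le_self (by positivity) (by linarith)
  have h6 : θ ^ 2 ≤ η / 9 := by nlinarith
  have h7 : θ ^ 2 * θ ^ 2 ≤ η / 9 * (1 / 81) :=
    mul_le_mul h6 (by linarith) (by positivity) (by positivity)
  nlinarith

theorem p_LOW (hBUMP : S_BUMP) (hSUB : S_SUB) :
    S_LOW := by
  intro z Q σ X hX hσ hz r hr
  obtain ⟨θ, hθ, rfl⟩ : ∃ θ : ℝ, 0 < θ ∧ r = θ ^ 2 :=
    ⟨√r, Real.sqrt_pos.2 hr, (Real.sq_sqrt hr.le).symm⟩
  rw [Real.sqrt_sq hθ.le]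
  have ht := hX.pos _ hr
  obtain ⟨η, hη⟩ : ∃ η, η = θ + σ / θ := ⟨_, rfl⟩
  rw [← hη]
  have h1 : θ ≤ η := by rw [hη]; exact le_add_of_nonneg_right (by positivity)
  have hσ' : σ = θ * (η - θ) := by rw [hη]; field_simp; ring
  rcases le_or_gt 1 (9 * η) with h2 | h2
  · exact (mul_nonpos_of_nonneg_of_nonpos (by positivity) (by linarith)).trans ht.le
  have hη0 : 0 < η := hθ.trans_le h1
  have hh : θ ^ 3 < θ ^ 2 := pow_lt_pow_right_of_lt_one₀ hθ (by linarith) (by norm_num)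
  have a1 : θ ≤ √(θ ^ 2 + θ ^ 3) := Real.le_sqrt_of_sq_le (le_add_of_nonneg_right (by positivity))
  have a2 : √(θ ^ 2 + θ ^ 3) ≤ θ * (1 + θ) :=
    Real.sqrt_le_iff.2 ⟨by positivity, by nlinarith [pow_pos hθ 3, pow_pos hθ 4]⟩
  have a3 : √(θ ^ 2 + θ ^ 3) + σ ≤ θ * (1 + η) := by nlinarith
  have a4 : θ ≤ √(θ ^ 2 + θ ^ 3) + σ := by linarith
  have hw := hSUB z Q σ X hX hσ hz (θ ^ 2 + θ ^ 3) (by positivity) (a3.trans (by nlinarith))
  have hW : 144 / (θ * (1 + η)) ^ 6 - 294 / θ ^ 2 ≤ X.w (θ ^ 2 + θ ^ 3) := by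
    refine le_trans (sub_le_sub ?_ ?_) hw
    · gcongr
    · gcongr
  have hI := low_ineq hθ h1 h2
  have hF : 0 ≤ (144 / (θ * (1 + η)) ^ 6 - 294 / θ ^ 2) / (θ ^ 2 * (1 + η)) := by
    have : 0 ≤ 4 / (θ ^ 3) ^ 2 := by positivity
    linarith [sq_nonneg (12 * (1 - 8 * η) / (θ ^ 2) ^ 2)]
  have hW0 : 0 ≤ 144 / (θ * (1 + η)) ^ 6 - 294 / θ ^ 2 :=
    (div_nonneg_iff.1 hF).elim And.left fun h => absurd h.2 (not_le.2 (by positivity))
  have hT : 0 ≤ 12 * (1 - 8 * η) / (θ ^ 2) ^ 2 := div_nonneg (by linarith) (by positivity)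
  have hb := hBUMP z Q X hX (θ ^ 2) (θ ^ 3) _ _ (by positivity) hh hT (fun s s1 s2 => by
    have s0 : 0 < s := by linarith
    exact div_le_div₀ (hW0.trans (hW.trans (low_anti hX s0 (by simp only [mem_Ioi]; positivity) s2)))
      (hW.trans (low_anti hX s0 (by simp only [mem_Ioi]; positivity) s2)) s0
      (by nlinarith [pow_pos hθ 2])) hI
  generalize hTe : 12 * (1 - 8 * η) / (θ ^ 2) ^ 2 = T at hb hT
  have h3 : ((1 - η) * T) ^ 3 ≤ X.t (θ ^ 2) ^ 3 := by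
    have k1 : (1 - η) ^ 3 ≤ (1 - θ) ^ 2 :=
      (pow_le_pow_of_le_one (by linarith) (by linarith) (by norm_num)).trans
        (pow_le_pow_left₀ (by linarith) (by linarith) 2)
    have k2 : (θ ^ 2) ^ 2 * ((1 - θ) ^ 2 * T ^ 3) ≤ (θ ^ 2) ^ 2 * X.t (θ ^ 2) ^ 3 := by
      refine le_trans (le_of_eq ?_) hb
      ring
    rw [mul_pow]
    exact (mul_le_mul_of_nonneg_right k1 (by positivity)).trans
      (le_of_mul_le_mul_left k2 (by positivity))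
  refine le_trans ?_ (le_of_pow_le_pow_left₀ (by norm_num) ht.le h3)
  rw [← hTe, show (1 - η) * (12 * (1 - 8 * η) / (θ ^ 2) ^ 2) =
    12 / (θ ^ 2) ^ 2 * ((1 - η) * (1 - 8 * η)) by ring]
  exact mul_le_mul_of_nonneg_left (by nlinarith) (by positivity)

end Pool.Agent.P.MP_97b9bc_mp.T
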