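import Pool.Agent.P.MP_97b9bc_mp.T.IfaceA

/-! Step TO. -/

set_option autoImplicit false

namespace Pool.Agent.P.MP_97b9bc_mp.T

open MeasureTheory Set Filter Topology
open scoped ContDiff

lemma to_dn {A γ z μ : ℝ} {U U1 : ℝ → ℝ} (h : Clas A γ z μ U U1) {s : ℝ} (hs : 0 < s) :
    HasDerivAt (fun r => U r - r * U1 r) (-(s * (coef A γ z μ U s * U s))) s := by
  have := (h.d1 s hs).fun_sub ((hasDerivAt_id' s).fun_mul (h.d2 s hs))
  refine this.congr_deriv ?_
  ring

lemma to_dn_le (hWPA : S_WPA) {A γ z μ : ℝ} {U U1 : ℝ → ℝ} (hA : 0 < A) (hγ : 0 < γ)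
    (hμ : 0 ≤ μ) (h : Clas A γ z μ U U1) {s : ℝ} (hs : 0 < s) :
    -(s * (coef A γ z μ U s * U s)) ≤ z / A * U s := by
  have hw := ((hWPA z (fun s => 4 * Real.pi * U s ^ 2) (h.weak.L2.const_mul _)
    (fun r _ => by positivity)).2.2.2 s hs).2
  have hU := h.weak.nonneg s hs
  have h1 : 0 ≤ (U s / s) ^ (4 / 3 : ℝ) := by positivity
  have e : s * coef A γ z μ U s =
      (s * (γ * (U s / s) ^ (4 / 3 : ℝ)) - wOf z (fun s => 4 * Real.pi * U s ^ 2) s + s * μ) / A := by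
    unfold coef
    have := hs.ne'
    have := hA.ne'
    field_simp
  have h2 : -(z / A) ≤ s * coef A γ z μ U s := by
    rw [e, ← neg_div]
    have h3 : 0 ≤ s * (γ * (U s / s) ^ (4 / 3 : ℝ)) := by positivity
    have h4 : 0 ≤ s * μ := by positivity
    gcongr
    linarith
  have := mul_le_mul_of_nonneg_right h2 hU
  linarith [mul_assoc s (coef A γ z μ U s) (U s)]

lemma to_n_le (hWPA : S_WPA) (hBCO : S_BCO) {A γ z μ : ℝ} {U U1 : ℝ → ℝ} (hA : 0 < A)
    (hγ : 0 < γ) (hz : 0 < z) (hμ : 0 ≤ μ) (h : Clas A γ z μ U U1) {r : ℝ} (hr : 0 < r) :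
    U r - r * U1 r ≤ z / A * (1 + ∫ s in Ioi (0 : ℝ), U s ^ 2) / 2 * √r := by
  have hq : 0 < √r := Real.sqrt_pos.2 hr
  have hqq : √r * √r = r := Real.mul_self_sqrt hr.le
  have hzA : 0 < z / A := by positivity
  have key : ∀ ε, 0 < ε → ε ≤ r → U r - r * U1 r -
      z / A * (1 + ∫ s in Ioi (0 : ℝ), U s ^ 2) / 2 * √r ≤ U ε - ε * U1 ε := by
    intro ε hε hεr
    have hI : ∀ s, ε ≤ s → IntervalIntegrable (fun t => U t ^ 2) volume ε s := fun s hs =>
      (intervalIntegrable_iff_integrableOn_Ioc_of_le hs).2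
        (h.weak.L2.mono_set fun t ht => hε.trans ht.1)
    have hd : ∀ s, ε ≤ s → HasDerivAt (fun s => ∫ t in ε..s, U t ^ 2) (U s ^ 2) s := fun s hs =>
      intervalIntegral.integral_hasDerivAt_right (hI s hs)
        (h.weak.meas.pow_const 2).stronglyMeasurable.stronglyMeasurableAtFilter
        ((h.d1 s (hε.trans_le hs)).continuousAt.pow 2)
    have h1 := anti' (f := fun s => (U s - s * U1 s) -
        z / A * (s / (2 * √r) + √r / 2 * ∫ t in ε..s, U t ^ 2)) hεr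
      (fun s hs _ => (to_dn h (hε.trans_le hs)).fun_sub
        ((((hasDerivAt_id' s).div_const (2 * √r)).fun_add
          ((hd s hs).const_mul (√r / 2))).const_mul (z / A)))
      (fun s hs _ => by
        have h2 := to_dn_le hWPA hA hγ hμ h (hε.trans_le hs)
        have h3 : U s ≤ 1 / (2 * √r) + √r / 2 * U s ^ 2 := by
          have e : 1 / (2 * √r) + √r / 2 * U s ^ 2 - U s = (1 - √r * U s) ^ 2 / (2 * √r) := by
            field_simp
            ring
          have : 0 ≤ (1 - √r * U s) ^ 2 / (2 * √r) := by positivity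
          linarith
        have := mul_le_mul_of_nonneg_left h3 hzA.le
        linarith)
    simp only [intervalIntegral.integral_same, mul_zero, add_zero] at h1
    have h2 : ∫ t in ε..r, U t ^ 2 ≤ ∫ s in Ioi (0 : ℝ), U s ^ 2 := by
      rw [intervalIntegral.integral_of_le hεr]
      exact setIntegral_mono_set h.weak.L2 (Eventually.of_forall fun t => sq_nonneg _)
        (LE.le.eventuallyLE fun t ht => hε.trans ht.1)
    have h3 : r / (2 * √r) = √r / 2 := by
      field_simp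
      linarith
    rw [h3] at h1
    have h4 : 0 ≤ z / A * (ε / (2 * √r)) := by positivity
    have h5 : z / A * (√r / 2 + √r / 2 * ∫ t in ε..r, U t ^ 2) ≤
        z / A * (√r / 2 + √r / 2 * ∫ s in Ioi (0 : ℝ), U s ^ 2) := by gcongr
    have h6 : z / A * (√r / 2 + √r / 2 * ∫ s in Ioi (0 : ℝ), U s ^ 2) =
        z / A * (1 + ∫ s in Ioi (0 : ℝ), U s ^ 2) / 2 * √r := by ring
    linarith
  have := ge_of_tendsto (hBCO A γ z μ U U1 h) (by
    filter_upwards [Ioc_mem_nhdsGT hr] with s hs using key s hs.1 hs.2)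
  linarith

lemma to_bound {U U1 : ℝ → ℝ} {C : ℝ} (hC : 0 ≤ C) (h1 : 0 ≤ U 1)
    (hd : ∀ r, 0 < r → HasDerivAt U (U1 r) r) (hn : ∀ r, 0 < r → U r - r * U1 r ≤ C * √r)
    {r : ℝ} (hr : 0 < r) (hr1 : r ≤ 1) : U r / r ≤ (U 1 + 2 * C) / √r := by
  have h2 := anti' (f := fun s => 2 * C * (√s)⁻¹ - U s / s) hr1
    (fun s hs _ => by
      have hs0 := hr.trans_le hs
      exact (((Real.hasDerivAt_sqrt hs0.ne').fun_inv (Real.sqrt_pos.2 hs0).ne').const_mul
        (2 * C)).fun_sub ((hd s hs0).fun_div (hasDerivAt_id' s) hs0.ne'))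
    (fun s hs _ => by
      have hs0 := hr.trans_le hs
      have hq : 0 < √s := Real.sqrt_pos.2 hs0
      have h3 := hn s hs0
      have hqq : s = √s ^ 2 := (Real.sq_sqrt hs0.le).symm
      have e : 2 * C * (-(1 / (2 * √s)) / √s ^ 2) - (U1 s * s - U s * 1) / s ^ 2 =
          ((U s - s * U1 s) - C * √s) / s ^ 2 := by
        set q := √s with hqd
        have e2 : s ^ 2 = q ^ 4 := by rw [hqq]; ring
        rw [e2]
        field_simp
        ring
      rw [e]
      exact div_nonpos_of_nonpos_of_nonneg (by linarith) (by positivity))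
  simp only [Real.sqrt_one, inv_one, mul_one, div_one] at h2
  have hq : 0 < √r := Real.sqrt_pos.2 hr
  have hq1 : √r ≤ 1 := Real.sqrt_le_one.2 hr1
  have h3 : U 1 ≤ U 1 / √r := by
    rw [le_div_iff₀ hq]
    nlinarith
  have h4 : (U 1 + 2 * C) / √r = U 1 / √r + 2 * C * (√r)⁻¹ := by ring
  linarith

theorem p_TO (hWPA : S_WPA) (hBCO : S_BCO) :
    S_TO := by
  intro A γ z μ U U1 hA hγ hz hμ h
  set C := z / A * (1 + ∫ s in Ioi (0 : ℝ), U s ^ 2) / 2 with hCd
  have hI : 0 ≤ ∫ s in Ioi (0 : ℝ), U s ^ 2 := integral_nonneg fun _ => sq_nonneg _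
  have hC : 0 ≤ C := by positivity
  have h1 : 0 ≤ U 1 := h.weak.nonneg 1 one_pos
  have hK : 0 ≤ U 1 + 2 * C := by positivity
  have hlim : Tendsto (fun r : ℝ => (U 1 + 2 * C) ^ (4 / 3 : ℝ) * r ^ (1 / 3 : ℝ)) (𝓝[>] 0)
      (𝓝 0) := by
    have := ((Real.continuousAt_rpow_const 0 (1 / 3) (Or.inr (by norm_num))).tendsto.const_mul
      ((U 1 + 2 * C) ^ (4 / 3 : ℝ))).mono_left (nhdsWithin_le_nhds (s := Ioi 0))
    rwa [Real.zero_rpow (by norm_num), mul_zero] at this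
  refine squeeze_zero' ?_ ?_ hlim
  · filter_upwards [self_mem_nhdsWithin] with r hr
    have hr' : 0 < r := hr
    have := h.weak.nonneg r hr'
    positivity
  · filter_upwards [Ioc_mem_nhdsGT one_pos] with r hr
    have hr0 := hr.1
    have hU := h.weak.nonneg r hr0
    have h2 := to_bound hC h1 h.d1 (fun s hs => to_n_le hWPA hBCO hA hγ hz hμ h hs) hr0 hr.2
    have h3 : (U r / r) ^ (4 / 3 : ℝ) ≤ ((U 1 + 2 * C) / √r) ^ (4 / 3 : ℝ) :=
      Real.rpow_le_rpow (by positivity) h2 (by norm_num)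
    have h4 : r * ((U 1 + 2 * C) / √r) ^ (4 / 3 : ℝ) =
        (U 1 + 2 * C) ^ (4 / 3 : ℝ) * r ^ (1 / 3 : ℝ) := by
      rw [Real.div_rpow hK (Real.sqrt_nonneg _), Real.sqrt_eq_rpow, ← Real.rpow_mul hr0.le,
        show (1 / 3 : ℝ) = 1 - 1 / 2 * (4 / 3) by norm_num, Real.rpow_sub hr0, Real.rpow_one]
      ring
    rw [← h4]
    exact mul_le_mul_of_nonneg_left h3 hr0.le

end Pool.Agent.P.MP_97b9bc_mp.T
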